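import Mathlib

/-!
# Definitions: semihyperbolic groups, hyperbolic space, horoballs
-/

set_option autoImplicit false

namespace Pool.Agent.H81.HDG

/-! ## Word metric and semihyperbolicity -/

/-- The word length of `g` with respect to the generating set `A`. -/
noncomputable def wordLength {G : Type*} [Group G] (A : Set G) (g : G) : ℕ :=
  sInf {n | ∃ l : List G, l.length = n ∧ (∀ x ∈ l, x ∈ A) ∧ l.prod = g}

/-- The word distance with respect to the generating set `A`. -/
noncomputable def wordDist {G : Type*} [Group G] (A : Set G) (g h : G) : ℕ :=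
  wordLength A (g⁻¹ * h)

/-- `σ` assigns to every `g` a unit speed edge path from `1` to `g` in the Cayley graph, constant
from the first time on at which it is at `g`; `len g` is this time. -/
structure IsCombing {G : Type*} [Group G] (A : Set G) (σ : G → ℕ → G) (len : G → ℕ) : Prop where
  start : ∀ g, σ g 0 = 1
  unit_speed : ∀ g t, t < len g → (σ g t)⁻¹ * σ g (t + 1) ∈ A
  before : ∀ g t, t < len g → σ g t ≠ g
  after : ∀ g t, len g ≤ t → σ g t = g

/-- A group is semihyperbolic (Alonso-Bridson) if for some finite symmetric generating set it has a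
bounded quasi-geodesic bicombing. -/
def Semihyperbolic (G : Type*) [Group G] : Prop :=
  ∃ A : Set G, A.Finite ∧ (∀ a ∈ A, a⁻¹ ∈ A) ∧ (1 : G) ∉ A ∧ Subgroup.closure A = ⊤ ∧
    ∃ (σ : G → ℕ → G) (len : G → ℕ), IsCombing A σ len ∧
      (∃ lam eps : ℝ, 1 ≤ lam ∧ 0 ≤ eps ∧ ∀ g t t', t ≤ t' → t' ≤ len g →
        (1 / lam) * ((t' : ℝ) - t) - eps ≤ wordDist A (σ g t) (σ g t') ∧
        (wordDist A (σ g t) (σ g t') : ℝ) ≤ lam * ((t' : ℝ) - t) + eps) ∧
      ∃ k : ℕ, ∀ g, ∀ a ∈ A, ∀ t,
        wordDist A (σ g t) (σ (g * a) t) ≤ k ∧ wordDist A (a * σ g t) (σ (a * g) t) ≤ k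

/-! ## Hyperbolic space, horoballs -/

/-- Minkowski space of signature `(m, 1)`. -/
abbrev Mink (m : ℕ) := EuclideanSpace ℝ (Fin m) × ℝ

/-- The Lorentz form. -/
noncomputable def lor {m : ℕ} (a b : Mink m) : ℝ := inner ℝ a.1 b.1 - a.2 * b.2

/-- Points of hyperbolic `m`-space (hyperboloid model). -/
def IsHyp {m : ℕ} (p : Mink m) : Prop := lor p p = -1 ∧ 0 < p.2

/-- Future light-like vectors `u`; they correspond to the open horoballs
`{p ∈ H^m : -⟨p, u⟩ < 1}` of hyperbolic space. -/
def IsLight {m : ℕ} (u : Mink m) : Prop := lor u u = 0 ∧ 0 < u.2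

end Pool.Agent.H81.HDG
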