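import Mathlib
import Pool.Agent.H81.HDG.Defs

/-!
# Coarsely equivariant path systems give semihyperbolic groups (module COMB of MP_77db41_gt)
-/

set_option autoImplicit false

namespace Pool.Agent.H81.HDG

/-- A coarsely equivariant system of paths on a set with a group action. `Near K x y` means that
`x` and `y` are `K`-close, `σ x y t` is the point at time `t` of the path from `x` to `y`, which
arrives at time `T x y`. -/
structure PathSys (G X : Type*) [Group G] [MulAction G X] (Near : ℝ → X → X → Prop) (o : X)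
    (T : X → X → ℝ) (σ : X → X → ℝ → X) : Prop where
  mono : ∀ K K' x y, K ≤ K' → Near K x y → Near K' x y
  refl : ∀ x, Near 0 x x
  symm : ∀ K x y, Near K x y → Near K y x
  trans : ∀ K K' x y z, Near K x y → Near K' y z → Near (K + K') x z
  inv : ∀ K (g : G) x y, Near K x y → Near K (g • x) (g • y)
  proper : ∀ K, {g : G | Near K o (g • o)}.Finite
  cobdd : ∃ K, ∀ x, ∃ g : G, Near K x (g • o)
  start : ∃ K, ∀ x y, Near K x (σ x y 0)
  fin : ∃ K, ∀ x y t, 0 ≤ t → T x y ≤ t → Near K (σ x y t) y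
  step : ∃ K, ∀ x y t t', 0 ≤ t → t ≤ t' → t' ≤ t + 1 → Near K (σ x y t) (σ x y t')
  prog : ∃ K, ∀ x y t, 0 ≤ t → t ≤ T x y → |T x (σ x y t) - t| ≤ K
  T_lip : ∀ M, ∃ K, ∀ x y y', Near M y y' → |T x y - T x y'| ≤ K
  cmpR : ∀ M, ∃ K, ∀ x y y' t, 0 ≤ t → Near M y y' → Near K (σ x y t) (σ x y' t)
  cmpL : ∀ M, ∃ K, ∀ x x' y t, 0 ≤ t → Near M x x' → Near K (σ x y t) (σ x' y t)
  equi : ∃ K, ∀ (g : G) x y t, 0 ≤ t → Near K (g • σ x y t) (σ (g • x) (g • y) t)

/-! ## Words -/

section Words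

variable {G : Type*} [Group G] {A : Set G}

theorem wordLength_le (l : List G) (hl : ∀ x ∈ l, x ∈ A) : wordLength A l.prod ≤ l.length :=
  Nat.sInf_le ⟨l, rfl, hl, rfl⟩

theorem wordLength_spec (hsym : ∀ a ∈ A, a⁻¹ ∈ A) (hcl : Subgroup.closure A = ⊤) (g : G) :
    ∃ l : List G, l.length = wordLength A g ∧ (∀ x ∈ l, x ∈ A) ∧ l.prod = g := by
  have hne : {n | ∃ l : List G, l.length = n ∧ (∀ x ∈ l, x ∈ A) ∧ l.prod = g}.Nonempty := by
    have hg : g ∈ Subgroup.closure A := by rw [hcl]; trivial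
    have hg' : g ∈ Submonoid.closure (A ∪ A⁻¹) := by
      rw [← Subgroup.closure_toSubmonoid]; exact hg
    obtain ⟨l, hl, hlg⟩ := Submonoid.exists_list_of_mem_closure hg'
    refine ⟨l.length, l, rfl, fun x hx => ?_, hlg⟩
    rcases hl x hx with h | h
    · exact h
    · simpa using hsym _ (Set.mem_inv.1 h)
  exact Nat.sInf_mem hne

theorem wordLength_mul_le_add_one (hsym : ∀ a ∈ A, a⁻¹ ∈ A) (hcl : Subgroup.closure A = ⊤)
    (g a : G) (ha : a ∈ A) : wordLength A (g * a) ≤ wordLength A g + 1 := by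
  obtain ⟨l, hl, hlA, hlg⟩ := wordLength_spec hsym hcl g
  have h := wordLength_le (A := A) (l ++ [a]) (by
    intro x hx
    rcases List.mem_append.1 hx with h | h
    · exact hlA x h
    · rw [List.mem_singleton.1 h]; exact ha)
  simpa [hlg, hl] using h

theorem wordLength_one : wordLength A 1 = 0 := by
  have h := wordLength_le (A := A) [] (by simp)
  simpa using h

theorem wordDist_path_le (hsym : ∀ a ∈ A, a⁻¹ ∈ A) (hcl : Subgroup.closure A = ⊤)
    (p : ℕ → G) (n : ℕ) (hp : ∀ t, t < n → (p t)⁻¹ * p (t + 1) ∈ A) (t : ℕ) :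
    ∀ d, t + d ≤ n → wordDist A (p t) (p (t + d)) ≤ d := by
  intro d
  induction d with
  | zero => intro _; simp [wordDist, wordLength_one]
  | succ d ih =>
    intro hd
    have h1 := ih (by omega)
    have h2 := hp (t + d) (by omega)
    have h3 := wordLength_mul_le_add_one hsym hcl ((p t)⁻¹ * p (t + d)) _ h2
    have h4 : (p t)⁻¹ * p (t + d) * ((p (t + d))⁻¹ * p (t + d + 1)) =
        (p t)⁻¹ * p (t + (d + 1)) := by
      rw [← add_assoc]; group
    rw [h4] at h3
    unfold wordDist at h1 ⊢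
    omega

theorem lip_list (f : G → ℝ) (L : ℝ) (hf : ∀ g, ∀ a ∈ A, |f g - f (g * a)| ≤ L) (l : List G) :
    ∀ g, (∀ x ∈ l, x ∈ A) → |f g - f (g * l.prod)| ≤ L * l.length := by
  induction l with
  | nil => intro g _; simp
  | cons a l ih =>
    intro g hl
    have h1 := hf g a (hl a (by simp))
    have h2 := ih (g * a) (fun x hx => hl x (by simp [hx]))
    have h3 : |f g - f (g * (a :: l).prod)| ≤ |f g - f (g * a)| +
        |f (g * a) - f (g * a * l.prod)| := by
      rw [List.prod_cons, ← mul_assoc]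
      exact abs_sub_le _ _ _
    rw [List.length_cons]
    push_cast
    linarith

theorem lip_wordDist (hsym : ∀ a ∈ A, a⁻¹ ∈ A) (hcl : Subgroup.closure A = ⊤)
    (f : G → ℝ) (L : ℝ) (hf : ∀ g, ∀ a ∈ A, |f g - f (g * a)| ≤ L) (g g' : G) :
    |f g - f g'| ≤ L * wordDist A g g' := by
  obtain ⟨l, hl, hlA, hlg⟩ := wordLength_spec hsym hcl (g⁻¹ * g')
  have h := lip_list f L hf l g hlA
  rw [hlg, hl, mul_inv_cancel_left] at h
  exact h

/-- Finite groups are semihyperbolic. -/
theorem semihyperbolic_of_finite [Finite G] : Semihyperbolic G := by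
  classical
  let B : Set G := {a | a ≠ 1}
  have hsym : ∀ a ∈ B, a⁻¹ ∈ B := fun a ha => by
    change a⁻¹ ≠ 1
    rw [Ne, inv_eq_one]; exact ha
  have hcl : Subgroup.closure B = ⊤ := by
    rw [eq_top_iff]
    intro g _
    by_cases hg : g = 1
    · rw [hg]; exact one_mem _
    · exact Subgroup.subset_closure hg
  have hle : ∀ g : G, wordLength B g ≤ 1 := by
    intro g
    by_cases hg : g = 1
    · rw [hg, wordLength_one]; exact Nat.zero_le _
    · have h := wordLength_le (A := B) [g] (by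
        intro x hx
        rw [List.mem_singleton.1 hx]
        exact hg)
      simpa using h
  refine ⟨B, Set.toFinite _, hsym, fun h => h rfl, hcl,
    fun g t => if t = 0 then 1 else g, fun g => if g = 1 then 0 else 1, ?_, ?_, ?_⟩
  · refine ⟨fun g => by simp, ?_, ?_, ?_⟩
    · intro g t ht
      by_cases hg : g = 1
      · simp [hg] at ht
      · simp [hg] at ht
        subst ht
        simpa [B] using hg
    · intro g t ht
      by_cases hg : g = 1
      · simp [hg] at ht
      · simp [hg] at ht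
        subst ht
        simpa using fun h => hg h.symm
    · intro g t ht
      by_cases hg : g = 1
      · simp [hg]
      · simp [hg] at ht
        have : t ≠ 0 := by omega
        simp [this]
  · refine ⟨1, 1, le_refl _, zero_le_one, ?_⟩
    intro g t t' htt' ht'
    have h1 : (wordDist B ((fun g t => if t = 0 then (1 : G) else g) g t)
        ((fun g t => if t = 0 then (1 : G) else g) g t') : ℝ) ≤ 1 := by
      exact_mod_cast hle _
    have h2 : (t' : ℝ) ≤ 1 := by
      have : t' ≤ 1 := by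
        refine le_trans ht' ?_
        dsimp only
        split_ifs <;> omega
      exact_mod_cast this
    have h3 : (0 : ℝ) ≤ t := Nat.cast_nonneg _
    have h4 : (t : ℝ) ≤ t' := by exact_mod_cast htt'
    have h5 : (0 : ℝ) ≤ (wordDist B ((fun g t => if t = 0 then (1 : G) else g) g t)
        ((fun g t => if t = 0 then (1 : G) else g) g t') : ℝ) := Nat.cast_nonneg _
    constructor
    · have : (1 : ℝ) / 1 * ((t' : ℝ) - t) - 1 ≤ 0 := by linarith
      linarith
    · linarith
  · exact ⟨1, fun g a _ t => ⟨hle _, hle _⟩⟩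

end Words

/-! ## Discrete paths -/

section Main

variable {G X : Type*} [Group G] [MulAction G X]
    {Near : ℝ → X → X → Prop} {o : X} {T : X → X → ℝ} {σ : X → X → ℝ → X}

theorem PathSys.exists_h (h : PathSys G X Near o T σ) :
    ∃ (K : ℝ) (hh : G → ℕ → G), 0 ≤ K ∧ (∀ g, hh g 0 = 1) ∧
      (∀ g (k : ℕ), 1 ≤ k → T o (g • o) ≤ k → hh g k = g) ∧
      ∀ g (k : ℕ), Near K (hh g k • o) (σ o (g • o) k) := by
  classical
  obtain ⟨K1, hK1⟩ := h.cobdd
  obtain ⟨K2, hK2⟩ := h.start
  obtain ⟨K3, hK3⟩ := h.fin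
  choose c hc using hK1
  refine ⟨max (max K1 K2) (max K3 0),
    fun g k => if k = 0 then 1 else if T o (g • o) ≤ k then g else c (σ o (g • o) k),
    le_max_of_le_right (le_max_right _ _), fun g => by simp, ?_, ?_⟩
  · intro g k hk hT
    have : k ≠ 0 := by omega
    simp [this, hT]
  · intro g k
    dsimp only
    split_ifs with h0 h1
    · subst h0
      rw [one_smul, Nat.cast_zero]
      exact h.mono _ _ _ _ (le_max_of_le_left (le_max_right _ _)) (hK2 _ _)
    · exact h.mono _ _ _ _ (le_max_of_le_right (le_max_left _ _))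
        (h.symm _ _ _ (hK3 _ _ _ (Nat.cast_nonneg _) h1))
    · exact h.mono _ _ _ _ (le_max_of_le_left (le_max_left _ _)) (h.symm _ _ _ (hc _))

/-- Two translates of the base point are always at finite distance. -/
theorem PathSys.near_one (h : PathSys G X Near o T σ) (g : G) :
    ∃ K : ℝ, 0 ≤ K ∧ Near K o (g • o) := by
  obtain ⟨K, hh, hK0, h0, h1, h2⟩ := h.exists_h
  obtain ⟨K1, hK1⟩ := h.step
  have key : ∀ k : ℕ, ∃ K : ℝ, 0 ≤ K ∧ Near K o (hh g k • o) := by
    intro k
    induction k with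
    | zero => exact ⟨0, le_refl _, by rw [h0, one_smul]; exact h.refl o⟩
    | succ k ih =>
      obtain ⟨K2, hK2, hn⟩ := ih
      have ha := h.trans _ _ _ _ _ hn (h2 g k)
      have hb := h.trans _ _ _ _ _ ha (hK1 o (g • o) k ((k + 1 : ℕ) : ℝ) (Nat.cast_nonneg _)
        (by push_cast; linarith) (by push_cast; linarith))
      have hc := h.trans _ _ _ _ _ hb (h.symm _ _ _ (h2 g (k + 1)))
      exact ⟨max (K2 + K + K1 + K) 0, le_max_right _ _, h.mono _ _ _ _ (le_max_left _ _) hc⟩
  obtain ⟨k, hk⟩ := exists_nat_ge (T o (g • o))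
  have := h1 g (k + 1) (by omega) (by push_cast; linarith)
  rw [← this]
  exact key (k + 1)

theorem PathSys.exists_w [Infinite G] (h : PathSys G X Near o T σ) :
    ∃ A : Set G, A.Finite ∧ (∀ a ∈ A, a⁻¹ ∈ A) ∧ (1 : G) ∉ A ∧ Subgroup.closure A = ⊤ ∧
      (∃ K0 : ℝ, ∀ a ∈ A, Near K0 o (a • o)) ∧
      ∃ w : G → ℕ → G, (∀ g, w g 0 = 1) ∧ (∀ g n, (w g n)⁻¹ * w g (n + 1) ∈ A) ∧
        (∀ g (k : ℕ), 1 ≤ k → T o (g • o) ≤ k → w g (2 * k) = g) ∧
        ∃ K4 : ℝ, ∀ g (n : ℕ), Near K4 (w g n • o) (σ o (g • o) ((n : ℝ) / 2)) := by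
  classical
  obtain ⟨K, hh, hK0, h0, h1, h2⟩ := h.exists_h
  obtain ⟨Ks, hKs⟩ := h.step
  obtain ⟨c₁, hc₁⟩ := Infinite.exists_notMem_finset ({1} : Finset G)
  obtain ⟨c₂, hc₂⟩ := Infinite.exists_notMem_finset ({1, c₁} : Finset G)
  rw [Finset.mem_singleton] at hc₁
  rw [Finset.mem_insert, Finset.mem_singleton, not_or] at hc₂
  obtain ⟨L₁, hL₁, hn₁⟩ := h.near_one c₁
  obtain ⟨L₂, hL₂, hn₂⟩ := h.near_one c₂
  set K1 : ℝ := max (K + Ks + K) 0 with hK1
  set K2 : ℝ := max L₁ L₂ with hK2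
  have hK1n : 0 ≤ K1 := le_max_right _ _
  have hK2n : 0 ≤ K2 := le_max_of_le_left hL₁
  set A : Set G := {a | a ≠ 1 ∧ Near (K2 + K1) o (a • o)} with hA
  have hfin : A.Finite := (h.proper (K2 + K1)).subset (fun a ha => ha.2)
  have hsym : ∀ a ∈ A, a⁻¹ ∈ A := by
    intro a ha
    refine ⟨by rw [Ne, inv_eq_one]; exact ha.1, ?_⟩
    have := h.inv _ a⁻¹ _ _ ha.2
    rw [inv_smul_smul] at this
    exact h.symm _ _ _ this
  -- consecutive elements
  have hcons : ∀ g (k : ℕ), Near K1 o (((hh g k)⁻¹ * hh g (k + 1)) • o) := by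
    intro g k
    have hb := h.trans _ _ _ _ _ (h2 g k) (hKs o (g • o) k ((k + 1 : ℕ) : ℝ) (Nat.cast_nonneg _)
        (by push_cast; linarith) (by push_cast; linarith))
    have hc := h.trans _ _ _ _ _ hb (h.symm _ _ _ (h2 g (k + 1)))
    have hd := h.inv _ (hh g k)⁻¹ _ _ hc
    rw [inv_smul_smul, ← mul_smul] at hd
    exact h.mono _ _ _ _ (le_max_left _ _) hd
  -- inserted elements
  set ins : G → G := fun b => if b = c₁ then c₂ else c₁ with hins
  have hins1 : ∀ b, ins b ≠ 1 := by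
    intro b
    simp only [hins]
    split_ifs
    · exact hc₂.1
    · exact hc₁
  have hinsb : ∀ b, ins b ≠ b := by
    intro b
    simp only [hins]
    split_ifs with hb
    · rw [hb]; exact hc₂.2
    · exact fun e => hb e.symm
  have hinsn : ∀ b, Near K2 o (ins b • o) := by
    intro b
    simp only [hins]
    split_ifs
    · exact h.mono _ _ _ _ (le_max_right _ _) hn₂
    · exact h.mono _ _ _ _ (le_max_left _ _) hn₁
  have hinsA : ∀ b, ins b ∈ A := fun b =>
    ⟨hins1 b, h.mono _ _ _ _ (by linarith) (hinsn b)⟩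
  have hinsA' : ∀ b, Near K1 o (b • o) → (ins b)⁻¹ * b ∈ A := by
    intro b hb
    refine ⟨fun e => hinsb b ?_, ?_⟩
    · rw [inv_mul_eq_one] at e
      exact e
    · have h3 := h.trans _ _ _ _ _ (h.symm _ _ _ (hinsn b)) hb
      have h4 := h.inv _ (ins b)⁻¹ _ _ h3
      rw [inv_smul_smul, ← mul_smul] at h4
      exact h4
  set w : G → ℕ → G := fun g n => hh g (n / 2) *
    (if n % 2 = 0 then 1 else ins ((hh g (n / 2))⁻¹ * hh g (n / 2 + 1))) with hw
  have hwe : ∀ g k, w g (2 * k) = hh g k := by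
    intro g k
    simp only [hw]
    rw [if_pos (by omega), mul_one, show 2 * k / 2 = k by omega]
  have hwo : ∀ g k, w g (2 * k + 1) = hh g k * ins ((hh g k)⁻¹ * hh g (k + 1)) := by
    intro g k
    simp only [hw]
    rw [if_neg (by omega), show (2 * k + 1) / 2 = k by omega]
  have hwstep : ∀ g n, (w g n)⁻¹ * w g (n + 1) ∈ A := by
    intro g n
    rcases Nat.even_or_odd' n with ⟨k, rfl | rfl⟩
    · rw [hwe, hwo, inv_mul_cancel_left]
      exact hinsA _
    · rw [show 2 * k + 1 + 1 = 2 * (k + 1) by ring, hwe, hwo, mul_inv_rev, mul_assoc]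
      exact hinsA' _ (hcons g k)
  have hw0 : ∀ g, w g 0 = 1 := by
    intro g
    have := hwe g 0
    rw [mul_zero] at this
    rw [this, h0]
  have hwT : ∀ g (k : ℕ), 1 ≤ k → T o (g • o) ≤ k → w g (2 * k) = g := by
    intro g k hk hT
    rw [hwe, h1 g k hk hT]
  have hcl : Subgroup.closure A = ⊤ := by
    rw [eq_top_iff]
    intro g _
    have key : ∀ n, w g n ∈ Subgroup.closure A := by
      intro n
      induction n with
      | zero => rw [hw0]; exact one_mem _
      | succ n ih =>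
        have h3 := mul_mem ih (Subgroup.subset_closure (hwstep g n))
        rwa [mul_inv_cancel_left] at h3
    obtain ⟨k, hk⟩ := exists_nat_ge (T o (g • o))
    have h3 := hwT g (k + 1) (by omega) (by push_cast; linarith)
    rw [← h3]
    exact key _
  refine ⟨A, hfin, hsym, fun h3 => h3.1 rfl, hcl, ⟨K2 + K1, fun a ha => ha.2⟩, w, hw0, hwstep,
    hwT, max K (K2 + K + Ks), ?_⟩
  intro g n
  rcases Nat.even_or_odd' n with ⟨k, rfl | rfl⟩
  · rw [hwe]
    have h3 : (((2 * k : ℕ) : ℝ) / 2) = k := by push_cast; ring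
    rw [h3]
    exact h.mono _ _ _ _ (le_max_left _ _) (h2 g k)
  · rw [hwo]
    have h3 := h.inv _ (hh g k) _ _ (hinsn ((hh g k)⁻¹ * hh g (k + 1)))
    rw [← mul_smul] at h3
    have h4 := h.trans _ _ _ _ _ (h.symm _ _ _ h3) (h2 g k)
    have h5 := h.trans _ _ _ _ _ h4 (hKs o (g • o) k (((2 * k + 1 : ℕ) : ℝ) / 2)
      (Nat.cast_nonneg _) (by push_cast; linarith) (by push_cast; linarith))
    exact h.mono _ _ _ _ (le_max_right _ _) h5

theorem PathSys.step_chain (h : PathSys G X Near o T σ) {Ks : ℝ}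
    (hKs : ∀ x y t t', 0 ≤ t → t ≤ t' → t' ≤ t + 1 → Near Ks (σ x y t) (σ x y t')) (x y : X)
    (m : ℕ) : ∀ t t' : ℝ, 0 ≤ t → t ≤ t' → t' ≤ t + m →
      Near (Ks * m) (σ x y t) (σ x y t') := by
  induction m with
  | zero =>
    intro t t' h0 h1 h2
    have : t' = t := by
      apply le_antisymm _ h1
      simpa using h2
    rw [this]
    simpa using h.refl (σ x y t)
  | succ m ih =>
    intro t t' h0 h1 h2
    push_cast at h2
    have hm : (0 : ℝ) ≤ m := Nat.cast_nonneg _
    have ha := ih t (min t' (t + m)) h0 (le_min h1 (by linarith)) (min_le_right _ _)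
    have hb := hKs x y (min t' (t + m)) t' (le_min (by linarith) (by linarith)) (min_le_left _ _)
      (by
        rcases le_total t' (t + m) with h3 | h3
        · rw [min_eq_left h3]; linarith
        · rw [min_eq_right h3]; linarith)
    have hc := h.trans _ _ _ _ _ ha hb
    have : Ks * ((m + 1 : ℕ) : ℝ) = Ks * m + Ks := by push_cast; ring
    rw [this]
    exact hc

/-- A coarsely equivariant path system makes the group semihyperbolic. -/
theorem PathSys.semihyperbolic {G X : Type*} [Group G] [MulAction G X]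
    {Near : ℝ → X → X → Prop} {o : X} {T : X → X → ℝ} {σ : X → X → ℝ → X}
    (h : PathSys G X Near o T σ) : Semihyperbolic G := by
  classical
  rcases finite_or_infinite G with hG | hG
  · exact semihyperbolic_of_finite
  obtain ⟨A, hfin, hsym, h1A, hcl, ⟨K0, hK0⟩, w, hw0, hwstep, hwT, K4, hK4⟩ := h.exists_w
  obtain ⟨Ks, hKs⟩ := h.step
  obtain ⟨Kst, hKst⟩ := h.start
  obtain ⟨Kf, hKf⟩ := h.fin
  obtain ⟨Kp, hKp⟩ := h.prog
  have hceil : ∀ g, w g (2 * max 1 ⌈T o (g • o)⌉₊) = g := by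
    intro g
    apply hwT g _ (le_max_left _ _)
    refine le_trans (Nat.le_ceil _) ?_
    exact_mod_cast le_max_right _ _
  have hex : ∀ g, ∃ n, w g n = g := fun g => ⟨_, hceil g⟩
  set len : G → ℕ := fun g => Nat.find (hex g) with hlendef
  have hlen : ∀ g, w g (len g) = g := fun g => Nat.find_spec (hex g)
  have hlt : ∀ g t, t < len g → w g t ≠ g := fun g t ht => Nat.find_min (hex g) ht
  have hlenle : ∀ g, len g ≤ 2 * max 1 ⌈T o (g • o)⌉₊ := fun g => Nat.find_min' (hex g) (hceil g)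
  set p : G → ℕ → G := fun g t => if t < len g then w g t else g with hpdef
  have hple : ∀ g t, t ≤ len g → p g t = w g t := by
    intro g t ht
    simp only [hpdef]
    split_ifs with h1
    · rfl
    · rw [show t = len g by omega, hlen]
  have hpge : ∀ g t, len g ≤ t → p g t = g := by
    intro g t ht
    simp only [hpdef]
    rw [if_neg (by omega)]
  -- after the arrival the path of the system stays close
  have hF2 : ∃ K5, ∀ g (n : ℕ), len g ≤ n → Near K5 (g • o) (σ o (g • o) ((n : ℝ) / 2)) := by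
    obtain ⟨L, hL⟩ := h.T_lip K4
    refine ⟨max Kf (Ks * ⌈Kp + L⌉₊ + Kf), ?_⟩
    intro g n hn
    have hn0 : (0 : ℝ) ≤ (n : ℝ) / 2 := by positivity
    rcases le_total (T o (g • o)) ((n : ℝ) / 2) with h1 | h1
    · exact h.mono _ _ _ _ (le_max_left _ _) (h.symm _ _ _ (hKf _ _ _ hn0 h1))
    · have hlen0 : (0 : ℝ) ≤ (len g : ℝ) / 2 := by positivity
      have hln : (len g : ℝ) / 2 ≤ (n : ℝ) / 2 := by
        have : (len g : ℝ) ≤ n := by exact_mod_cast hn
        linarith
      have h2 := hKp o (g • o) ((len g : ℝ) / 2) hlen0 (by linarith)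
      have h3 := hL o _ _ (hK4 g (len g))
      rw [hlen] at h3
      have h4 : T o (g • o) - (len g : ℝ) / 2 ≤ Kp + L := by
        have h5 := (abs_le.1 h2).2
        have h6 := (abs_le.1 h3).2
        linarith
      have h7 := h.step_chain hKs o (g • o) ⌈Kp + L⌉₊ ((n : ℝ) / 2) (T o (g • o)) hn0 h1
        (by
          have := Nat.le_ceil (Kp + L)
          linarith)
      have h8 := h.trans _ _ _ _ _ h7 (hKf o (g • o) (T o (g • o)) (by linarith) (le_refl _))
      exact h.mono _ _ _ _ (le_max_right _ _) (h.symm _ _ _ h8)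
  obtain ⟨K5, hK5⟩ := hF2
  have hF3 : ∃ K6, ∀ g (t : ℕ), Near K6 (p g t • o) (σ o (g • o) ((t : ℝ) / 2)) := by
    refine ⟨max K4 K5, fun g t => ?_⟩
    rcases le_total t (len g) with h1 | h1
    · rw [hple g t h1]
      exact h.mono _ _ _ _ (le_max_left _ _) (hK4 g t)
    · rw [hpge g t h1]
      exact h.mono _ _ _ _ (le_max_right _ _) (hK5 g t h1)
  obtain ⟨K6, hK6⟩ := hF3
  -- progress
  have hF5 : ∃ K7, ∀ g (t : ℕ), t ≤ len g → |T o (p g t • o) - (t : ℝ) / 2| ≤ K7 := by
    obtain ⟨L6, hL6⟩ := h.T_lip K6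
    obtain ⟨Lf, hLf⟩ := h.T_lip Kf
    obtain ⟨L0, hL0⟩ := h.T_lip (Kst + Kf)
    refine ⟨max (L6 + Kp) (L6 + Lf + (|T o o| + |L0| + 1)), ?_⟩
    intro g t ht
    have ht0 : (0 : ℝ) ≤ (t : ℝ) / 2 := by positivity
    have h1 := hL6 o _ _ (hK6 g t)
    rcases le_total ((t : ℝ) / 2) (T o (g • o)) with h2 | h2
    · have h3 := hKp o (g • o) _ ht0 h2
      refine le_trans ?_ (le_max_left _ _)
      calc |T o (p g t • o) - (t : ℝ) / 2|
          ≤ |T o (p g t • o) - T o (σ o (g • o) ((t : ℝ) / 2))| +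
            |T o (σ o (g • o) ((t : ℝ) / 2)) - (t : ℝ) / 2| := abs_sub_le _ _ _
        _ ≤ L6 + Kp := add_le_add h1 h3
    · have h3 := hLf o _ _ (hKf o (g • o) _ ht0 h2)
      have h4 : |T o (g • o) - (t : ℝ) / 2| ≤ |T o o| + |L0| + 1 := by
        have h5 : (t : ℝ) ≤ 2 * max 1 (⌈T o (g • o)⌉₊ : ℝ) := by
          have := le_trans ht (hlenle g)
          exact_mod_cast this
        rcases le_total 0 (T o (g • o)) with h6 | h6
        · have h7 := Nat.ceil_lt_add_one h6
          have h8 : max 1 (⌈T o (g • o)⌉₊ : ℝ) ≤ T o (g • o) + 1 :=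
            max_le (by linarith) h7.le
          have h9 : |T o (g • o) - (t : ℝ) / 2| ≤ 1 := by
            rw [abs_le]
            constructor <;> linarith
          have := abs_nonneg (T o o)
          have := abs_nonneg L0
          linarith
        · have h7 : ⌈T o (g • o)⌉₊ = 0 := Nat.ceil_eq_zero.2 h6
          rw [h7] at h5
          have h8 : (t : ℝ) / 2 ≤ 1 := by
            have : max (1 : ℝ) ((0 : ℕ) : ℝ) = 1 := by simp
            rw [this] at h5
            linarith
          have h9 := h.trans _ _ _ _ _ (hKst o (g • o)) (hKf o (g • o) 0 (le_refl _) h6)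
          have h10 := hL0 o _ _ h9
          have h11 : |T o (g • o)| ≤ |T o o| + |L0| := by
            have h12 : |T o (g • o)| ≤ |T o o| + |T o o - T o (g • o)| := by
              have h13 := abs_sub_abs_le_abs_sub (T o (g • o)) (T o o)
              rw [abs_sub_comm (T o (g • o)) (T o o)] at h13
              linarith
            have := le_abs_self L0
            linarith
          calc |T o (g • o) - (t : ℝ) / 2| ≤ |T o (g • o)| + |(t : ℝ) / 2| := abs_sub _ _
            _ ≤ (|T o o| + |L0|) + 1 := by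
              rw [abs_of_nonneg ht0]
              linarith
      refine le_trans ?_ (le_max_right _ _)
      calc |T o (p g t • o) - (t : ℝ) / 2|
          ≤ |T o (p g t • o) - T o (σ o (g • o) ((t : ℝ) / 2))| +
            |T o (σ o (g • o) ((t : ℝ) / 2)) - (t : ℝ) / 2| := abs_sub_le _ _ _
        _ ≤ |T o (p g t • o) - T o (σ o (g • o) ((t : ℝ) / 2))| +
            (|T o (σ o (g • o) ((t : ℝ) / 2)) - T o (g • o)| +
              |T o (g • o) - (t : ℝ) / 2|) := by
            gcongr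
            exact abs_sub_le _ _ _
        _ ≤ L6 + Lf + (|T o o| + |L0| + 1) := by linarith
  obtain ⟨K7, hK7⟩ := hF5
  -- bounded nearness gives bounded word distance
  have hbd : ∀ K : ℝ, ∃ k : ℕ, ∀ g g' : G, Near K (g • o) (g' • o) → wordDist A g g' ≤ k := by
    intro K
    obtain ⟨k, hk⟩ := ((h.proper K).image (fun g => wordLength A g)).bddAbove
    refine ⟨k, fun g g' hg => hk ⟨g⁻¹ * g', ?_, rfl⟩⟩
    have := h.inv _ g⁻¹ _ _ hg
    rw [inv_smul_smul, ← mul_smul] at this
    exact this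
  have hus : ∀ g t, t < len g → (p g t)⁻¹ * p g (t + 1) ∈ A := by
    intro g t ht
    rw [hple g t ht.le, hple g (t + 1) ht]
    exact hwstep g t
  refine ⟨A, hfin, hsym, h1A, hcl, p, len, ⟨?_, hus, ?_, hpge⟩, ?_, ?_⟩
  · intro g
    rw [hple g 0 (Nat.zero_le _), hw0]
  · intro g t ht
    rw [hple g t ht.le]
    exact hlt g t ht
  · -- quasi-geodesics
    obtain ⟨L, hL⟩ := h.T_lip K0
    set L' : ℝ := max L 1 with hL'
    have hL'1 : 1 ≤ L' := le_max_right _ _
    have hlip : ∀ g, ∀ a ∈ A, |T o (g • o) - T o ((g * a) • o)| ≤ L' := by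
      intro g a ha
      have h1 := h.inv _ g _ _ (hK0 a ha)
      rw [← mul_smul] at h1
      exact le_trans (hL o _ _ h1) (le_max_left _ _)
    have hK7n : 0 ≤ K7 := le_trans (abs_nonneg _) (hK7 1 0 (Nat.zero_le _))
    refine ⟨2 * L', 2 * K7, by linarith, by linarith, ?_⟩
    intro g t t' htt' ht'
    have h1 := lip_wordDist hsym hcl (fun g => T o (g • o)) L' hlip (p g t) (p g t')
    have h2 := abs_le.1 (hK7 g t (le_trans htt' ht'))
    have h3 := abs_le.1 (hK7 g t' ht')
    have h4 := (abs_le.1 h1).1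
    have h5 : ((t' : ℝ) - t) / 2 - 2 * K7 ≤ L' * wordDist A (p g t) (p g t') := by linarith
    have h0 : (0 : ℝ) < L' := by linarith
    have htt : (t : ℝ) ≤ t' := by exact_mod_cast htt'
    constructor
    · rw [tsub_le_iff_right, one_div, ← mul_le_mul_iff_right₀ h0]
      have h6 : L' * ((2 * L')⁻¹ * ((t' : ℝ) - t)) = ((t' : ℝ) - t) / 2 := by
        field_simp
      rw [h6]
      have h7 : 2 * K7 ≤ L' * (2 * K7) := by nlinarith
      linarith [mul_add L' (wordDist A (p g t) (p g t') : ℝ) (2 * K7)]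
    · obtain ⟨d, rfl⟩ := Nat.exists_eq_add_of_le htt'
      have h8 := wordDist_path_le hsym hcl (p g) (len g) (hus g) t d ht'
      have h9 : (wordDist A (p g t) (p g (t + d)) : ℝ) ≤ d := by exact_mod_cast h8
      push_cast
      have hd : (0 : ℝ) ≤ d := Nat.cast_nonneg _
      nlinarith
  · -- fellow travelling
    obtain ⟨KR, hKR⟩ := h.cmpR K0
    obtain ⟨KL, hKL⟩ := h.cmpL K0
    obtain ⟨Ke, hKe⟩ := h.equi
    obtain ⟨k₁, hk₁⟩ := hbd (K6 + KR + K6)
    obtain ⟨k₂, hk₂⟩ := hbd (K6 + Ke + KL + K6)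
    refine ⟨max k₁ k₂, fun g a ha t => ⟨le_trans (hk₁ _ _ ?_) (le_max_left _ _),
      le_trans (hk₂ _ _ ?_) (le_max_right _ _)⟩⟩
    · have ht0 : (0 : ℝ) ≤ (t : ℝ) / 2 := by positivity
      have h1 := h.inv _ g _ _ (hK0 a ha)
      rw [← mul_smul] at h1
      have h2 := h.trans _ _ _ _ _ (hK6 g t) (hKR o _ _ _ ht0 h1)
      exact h.trans _ _ _ _ _ h2 (h.symm _ _ _ (hK6 (g * a) t))
    · have ht0 : (0 : ℝ) ≤ (t : ℝ) / 2 := by positivity
      have h1 := h.inv _ a _ _ (hK6 g t)
      rw [← mul_smul] at h1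
      have h2 := h.trans _ _ _ _ _ h1 (hKe a o (g • o) _ ht0)
      rw [← mul_smul] at h2
      have h3 := h.trans _ _ _ _ _ h2
        (hKL (a • o) o ((a * g) • o) _ ht0 (h.symm _ _ _ (hK0 a ha)))
      exact h.trans _ _ _ _ _ h3 (h.symm _ _ _ (hK6 (a * g) t))

end Main

end Pool.Agent.H81.HDG
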