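import Mathlib

/-!
# Packing estimates for a cusp system
-/

set_option autoImplicit false

namespace Pool.Agent.H81.HDG

open Finset

/-- Separated points in a ball of a finite-dimensional normed space. -/
theorem sep_card {V X : Type*} [NormedAddCommGroup X] [NormedSpace ℝ X] [FiniteDimensional ℝ X]
    (R δ : ℝ) (hδ : 0 < δ) :
    ∃ n : ℕ, ∀ (F : Finset V) (f : V → X) (z : X) (ρ : ℝ), 0 < ρ →
      (∀ i ∈ F, ‖f i - z‖ ≤ ρ * R) →
      (∀ i ∈ F, ∀ j ∈ F, i ≠ j → ρ * δ ≤ ‖f i - f j‖) → F.card ≤ n := by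
  classical
  have : ProperSpace X := FiniteDimensional.proper ℝ X
  obtain ⟨t, htf, ht⟩ := Metric.totallyBounded_iff.1
    (isCompact_closedBall (0 : X) R).totallyBounded (δ / 2) (by positivity)
  refine ⟨htf.toFinset.card, ?_⟩
  intro F f z ρ hρ h1 h2
  have key : ∀ i ∈ F, ∃ y ∈ t, dist (ρ⁻¹ • (f i - z)) y < δ / 2 := by
    intro i hi
    have : ρ⁻¹ • (f i - z) ∈ Metric.closedBall (0 : X) R := by
      rw [mem_closedBall_zero_iff, norm_smul, norm_inv, Real.norm_eq_abs, abs_of_pos hρ]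
      rw [inv_mul_le_iff₀ hρ]
      exact h1 i hi
    have := ht this
    simpa using this
  choose! g hg1 hg2 using key
  refine Finset.card_le_card_of_injOn g (fun i hi => ?_) ?_
  · simpa using hg1 i hi
  · intro i hi j hj hij
    by_contra hne
    have a1 := hg2 i hi
    have a2 := hg2 j hj
    rw [hij] at a1
    have a3 : dist (ρ⁻¹ • (f i - z)) (ρ⁻¹ • (f j - z)) < δ := by
      calc _ ≤ dist (ρ⁻¹ • (f i - z)) (g j) + dist (ρ⁻¹ • (f j - z)) (g j) :=
            dist_triangle_right _ _ _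
        _ < δ := by linarith
    have a4 : dist (ρ⁻¹ • (f i - z)) (ρ⁻¹ • (f j - z)) = ρ⁻¹ * ‖f i - f j‖ := by
      rw [dist_eq_norm, ← smul_sub, norm_smul, norm_inv, Real.norm_eq_abs, abs_of_pos hρ]
      congr 2
      abel
    have a5 := h2 i hi j hj hne
    rw [a4] at a3
    have : ρ⁻¹ * (ρ * δ) ≤ ρ⁻¹ * ‖f i - f j‖ := by
      exact mul_le_mul_of_nonneg_left a5 (by positivity)
    rw [← mul_assoc, inv_mul_cancel₀ hρ.ne', one_mul] at this
    linarith

/-- A cusp system: a set `N` of horoballs, `s a b` is (twice) the squared lambda length of two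
horoballs, `p u a` is the projection of the horoball `a` to the horosphere of `u`. -/
structure Cusp {V X : Type*} [NormedAddCommGroup X] (c C : ℝ) (N : Set V)
    (s : V → V → ℝ) (p : V → V → X) : Prop where
  symm : ∀ a b, s a b = s b a
  ge : ∀ a ∈ N, ∀ b ∈ N, a ≠ b → 2 ≤ s a b
  lower : ∀ u ∈ N, ∀ a ∈ N, ∀ b ∈ N, u ≠ a → u ≠ b → a ≠ b →
    c * √(s a b / (s u a * s u b)) ≤ ‖p u a - p u b‖
  upper : ∀ u ∈ N, ∀ a ∈ N, ∀ b ∈ N, u ≠ a → u ≠ b → a ≠ b →
    ‖p u a - p u b‖ ≤ C * √(s a b / (s u a * s u b))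

section

variable {V X : Type*} [NormedAddCommGroup X] {c C : ℝ} {N : Set V}
  {s : V → V → ℝ} {p : V → V → X}

theorem Cusp.pos (h : Cusp c C N s p) {a b : V} (ha : a ∈ N) (hb : b ∈ N) (hab : a ≠ b) :
    0 < s a b := by
  have := h.ge a ha b hb hab; linarith

/-- The product formula `r_u(a,b) r_a(u,b) ≤ C² / s_ua`. -/
theorem Cusp.prod_le (h : Cusp c C N s p) (hC : 0 ≤ C) {u a b : V} (hu : u ∈ N) (ha : a ∈ N)
    (hb : b ∈ N) (hua : u ≠ a) (hub : u ≠ b) (hab : a ≠ b) :
    ‖p u a - p u b‖ * ‖p a u - p a b‖ ≤ C ^ 2 / s u a := by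
  have h1 := h.upper u hu a ha b hb hua hub hab
  have h2 := h.upper a ha u hu b hb hua.symm hab hub
  have sua := h.pos hu ha hua
  have sub := h.pos hu hb hub
  have sab := h.pos ha hb hab
  have e : √(s a b / (s u a * s u b)) * √(s u b / (s a u * s a b)) = 1 / s u a := by
    rw [← Real.sqrt_mul (by positivity), h.symm a u]
    have : s a b / (s u a * s u b) * (s u b / (s u a * s a b)) = (1 / s u a) ^ 2 := by
      field_simp
    rw [this, Real.sqrt_sq (by positivity)]
  calc ‖p u a - p u b‖ * ‖p a u - p a b‖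
      ≤ (C * √(s a b / (s u a * s u b))) * (C * √(s u b / (s a u * s a b))) :=
        mul_le_mul h1 h2 (norm_nonneg _) (by positivity)
    _ = C ^ 2 * (√(s a b / (s u a * s u b)) * √(s u b / (s a u * s a b))) := by ring
    _ = C ^ 2 / s u a := by rw [e]; ring

/-- The product formula `c² / s_ua ≤ r_u(a,b) r_a(u,b)`. -/
theorem Cusp.le_prod (h : Cusp c C N s p) (hc : 0 ≤ c) {u a b : V} (hu : u ∈ N) (ha : a ∈ N)
    (hb : b ∈ N) (hua : u ≠ a) (hub : u ≠ b) (hab : a ≠ b) :
    c ^ 2 / s u a ≤ ‖p u a - p u b‖ * ‖p a u - p a b‖ := by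
  have h1 := h.lower u hu a ha b hb hua hub hab
  have h2 := h.lower a ha u hu b hb hua.symm hab hub
  have sua := h.pos hu ha hua
  have sub := h.pos hu hb hub
  have sab := h.pos ha hb hab
  have e : √(s a b / (s u a * s u b)) * √(s u b / (s a u * s a b)) = 1 / s u a := by
    rw [← Real.sqrt_mul (by positivity), h.symm a u]
    have : s a b / (s u a * s u b) * (s u b / (s u a * s a b)) = (1 / s u a) ^ 2 := by
      field_simp
    rw [this, Real.sqrt_sq (by positivity)]
  calc c ^ 2 / s u a = c ^ 2 * (√(s a b / (s u a * s u b)) * √(s u b / (s a u * s a b))) := by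
        rw [e]; ring
    _ = (c * √(s a b / (s u a * s u b))) * (c * √(s u b / (s a u * s a b))) := by ring
    _ ≤ ‖p u a - p u b‖ * ‖p a u - p a b‖ :=
        mul_le_mul h1 h2 (by positivity) (norm_nonneg _)

end

section pack

variable {V X : Type*} [NormedAddCommGroup X] [NormedSpace ℝ X] [FiniteDimensional ℝ X]

/-- The packing estimate. -/
theorem pack {c C : ℝ} (hc : 0 < c) (eps : ℝ) (heps : 0 < eps) :
    ∃ K : ℝ, 0 < K ∧ ∀ (N : Set V) (s : V → V → ℝ) (p : V → V → X), Cusp c C N s p →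
      ∀ u ∈ N, ∀ z : X, ∀ F : Finset V,
      (∀ a ∈ F, a ∈ N ∧ a ≠ u ∧ ‖p u a - z‖ ≤ 1 / (eps * s u a)) →
      ∑ a ∈ F, 1 / s u a ≤ K := by
  classical
  obtain ⟨n, hn⟩ := sep_card (V := V) (X := X) (1 / eps) (c / 2) (by positivity)
  refine ⟨2 * n + 1, by positivity, ?_⟩
  intro N s p h u hu z F hF
  have spos : ∀ a ∈ F, 2 ≤ s u a := fun a ha => h.ge u hu a (hF a ha).1 (hF a ha).2.1.symm
  -- dyadic index
  let j : V → ℕ := fun a => Nat.log 2 ⌊s u a⌋₊
  have hj1 : ∀ a ∈ F, (2 : ℝ) ^ (j a) ≤ s u a := by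
    intro a ha
    have h2 := spos a ha
    have h3 : ⌊s u a⌋₊ ≠ 0 := by
      have : 2 ≤ ⌊s u a⌋₊ := Nat.le_floor (by exact_mod_cast h2)
      omega
    have h4 : 2 ^ (j a) ≤ ⌊s u a⌋₊ := Nat.pow_log_le_self 2 h3
    calc (2 : ℝ) ^ (j a) = ((2 ^ (j a) : ℕ) : ℝ) := by push_cast; rfl
      _ ≤ (⌊s u a⌋₊ : ℝ) := by exact_mod_cast h4
      _ ≤ s u a := Nat.floor_le (by linarith)
  have hj2 : ∀ a ∈ F, s u a ≤ (2 : ℝ) ^ (j a + 1) := by
    intro a ha
    have h4 : ⌊s u a⌋₊ < 2 ^ (j a + 1) := Nat.lt_pow_succ_log_self (by norm_num) _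
    have h5 : ⌊s u a⌋₊ + 1 ≤ 2 ^ (j a + 1) := h4
    calc s u a ≤ (⌊s u a⌋₊ : ℝ) + 1 := (Nat.lt_floor_add_one _).le
      _ ≤ ((2 ^ (j a + 1) : ℕ) : ℝ) := by exact_mod_cast h5
      _ = (2 : ℝ) ^ (j a + 1) := by push_cast; rfl
  -- each dyadic class has at most n elements
  have hcls : ∀ k ∈ F.image j, (F.filter (fun a => j a = k)).card ≤ n := by
    intro k _
    apply hn (F.filter (fun a => j a = k)) (fun a => p u a) z ((1 / 2 : ℝ) ^ k) (by positivity)
    · intro a ha
      rw [Finset.mem_filter] at ha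
      obtain ⟨ha, rfl⟩ := ha
      refine (hF a ha).2.2.trans ?_
      have h1 := hj1 a ha
      have h2 := spos a ha
      rw [one_div_pow, div_mul_div_comm, one_mul]
      apply one_div_le_one_div_of_le (by positivity)
      rw [mul_comm eps]
      exact mul_le_mul_of_nonneg_right h1 heps.le
    · intro a ha b hb hab
      rw [Finset.mem_filter] at ha hb
      obtain ⟨ha, rfl⟩ := ha
      obtain ⟨hb, hjb⟩ := hb
      have h1 := h.lower u hu a (hF a ha).1 b (hF b hb).1 (hF a ha).2.1.symm (hF b hb).2.1.symm hab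
      refine le_trans ?_ h1
      have h2 := hj2 a ha
      have h3 := hj2 b hb
      rw [hjb] at h3
      have h4 := h.ge a (hF a ha).1 b (hF b hb).1 hab
      have h5 := spos a ha
      have h6 := spos b hb
      have h7 : ((1 / 2 : ℝ) ^ (j a) * (1 / 2)) ≤ √(s a b / (s u a * s u b)) := by
        apply Real.le_sqrt_of_sq_le
        rw [le_div_iff₀ (by positivity)]
        have h8 : s u a * s u b ≤ (2 : ℝ) ^ (j a + 1) * (2 : ℝ) ^ (j a + 1) :=
          mul_le_mul h2 h3 (by linarith) (by positivity)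
        calc ((1 / 2 : ℝ) ^ (j a) * (1 / 2)) ^ 2 * (s u a * s u b)
            ≤ ((1 / 2 : ℝ) ^ (j a) * (1 / 2)) ^ 2 * ((2 : ℝ) ^ (j a + 1) * (2 : ℝ) ^ (j a + 1)) :=
              mul_le_mul_of_nonneg_left h8 (by positivity)
          _ = ((1 / 2 : ℝ) ^ (j a) * 2 ^ (j a)) ^ 2 := by
              rw [pow_succ]; ring
          _ = 1 := by rw [← mul_pow]; norm_num
          _ ≤ s a b := by linarith
      calc (1 / 2 : ℝ) ^ (j a) * (c / 2) = c * ((1 / 2 : ℝ) ^ (j a) * (1 / 2)) := by ring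
        _ ≤ c * √(s a b / (s u a * s u b)) := mul_le_mul_of_nonneg_left h7 hc.le
  calc ∑ a ∈ F, 1 / s u a = ∑ k ∈ F.image j, ∑ a ∈ F with j a = k, 1 / s u a :=
        (Finset.sum_fiberwise_of_maps_to (fun a ha => Finset.mem_image_of_mem _ ha) _).symm
    _ ≤ ∑ k ∈ F.image j, (n : ℝ) * (1 / 2) ^ k := by
        apply Finset.sum_le_sum
        intro k hk
        calc ∑ a ∈ F with j a = k, 1 / s u a ≤ ∑ a ∈ F with j a = k, (1 / 2 : ℝ) ^ k := by
              apply Finset.sum_le_sum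
              intro a ha
              rw [Finset.mem_filter] at ha
              obtain ⟨ha, rfl⟩ := ha
              rw [one_div_pow]
              exact one_div_le_one_div_of_le (by positivity) (hj1 a ha)
          _ = ((F.filter (fun a => j a = k)).card : ℝ) * (1 / 2) ^ k := by
              rw [Finset.sum_const, nsmul_eq_mul]
          _ ≤ (n : ℝ) * (1 / 2) ^ k := by
              apply mul_le_mul_of_nonneg_right _ (by positivity)
              exact_mod_cast hcls k hk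
    _ = (n : ℝ) * ∑ k ∈ F.image j, (1 / 2 : ℝ) ^ k := by rw [Finset.mul_sum]
    _ ≤ (n : ℝ) * 2 := by
        apply mul_le_mul_of_nonneg_left _ (by positivity)
        calc ∑ k ∈ F.image j, (1 / 2 : ℝ) ^ k ≤ ∑' k : ℕ, (1 / 2 : ℝ) ^ k :=
              Summable.sum_le_tsum _ (fun _ _ => by positivity)
                (summable_geometric_of_lt_one (by norm_num) (by norm_num))
          _ = 2 := tsum_geometric_two
    _ ≤ 2 * n + 1 := by linarith

end pack

end Pool.Agent.H81.HDG
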