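import Mathlib
import Pool.Agent.H81.HDG.Pack

/-!
# Coarse additivity of sums over intermediate horoballs
-/

set_option autoImplicit false

namespace Pool.Agent.H81.HDG

open Finset

section far

variable {V X : Type*} [NormedAddCommGroup X] {c C : ℝ} {N : Set V}
  {s : V → V → ℝ} {p : V → V → X}

/-- If `r_U(u,a) ≥ δ` then `p_a(U)` is close to `p_a(u)` at scale `1 / s_aU`. -/
theorem Cusp.near_of_far (h : Cusp c C N s p) (hC : 0 < C) {δ : ℝ} (hδ : 0 < δ) {u a U : V}
    (hu : u ∈ N) (ha : a ∈ N) (hU : U ∈ N) (hua : u ≠ a) (hUu : U ≠ u) (hUa : U ≠ a)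
    (hfar : δ ≤ ‖p U u - p U a‖) : ‖p a U - p a u‖ ≤ C ^ 2 / (δ * s a U) := by
  have h1 := h.prod_le hC.le hU ha hu hUa hUu hua.symm
  have sUa := h.pos ha hU hUa.symm
  rw [h.symm U a] at h1
  rw [norm_sub_rev] at h1
  have h2 : δ * ‖p a U - p a u‖ ≤ C ^ 2 / s a U :=
    (mul_le_mul_of_nonneg_right hfar (norm_nonneg _)).trans h1
  rw [le_div_iff₀ (by positivity)]
  rw [le_div_iff₀ sUa] at h2
  linarith

theorem Cusp.near_of_far' (h : Cusp c C N s p) (hC : 0 < C) {δ : ℝ} (hδ : 0 < δ) {u a U : V}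
    (hu : u ∈ N) (ha : a ∈ N) (hU : U ∈ N) (hua : u ≠ a) (hUu : U ≠ u) (hUa : U ≠ a)
    (hfar : δ ≤ ‖p U u - p U a‖) : ‖p a U - p a u‖ ≤ C ^ 2 / δ := by
  refine (h.near_of_far hC hδ hu ha hU hua hUu hUa hfar).trans ?_
  have := h.ge a ha U hU hUa.symm
  apply div_le_div_of_nonneg_left (by positivity) hδ
  nlinarith

/-- bound on `s` for intermediate horoballs. -/
theorem Cusp.s_le_of_far (h : Cusp c C N s p) (hC : 0 < C) {δ : ℝ} (hδ : 0 < δ) {u a U : V}
    (hu : u ∈ N) (ha : a ∈ N) (hU : U ∈ N) (hua : u ≠ a) (hUu : U ≠ u) (hUa : U ≠ a)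
    (hfar : δ ≤ ‖p U u - p U a‖) : s a U ≤ C ^ 2 * s u a / δ ^ 2 := by
  have h1 := h.upper U hU u hu a ha hUu hUa hua
  have sUu := h.ge U hU u hu hUu
  have sUa := h.ge U hU a ha hUa
  have sua := h.ge u hu a ha hua
  have h2 : δ ≤ C * √(s u a / (s U u * s U a)) := hfar.trans h1
  have h3 : δ ^ 2 ≤ C ^ 2 * (s u a / (s U u * s U a)) := by
    calc δ ^ 2 ≤ (C * √(s u a / (s U u * s U a))) ^ 2 := by gcongr
      _ = C ^ 2 * (s u a / (s U u * s U a)) := by
        rw [mul_pow, Real.sq_sqrt (by positivity)]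
  rw [le_div_iff₀ (by positivity), h.symm a U]
  rw [← mul_div_assoc, le_div_iff₀ (by positivity)] at h3
  nlinarith [mul_nonneg (sq_nonneg δ) (by linarith : (0:ℝ) ≤ s U a)]

end far

section sums

variable {V X : Type*} [NormedAddCommGroup X] [NormedSpace ℝ X] [FiniteDimensional ℝ X]

/-- uniform bound for the sum of `1 / s` over intermediate horoballs -/
theorem sum_far {c C : ℝ} (hc : 0 < c) (hC : 0 < C) (δ : ℝ) (hδ : 0 < δ) :
    ∃ K : ℝ, 0 < K ∧ ∀ (N : Set V) (s : V → V → ℝ) (p : V → V → X), Cusp c C N s p →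
      ∀ u ∈ N, ∀ a ∈ N, u ≠ a → ∀ F : Finset V,
      (∀ U ∈ F, U ∈ N ∧ U ≠ u ∧ U ≠ a ∧ δ ≤ ‖p U u - p U a‖) →
      ∑ U ∈ F, 1 / s a U ≤ K := by
  obtain ⟨K, hK, h⟩ := pack (V := V) (X := X) (c := c) (C := C) hc (δ / C ^ 2) (by positivity)
  refine ⟨K, hK, ?_⟩
  intro N s p hs u hu a ha hua F hF
  apply h N s p hs a ha (p a u) F
  intro U hU
  obtain ⟨h1, h2, h3, h4⟩ := hF U hU
  refine ⟨h1, h3, ?_⟩
  refine (hs.near_of_far hC hδ hu ha h1 hua h2 h3 h4).trans (le_of_eq ?_)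
  have := hs.pos ha h1 h3.symm
  field_simp

theorem Cusp.finite_far {c C : ℝ} (hc : 0 < c) (hC : 0 < C) {N : Set V} {s : V → V → ℝ}
    {p : V → V → X} (h : Cusp c C N s p) {δ : ℝ} (hδ : 0 < δ) {u a : V} (hu : u ∈ N) (ha : a ∈ N)
    (hua : u ≠ a) : {U | U ∈ N ∧ U ≠ u ∧ U ≠ a ∧ δ ≤ ‖p U u - p U a‖}.Finite := by
  by_contra hinf
  obtain ⟨K, hK, hs⟩ := sum_far (V := V) (X := X) hc hC δ hδ
  have sua := h.pos hu ha hua
  set M := C ^ 2 * s u a / δ ^ 2 with hM
  have hMpos : 0 < M := by positivity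
  obtain ⟨n, hn⟩ := exists_nat_gt (K * M)
  obtain ⟨F, hF, hFc⟩ := (Set.not_finite.1 hinf : Set.Infinite _).exists_subset_card_eq n
  have h1 := hs N s p h u hu a ha hua F (fun U hU => hF hU)
  have h2 : (n : ℝ) * (1 / M) ≤ ∑ U ∈ F, 1 / s a U := by
    rw [← hFc, ← nsmul_eq_mul]
    apply Finset.card_nsmul_le_sum
    intro U hU
    obtain ⟨q1, q2, q3, q4⟩ := hF hU
    apply one_div_le_one_div_of_le (h.pos ha q1 q3.symm)
    exact h.s_le_of_far hC hδ hu ha q1 hua q2 q3 q4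
  have h3 : (n : ℝ) * (1 / M) ≤ K := h2.trans h1
  rw [mul_one_div, div_le_iff₀ hMpos] at h3
  linarith

end sums

section gen

variable {V X Y : Type*} [NormedAddCommGroup X] [NormedAddCommGroup Y]

/-- The condition on the local contributions. -/
structure IsContr (C₁ ε : ℝ) (h : V → X → Y) : Prop where
  lip : ∀ U x y, ‖h U x - h U y‖ ≤ C₁ * ‖x - y‖
  zero : ∀ U x, ‖x‖ ≤ ε → h U x = 0

/-- Sum of the contributions of the horoballs other than `u` and `a`. -/
noncomputable def csum (N : Set V) (p : V → V → X) (h : V → X → Y) (u a : V) : Y :=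
  ∑ᶠ (U : V) (_ : U ∈ N ∧ U ≠ u ∧ U ≠ a), h U (p U a - p U u)

open Classical in
theorem csum_eq_sum {N : Set V} {p : V → V → X} {h : V → X → Y} {C₁ ε : ℝ}
    (hh : IsContr C₁ ε h) (u a : V) (F : Finset V)
    (hF : ∀ U, U ∈ N → U ≠ u → U ≠ a → ε < ‖p U a - p U u‖ → U ∈ F) :
    csum N p h u a = ∑ U ∈ F, if U ∈ N ∧ U ≠ u ∧ U ≠ a then h U (p U a - p U u) else 0 := by
  unfold csum
  have : (fun U : V => ∑ᶠ (_ : U ∈ N ∧ U ≠ u ∧ U ≠ a), h U (p U a - p U u)) =
      fun U => if U ∈ N ∧ U ≠ u ∧ U ≠ a then h U (p U a - p U u) else 0 := by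
    funext U
    split_ifs with h1
    · exact finsum_eq_if.trans (if_pos h1)
    · exact finsum_eq_if.trans (if_neg h1)
  rw [this]
  apply finsum_eq_sum_of_support_subset
  intro U hU
  rw [Function.mem_support] at hU
  split_ifs at hU with h1
  · by_contra hUF
    apply hU
    apply hh.zero
    by_contra h2
    exact hUF (hF U h1.1 h1.2.1 h1.2.2 (lt_of_not_ge h2))
  · exact absurd rfl hU

/-- three term estimate -/
theorem IsContr.three {C₁ ε : ℝ} {h : V → X → Y} (hC : 0 ≤ C₁) (hε : 0 ≤ ε)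
    (hh : IsContr C₁ ε h) (U : V) (x y : X) :
    ‖h U (x + y) - h U x - h U y‖ ≤ 2 * C₁ * min ‖x‖ ‖y‖ := by
  have h0 : h U 0 = 0 := hh.zero U 0 (by simpa using hε)
  have e1 : ∀ z, ‖h U z‖ ≤ C₁ * ‖z‖ := by
    intro z
    have := hh.lip U z 0
    rwa [h0, sub_zero, sub_zero] at this
  have a1 : ‖h U (x + y) - h U x - h U y‖ ≤ 2 * C₁ * ‖y‖ := by
    have := hh.lip U (x + y) x
    rw [add_sub_cancel_left] at this
    calc _ ≤ ‖h U (x + y) - h U x‖ + ‖h U y‖ := norm_sub_le _ _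
      _ ≤ C₁ * ‖y‖ + C₁ * ‖y‖ := add_le_add this (e1 y)
      _ = _ := by ring
  have a2 : ‖h U (x + y) - h U x - h U y‖ ≤ 2 * C₁ * ‖x‖ := by
    have := hh.lip U (x + y) y
    rw [add_sub_cancel_right] at this
    calc _ = ‖(h U (x + y) - h U y) - h U x‖ := by congr 1; abel
      _ ≤ ‖h U (x + y) - h U y‖ + ‖h U x‖ := norm_sub_le _ _
      _ ≤ C₁ * ‖x‖ + C₁ * ‖x‖ := add_le_add this (e1 x)
      _ = _ := by ring
  rcases le_total ‖x‖ ‖y‖ with hxy | hxy
  · rw [min_eq_left hxy]; exact a2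
  · rw [min_eq_right hxy]; exact a1

end gen

section add

variable {V X Y : Type*} [NormedAddCommGroup X] [NormedSpace ℝ X] [FiniteDimensional ℝ X]
  [NormedAddCommGroup Y]

/-- Coarse additivity: if `w` lies between `u` and `a`, the sum for `(u, a)` is the sum of those for
`(u, w)` and `(w, a)` plus the contribution of `w`, up to a bounded error. -/
theorem csum_add {c C C₁ ε : ℝ} (hc : 0 < c) (hC : 0 < C) (hC₁ : 0 ≤ C₁) (hε : 0 < ε)
    (δ : ℝ) (hδ : 0 < δ) :
    ∃ K : ℝ, 0 < K ∧ ∀ (N : Set V) (s : V → V → ℝ) (p : V → V → X), Cusp c C N s p →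
      ∀ h : V → X → Y, IsContr C₁ ε h → ∀ u ∈ N, ∀ a ∈ N, ∀ w ∈ N, u ≠ a → w ≠ u → w ≠ a →
      δ ≤ ‖p w u - p w a‖ →
      ‖csum N p h u a - csum N p h u w - csum N p h w a - (p w a - p w u |> h w)‖ ≤ K := by
  classical
  obtain ⟨K, hK, hs⟩ := sum_far (V := V) (X := X) hc hC (ε / 2) (by positivity)
  refine ⟨C₁ * (C ^ 2 / δ) + C₁ * (C ^ 2 / δ) + (2 * C₁ * (2 * C ^ 2 / δ)) * (K + K) + 1,
    by positivity, ?_⟩
  intro N s p hcs h hh u hu a ha w hw hua hwu hwa hfar
  -- the finite index set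
  have f1 := hcs.finite_far hc hC (δ := ε / 2) (by positivity) hu ha hua
  have f2 := hcs.finite_far hc hC (δ := ε / 2) (by positivity) hu hw hwu.symm
  have f3 := hcs.finite_far hc hC (δ := ε / 2) (by positivity) ha hw hwa.symm
  set F : Finset V := insert w (insert u (insert a (f1.toFinset ∪ f2.toFinset ∪ f3.toFinset)))
    with hFdef
  have m1 : ∀ U, U ∈ N → U ≠ u → U ≠ a → ε < ‖p U a - p U u‖ → U ∈ F := by
    intro U h1 h2 h3 h4
    rw [norm_sub_rev] at h4
    simp only [hFdef, Finset.mem_insert, Finset.mem_union, Set.Finite.mem_toFinset,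
      Set.mem_setOf_eq]
    right; right; right; left; left
    exact ⟨h1, h2, h3, by linarith⟩
  have m2 : ∀ U, U ∈ N → U ≠ u → U ≠ w → ε < ‖p U w - p U u‖ → U ∈ F := by
    intro U h1 h2 h3 h4
    rw [norm_sub_rev] at h4
    simp only [hFdef, Finset.mem_insert, Finset.mem_union, Set.Finite.mem_toFinset,
      Set.mem_setOf_eq]
    right; right; right; left; right
    exact ⟨h1, h2, h3, by linarith⟩
  have m3 : ∀ U, U ∈ N → U ≠ w → U ≠ a → ε < ‖p U a - p U w‖ → U ∈ F := by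
    intro U h1 h2 h3 h4
    simp only [hFdef, Finset.mem_insert, Finset.mem_union, Set.Finite.mem_toFinset,
      Set.mem_setOf_eq]
    right; right; right; right
    exact ⟨h1, h3, h2, by linarith⟩
  rw [csum_eq_sum hh u a F m1, csum_eq_sum hh u w F m2, csum_eq_sum hh w a F m3,
    ← Finset.sum_sub_distrib, ← Finset.sum_sub_distrib]
  have hwF : w ∈ F := by simp [hFdef]
  have huF : u ∈ F.erase w := by
    rw [Finset.mem_erase]; exact ⟨hwu.symm, by simp [hFdef]⟩
  have haF : a ∈ (F.erase w).erase u := by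
    rw [Finset.mem_erase, Finset.mem_erase]; exact ⟨hua.symm, hwa.symm, by simp [hFdef]⟩
  rw [← Finset.add_sum_erase F _ hwF, ← Finset.add_sum_erase (F.erase w) _ huF,
    ← Finset.add_sum_erase ((F.erase w).erase u) _ haF]
  set F' := ((F.erase w).erase u).erase a with hF'
  -- evaluate the special terms
  have h0 : ∀ U, h U 0 = 0 := fun U => hh.zero U 0 (by simpa using hε.le)
  have bd : ∀ U z, ‖h U z‖ ≤ C₁ * ‖z‖ := by
    intro U z
    have := hh.lip U z 0
    rwa [h0, sub_zero, sub_zero] at this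
  have tw : ((if w ∈ N ∧ w ≠ u ∧ w ≠ a then h w (p w a - p w u) else 0) -
      (if w ∈ N ∧ w ≠ u ∧ w ≠ w then h w (p w w - p w u) else 0) -
      (if w ∈ N ∧ w ≠ w ∧ w ≠ a then h w (p w a - p w w) else 0)) = h w (p w a - p w u) := by
    rw [if_pos ⟨hw, hwu, hwa⟩, if_neg (by simp), if_neg (by simp)]; simp
  have tu : ((if u ∈ N ∧ u ≠ u ∧ u ≠ a then h u (p u a - p u u) else 0) -
      (if u ∈ N ∧ u ≠ u ∧ u ≠ w then h u (p u w - p u u) else 0) -
      (if u ∈ N ∧ u ≠ w ∧ u ≠ a then h u (p u a - p u w) else 0)) = - h u (p u a - p u w) := by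
    rw [if_neg (by simp), if_neg (by simp), if_pos ⟨hu, hwu.symm, hua⟩]; simp
  have ta : ((if a ∈ N ∧ a ≠ u ∧ a ≠ a then h a (p a a - p a u) else 0) -
      (if a ∈ N ∧ a ≠ u ∧ a ≠ w then h a (p a w - p a u) else 0) -
      (if a ∈ N ∧ a ≠ w ∧ a ≠ a then h a (p a a - p a w) else 0)) = - h a (p a w - p a u) := by
    rw [if_neg (by simp), if_pos ⟨ha, hua.symm, hwa.symm⟩, if_neg (by simp)]; simp
  rw [tw, tu, ta]
  have bu : ‖h u (p u a - p u w)‖ ≤ C₁ * (C ^ 2 / δ) := by
    refine (bd _ _).trans (mul_le_mul_of_nonneg_left ?_ hC₁)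
    rw [norm_sub_rev]
    exact hcs.near_of_far' hC hδ ha hu hw hua.symm hwa hwu (by rwa [norm_sub_rev])
  have ba : ‖h a (p a w - p a u)‖ ≤ C₁ * (C ^ 2 / δ) := by
    refine (bd _ _).trans (mul_le_mul_of_nonneg_left ?_ hC₁)
    exact hcs.near_of_far' hC hδ hu ha hw hua hwu hwa hfar
  -- the remaining terms
  have rest : ‖∑ U ∈ F', ((if U ∈ N ∧ U ≠ u ∧ U ≠ a then h U (p U a - p U u) else 0) -
      (if U ∈ N ∧ U ≠ u ∧ U ≠ w then h U (p U w - p U u) else 0) -
      (if U ∈ N ∧ U ≠ w ∧ U ≠ a then h U (p U a - p U w) else 0))‖ ≤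
      (2 * C₁ * (2 * C ^ 2 / δ)) * (K + K) := by
    set G1 := F'.filter (fun U => U ∈ N ∧ U ≠ u ∧ U ≠ w ∧ ε / 2 ≤ ‖p U u - p U w‖) with hG1
    set G2 := F'.filter (fun U => U ∈ N ∧ U ≠ a ∧ U ≠ w ∧ ε / 2 ≤ ‖p U a - p U w‖) with hG2
    have q1 := hs N s p hcs u hu w hw hwu.symm G1 (fun U hU => (Finset.mem_filter.1 hU).2)
    have q2 := hs N s p hcs a ha w hw hwa.symm G2 (fun U hU => (Finset.mem_filter.1 hU).2)
    have term : ∀ U ∈ F', ‖((if U ∈ N ∧ U ≠ u ∧ U ≠ a then h U (p U a - p U u) else 0) -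
      (if U ∈ N ∧ U ≠ u ∧ U ≠ w then h U (p U w - p U u) else 0) -
      (if U ∈ N ∧ U ≠ w ∧ U ≠ a then h U (p U a - p U w) else 0))‖ ≤
      (2 * C₁ * (2 * C ^ 2 / δ)) * ((if U ∈ G1 then 1 / s w U else 0) +
        (if U ∈ G2 then 1 / s w U else 0)) := by
      intro U hUF'
      have hUF'' := hUF'
      rw [hF', Finset.mem_erase, Finset.mem_erase, Finset.mem_erase] at hUF'
      obtain ⟨hUa, hUu, hUw, hUF⟩ := hUF'
      by_cases hUN : U ∈ N
      · rw [if_pos ⟨hUN, hUu, hUa⟩, if_pos ⟨hUN, hUu, hUw⟩, if_pos ⟨hUN, hUw, hUa⟩]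
        have swU := hcs.pos hw hUN hUw.symm
        have three := hh.three hC₁ hε.le U (p U w - p U u) (p U a - p U w)
        have e : p U w - p U u + (p U a - p U w) = p U a - p U u := by abel
        rw [e] at three
        by_cases hG : U ∈ G1 ∨ U ∈ G2
        · -- nontrivial term
          have hmin : min ‖p U w - p U u‖ ‖p U a - p U w‖ ≤ (2 * C ^ 2 / δ) * (1 / s w U) := by
            have b1 := hcs.prod_le hC.le hUN hw hu hUw hUu hwu
            have b2 := hcs.prod_le hC.le hUN hw ha hUw hUa hwa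
            rw [hcs.symm U w] at b1 b2
            have b3 : δ ≤ ‖p w U - p w u‖ + ‖p w U - p w a‖ := by
              calc δ ≤ ‖p w u - p w a‖ := hfar
                _ = ‖(p w U - p w a) - (p w U - p w u)‖ := by congr 1; abel
                _ ≤ ‖p w U - p w a‖ + ‖p w U - p w u‖ := norm_sub_le _ _
                _ = _ := add_comm _ _
            rcases le_total (δ / 2) ‖p w U - p w u‖ with b4 | b4
            · refine (min_le_left _ _).trans ?_
              have b5 : ‖p U w - p U u‖ * (δ / 2) ≤ C ^ 2 / s w U :=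
                (mul_le_mul_of_nonneg_left b4 (norm_nonneg _)).trans b1
              rw [mul_one_div, div_div, le_div_iff₀ (by positivity)]
              rw [le_div_iff₀ swU] at b5
              nlinarith
            · have b4' : δ / 2 ≤ ‖p w U - p w a‖ := by linarith
              refine (min_le_right _ _).trans ?_
              have b5 : ‖p U w - p U a‖ * (δ / 2) ≤ C ^ 2 / s w U :=
                (mul_le_mul_of_nonneg_left b4' (norm_nonneg _)).trans b2
              rw [norm_sub_rev] at b5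
              rw [mul_one_div, div_div, le_div_iff₀ (by positivity)]
              rw [le_div_iff₀ swU] at b5
              nlinarith
          have hsum : (1 : ℝ) / s w U ≤ (if U ∈ G1 then 1 / s w U else 0) +
              (if U ∈ G2 then 1 / s w U else 0) := by
            have : (0 : ℝ) < 1 / s w U := by positivity
            rcases hG with hG | hG
            · rw [if_pos hG]; split_ifs <;> linarith
            · rw [if_pos hG]; split_ifs <;> linarith
          calc ‖h U (p U a - p U u) - h U (p U w - p U u) - h U (p U a - p U w)‖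
              ≤ 2 * C₁ * min ‖p U w - p U u‖ ‖p U a - p U w‖ := three
            _ ≤ 2 * C₁ * ((2 * C ^ 2 / δ) * (1 / s w U)) := by gcongr
            _ = (2 * C₁ * (2 * C ^ 2 / δ)) * (1 / s w U) := by ring
            _ ≤ _ := by gcongr
        · push Not at hG
          obtain ⟨g1, g2⟩ := hG
          have g1' : ‖p U u - p U w‖ < ε / 2 := by
            by_contra hcon
            apply g1
            rw [hG1, Finset.mem_filter]
            exact ⟨hUF'', hUN, hUu, hUw, le_of_not_gt hcon⟩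
          have g2' : ‖p U a - p U w‖ < ε / 2 := by
            by_contra hcon
            apply g2
            rw [hG2, Finset.mem_filter]
            exact ⟨hUF'', hUN, hUa, hUw, le_of_not_gt hcon⟩
          have z1 : h U (p U w - p U u) = 0 := hh.zero _ _ (by rw [norm_sub_rev]; linarith)
          have z2 : h U (p U a - p U w) = 0 := hh.zero _ _ (by linarith)
          have z3 : h U (p U a - p U u) = 0 := by
            apply hh.zero
            calc ‖p U a - p U u‖ = ‖(p U a - p U w) - (p U u - p U w)‖ := by congr 1; abel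
              _ ≤ ‖p U a - p U w‖ + ‖p U u - p U w‖ := norm_sub_le _ _
              _ ≤ ε := by linarith
          rw [z1, z2, z3, if_neg g1, if_neg g2]; simp
      · rw [if_neg (by tauto), if_neg (by tauto), if_neg (by tauto)]
        rw [if_neg (by rw [hG1, Finset.mem_filter]; tauto),
          if_neg (by rw [hG2, Finset.mem_filter]; tauto)]
        simp
    calc _ ≤ ∑ U ∈ F', (2 * C₁ * (2 * C ^ 2 / δ)) * ((if U ∈ G1 then 1 / s w U else 0) +
        (if U ∈ G2 then 1 / s w U else 0)) := norm_sum_le_of_le _ term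
      _ = (2 * C₁ * (2 * C ^ 2 / δ)) * (∑ U ∈ G1, 1 / s w U + ∑ U ∈ G2, 1 / s w U) := by
        rw [← Finset.mul_sum, Finset.sum_add_distrib]
        congr 2
        · rw [← Finset.sum_filter]; congr 1; ext U; simp [hG1]
        · rw [← Finset.sum_filter]; congr 1; ext U; simp [hG2]
      _ ≤ (2 * C₁ * (2 * C ^ 2 / δ)) * (K + K) := by gcongr
  calc _ = ‖(- h u (p u a - p u w)) + (- h a (p a w - p a u)) +
      ∑ U ∈ F', ((if U ∈ N ∧ U ≠ u ∧ U ≠ a then h U (p U a - p U u) else 0) -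
      (if U ∈ N ∧ U ≠ u ∧ U ≠ w then h U (p U w - p U u) else 0) -
      (if U ∈ N ∧ U ≠ w ∧ U ≠ a then h U (p U a - p U w) else 0))‖ := by congr 1; abel
    _ ≤ ‖h u (p u a - p u w)‖ + ‖h a (p a w - p a u)‖ +
        (2 * C₁ * (2 * C ^ 2 / δ)) * (K + K) := by
      refine (norm_add_le _ _).trans (add_le_add ((norm_add_le _ _).trans ?_) rest)
      rw [norm_neg, norm_neg]
    _ ≤ _ := by linarith

end add

end Pool.Agent.H81.HDG
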