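import Mathlib

/-!
# Radial projection to balls of a normed space
-/

set_option autoImplicit false

namespace Pool.Agent.H81.HDG

variable {E : Type*} [NormedAddCommGroup E] [NormedSpace ℝ E]

/-- `cl t x`: the point reached after time `t` when moving straight from `0` to `x` at unit
speed and stopping at `x`. -/
noncomputable def cl (t : ℝ) (x : E) : E := if ‖x‖ ≤ t then x else (max t 0 / ‖x‖) • x

theorem cl_of_le {t : ℝ} {x : E} (h : ‖x‖ ≤ t) : cl t x = x := if_pos h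

theorem cl_of_lt {t : ℝ} {x : E} (h : t < ‖x‖) : cl t x = (max t 0 / ‖x‖) • x :=
  if_neg (not_le.2 h)

theorem cl_nonpos {t : ℝ} {x : E} (h : t ≤ 0) : cl t x = 0 := by
  by_cases hx : ‖x‖ ≤ t
  · have : ‖x‖ = 0 := le_antisymm (hx.trans h) (norm_nonneg _)
    rw [cl_of_le hx]; exact norm_eq_zero.1 this
  · rw [cl_of_lt (not_le.1 hx), max_eq_right h]; simp

@[simp] theorem cl_zero_right (t : ℝ) : cl t (0 : E) = 0 := by
  unfold cl; split_ifs <;> simp

theorem norm_cl (t : ℝ) (x : E) : ‖cl t x‖ = min (max t 0) ‖x‖ := by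
  by_cases hx : ‖x‖ ≤ t
  · rw [cl_of_le hx, min_eq_right]
    exact hx.trans (le_max_left _ _)
  · have h1 := not_le.1 hx
    rcases eq_or_ne x 0 with h0 | h0
    · subst h0; simp
    · have h2 : 0 < ‖x‖ := norm_pos_iff.2 h0
      rw [cl_of_lt h1, norm_smul, Real.norm_eq_abs, abs_of_nonneg (by positivity),
        div_mul_cancel₀ _ h2.ne', min_eq_left]
      exact max_le h1.le h2.le

theorem norm_cl_le (t : ℝ) (x : E) : ‖cl t x‖ ≤ ‖x‖ := by
  rw [norm_cl]; exact min_le_right _ _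

theorem norm_sub_cl (t : ℝ) (x : E) : ‖x - cl t x‖ = max (‖x‖ - max t 0) 0 := by
  by_cases hx : ‖x‖ ≤ t
  · rw [cl_of_le hx, sub_self, norm_zero, max_eq_right]
    have := le_max_left t 0
    linarith
  · have h1 := not_le.1 hx
    rcases eq_or_ne x 0 with h0 | h0
    · subst h0; simp
    · have h2 : 0 < ‖x‖ := norm_pos_iff.2 h0
      rw [cl_of_lt h1]
      have : x - (max t 0 / ‖x‖) • x = (1 - max t 0 / ‖x‖) • x := by rw [sub_smul, one_smul]
      rw [this, norm_smul, Real.norm_eq_abs]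
      have h3 : max t 0 ≤ ‖x‖ := max_le h1.le h2.le
      have h4 : max t 0 / ‖x‖ ≤ 1 := by rw [div_le_one h2]; exact h3
      rw [abs_of_nonneg (by linarith),
        max_eq_left (show (0 : ℝ) ≤ ‖x‖ - max t 0 by linarith)]
      field_simp

theorem norm_smul_sub_smul_le (x y : E) (r : ℝ) (hr : 0 ≤ r) (hx : r ≤ ‖x‖) (hxy : ‖y‖ ≤ ‖x‖)
    (hy : 0 < ‖y‖) : ‖(r / ‖x‖) • x - (r / ‖y‖) • y‖ ≤ 2 * ‖x - y‖ := by
  have hx0 : 0 < ‖x‖ := lt_of_lt_of_le hy hxy
  have e : (r / ‖x‖) • x - (r / ‖y‖) • y = (r / ‖x‖) • (x - y) + (r / ‖x‖ - r / ‖y‖) • y := by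
    rw [smul_sub, sub_smul]; abel
  rw [e]
  have h1 : ‖(r / ‖x‖) • (x - y)‖ ≤ ‖x - y‖ := by
    rw [norm_smul, Real.norm_eq_abs, abs_of_nonneg (by positivity)]
    have : r / ‖x‖ ≤ 1 := by rw [div_le_one hx0]; exact hx
    calc r / ‖x‖ * ‖x - y‖ ≤ 1 * ‖x - y‖ := by gcongr
      _ = _ := one_mul _
  have h2 : ‖(r / ‖x‖ - r / ‖y‖) • y‖ ≤ ‖x - y‖ := by
    rw [norm_smul, Real.norm_eq_abs]
    have h3 : |r / ‖x‖ - r / ‖y‖| = r / ‖y‖ - r / ‖x‖ := by
      rw [abs_sub_comm, abs_of_nonneg]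
      have : r / ‖x‖ ≤ r / ‖y‖ := by gcongr
      linarith
    rw [h3]
    have h4 : (r / ‖y‖ - r / ‖x‖) * ‖y‖ = (r / ‖x‖) * (‖x‖ - ‖y‖) := by
      field_simp
    rw [h4]
    have h5 : ‖x‖ - ‖y‖ ≤ ‖x - y‖ := norm_sub_norm_le _ _
    have : r / ‖x‖ ≤ 1 := by rw [div_le_one hx0]; exact hx
    calc r / ‖x‖ * (‖x‖ - ‖y‖) ≤ 1 * (‖x‖ - ‖y‖) := by
          apply mul_le_mul_of_nonneg_right this; linarith
      _ ≤ _ := by linarith
  calc _ ≤ _ := norm_add_le _ _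
    _ ≤ ‖x - y‖ + ‖x - y‖ := add_le_add h1 h2
    _ = _ := by ring

theorem cl_lip_aux (t : ℝ) (x y : E) (hxy : ‖y‖ ≤ ‖x‖) : ‖cl t x - cl t y‖ ≤ 2 * ‖x - y‖ := by
  rcases le_or_gt t 0 with ht | ht
  · rw [cl_nonpos ht, cl_nonpos ht]; simp
  by_cases hx : ‖x‖ ≤ t
  · rw [cl_of_le hx, cl_of_le (hxy.trans hx)]
    linarith [norm_nonneg (x - y)]
  · have hx' := not_le.1 hx
    by_cases hy : ‖y‖ ≤ t
    · rw [cl_of_le hy]
      calc ‖cl t x - y‖ = ‖(x - y) - (x - cl t x)‖ := by congr 1; abel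
        _ ≤ ‖x - y‖ + ‖x - cl t x‖ := norm_sub_le _ _
        _ ≤ ‖x - y‖ + ‖x - y‖ := by
          gcongr
          rw [norm_sub_cl, max_eq_left ht.le, max_eq_left (by linarith)]
          have := norm_sub_norm_le x y
          linarith
        _ = _ := by ring
    · have hy' := not_le.1 hy
      rw [cl_of_lt hx', cl_of_lt hy', max_eq_left ht.le]
      exact norm_smul_sub_smul_le x y t ht.le hx'.le hxy (ht.trans hy')

theorem cl_lip (t : ℝ) (x y : E) : ‖cl t x - cl t y‖ ≤ 2 * ‖x - y‖ := by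
  rcases le_total ‖y‖ ‖x‖ with h | h
  · exact cl_lip_aux t x y h
  · rw [norm_sub_rev, norm_sub_rev x y]; exact cl_lip_aux t y x h

theorem cl_time_aux (t t' : ℝ) (x : E) (h : t ≤ t') : ‖cl t x - cl t' x‖ ≤ t' - t := by
  rcases eq_or_ne x 0 with h0 | h0
  · subst h0; simp; exact h
  have hx0 : 0 < ‖x‖ := norm_pos_iff.2 h0
  by_cases h1 : ‖x‖ ≤ t
  · rw [cl_of_le h1, cl_of_le (h1.trans h)]; simp; exact h
  · have h1' := not_le.1 h1
    by_cases h2 : ‖x‖ ≤ t'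
    · rw [cl_of_le h2, norm_sub_rev, norm_sub_cl]
      rcases le_total t 0 with ht | ht
      · rw [max_eq_right ht, max_eq_left (by linarith)]; linarith
      · rw [max_eq_left ht, max_eq_left (by linarith)]; linarith
    · have h2' := not_le.1 h2
      rw [cl_of_lt h1', cl_of_lt h2', ← sub_smul, norm_smul, Real.norm_eq_abs, ← sub_div, abs_div,
        abs_of_pos hx0, div_mul_cancel₀ _ hx0.ne', abs_sub_comm]
      rcases le_total t 0 with ht | ht
      · rcases le_total t' 0 with ht' | ht'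
        · rw [max_eq_right ht, max_eq_right ht']; simp; exact h
        · rw [max_eq_right ht, max_eq_left ht', sub_zero, abs_of_nonneg ht']; linarith
      · rw [max_eq_left ht, max_eq_left (ht.trans h), abs_of_nonneg (by linarith)]

theorem cl_time (t t' : ℝ) (x : E) : ‖cl t x - cl t' x‖ ≤ |t - t'| := by
  rcases le_total t t' with h | h
  · rw [abs_sub_comm, abs_of_nonneg (by linarith)]; exact cl_time_aux t t' x h
  · rw [norm_sub_rev, abs_of_nonneg (by linarith)]; exact cl_time_aux t' t x h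

/-- joint estimate -/
theorem cl_close (t t' : ℝ) (x y : E) : ‖cl t x - cl t' y‖ ≤ |t - t'| + 2 * ‖x - y‖ := by
  calc ‖cl t x - cl t' y‖ = ‖(cl t x - cl t' x) + (cl t' x - cl t' y)‖ := by congr 1; abel
    _ ≤ _ := norm_add_le _ _
    _ ≤ _ := add_le_add (cl_time t t' x) (cl_lip t' x y)

/-- shrinking map -/
noncomputable def shr (ε : ℝ) (x : E) : E := x - cl ε x

theorem shr_zero_of_le {ε : ℝ} {x : E} (h : ‖x‖ ≤ ε) : shr ε x = 0 := by
  unfold shr; rw [cl_of_le h, sub_self]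

theorem shr_lip (ε : ℝ) (x y : E) : ‖shr ε x - shr ε y‖ ≤ 3 * ‖x - y‖ := by
  unfold shr
  calc ‖x - cl ε x - (y - cl ε y)‖ = ‖(x - y) - (cl ε x - cl ε y)‖ := by congr 1; abel
    _ ≤ _ := norm_sub_le _ _
    _ ≤ ‖x - y‖ + 2 * ‖x - y‖ := add_le_add le_rfl (cl_lip _ _ _)
    _ = _ := by ring

theorem norm_shr_sub {ε : ℝ} (hε : 0 ≤ ε) (x : E) : ‖shr ε x - x‖ ≤ ε := by
  unfold shr
  rw [sub_sub_cancel_left, norm_neg, norm_cl, max_eq_left hε]
  exact min_le_left _ _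

end Pool.Agent.H81.HDG
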