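import Mathlib
import Pool.Agent.H81.HDG.CuspAdd
import Pool.Agent.H81.HDG.Radial

/-!
# The length function and the quasi-cocycle of a piece
-/

set_option autoImplicit false
set_option linter.unusedSectionVars false

namespace Pool.Agent.H81.HDG

open Finset

section defs

variable {V X E : Type*} [NormedAddCommGroup X] [NormedSpace ℝ X] [NormedAddCommGroup E]
  [NormedSpace ℝ E]

/-- length of the piece-level path from the wall `u` to the wall `a` -/
noncomputable def Lf (ε : ℝ) (N : Set V) (p : V → V → X) (u a : V) : ℝ :=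
  1 + csum N p (fun _ x => max (‖x‖ - ε) 0) u a

/-- the transport of the fibre coordinate from the wall `u` to the wall `a` -/
noncomputable def Df (ε : ℝ) (N : Set V) (p : V → V → X) (κ : V → X →ₗ[ℝ] E) (cst : V → E)
    (u a : V) : E :=
  csum N p (fun U x => κ U (shr ε x)) u a + κ u (p u a) - κ a (p a u) + cst u - cst a

theorem isContr_L (ε : ℝ) (hε : 0 ≤ ε) :
    IsContr 1 ε (fun (_ : V) (x : X) => max (‖x‖ - ε) 0) := by
  constructor
  · intro U x y
    rw [one_mul, Real.norm_eq_abs]
    have h1 : |max (‖x‖ - ε) 0 - max (‖y‖ - ε) 0| ≤ |(‖x‖ - ε) - (‖y‖ - ε)| := by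
      have := abs_max_sub_max_le_max (‖x‖ - ε) 0 (‖y‖ - ε) 0
      simpa using this
    refine h1.trans ?_
    rw [sub_sub_sub_cancel_right]
    exact abs_norm_sub_norm_le x y
  · intro U x hx
    exact max_eq_right (by linarith)

theorem isContr_D (ε : ℝ) (κ : V → X →ₗ[ℝ] E) (C₂ : ℝ) (hC₂ : 0 ≤ C₂)
    (hκ : ∀ U x, ‖κ U x‖ ≤ C₂ * ‖x‖) : IsContr (3 * C₂) ε (fun U x => κ U (shr ε x)) := by
  constructor
  · intro U x y
    rw [← map_sub]
    calc ‖κ U (shr ε x - shr ε y)‖ ≤ C₂ * ‖shr ε x - shr ε y‖ := hκ _ _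
      _ ≤ C₂ * (3 * ‖x - y‖) := by
        gcongr
        exact shr_lip _ _ _
      _ = _ := by ring
  · intro U x hx
    simp only [shr_zero_of_le hx, map_zero]

theorem csum_symm {N : Set V} {p : V → V → X} {h : V → X → ℝ} (hodd : ∀ U x, h U (-x) = h U x)
    (u a : V) : csum N p h u a = csum N p h a u := by
  unfold csum
  apply finsum_congr
  intro U
  have e : h U (p U a - p U u) = h U (p U u - p U a) := by
    rw [← neg_sub, hodd]
  rw [e]
  exact finsum_congr_Prop (propext (by tauto)) (fun _ => rfl)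

theorem csum_antisymm {N : Set V} {p : V → V → X} {h : V → X → E}
    (hodd : ∀ U x, h U (-x) = - h U x) (u a : V) : csum N p h u a = - csum N p h a u := by
  unfold csum
  rw [← finsum_neg_distrib]
  apply finsum_congr
  intro U
  have e : h U (p U a - p U u) = - h U (p U u - p U a) := by
    rw [← neg_sub, hodd]
  rw [e, finsum_neg_distrib]
  congr 1
  exact finsum_congr_Prop (propext (by tauto)) (fun _ => rfl)

theorem cl_neg (t : ℝ) (x : X) : cl t (-x) = - cl t x := by
  unfold cl
  rw [norm_neg]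
  split_ifs
  · rfl
  · rw [smul_neg]

theorem shr_neg (t : ℝ) (x : X) : shr t (-x) = - shr t x := by
  unfold shr
  rw [cl_neg]; abel

theorem Lf_symm (ε : ℝ) (N : Set V) (p : V → V → X) (u a : V) :
    Lf ε N p u a = Lf ε N p a u := by
  unfold Lf
  rw [csum_symm]
  intro U x
  simp

theorem Df_symm (ε : ℝ) (N : Set V) (p : V → V → X) (κ : V → X →ₗ[ℝ] E) (cst : V → E)
    (u a : V) : Df ε N p κ cst u a = - Df ε N p κ cst a u := by
  unfold Df
  rw [csum_antisymm (u := u) (a := a)]
  · abel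
  · intro U x
    simp only [shr_neg, map_neg]

theorem one_le_Lf (ε : ℝ) (N : Set V) (p : V → V → X) (u a : V) : 1 ≤ Lf ε N p u a := by
  unfold Lf csum
  have : 0 ≤ ∑ᶠ (U : V) (_ : U ∈ N ∧ U ≠ u ∧ U ≠ a), max (‖p U a - p U u‖ - ε) 0 :=
    finsum_nonneg (fun U => finsum_nonneg (fun _ => le_max_right _ _))
  linarith

end defs

section bdd

variable {V X Y : Type*} [NormedAddCommGroup X] [NormedSpace ℝ X] [FiniteDimensional ℝ X]
  [NormedAddCommGroup Y]

theorem csum_bdd {c C C₁ ε : ℝ} (hc : 0 < c) (hC : 0 < C) (hC₁ : 0 ≤ C₁) (hε : 0 < ε) (M : ℝ) :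
    ∃ K : ℝ, 0 < K ∧ ∀ (N : Set V) (s : V → V → ℝ) (p : V → V → X), Cusp c C N s p →
      ∀ h : V → X → Y, IsContr C₁ ε h → ∀ u ∈ N, ∀ a ∈ N, u ≠ a → s u a ≤ M →
      ‖csum N p h u a‖ ≤ K := by
  classical
  obtain ⟨K, hK, hs⟩ := sum_far (V := V) (X := X) hc hC ε hε
  set M' := max M 1 with hM'
  have hM'1 : 1 ≤ M' := le_max_right _ _
  refine ⟨C₁ * (C * √M') * (C ^ 2 * M' / ε ^ 2) * K + 1, by positivity, ?_⟩
  intro N s p hcs h hh u hu a ha hua hsM
  have hsM' : s u a ≤ M' := hsM.trans (le_max_left _ _)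
  have f1 := hcs.finite_far hc hC hε hu ha hua
  have m1 : ∀ U, U ∈ N → U ≠ u → U ≠ a → ε < ‖p U a - p U u‖ → U ∈ f1.toFinset := by
    intro U h1 h2 h3 h4
    rw [norm_sub_rev] at h4
    simp only [Set.Finite.mem_toFinset]
    exact ⟨h1, h2, h3, h4.le⟩
  rw [csum_eq_sum hh u a f1.toFinset m1]
  have h0 : ∀ U, h U 0 = 0 := fun U => hh.zero U 0 (by simpa using hε.le)
  have bd : ∀ U z, ‖h U z‖ ≤ C₁ * ‖z‖ := by
    intro U z
    have := hh.lip U z 0
    rwa [h0, sub_zero, sub_zero] at this
  have sua := h0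
  have term : ∀ U ∈ f1.toFinset, ‖if U ∈ N ∧ U ≠ u ∧ U ≠ a then h U (p U a - p U u) else 0‖ ≤
      C₁ * (C * √M') * (C ^ 2 * M' / ε ^ 2) * (1 / s a U) := by
    intro U hU
    simp only [Set.Finite.mem_toFinset] at hU
    obtain ⟨h1, h2, h3, h4⟩ := hU
    rw [if_pos ⟨h1, h2, h3⟩]
    have sUu := hcs.ge U h1 u hu h2
    have sUa := hcs.ge U h1 a ha h3
    have saU := hcs.ge a ha U h1 h3.symm
    have sua := hcs.ge u hu a ha hua
    have b1 : ‖p U a - p U u‖ ≤ C * √M' := by
      rw [norm_sub_rev]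
      refine (hcs.upper U h1 u hu a ha h2 h3 hua).trans ?_
      apply mul_le_mul_of_nonneg_left _ hC.le
      apply Real.sqrt_le_sqrt
      rw [div_le_iff₀ (by positivity)]
      have q1 : 1 ≤ s U u * s U a := by nlinarith
      calc s u a ≤ M' * 1 := by linarith
        _ ≤ M' * (s U u * s U a) := mul_le_mul_of_nonneg_left q1 (by linarith)
    have b2 := hcs.s_le_of_far hC hε hu ha h1 hua h2 h3 h4
    have b3 : 1 ≤ (C ^ 2 * M' / ε ^ 2) * (1 / s a U) := by
      rw [mul_one_div, le_div_iff₀ (by linarith), one_mul]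
      refine b2.trans ?_
      gcongr
    calc ‖h U (p U a - p U u)‖ ≤ C₁ * ‖p U a - p U u‖ := bd _ _
      _ ≤ C₁ * (C * √M') := by gcongr
      _ = C₁ * (C * √M') * 1 := by ring
      _ ≤ C₁ * (C * √M') * ((C ^ 2 * M' / ε ^ 2) * (1 / s a U)) := by gcongr
      _ = _ := by ring
  calc _ ≤ ∑ U ∈ f1.toFinset, C₁ * (C * √M') * (C ^ 2 * M' / ε ^ 2) * (1 / s a U) :=
        norm_sum_le_of_le _ term
    _ = C₁ * (C * √M') * (C ^ 2 * M' / ε ^ 2) * ∑ U ∈ f1.toFinset, (1 / s a U) := by
        rw [Finset.mul_sum]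
    _ ≤ C₁ * (C * √M') * (C ^ 2 * M' / ε ^ 2) * K := by
        apply mul_le_mul_of_nonneg_left _ (by positivity)
        exact hs N s p hcs u hu a ha hua f1.toFinset (fun U hU => by
          have h5 : U ∈ f1.toFinset := hU
          rw [Set.Finite.mem_toFinset] at h5
          exact h5)
    _ ≤ _ := by linarith

end bdd

section chain

variable {V X : Type*} [NormedAddCommGroup X] [NormedSpace ℝ X] [FiniteDimensional ℝ X]

/-- The walls between `u` and `a` (with parameter `δ`). -/
def Btw (δ : ℝ) (N : Set V) (p : V → V → X) (u a w : V) : Prop :=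
  w ∈ N ∧ (w = u ∨ w = a ∨ δ ≤ ‖p w u - p w a‖)

/-- The graph on the walls between `u` and `a` joining walls with `s ≤ M`. -/
def chainGraph (δ M : ℝ) (N : Set V) (s : V → V → ℝ) (p : V → V → X) (u a : V) :
    SimpleGraph V where
  Adj x y := x ≠ y ∧ Btw δ N p u a x ∧ Btw δ N p u a y ∧ s x y ≤ M ∧ s y x ≤ M
  symm := ⟨fun _ _ h => ⟨h.1.symm, h.2.2.1, h.2.1, h.2.2.2.2, h.2.2.2.1⟩⟩
  loopless := ⟨fun _ h => h.1 rfl⟩

/-- Covering property -/
def ChainProp (δ M : ℝ) (N : Set V) (s : V → V → ℝ) (p : V → V → X) : Prop :=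
  ∀ u ∈ N, ∀ a ∈ N, u ≠ a → (chainGraph δ M N s p u a).Reachable u a

/-- A bound for the length function bounds the lambda length. -/
theorem s_le_of_L_le {c C ε δ₁ M₁ : ℝ} (hc : 0 < c) (hC : 0 < C) (hε : 0 < ε) (hδ₁ : ε < δ₁)
    (M : ℝ) : ∃ K : ℝ, 0 < K ∧ ∀ (N : Set V) (s : V → V → ℝ) (p : V → V → X), Cusp c C N s p →
      ChainProp δ₁ M₁ N s p → ∀ u ∈ N, ∀ a ∈ N, u ≠ a → Lf ε N p u a ≤ M → s u a ≤ K := by
  classical
  set R := max M 0 + ε + C ^ 2 / δ₁ * 2 with hR
  have hRpos : 0 < R := by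
    have : 0 ≤ max M 0 := le_max_right _ _
    have h0 : 0 < δ₁ := hε.trans hδ₁
    positivity
  set B := max 1 M₁ * max 1 ((R / c) ^ 2) with hB
  have hB1 : 1 ≤ B := by
    have h1 : (1 : ℝ) ≤ max 1 M₁ := le_max_left _ _
    have h2 : (1 : ℝ) ≤ max 1 ((R / c) ^ 2) := le_max_left _ _
    nlinarith
  obtain ⟨n, hn⟩ := exists_nat_gt (2 + max M 0 / (δ₁ - ε))
  refine ⟨B * B ^ n, by positivity, ?_⟩
  intro N s p hcs hch u hu a ha hua hL
  have hδpos : 0 < δ₁ := hε.trans hδ₁
  have hM0 : 0 ≤ max M 0 := le_max_right _ _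
  -- contributions
  have hcontr := isContr_L (V := V) (X := X) ε hε.le
  have f1 := hcs.finite_far hc hC hε hu ha hua
  have m1 : ∀ U, U ∈ N → U ≠ u → U ≠ a → ε < ‖p U a - p U u‖ → U ∈ f1.toFinset := by
    intro U h1 h2 h3 h4
    rw [norm_sub_rev] at h4
    simp only [Set.Finite.mem_toFinset]
    exact ⟨h1, h2, h3, h4.le⟩
  have hLsum : Lf ε N p u a = 1 + ∑ U ∈ f1.toFinset, max (‖p U a - p U u‖ - ε) 0 := by
    unfold Lf
    rw [csum_eq_sum hcontr u a f1.toFinset m1]
    congr 1
    apply Finset.sum_congr rfl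
    intro U hU
    simp only [Set.Finite.mem_toFinset] at hU
    rw [if_pos ⟨hU.1, hU.2.1, hU.2.2.1⟩]
  have hsub : ∀ F : Finset V, F ⊆ f1.toFinset →
      ∑ U ∈ F, max (‖p U a - p U u‖ - ε) 0 ≤ max M 0 := by
    intro F hF
    have h1 : ∑ U ∈ F, max (‖p U a - p U u‖ - ε) 0 ≤
        ∑ U ∈ f1.toFinset, max (‖p U a - p U u‖ - ε) 0 :=
      Finset.sum_le_sum_of_subset_of_nonneg hF (fun _ _ _ => le_max_right _ _)
    have h2 : ∑ U ∈ f1.toFinset, max (‖p U a - p U u‖ - ε) 0 ≤ M := by linarith
    exact (h1.trans h2).trans (le_max_left _ _)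
  have hr : ∀ w ∈ N, w ≠ u → w ≠ a → ‖p w u - p w a‖ ≤ max M 0 + ε := by
    intro w hw h1 h2
    by_cases h3 : ε ≤ ‖p w u - p w a‖
    · have h4 := hsub {w} (by
        rw [Finset.singleton_subset_iff]
        simp only [Set.Finite.mem_toFinset]
        exact ⟨hw, h1, h2, h3⟩)
      rw [Finset.sum_singleton, norm_sub_rev] at h4
      have := le_max_left (‖p w u - p w a‖ - ε) 0
      linarith
    · push Not at h3; linarith
  -- induction along a path
  have key : ∀ (x y : V) (q : (chainGraph δ₁ M₁ N s p u a).Walk x y), y = a → q.IsPath →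
      u ∉ q.support → ∀ S : ℝ, 0 ≤ S → s u x ≤ S → s u a ≤ S * B ^ q.length := by
    intro x y q
    induction q with
    | nil =>
      intro hy _ _ S _ hS
      subst hy
      simpa using hS
    | @cons x x' y hadj q ih =>
      intro hy hp hu' S hS0 hS
      rw [SimpleGraph.Walk.cons_isPath_iff] at hp
      rw [SimpleGraph.Walk.support_cons, List.mem_cons, not_or] at hu'
      have hxa : x ≠ a := by
        intro h
        obtain ⟨_, hp2⟩ := hp
        have e1 := q.end_mem_support
        generalize q.support = L at e1 hp2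
        exact hp2 (by rw [h, ← hy]; exact e1)
      have hxu : x ≠ u := Ne.symm hu'.1
      have hx'u : x' ≠ u := by
        intro h
        obtain ⟨_, hp2⟩ := hu'
        have e1 := q.start_mem_support
        generalize q.support = L at e1 hp2
        exact hp2 (by rw [← h]; exact e1)
      obtain ⟨hxx', hbx, hbx', hsx, hsx'⟩ := hadj
      have hxN := hbx.1
      have hx'N := hbx'.1
      have hrx : ‖p x u - p x x'‖ ≤ R := by
        by_cases hx'a : x' = a
        · rw [hx'a]
          have := hr x hxN hxu hxa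
          have h2 : 0 ≤ C ^ 2 / δ₁ * 2 := by positivity
          rw [hR]; linarith
        · have h1 : δ₁ ≤ ‖p x' u - p x' a‖ := by
            rcases hbx'.2 with h | h | h
            · exact absurd h hx'u
            · exact absurd h hx'a
            · exact h
          have h2 : ‖p x' u - p x' a‖ ≤ ‖p x' u - p x' x‖ + ‖p x' x - p x' a‖ := by
            calc ‖p x' u - p x' a‖ = ‖(p x' u - p x' x) + (p x' x - p x' a)‖ := by
                  congr 1; abel
              _ ≤ _ := norm_add_le _ _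
          have hD : C ^ 2 / (δ₁ / 2) = C ^ 2 / δ₁ * 2 := by field_simp
          rcases le_total (δ₁ / 2) ‖p x' u - p x' x‖ with h3 | h3
          · have h4 := hcs.near_of_far' hC (half_pos hδpos) hu hxN hx'N hxu.symm hx'u hxx'.symm h3
            rw [hD, norm_sub_rev] at h4
            rw [hR]; linarith
          · have h3' : δ₁ / 2 ≤ ‖p x' a - p x' x‖ := by
              rw [norm_sub_rev]; linarith
            have h4 := hcs.near_of_far' hC (half_pos hδpos) ha hxN hx'N hxa.symm hx'a hxx'.symm h3'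
            rw [hD] at h4
            have h5 := hr x hxN hxu hxa
            have h6 : ‖p x u - p x x'‖ ≤ ‖p x u - p x a‖ + ‖p x x' - p x a‖ := by
              calc ‖p x u - p x x'‖ = ‖(p x u - p x a) - (p x x' - p x a)‖ := by congr 1; abel
                _ ≤ _ := norm_sub_le _ _
            rw [hR]; linarith
      have hstep : s u x' ≤ S * B := by
        have h1 := hcs.lower x hxN u hu x' hx'N hxu hxx' hx'u.symm
        have sxu := hcs.pos hxN hu hxu
        have sxx' := hcs.pos hxN hx'N hxx'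
        have sux' := hcs.pos hu hx'N hx'u.symm
        have h2 : √(s u x' / (s x u * s x x')) ≤ R / c := by
          rw [le_div_iff₀ hc]; linarith
        have h3 : s u x' / (s x u * s x x') ≤ (R / c) ^ 2 := by
          have := Real.sqrt_le_left (by positivity : 0 ≤ R / c) |>.1 h2
          exact this
        rw [div_le_iff₀ (by positivity)] at h3
        have h4 : s x u ≤ S := by rw [hcs.symm]; exact hS
        calc s u x' ≤ (R / c) ^ 2 * (s x u * s x x') := h3
          _ ≤ max 1 ((R / c) ^ 2) * (S * max 1 M₁) := by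
            apply mul_le_mul (le_max_right _ _) _ (by positivity) (by positivity)
            exact mul_le_mul h4 (hsx.trans (le_max_right _ _)) (by positivity) hS0
          _ = S * B := by rw [hB]; ring
      have := ih hy hp.1 hu'.2 (S * B) (by positivity) hstep
      rw [SimpleGraph.Walk.length_cons, pow_succ]
      calc s u a ≤ S * B * B ^ q.length := this
        _ = _ := by ring
  obtain ⟨q0⟩ := hch u hu a ha hua
  obtain ⟨q, hq⟩ := q0.toPath
  cases q with
  | nil => exact absurd rfl hua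
  | @cons _ x' _ hadj q =>
    rw [SimpleGraph.Walk.cons_isPath_iff] at hq
    have h1 : s u x' ≤ B := by
      have : s u x' ≤ M₁ := hadj.2.2.2.1
      calc s u x' ≤ max 1 M₁ * 1 := by rw [mul_one]; exact this.trans (le_max_right _ _)
        _ ≤ B := by
          rw [hB]
          exact mul_le_mul_of_nonneg_left (le_max_left _ _) (by positivity)
    have h2 := key x' a q rfl hq.1 hq.2 B (by linarith) h1
    refine h2.trans ?_
    apply mul_le_mul_of_nonneg_left _ (by linarith)
    apply pow_le_pow_right₀ hB1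
    -- length bound
    set F := q.support.toFinset.erase a with hF
    have hFsub : ∀ w ∈ F, w ∈ N ∧ w ≠ u ∧ w ≠ a ∧ δ₁ ≤ ‖p w u - p w a‖ := by
      intro w hw
      rw [hF, Finset.mem_erase, List.mem_toFinset] at hw
      have hwu : w ≠ u := by
        rintro rfl; exact hq.2 hw.2
      have hbw : Btw δ₁ N p u a w := by
        by_cases hlen : w = x'
        · rw [hlen]; exact hadj.2.2.1
        · obtain ⟨r1, r2, hr12⟩ := SimpleGraph.Walk.mem_support_iff_exists_append.1 hw.2
          cases r1.reverse with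
          | nil => exact absurd rfl hlen
          | cons hadj' _ => exact hadj'.2.1
      refine ⟨hbw.1, hwu, hw.1, ?_⟩
      rcases hbw.2 with h | h | h
      · exact absurd h hwu
      · exact absurd h hw.1
      · exact h
    have hcard : q.length ≤ F.card := by
      rw [hF, Finset.card_erase_of_mem (by rw [List.mem_toFinset]; exact q.end_mem_support),
        List.toFinset_card_of_nodup hq.1.support_nodup, SimpleGraph.Walk.length_support]
      simp
    have hsumF := hsub F (by
      intro w hw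
      obtain ⟨h1, h2, h3, h4⟩ := hFsub w hw
      simp only [Set.Finite.mem_toFinset]
      exact ⟨h1, h2, h3, by linarith⟩)
    have h3 : (F.card : ℝ) * (δ₁ - ε) ≤ max M 0 := by
      refine le_trans ?_ hsumF
      rw [← nsmul_eq_mul]
      apply Finset.card_nsmul_le_sum
      intro w hw
      obtain ⟨_, _, _, h4⟩ := hFsub w hw
      refine le_trans ?_ (le_max_left _ _)
      rw [norm_sub_rev] at h4
      linarith
    have h4 : (F.card : ℝ) ≤ max M 0 / (δ₁ - ε) := by
      rw [le_div_iff₀ (by linarith)]; exact h3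
    have h5 : (q.length : ℝ) ≤ n := by
      calc (q.length : ℝ) ≤ F.card := by exact_mod_cast hcard
        _ ≤ _ := h4
        _ ≤ n := by linarith
    exact_mod_cast h5

end chain

end Pool.Agent.H81.HDG
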