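import Mathlib
import Pool.Agent.H81.HDG.Piece

/-!
# The coarse properties of a piece
-/

set_option autoImplicit false
set_option linter.unusedSectionVars false

namespace Pool.Agent.H81.HDG

open Finset

section

variable {V X E : Type*} [NormedAddCommGroup X] [NormedAddCommGroup E]

/-- Constant free properties. -/
structure GoodBase (N : Set V) (s : V → V → ℝ) (L : V → V → ℝ) (Δ : V → V → E) : Prop where
  s_symm : ∀ a b, s a b = s b a
  s_ge : ∀ a ∈ N, ∀ b ∈ N, a ≠ b → 2 ≤ s a b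
  L_one : ∀ a b, 1 ≤ L a b
  L_symm : ∀ a b, L a b = L b a
  D_symm : ∀ a b, Δ a b = - Δ b a

/-- Coarse properties with input constant `M` and output constant `K`. -/
structure GoodAt (M K : ℝ) (N : Set V) (s : V → V → ℝ) (p : V → V → X) (L : V → V → ℝ)
    (Δ : V → V → E) : Prop where
  add_L : ∀ u ∈ N, ∀ a ∈ N, ∀ w ∈ N, u ≠ a → w ≠ u → w ≠ a → 1 / M ≤ ‖p w u - p w a‖ →
    |L u a - L u w - ‖p w u - p w a‖ - L w a| ≤ K
  add_D : ∀ u ∈ N, ∀ a ∈ N, ∀ w ∈ N, u ≠ a → w ≠ u → w ≠ a → 1 / M ≤ ‖p w u - p w a‖ →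
    ‖Δ u a - Δ u w - Δ w a‖ ≤ K
  near : ∀ u ∈ N, ∀ a ∈ N, ∀ w ∈ N, u ≠ a → w ≠ u → w ≠ a → 1 / M ≤ ‖p w u - p w a‖ →
    ‖p a w - p a u‖ ≤ K
  L_le : ∀ u ∈ N, ∀ a ∈ N, u ≠ a → s u a ≤ M → L u a ≤ K
  s_le : ∀ u ∈ N, ∀ a ∈ N, u ≠ a → L u a ≤ M → s u a ≤ K
  both : ∀ u ∈ N, ∀ a ∈ N, ∀ w ∈ N, u ≠ a → w ≠ u → w ≠ a → 1 / M ≤ ‖p u a - p u w‖ →
    1 / M ≤ ‖p a u - p a w‖ → s u a ≤ K
  two : ∀ u ∈ N, ∀ a ∈ N, ∀ w ∈ N, u ≠ a → w ≠ u → w ≠ a → s u a ≤ M →
    1 / K ≤ ‖p u w - p u a‖ ∨ 1 / K ≤ ‖p a w - p a u‖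
  r_le : ∀ w ∈ N, ∀ a ∈ N, ∀ b ∈ N, w ≠ a → w ≠ b → a ≠ b → s a b ≤ M →
    ‖p w a - p w b‖ ≤ K
  btw_s : ∀ u ∈ N, ∀ a ∈ N, ∀ w ∈ N, u ≠ a → w ≠ u → w ≠ a → 1 / M ≤ ‖p w u - p w a‖ →
    s u a ≤ M → s a w ≤ K
  M_pos : 1 ≤ M
  K_pos : 1 ≤ K

theorem GoodAt.mono {M K M' K' : ℝ} {N : Set V} {s : V → V → ℝ} {p : V → V → X} {L : V → V → ℝ}
    {Δ : V → V → E} (h : GoodAt M K N s p L Δ) (hM : M' ≤ M) (hK : K ≤ K') (hM' : 1 ≤ M') :
    GoodAt M' K' N s p L Δ := by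
  have hM0 : 0 < M' := by linarith
  have h1 : 1 / M ≤ 1 / M' := one_div_le_one_div_of_le hM0 hM
  have hK0 : 0 < K := by linarith [h.K_pos]
  have h2 : 1 / K' ≤ 1 / K := one_div_le_one_div_of_le hK0 hK
  refine ⟨?_, ?_, ?_, ?_, ?_, ?_, ?_, ?_, ?_, hM', h.K_pos.trans hK⟩
  · intro u hu a ha w hw q1 q2 q3 q4
    exact (h.add_L u hu a ha w hw q1 q2 q3 (h1.trans q4)).trans hK
  · intro u hu a ha w hw q1 q2 q3 q4
    exact (h.add_D u hu a ha w hw q1 q2 q3 (h1.trans q4)).trans hK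
  · intro u hu a ha w hw q1 q2 q3 q4
    exact (h.near u hu a ha w hw q1 q2 q3 (h1.trans q4)).trans hK
  · intro u hu a ha q1 q2
    exact (h.L_le u hu a ha q1 (q2.trans hM)).trans hK
  · intro u hu a ha q1 q2
    exact (h.s_le u hu a ha q1 (q2.trans hM)).trans hK
  · intro u hu a ha w hw q1 q2 q3 q4 q5
    exact (h.both u hu a ha w hw q1 q2 q3 (h1.trans q4) (h1.trans q5)).trans hK
  · intro u hu a ha w hw q1 q2 q3 q4
    rcases h.two u hu a ha w hw q1 q2 q3 (q4.trans hM) with h3 | h3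
    · left; exact h2.trans h3
    · right; exact h2.trans h3
  · intro w hw a ha b hb q1 q2 q3 q4
    exact (h.r_le w hw a ha b hb q1 q2 q3 (q4.trans hM)).trans hK
  · intro u hu a ha w hw q1 q2 q3 q4 q5
    exact (h.btw_s u hu a ha w hw q1 q2 q3 (h1.trans q4) (q5.trans hM)).trans hK

end

section

variable {V X E : Type*} [NormedAddCommGroup X] [NormedSpace ℝ X] [FiniteDimensional ℝ X]
  [NormedAddCommGroup E] [NormedSpace ℝ E]

theorem goodBase {c C : ℝ} {N : Set V} {s : V → V → ℝ} {p : V → V → X} (h : Cusp c C N s p)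
    (ε : ℝ) (κ : V → X →ₗ[ℝ] E) (cst : V → E) :
    GoodBase N s (Lf ε N p) (Df ε N p κ cst) where
  s_symm := h.symm
  s_ge := h.ge
  L_one := one_le_Lf ε N p
  L_symm := Lf_symm ε N p
  D_symm := Df_symm ε N p κ cst

theorem exists_goodAt {c C C₂ ε δ₁ M₁ : ℝ} (hc : 0 < c) (hC : 0 < C) (hC₂ : 0 ≤ C₂) (hε : 0 < ε)
    (hδ₁ : ε < δ₁) (M : ℝ) (hM : 1 ≤ M) :
    ∃ K : ℝ, ∀ (N : Set V) (s : V → V → ℝ) (p : V → V → X), Cusp c C N s p →
      ChainProp δ₁ M₁ N s p → ∀ (κ : V → X →ₗ[ℝ] E), (∀ U x, ‖κ U x‖ ≤ C₂ * ‖x‖) →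
      ∀ cst : V → E, GoodAt M K N s p (Lf ε N p) (Df ε N p κ cst) := by
  have hM0 : 0 < M := by linarith
  obtain ⟨K1, hK1, h1⟩ := csum_add (V := V) (X := X) (Y := ℝ) (C₁ := 1) (ε := ε) hc hC
    zero_le_one hε (1 / M) (by positivity)
  obtain ⟨K2, hK2, h2⟩ := csum_add (V := V) (X := X) (Y := E) (C₁ := 3 * C₂) (ε := ε) hc hC
    (by positivity) hε (1 / M) (by positivity)
  obtain ⟨K3, hK3, h3⟩ := csum_bdd (V := V) (X := X) (Y := ℝ) (C₁ := 1) (ε := ε) hc hC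
    zero_le_one hε M
  obtain ⟨K4, hK4, h4⟩ := s_le_of_L_le (V := V) (X := X) (ε := ε) (δ₁ := δ₁) (M₁ := M₁) hc hC hε
    hδ₁ M
  set K5 := C ^ 2 / (1 / M) with hK5
  have hK5pos : 0 ≤ K5 := by positivity
  set K6 := C ^ 2 / ((1 / M) * (1 / M)) with hK6
  have hK6pos : 0 ≤ K6 := by positivity
  set K7 := √M / c with hK7
  have hK7pos : 0 ≤ K7 := by positivity
  set K8 := C * √M with hK8
  have hK8pos : 0 ≤ K8 := by positivity
  set K9 := C ^ 2 * M / (1 / M) ^ 2 with hK9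
  have hK9pos : 0 ≤ K9 := by positivity
  refine ⟨(K1 + 1 + ε) + (K2 + C₂ * ε + 2 * (C₂ * K5) + 2 * (3 * C₂ * K5)) + (1 + K3) + K4 + K5 +
    K6 + K7 + K8 + K9, ?_⟩
  intro N s p hcs hch κ hκ cst
  have hLc := isContr_L (V := V) (X := X) ε hε.le
  have hDc := isContr_D ε κ C₂ hC₂ hκ
  have pos2 : 0 ≤ C₂ * ε + 2 * (C₂ * K5) + 2 * (3 * C₂ * K5) := by positivity
  refine ⟨?_, ?_, ?_, ?_, ?_, ?_, ?_, ?_, ?_, hM, by linarith⟩
  · intro u hu a ha w hw q1 q2 q3 q4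
    have e1 := h1 N s p hcs _ hLc u hu a ha w hw q1 q2 q3 q4
    have e2 : |max (‖p w a - p w u‖ - ε) 0 - ‖p w u - p w a‖| ≤ ε := by
      rw [norm_sub_rev (p w a)]
      set r := ‖p w u - p w a‖ with hr
      have hr0 : 0 ≤ r := norm_nonneg _
      rcases le_total (r - ε) 0 with h | h
      · rw [max_eq_right h, abs_le]; constructor <;> linarith
      · rw [max_eq_left h, abs_le]; constructor <;> linarith
    rw [Real.norm_eq_abs] at e1
    unfold Lf
    have e3 := abs_le.1 e1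
    have e4 := abs_le.1 e2
    rw [abs_le]
    constructor <;> linarith
  · intro u hu a ha w hw q1 q2 q3 q4
    have e1 := h2 N s p hcs _ hDc u hu a ha w hw q1 q2 q3 q4
    beta_reduce at e1
    have n1 : ‖p a w - p a u‖ ≤ K5 := hcs.near_of_far' hC (by positivity) hu ha hw q1 q2 q3 q4
    have n2 : ‖p u w - p u a‖ ≤ K5 := hcs.near_of_far' hC (by positivity) ha hu hw q1.symm q3 q2
      (by rwa [norm_sub_rev])
    have n3 : ‖κ w (shr ε (p w a - p w u) - (p w a - p w u))‖ ≤ C₂ * ε :=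
      (hκ _ _).trans (mul_le_mul_of_nonneg_left (norm_shr_sub hε.le _) hC₂)
    have n4 : ‖κ u (p u w - p u a)‖ ≤ C₂ * K5 :=
      (hκ _ _).trans (mul_le_mul_of_nonneg_left n2 hC₂)
    have n5 : ‖κ a (p a w - p a u)‖ ≤ C₂ * K5 :=
      (hκ _ _).trans (mul_le_mul_of_nonneg_left n1 hC₂)
    have e : Df ε N p κ cst u a - Df ε N p κ cst u w - Df ε N p κ cst w a =
        (csum N p (fun U x => κ U (shr ε x)) u a - csum N p (fun U x => κ U (shr ε x)) u w -
          csum N p (fun U x => κ U (shr ε x)) w a - κ w (shr ε (p w a - p w u))) +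
        κ w (shr ε (p w a - p w u) - (p w a - p w u)) - κ u (p u w - p u a) +
        κ a (p a w - p a u) := by
      unfold Df
      simp only [map_sub]
      abel
    rw [e]
    calc _ ≤ ‖csum N p (fun U x => κ U (shr ε x)) u a - csum N p (fun U x => κ U (shr ε x)) u w -
          csum N p (fun U x => κ U (shr ε x)) w a - κ w (shr ε (p w a - p w u))‖ +
        ‖κ w (shr ε (p w a - p w u) - (p w a - p w u))‖ + ‖κ u (p u w - p u a)‖ +
        ‖κ a (p a w - p a u)‖ := by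
          refine (norm_add_le _ _).trans (add_le_add ?_ le_rfl)
          refine (norm_sub_le _ _).trans (add_le_add ?_ le_rfl)
          exact norm_add_le _ _
      _ ≤ K2 + C₂ * ε + C₂ * K5 + C₂ * K5 := by
        have := e1
        gcongr
      _ ≤ _ := by
        have : 0 ≤ 3 * C₂ * K5 := by positivity
        linarith
  · intro u hu a ha w hw q1 q2 q3 q4
    have n1 : ‖p a w - p a u‖ ≤ K5 := hcs.near_of_far' hC (by positivity) hu ha hw q1 q2 q3 q4
    linarith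
  · intro u hu a ha q1 q2
    have e1 := h3 N s p hcs _ hLc u hu a ha q1 q2
    rw [Real.norm_eq_abs] at e1
    have e2 := abs_le.1 e1
    unfold Lf
    linarith
  · intro u hu a ha q1 q2
    have e1 := h4 N s p hcs hch u hu a ha q1 q2
    linarith
  · intro u hu a ha w hw q1 q2 q3 q4 q5
    have e1 := hcs.prod_le hC.le hu ha hw q1 q2.symm q3.symm
    have sua := hcs.pos hu ha q1
    have e2 : (1 / M) * (1 / M) ≤ C ^ 2 / s u a :=
      (mul_le_mul q4 q5 (by positivity) (norm_nonneg _)).trans e1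
    rw [le_div_iff₀ sua] at e2
    have e3 : s u a ≤ K6 := by
      rw [hK6, le_div_iff₀ (by positivity)]; linarith
    linarith
  · intro u hu a ha w hw q1 q2 q3 q4
    have e1 := hcs.le_prod hc.le hu ha hw q1 q2.symm q3.symm
    have sua := hcs.pos hu ha q1
    set K := (K1 + 1 + ε) + (K2 + C₂ * ε + 2 * (C₂ * K5) + 2 * (3 * C₂ * K5)) + (1 + K3) + K4 +
      K5 + K6 + K7 + K8 + K9 with hKdef
    have hKpos : 0 < K := by linarith
    have hK7' : K7 ≤ K := by linarith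
    by_contra hcon
    rw [not_or] at hcon
    obtain ⟨c1, c2⟩ := hcon
    rw [not_le, norm_sub_rev] at c1 c2
    have e2 : c ^ 2 / s u a < 1 / K * (1 / K) :=
      lt_of_le_of_lt e1 (mul_lt_mul'' c1 c2 (norm_nonneg _) (norm_nonneg _))
    have e3 : c ^ 2 / M ≤ c ^ 2 / s u a := by
      apply div_le_div_of_nonneg_left (by positivity) sua q4
    have e4 : 1 / K * (1 / K) ≤ c ^ 2 / M := by
      rw [div_mul_div_comm, one_mul, div_le_div_iff₀ (by positivity) (by positivity), one_mul]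
      have e5 : √M ≤ c * K := by
        calc √M = c * K7 := by rw [hK7]; field_simp
          _ ≤ c * K := by gcongr
      calc M = √M * √M := (Real.mul_self_sqrt hM0.le).symm
        _ ≤ (c * K) * (c * K) := by gcongr
        _ = c ^ 2 * (K * K) := by ring
    linarith
  · intro w hw a ha b hb q1 q2 q3 q4
    have swa := hcs.ge w hw a ha q1
    have swb := hcs.ge w hw b hb q2
    have sab := hcs.ge a ha b hb q3
    have e1 : ‖p w a - p w b‖ ≤ K8 := by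
      refine (hcs.upper w hw a ha b hb q1 q2 q3).trans ?_
      apply mul_le_mul_of_nonneg_left _ hC.le
      apply Real.sqrt_le_sqrt
      rw [div_le_iff₀ (by positivity)]
      have q1 : 1 ≤ s w a * s w b := by nlinarith
      calc s a b ≤ M * 1 := by linarith
        _ ≤ M * (s w a * s w b) := mul_le_mul_of_nonneg_left q1 (by linarith)
    linarith
  · intro u hu a ha w hw q1 q2 q3 q4 q5
    have e1 := hcs.s_le_of_far hC (by positivity) hu ha hw q1 q2 q3 q4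
    have e2 : C ^ 2 * s u a / (1 / M) ^ 2 ≤ K9 := by
      rw [hK9]; gcongr
    linarith

end

end Pool.Agent.H81.HDG
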