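import Mathlib
import Pool.Agent.H81.HDG.Good

/-!
# Paths inside one piece
-/

set_option autoImplicit false
set_option linter.unusedSectionVars false

namespace Pool.Agent.H81.HDG

section cl2

variable {E : Type*} [NormedAddCommGroup E] [NormedSpace ℝ E]

/-- componentwise motion at unit speed -/
noncomputable def cl2 (t : ℝ) (z : E × E) : E × E := (cl t z.1, cl t z.2)

theorem cl2_norm_le (t : ℝ) (z : E × E) : ‖cl2 t z‖ ≤ max t 0 := by
  rw [Prod.norm_def]
  apply max_le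
  · change ‖cl t z.1‖ ≤ _; rw [norm_cl]; exact min_le_left _ _
  · change ‖cl t z.2‖ ≤ _; rw [norm_cl]; exact min_le_left _ _

theorem cl2_norm_le' (t : ℝ) (z : E × E) : ‖cl2 t z‖ ≤ ‖z‖ := by
  rw [Prod.norm_def, Prod.norm_def]
  exact max_le_max (norm_cl_le _ _) (norm_cl_le _ _)

theorem sub_cl2_norm_le (t : ℝ) (z : E × E) : ‖z - cl2 t z‖ ≤ max (‖z‖ - t) 0 := by
  have h1 : ‖z.1‖ ≤ ‖z‖ := norm_fst_le z
  have h2 : ‖z.2‖ ≤ ‖z‖ := norm_snd_le z
  rw [Prod.norm_def (z - cl2 t z)]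
  apply max_le
  · change ‖z.1 - cl t z.1‖ ≤ _
    rw [norm_sub_cl]
    apply max_le_max _ le_rfl
    have := le_max_left t 0
    linarith
  · change ‖z.2 - cl t z.2‖ ≤ _
    rw [norm_sub_cl]
    apply max_le_max _ le_rfl
    have := le_max_left t 0
    linarith

theorem cl2_close (t t' : ℝ) (x y : E × E) : ‖cl2 t x - cl2 t' y‖ ≤ |t - t'| + 2 * ‖x - y‖ := by
  rw [Prod.norm_def (cl2 t x - cl2 t' y)]
  apply max_le
  · refine (cl_close t t' x.1 y.1).trans ?_
    have : ‖x.1 - y.1‖ ≤ ‖x - y‖ := norm_fst_le (x - y)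
    linarith
  · refine (cl_close t t' x.2 y.2).trans ?_
    have : ‖x.2 - y.2‖ ≤ ‖x - y‖ := norm_snd_le (x - y)
    linarith

end cl2

/-- The data of a tree of pieces. -/
structure Sys (V E : Type*) [NormedAddCommGroup E] where
  /-- the tree -/
  G : SimpleGraph V
  /-- lambda lengths -/
  s : V → V → V → ℝ
  /-- `p v w x`: projection of the wall `{v,x}` to the wall `{v,w}` inside the piece `v` -/
  p : V → V → V → E × E
  /-- lengths -/
  L : V → V → V → ℝ
  /-- transport of the fibre coordinate -/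
  D : V → V → V → E

variable {V E : Type*} [NormedAddCommGroup E] [NormedSpace ℝ E]

/-- neighbours -/
def Sys.N (S : Sys V E) (v : V) : Set V := S.G.neighborSet v

omit [NormedSpace ℝ E] in
theorem Sys.mem_N {S : Sys V E} {v w : V} : w ∈ S.N v ↔ S.G.Adj v w := Iff.rfl

/-- All coarse properties hold uniformly. -/
structure Sys.Good (S : Sys V E) : Prop where
  base : ∀ v, GoodBase (S.N v) (S.s v) (S.L v) (S.D v)
  at_ : ∀ M, 1 ≤ M → ∃ K, ∀ v, GoodAt M K (S.N v) (S.s v) (S.p v) (S.L v) (S.D v)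
  chain : ∃ M₁, 1 ≤ M₁ ∧ ∀ v, ChainProp (1 / M₁) M₁ (S.N v) (S.s v) (S.p v)

theorem Sys.Good.at' {S : Sys V E} (h : S.Good) (M : ℝ) :
    ∃ K, 1 ≤ K ∧ M ≤ K ∧ ∀ v, ∀ M', 1 ≤ M' → M' ≤ M →
      GoodAt M' K (S.N v) (S.s v) (S.p v) (S.L v) (S.D v) := by
  obtain ⟨K, hK⟩ := h.at_ (max M 1) (le_max_right _ _)
  refine ⟨max K (max M 1), (le_max_right M 1).trans (le_max_right _ _),
    (le_max_left M 1).trans (le_max_right _ _), fun v M' h1 h2 => ?_⟩
  exact (hK v).mono (h2.trans (le_max_left _ _)) (le_max_left _ _) h1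

theorem Sys.Good.D_self {S : Sys V E} (h : S.Good) (v a : V) : S.D v a a = 0 := by
  have := (h.base v).D_symm a a
  have h2 : (2 : ℝ) • S.D v a a = 0 := by
    rw [two_smul]; nth_rewrite 1 [this]; abel
  exact (smul_eq_zero.1 h2).resolve_left (by norm_num)

/-- Position predicate inside the piece `v` between the walls `x` and `y` at time `τ`. -/
def Sys.InPos (S : Sys V E) (M K : ℝ) (v x y : V) (τ : ℝ) (w : V) (b : E × E) : Prop :=
  (w = x ∧ τ ≤ K ∧ ‖b - S.p v x y‖ ≤ max (-τ) 0 + K) ∨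
  (w = y ∧ S.L v x y - K ≤ τ ∧ ‖b - S.p v y x‖ ≤ max (τ - S.L v x y) 0 + K) ∨
  (w ∈ S.N v ∧ w ≠ x ∧ w ≠ y ∧ 1 / M ≤ ‖S.p v w x - S.p v w y‖ ∧ S.L v x w - K ≤ τ ∧
    τ ≤ S.L v x w + ‖S.p v w x - S.p v w y‖ + K ∧
    ‖b - (S.p v w x + cl2 (τ - S.L v x w) (S.p v w y - S.p v w x))‖ ≤ K)

/-- Linear order of the walls between `x` and `y`. -/
theorem Sys.Good.order {S : Sys V E} (h : S.Good) (M : ℝ) (hM : 1 ≤ M) :
    ∃ M', M ≤ M' ∧ ∀ v, ∀ x ∈ S.N v, ∀ y ∈ S.N v, ∀ w ∈ S.N v, ∀ w' ∈ S.N v, x ≠ y → w ≠ x →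
      w ≠ y → w' ≠ x → w' ≠ y → w ≠ w' →
      1 / M ≤ ‖S.p v w x - S.p v w y‖ → 1 / M ≤ ‖S.p v w' x - S.p v w' y‖ →
      (1 / M' ≤ ‖S.p v w' w - S.p v w' y‖ ∧ 1 / M' ≤ ‖S.p v w x - S.p v w w'‖) ∨
      (1 / M' ≤ ‖S.p v w w' - S.p v w y‖ ∧ 1 / M' ≤ ‖S.p v w' x - S.p v w' w‖) := by
  obtain ⟨K1, hK1, hMK1, g1⟩ := h.at' (2 * M)
  obtain ⟨K2, hK2, hK12, g2⟩ := h.at' K1
  have hM2 : 1 ≤ 2 * M := by linarith
  refine ⟨max (2 * M) K2, by linarith [le_max_left (2 * M) K2], ?_⟩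
  intro v x hx y hy w hw w' hw' hxy hwx hwy hw'x hw'y hww' h1 h2
  have G1 := g1 v (2 * M) hM2 le_rfl
  have G2 := g2 v K1 hK1 le_rfl
  have e1 : 1 / (max (2 * M) K2) ≤ 1 / (2 * M) :=
    one_div_le_one_div_of_le (by linarith) (le_max_left _ _)
  have e2 : 1 / (max (2 * M) K2) ≤ 1 / K2 :=
    one_div_le_one_div_of_le (by linarith) (le_max_right _ _)
  have half : 1 / M = 1 / (2 * M) + 1 / (2 * M) := by field_simp; norm_num
  have t1 : ‖S.p v w' x - S.p v w' y‖ ≤ ‖S.p v w' x - S.p v w' w‖ +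
      ‖S.p v w' w - S.p v w' y‖ := by
    calc _ = ‖(S.p v w' x - S.p v w' w) + (S.p v w' w - S.p v w' y)‖ := by congr 1; abel
      _ ≤ _ := norm_add_le _ _
  have t2 : ‖S.p v w x - S.p v w y‖ ≤ ‖S.p v w x - S.p v w w'‖ +
      ‖S.p v w w' - S.p v w y‖ := by
    calc _ = ‖(S.p v w x - S.p v w w') + (S.p v w w' - S.p v w y)‖ := by congr 1; abel
      _ ≤ _ := norm_add_le _ _
  by_cases i1 : 1 / (2 * M) ≤ ‖S.p v w' w - S.p v w' y‖
  · by_cases i2 : 1 / (2 * M) ≤ ‖S.p v w x - S.p v w w'‖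
    · left; exact ⟨e1.trans i1, e1.trans i2⟩
    · push Not at i2
      have i3 : 1 / (2 * M) ≤ ‖S.p v w w' - S.p v w y‖ := by linarith
      -- both towards y
      have hs := G1.both w hw w' hw' y hy hww' hwy.symm hw'y.symm i3 i1
      rcases G2.two w hw w' hw' x hx hww' hwx.symm hw'x.symm hs with h3 | h3
      · left; exact ⟨e1.trans i1, e2.trans h3⟩
      · right; exact ⟨e1.trans i3, e2.trans h3⟩
  · push Not at i1
    have i1' : 1 / (2 * M) ≤ ‖S.p v w' x - S.p v w' w‖ := by linarith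
    by_cases i2 : 1 / (2 * M) ≤ ‖S.p v w w' - S.p v w y‖
    · right; exact ⟨e1.trans i2, e1.trans i1'⟩
    · push Not at i2
      have i3 : 1 / (2 * M) ≤ ‖S.p v w x - S.p v w w'‖ := by linarith
      have hs := G1.both w hw w' hw' x hx hww' hwx.symm hw'x.symm
        (by rwa [norm_sub_rev]) (by rwa [norm_sub_rev])
      rcases G2.two w hw w' hw' y hy hww' hwy.symm hw'y.symm hs with h3 | h3
      · right; rw [norm_sub_rev] at h3; exact ⟨e2.trans h3, e1.trans i1'⟩
      · left; rw [norm_sub_rev] at h3; exact ⟨e2.trans h3, e1.trans i3⟩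

/-- Uniqueness of positions inside a piece. -/
theorem Sys.Good.inU {S : Sys V E} (h : S.Good) (M : ℝ) (hM : 1 ≤ M) (K : ℝ) (hK : 0 ≤ K) :
    ∃ K', 0 ≤ K' ∧ ∀ v, ∀ x ∈ S.N v, ∀ y ∈ S.N v, x ≠ y → ∀ τ w b w' b',
      S.InPos M K v x y τ w b → S.InPos M K v x y τ w' b' → w ≠ w' →
      S.s v w w' ≤ K' ∧ ‖b - S.p v w w'‖ ≤ K' ∧ ‖b' - S.p v w' w‖ ≤ K' ∧
      ‖S.D v x w' - S.D v x w - S.D v w w'‖ ≤ K' := by
  obtain ⟨M', hMM', ho⟩ := h.order M hM
  obtain ⟨K1, hK1, hMK1, g1⟩ := h.at' (max M' (2 * K + 2))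
  obtain ⟨K2, hK2, hK12, g2⟩ := h.at' (2 * K + 2 * K1 + 1)
  have hM'1 : 1 ≤ M' := hM.trans hMM'
  have hm1 : M' ≤ max M' (2 * K + 2) := le_max_left _ _
  have hMm : M ≤ max M' (2 * K + 2) := hMM'.trans hm1
  have hm2 : 2 * K + 2 ≤ max M' (2 * K + 2) := le_max_right _ _
  set KK := K2 + 4 * K + 4 * K1 + 4 with hKK
  refine ⟨KK, by linarith, ?_⟩
  -- ordered version
  have main : ∀ v, ∀ x ∈ S.N v, ∀ y ∈ S.N v, x ≠ y → ∀ τ w b w' b',
      S.InPos M K v x y τ w b → S.InPos M K v x y τ w' b' → w ≠ w' →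
      ((w = x) ∨ (w' = y) ∨ (w ≠ x ∧ w ≠ y ∧ w' ≠ x ∧ w' ≠ y ∧
        1 / M' ≤ ‖S.p v w' w - S.p v w' y‖ ∧ 1 / M' ≤ ‖S.p v w x - S.p v w w'‖)) →
      S.s v w w' ≤ KK ∧ ‖b - S.p v w w'‖ ≤ KK ∧ ‖b' - S.p v w' w‖ ≤ KK ∧
      ‖S.D v x w' - S.D v x w - S.D v w w'‖ ≤ KK := by
    intro v x hx y hy hxy τ w b w' b' P P' hww' hord
    have GM := g1 v M hM hMm
    have GM' := g1 v M' hM'1 hm1
    have G2K := g2 v (2 * K + 2 * K1 + 1) (by linarith) le_rfl
    have base := h.base v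
    have hL1 : ∀ a c, 1 ≤ S.L v a c := base.L_one
    by_cases hwx : w = x
    · subst hwx
      -- w = x
      have Pt : τ ≤ K ∧ ‖b - S.p v w y‖ ≤ max (-τ) 0 + K := by
        rcases P with P | P | P
        · exact P.2
        · exact absurd P.1 hxy
        · exact absurd rfl P.2.1
      rcases P' with P' | P' | P'
      · exact absurd P'.1.symm hww'
      · -- w' = y
        obtain ⟨rfl, p1, p2⟩ := P'
        have q0 := hL1 w w'
        have hLs : S.L v w w' ≤ 2 * K + 2 * K1 + 1 := by linarith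
        have hs := G2K.s_le w hx w' hy hww' hLs
        refine ⟨by linarith, ?_, ?_, ?_⟩
        · have : max (-τ) 0 ≤ K := max_le (by linarith) hK
          linarith [Pt.2]
        · have : max (τ - S.L v w w') 0 ≤ K := max_le (by linarith) hK
          linarith
        · rw [h.D_self]; simp; linarith
      · obtain ⟨hw'N, hw'x, hw'y, r1, r2, r3, r4⟩ := P'
        have q0 := hL1 w w'
        have hLs : S.L v w w' ≤ 2 * K + 2 * K1 + 1 := by linarith
        have hs := G2K.s_le w hx w' hw'N hww' hLs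
        have near := GM.near y hy w hx w' hw'N hxy.symm hw'y hw'x (by rwa [norm_sub_rev])
        refine ⟨by linarith, ?_, ?_, ?_⟩
        · have e1 : max (-τ) 0 ≤ K := max_le (by linarith) hK
          calc ‖b - S.p v w w'‖ = ‖(b - S.p v w y) - (S.p v w w' - S.p v w y)‖ := by
                congr 1; abel
            _ ≤ ‖b - S.p v w y‖ + ‖S.p v w w' - S.p v w y‖ := norm_sub_le _ _
            _ ≤ _ := by linarith [Pt.2]
        · have e1 : ‖cl2 (τ - S.L v w w') (S.p v w' y - S.p v w' w)‖ ≤ K :=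
            (cl2_norm_le _ _).trans (max_le (by linarith) hK)
          calc ‖b' - S.p v w' w‖ = ‖(b' - (S.p v w' w + cl2 (τ - S.L v w w')
                (S.p v w' y - S.p v w' w))) + cl2 (τ - S.L v w w')
                (S.p v w' y - S.p v w' w)‖ := by congr 1; abel
            _ ≤ _ := norm_add_le _ _
            _ ≤ _ := by linarith
        · rw [h.D_self]; simp; linarith
    by_cases hw'y : w' = y
    · subst hw'y
      have Pt' : S.L v x w' - K ≤ τ ∧ ‖b' - S.p v w' x‖ ≤ max (τ - S.L v x w') 0 + K := by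
        rcases P' with P' | P' | P'
        · exact absurd P'.1.symm hxy
        · exact P'.2
        · exact absurd rfl P'.2.2.1
      rcases P with P | P | P
      · exact absurd P.1 hwx
      · exact absurd P.1 hww'
      · obtain ⟨hwN, -, hwy, r1, r2, r3, r4⟩ := P
        have add := GM.add_L x hx w' hy w hwN hxy hwx hwy r1
        have addD := GM.add_D x hx w' hy w hwN hxy hwx hwy r1
        have near := GM.near x hx w' hy w hwN hxy hwx hwy r1
        rw [abs_le] at add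
        have hLs : S.L v w w' ≤ 2 * K + 2 * K1 + 1 := by linarith [Pt'.1]
        have hs := G2K.s_le w hwN w' hy hww' hLs
        have q0 := hL1 w w'
        refine ⟨by linarith, ?_, ?_, ?_⟩
        · -- b close to target
          set z := S.p v w w' - S.p v w x with hz
          have hzn : ‖z‖ = ‖S.p v w x - S.p v w w'‖ := by rw [hz, norm_sub_rev]
          have e1 := sub_cl2_norm_le (τ - S.L v x w) z
          have e2 : max (‖z‖ - (τ - S.L v x w)) 0 ≤ K + K1 := by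
            apply max_le _ (by linarith)
            rw [hzn]; linarith [Pt'.1]
          calc ‖b - S.p v w w'‖ = ‖(b - (S.p v w x + cl2 (τ - S.L v x w) z)) -
                (z - cl2 (τ - S.L v x w) z)‖ := by congr 1; rw [hz]; abel
            _ ≤ _ := norm_sub_le _ _
            _ ≤ _ := by linarith
        · have e1 : max (τ - S.L v x w') 0 ≤ K + K1 := max_le (by linarith) (by linarith)
          calc ‖b' - S.p v w' w‖ = ‖(b' - S.p v w' x) - (S.p v w' w - S.p v w' x)‖ := by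
                congr 1; abel
            _ ≤ _ := norm_sub_le _ _
            _ ≤ _ := by linarith [Pt'.2]
        · linarith
    -- both interior
    rcases hord with ho | ho | ho
    · exact absurd ho hwx
    · exact absurd ho hw'y
    obtain ⟨-, hwy, hw'x, -, o1, o2⟩ := ho
    rcases P with P | P | P
    · exact absurd P.1 hwx
    · exact absurd P.1 hwy
    obtain ⟨hwN, -, -, r1, r2, r3, r4⟩ := P
    rcases P' with P' | P' | P'
    · exact absurd P'.1 hw'x
    · exact absurd P'.1 hw'y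
    obtain ⟨hw'N, -, -, r1', r2', r3', r4'⟩ := P'
    have add := GM'.add_L x hx w' hw'N w hwN hw'x.symm hwx hww' o2
    have addD := GM'.add_D x hx w' hw'N w hwN hw'x.symm hwx hww' o2
    have near := GM'.near x hx w' hw'N w hwN hw'x.symm hwx hww' o2
    have near2 := GM'.near y hy w hwN w' hw'N hwy.symm hw'y hww'.symm
      (by rwa [norm_sub_rev])
    rw [abs_le] at add
    have tri : ‖S.p v w x - S.p v w y‖ ≤ ‖S.p v w x - S.p v w w'‖ + K1 := by
      calc ‖S.p v w x - S.p v w y‖ = ‖(S.p v w x - S.p v w w') +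
            (S.p v w w' - S.p v w y)‖ := by congr 1; abel
        _ ≤ _ := norm_add_le _ _
        _ ≤ _ := by linarith
    have hLs : S.L v w w' ≤ 2 * K + 2 * K1 + 1 := by linarith
    have hs := G2K.s_le w hwN w' hw'N hww' hLs
    have q0 := hL1 w w'
    refine ⟨by linarith, ?_, ?_, ?_⟩
    · set z := S.p v w y - S.p v w x with hz
      have hzn : ‖z‖ = ‖S.p v w x - S.p v w y‖ := by rw [hz, norm_sub_rev]
      have e1 := sub_cl2_norm_le (τ - S.L v x w) z
      have e2 : max (‖z‖ - (τ - S.L v x w)) 0 ≤ K + 2 * K1 := by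
        apply max_le _ (by linarith)
        rw [hzn]; linarith
      calc ‖b - S.p v w w'‖ = ‖(b - (S.p v w x + cl2 (τ - S.L v x w) z)) -
            (z - cl2 (τ - S.L v x w) z) - (S.p v w w' - S.p v w y)‖ := by
              congr 1; rw [hz]; abel
        _ ≤ ‖(b - (S.p v w x + cl2 (τ - S.L v x w) z)) - (z - cl2 (τ - S.L v x w) z)‖ +
            ‖S.p v w w' - S.p v w y‖ := norm_sub_le _ _
        _ ≤ _ := by
          have := norm_sub_le (b - (S.p v w x + cl2 (τ - S.L v x w) z))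
            (z - cl2 (τ - S.L v x w) z)
          linarith
    · have e1 : ‖cl2 (τ - S.L v x w') (S.p v w' y - S.p v w' x)‖ ≤ K + 2 * K1 :=
        (cl2_norm_le _ _).trans (max_le (by linarith) (by linarith))
      calc ‖b' - S.p v w' w‖ = ‖(b' - (S.p v w' x + cl2 (τ - S.L v x w')
            (S.p v w' y - S.p v w' x))) + cl2 (τ - S.L v x w')
            (S.p v w' y - S.p v w' x) - (S.p v w' w - S.p v w' x)‖ := by congr 1; abel
        _ ≤ ‖(b' - (S.p v w' x + cl2 (τ - S.L v x w')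
            (S.p v w' y - S.p v w' x))) + cl2 (τ - S.L v x w')
            (S.p v w' y - S.p v w' x)‖ + ‖S.p v w' w - S.p v w' x‖ := norm_sub_le _ _
        _ ≤ _ := by
          have := norm_add_le (b' - (S.p v w' x + cl2 (τ - S.L v x w')
            (S.p v w' y - S.p v w' x))) (cl2 (τ - S.L v x w') (S.p v w' y - S.p v w' x))
          linarith
    · linarith
  intro v x hx y hy hxy τ w b w' b' P P' hww'
  have base := h.base v
  have swap : (S.s v w' w ≤ KK ∧ ‖b' - S.p v w' w‖ ≤ KK ∧ ‖b - S.p v w w'‖ ≤ KK ∧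
      ‖S.D v x w - S.D v x w' - S.D v w' w‖ ≤ KK) →
      S.s v w w' ≤ KK ∧ ‖b - S.p v w w'‖ ≤ KK ∧ ‖b' - S.p v w' w‖ ≤ KK ∧
      ‖S.D v x w' - S.D v x w - S.D v w w'‖ ≤ KK := by
    rintro ⟨a1, a2, a3, a4⟩
    refine ⟨by rw [base.s_symm]; exact a1, a3, a2, ?_⟩
    rw [base.D_symm w' w] at a4
    calc _ = ‖-(S.D v x w - S.D v x w' - -S.D v w w')‖ := by congr 1; abel
      _ ≤ _ := by rw [norm_neg]; exact a4
  by_cases c1 : w = x
  · exact main v x hx y hy hxy τ w b w' b' P P' hww' (Or.inl c1)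
  by_cases c2 : w' = y
  · exact main v x hx y hy hxy τ w b w' b' P P' hww' (Or.inr (Or.inl c2))
  by_cases c3 : w' = x
  · exact swap (main v x hx y hy hxy τ w' b' w b P' P hww'.symm (Or.inl c3))
  by_cases c4 : w = y
  · exact swap (main v x hx y hy hxy τ w' b' w b P' P hww'.symm (Or.inr (Or.inl c4)))
  -- both interior
  have hw : w ∈ S.N v ∧ 1 / M ≤ ‖S.p v w x - S.p v w y‖ := by
    rcases P with P | P | P
    · exact absurd P.1 c1
    · exact absurd P.1 c4
    · exact ⟨P.1, P.2.2.2.1⟩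
  have hw' : w' ∈ S.N v ∧ 1 / M ≤ ‖S.p v w' x - S.p v w' y‖ := by
    rcases P' with P' | P' | P'
    · exact absurd P'.1 c3
    · exact absurd P'.1 c2
    · exact ⟨P'.1, P'.2.2.2.1⟩
  rcases ho v x hx y hy w hw.1 w' hw'.1 hxy c1 c4 c3 c2 hww' hw.2 hw'.2 with o | o
  · exact main v x hx y hy hxy τ w b w' b' P P' hww' (Or.inr (Or.inr ⟨c1, c4, c3, c2, o.1, o.2⟩))
  · exact swap (main v x hx y hy hxy τ w' b' w b P' P hww'.symm
      (Or.inr (Or.inr ⟨c3, c2, c1, c4, o.1, o.2⟩)))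

end Pool.Agent.H81.HDG
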