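import Mathlib
import Pool.Agent.H81.HDG.InPiece

/-!
# Paths inside one piece: existence of positions and change of the end walls
-/

set_option autoImplicit false
set_option linter.unusedSectionVars false

namespace Pool.Agent.H81.HDG

variable {V E : Type*} [NormedAddCommGroup E] [NormedSpace ℝ E]

theorem tri3 {X : Type*} [NormedAddCommGroup X] (a b c : X) :
    ‖a - c‖ ≤ ‖a - b‖ + ‖b - c‖ := by
  calc ‖a - c‖ = ‖(a - b) + (b - c)‖ := by congr 1; abel
    _ ≤ _ := norm_add_le _ _

/-- At every time between `0` and `L x y` there is a valid wall. -/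
theorem Sys.Good.inEx {S : Sys V E} (h : S.Good) :
    ∃ M K, 1 ≤ M ∧ 0 ≤ K ∧ ∀ v, ∀ x ∈ S.N v, ∀ y ∈ S.N v, x ≠ y → ∀ τ, 0 ≤ τ → τ ≤ S.L v x y →
      (τ ≤ K) ∨ (S.L v x y - K ≤ τ) ∨ ∃ w ∈ S.N v, w ≠ x ∧ w ≠ y ∧
        1 / M ≤ ‖S.p v w x - S.p v w y‖ ∧ S.L v x w - K ≤ τ ∧
        τ ≤ S.L v x w + ‖S.p v w x - S.p v w y‖ + K := by
  obtain ⟨M, hM, hch⟩ := h.chain
  obtain ⟨K1, hK1, hMK1, g1⟩ := h.at' (2 * M)
  obtain ⟨K2, hK2, hMK2, g2⟩ := h.at' K1
  set K := 4 * K1 + 4 * K2 with hKdef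
  refine ⟨M, K, hM, by linarith, ?_⟩
  intro v x hx y hy hxy τ hτ0 hτL
  have base := h.base v
  have hL1 : ∀ a c, 1 ≤ S.L v a c := base.L_one
  have GM := g1 v M hM (by linarith)
  have G2M := g1 v (2 * M) (by linarith) le_rfl
  have GK := g2 v K1 hK1 le_rfl
  have half : 1 / M = 1 / (2 * M) + 1 / (2 * M) := by field_simp; norm_num
  -- lower time
  have key : ∀ z z' (q : (chainGraph (1 / M) M (S.N v) (S.s v) (S.p v) x y).Walk z z'), z' = y →
      z ∈ S.N v → (z = x ∨ z = y ∨ 1 / M ≤ ‖S.p v z x - S.p v z y‖) →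
      (z = x ∨ S.L v x z - K ≤ τ) →
      (τ ≤ K) ∨ (S.L v x y - K ≤ τ) ∨ ∃ w ∈ S.N v, w ≠ x ∧ w ≠ y ∧
        1 / M ≤ ‖S.p v w x - S.p v w y‖ ∧ S.L v x w - K ≤ τ ∧
        τ ≤ S.L v x w + ‖S.p v w x - S.p v w y‖ + K := by
    intro z z' q
    induction q with
    | nil =>
      intro hz hzN hb hl
      subst hz
      rcases hl with hl | hl
      · exact absurd hl.symm hxy
      · right; left; exact hl
    | @cons z z1 z' hadj q ih =>
      intro hz' hzN hb hl
      obtain ⟨hne, hb1, hb2, hs1, hs2⟩ := hadj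
      by_cases hzx : z = x
      · -- z = x
        by_cases hz1 : z1 = x ∨ S.L v x z1 - K ≤ τ
        · exact ih hz' hb2.1 hb2.2 hz1
        · push Not at hz1
          left
          have := GM.L_le x hx z1 hb2.1 (Ne.symm hz1.1) (by rw [← hzx]; exact hs1)
          have := hz1.2
          linarith
      · by_cases hzy : z = y
        · rcases hl with hl | hl
          · exact absurd hl hzx
          · right; left; rw [← hzy]; exact hl
        · have hr : 1 / M ≤ ‖S.p v z x - S.p v z y‖ := by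
            rcases hb with hb | hb | hb
            · exact absurd hb hzx
            · exact absurd hb hzy
            · exact hb
          have hl' : S.L v x z - K ≤ τ := by
            rcases hl with hl | hl
            · exact absurd hl hzx
            · exact hl
          by_cases hz1 : z1 = x ∨ S.L v x z1 - K ≤ τ
          · exact ih hz' hb2.1 hb2.2 hz1
          · push Not at hz1
            obtain ⟨hz1x, hz1τ⟩ := hz1
            right; right
            refine ⟨z, hzN, hzx, hzy, hr, hl', ?_⟩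
            -- upper bound
            have hLz : S.L v z z1 ≤ K1 := GM.L_le z hzN z1 hb2.1 hne hs1
            have claim : S.L v x z1 ≤ S.L v x z + ‖S.p v z x - S.p v z y‖ + (3 * K1 + K2) := by
              rcases GM.two z hzN z1 hb2.1 x hx hne (Ne.symm hzx) (Ne.symm hz1x) hs1 with t | t
              · have a1 := GK.add_L x hx z1 hb2.1 z hzN (Ne.symm hz1x) hzx hne t
                rw [abs_le] at a1
                have a2 : ‖S.p v z x - S.p v z z1‖ ≤ ‖S.p v z x - S.p v z y‖ + K1 := by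
                  by_cases hz1y : z1 = y
                  · rw [hz1y]; linarith
                  · have hr1 : 1 / M ≤ ‖S.p v z1 x - S.p v z1 y‖ := by
                      rcases hb2.2 with hb | hb | hb
                      · exact absurd hb hz1x
                      · exact absurd hb hz1y
                      · exact hb
                    have t3 := tri3 (S.p v z1 x) (S.p v z1 z) (S.p v z1 y)
                    by_cases h5 : 1 / (2 * M) ≤ ‖S.p v z1 z - S.p v z1 y‖
                    · have n1 := G2M.near y hy z hzN z1 hb2.1 (Ne.symm hzy) hz1y hne.symm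
                        (by rwa [norm_sub_rev])
                      have t4 := tri3 (S.p v z x) (S.p v z y) (S.p v z z1)
                      rw [norm_sub_rev (S.p v z y)] at t4
                      linarith
                    · push Not at h5
                      have h6 : 1 / (2 * M) ≤ ‖S.p v z1 x - S.p v z1 z‖ := by linarith
                      have n1 := G2M.near x hx z hzN z1 hb2.1 (Ne.symm hzx) hz1x hne.symm h6
                      rw [norm_sub_rev] at n1
                      linarith [norm_nonneg (S.p v z x - S.p v z y)]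
                linarith
              · have a1 := GK.add_L x hx z hzN z1 hb2.1 (Ne.symm hzx) hz1x hne.symm
                  (by rwa [norm_sub_rev] at t ⊢)
                rw [abs_le] at a1
                have a3 := hL1 z1 z
                linarith [norm_nonneg (S.p v z x - S.p v z y),
                  norm_nonneg (S.p v z1 x - S.p v z1 z)]
            linarith
  obtain ⟨q⟩ := hch v x hx y hy hxy
  exact key x y q rfl hx (Or.inl rfl) (Or.inl rfl)

/-- Changing the exit wall `y` to `y''` with `y` between `x` and `y''`. -/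
theorem Sys.Good.teIn {S : Sys V E} (h : S.Good) (M : ℝ) (hM : 1 ≤ M) :
    ∃ M', M ≤ M' ∧ ∀ v, ∀ x ∈ S.N v, ∀ y ∈ S.N v, ∀ y' ∈ S.N v, ∀ w ∈ S.N v,
      x ≠ y → x ≠ y' → y ≠ y' → w ≠ x → w ≠ y → S.s v y y' ≤ M →
      1 / M ≤ ‖S.p v y x - S.p v y y'‖ → 1 / M ≤ ‖S.p v w x - S.p v w y‖ →
      (w ≠ y' ∧ 1 / M' ≤ ‖S.p v w x - S.p v w y'‖) ∨ (S.L v x y ≤ S.L v x w + M') := by
  obtain ⟨K1, hK1, hMK1, g1⟩ := h.at' (2 * M)
  obtain ⟨K2, hK2, hMK2, g2⟩ := h.at' K1
  refine ⟨4 * K1 + 4 * K2, by linarith, ?_⟩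
  intro v x hx y hy y' hy' w hw hxy hxy' hyy' hwx hwy hs hr1 hr2
  have base := h.base v
  have GM := g1 v M hM (by linarith)
  have G2M := g1 v (2 * M) (by linarith) le_rfl
  have GK := g2 v K1 hK1 le_rfl
  have half : 1 / M = 1 / (2 * M) + 1 / (2 * M) := by field_simp; norm_num
  have e1 : 1 / (4 * K1 + 4 * K2) ≤ 1 / (2 * M) :=
    one_div_le_one_div_of_le (by linarith) (by linarith)
  by_cases hwy' : w = y'
  · subst hwy'
    right
    have a1 := GM.add_L x hx y hy w hw hxy hwx hwy hr2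
    rw [abs_le] at a1
    have n1 := GM.near x hx w hw y hy hwx.symm hxy.symm hyy' hr1
    rw [norm_sub_rev] at n1
    have l1 := GM.L_le y hy w hw hyy' hs
    rw [base.L_symm] at l1
    linarith
  · by_cases h1 : 1 / (2 * M) ≤ ‖S.p v w x - S.p v w y'‖
    · left; exact ⟨hwy', e1.trans h1⟩
    · right
      push Not at h1
      have t1 := tri3 (S.p v w x) (S.p v w y') (S.p v w y)
      have h2 : 1 / (2 * M) ≤ ‖S.p v w y' - S.p v w y‖ := by linarith
      have s1 := G2M.btw_s y' hy' y hy w hw hyy'.symm hwy' hwy h2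
        (by rw [base.s_symm]; linarith)
      have r1 := GM.r_le w hw y hy y' hy' hwy hwy' hyy' hs
      rw [norm_sub_rev] at r1
      have a1 := GM.add_L x hx y hy w hw hxy hwx hwy hr2
      rw [abs_le] at a1
      have l1 := GK.L_le w hw y hy hwy (by rw [base.s_symm]; exact s1)
      have : 1 / (2 * M) ≤ 1 := by
        rw [div_le_one (by linarith)]; linarith
      linarith

/-- Changing the entry wall `x` to `x'` with `x` between `x'` and `y`. -/
theorem Sys.Good.tsIn {S : Sys V E} (h : S.Good) (M : ℝ) (hM : 1 ≤ M) :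
    ∃ M', M ≤ M' ∧ ∀ v, ∀ x ∈ S.N v, ∀ y ∈ S.N v, ∀ x' ∈ S.N v, ∀ w ∈ S.N v,
      x ≠ y → x' ≠ y → x ≠ x' → w ≠ x → w ≠ y → S.s v x x' ≤ M →
      1 / M ≤ ‖S.p v x x' - S.p v x y‖ → 1 / M ≤ ‖S.p v w x - S.p v w y‖ →
      (w ≠ x' ∧ 1 / M' ≤ ‖S.p v w x' - S.p v w y‖) ∨
      (S.L v x w + ‖S.p v w x - S.p v w y‖ ≤ M') := by
  obtain ⟨K1, hK1, hMK1, g1⟩ := h.at' (2 * M)
  obtain ⟨K2, hK2, hMK2, g2⟩ := h.at' K1
  refine ⟨4 * K1 + 4 * K2, by linarith, ?_⟩
  intro v x hx y hy x' hx' w hw hxy hx'y hxx' hwx hwy hs hr1 hr2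
  have base := h.base v
  have GM := g1 v M hM (by linarith)
  have G2M := g1 v (2 * M) (by linarith) le_rfl
  have GK := g2 v K1 hK1 le_rfl
  have half : 1 / M = 1 / (2 * M) + 1 / (2 * M) := by field_simp; norm_num
  have e1 : 1 / (4 * K1 + 4 * K2) ≤ 1 / (2 * M) :=
    one_div_le_one_div_of_le (by linarith) (by linarith)
  by_cases hwx' : w = x'
  · subst hwx'
    right
    have l1 := GM.L_le x hx w hw hxx' hs
    have n1 := GM.near y hy w hw x hx hx'y.symm hxy hxx' (by rwa [norm_sub_rev])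
    linarith
  · by_cases h1 : 1 / (2 * M) ≤ ‖S.p v w x' - S.p v w y‖
    · left; exact ⟨hwx', e1.trans h1⟩
    · right
      push Not at h1
      have t1 := tri3 (S.p v w x) (S.p v w x') (S.p v w y)
      have h2 : 1 / (2 * M) ≤ ‖S.p v w x - S.p v w x'‖ := by linarith
      have s1 := G2M.btw_s x' hx' x hx w hw hxx'.symm hwx' hwx (by rwa [norm_sub_rev])
        (by rw [base.s_symm]; linarith)
      have r1 := GM.r_le w hw x hx x' hx' hwx hwx' hxx' hs
      have l1 := GK.L_le x hx w hw hwx.symm s1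
      have : 1 / (2 * M) ≤ 1 := by
        rw [div_le_one (by linarith)]; linarith
      linarith

/-- Timing comparison used when the entry wall changes. -/
theorem Sys.Good.tsIn2 {S : Sys V E} (h : S.Good) (M : ℝ) (hM : 1 ≤ M) :
    ∃ K, 0 ≤ K ∧ ∀ v, ∀ x ∈ S.N v, ∀ y ∈ S.N v, ∀ x' ∈ S.N v, ∀ w ∈ S.N v,
      x ≠ y → x' ≠ y → x ≠ x' → w ≠ x → w ≠ x' → S.s v x x' ≤ M →
      1 / M ≤ ‖S.p v x x' - S.p v x y‖ →
      (w = y ∨ (1 / M ≤ ‖S.p v w x - S.p v w y‖ ∧ 1 / M ≤ ‖S.p v w x' - S.p v w y‖)) →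
      |S.L v x' w - ‖S.p v x x' - S.p v x y‖ - S.L v x w| ≤ K ∧
      ‖S.D v x' w - S.D v x' x - S.D v x w‖ ≤ K := by
  obtain ⟨K1, hK1, hMK1, g1⟩ := h.at' M
  refine ⟨6 * K1, by linarith, ?_⟩
  intro v x hx y hy x' hx' w hw hxy hx'y hxx' hwx hwx' hs hr1 hr2
  have base := h.base v
  have GM := g1 v M hM le_rfl
  have a1 := GM.add_L x' hx' y hy x hx hx'y hxx' hxy hr1
  have d1 := GM.add_D x' hx' y hy x hx hx'y hxx' hxy hr1
  have l1 := GM.L_le x hx x' hx' hxx' hs
  rw [base.L_symm x x'] at l1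
  have l0 := base.L_one x' x
  rw [abs_le] at a1
  rcases hr2 with hr2 | ⟨hr2, hr3⟩
  · subst hr2
    refine ⟨?_, by linarith⟩
    rw [abs_le]; constructor <;> linarith
  · by_cases hwy : w = y
    · subst hwy
      refine ⟨?_, by linarith⟩
      rw [abs_le]; constructor <;> linarith
    have a2 := GM.add_L x' hx' y hy w hw hx'y hwx' hwy hr3
    have d2 := GM.add_D x' hx' y hy w hw hx'y hwx' hwy hr3
    have a3 := GM.add_L x hx y hy w hw hxy hwx hwy hr2
    have d3 := GM.add_D x hx y hy w hw hxy hwx hwy hr2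
    rw [abs_le] at a2 a3
    have r1 := GM.r_le w hw x hx x' hx' hwx hwx' hxx' hs
    have t1 := tri3 (S.p v w x) (S.p v w x') (S.p v w y)
    have t2 := tri3 (S.p v w x') (S.p v w x) (S.p v w y)
    rw [norm_sub_rev (S.p v w x') (S.p v w x)] at t2
    refine ⟨?_, ?_⟩
    · rw [abs_le]; constructor <;> linarith
    · calc ‖S.D v x' w - S.D v x' x - S.D v x w‖
          = ‖(S.D v x' y - S.D v x' x - S.D v x y) - (S.D v x' y - S.D v x' w - S.D v w y) +
            (S.D v x y - S.D v x w - S.D v w y)‖ := by congr 1; abel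
        _ ≤ ‖(S.D v x' y - S.D v x' x - S.D v x y) - (S.D v x' y - S.D v x' w - S.D v w y)‖ +
            ‖S.D v x y - S.D v x w - S.D v w y‖ := norm_add_le _ _
        _ ≤ ‖S.D v x' y - S.D v x' x - S.D v x y‖ + ‖S.D v x' y - S.D v x' w - S.D v w y‖ +
            ‖S.D v x y - S.D v x w - S.D v w y‖ := by
            gcongr
            exact norm_sub_le _ _
        _ ≤ _ := by linarith

end Pool.Agent.H81.HDG
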