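import Mathlib
import Pool.Agent.H81.HDG.InPiece2

/-!
# States, records and paths
-/

set_option autoImplicit false
set_option linter.unusedSectionVars false

namespace Pool.Agent.H81.HDG

/-- A point on the wall `{a, b}`: `fa`, `fb` are the fibre coordinates of the two pieces, `c` is the
remaining coordinate. -/
@[ext] structure St (V E : Type*) where
  a : V
  b : V
  fa : E
  fb : E
  c : E

/-- the same point with the other orientation -/
def St.rev {V E : Type*} (z : St V E) : St V E := ⟨z.b, z.a, z.fb, z.fa, z.c⟩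

@[simp] theorem St.rev_rev {V E : Type*} (z : St V E) : z.rev.rev = z := rfl

/-- The record at an oriented wall: arrival time `A`, start time `B` of the near fibre coordinate,
near fibre coordinate `f`, far fibre coordinate `φ`, remaining coordinate `γ`. -/
@[ext] structure Rec (E : Type*) where
  A : ℝ
  B : ℝ
  f : E
  φ : E
  γ : E

variable {V E : Type*} [NormedAddCommGroup E]

/-- initial record -/
def St.ini (z : St V E) : Rec E := ⟨0, 0, z.fa, z.fb, z.c⟩

/-- departure time from the wall `{x,v}` towards `{v,y}` -/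
noncomputable def Sys.dep (S : Sys V E) (x v y : V) (R : Rec E) : ℝ :=
  max (R.A + ‖(S.p v x y).2 - R.γ‖) (R.B + ‖(S.p v x y).1 - R.f‖)

/-- transfer of records -/
noncomputable def Sys.tr (S : Sys V E) (x v y : V) (R : Rec E) : Rec E :=
  ⟨S.dep x v y R + S.L v x y, R.A, R.φ + S.D v x y, (S.p v y x).1, (S.p v y x).2⟩

/-- Path data from the state `s` to the state `s'`, both oriented in the direction of travel. -/
structure PD (S : Sys V E) (s s' : St V E) where
  m : ℕ
  x : ℕ → V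
  R : ℕ → Rec E
  R' : ℕ → Rec E
  x0 : x 0 = s.a
  x1 : x 1 = s.b
  xm : x m = s'.a
  xm1 : x (m + 1) = s'.b
  adj : ∀ i ≤ m, S.G.Adj (x i) (x (i + 1))
  nb : ∀ i < m, x i ≠ x (i + 2)
  R0 : R 0 = s.ini
  Rs : ∀ i < m, R (i + 1) = S.tr (x i) (x (i + 1)) (x (i + 2)) (R i)
  Rm : R' m = s'.rev.ini
  Rs' : ∀ i < m, R' i = S.tr (x (i + 2)) (x (i + 1)) (x i) (R' (i + 1))

namespace PD

variable {S : Sys V E} {s s' : St V E}

/-- departure time from wall `i` -/
noncomputable def dp (pd : PD S s s') (i : ℕ) : ℝ :=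
  S.dep (pd.x i) (pd.x (i + 1)) (pd.x (i + 2)) (pd.R i)

theorem A_succ (pd : PD S s s') {i : ℕ} (hi : i < pd.m) :
    (pd.R (i + 1)).A = pd.dp i + S.L (pd.x (i + 1)) (pd.x i) (pd.x (i + 2)) := by
  rw [pd.Rs i hi]; rfl

theorem A_le_dp (pd : PD S s s') (i : ℕ) : (pd.R i).A ≤ pd.dp i := by
  unfold dp Sys.dep
  refine le_trans ?_ (le_max_left _ _)
  linarith [norm_nonneg ((S.p (pd.x (i + 1)) (pd.x i) (pd.x (i + 2))).2 - (pd.R i).γ)]

theorem B_succ (pd : PD S s s') {i : ℕ} (hi : i < pd.m) : (pd.R (i + 1)).B = (pd.R i).A := by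
  rw [pd.Rs i hi]; rfl

variable [NormedSpace ℝ E]

theorem dp_lt_A (hS : S.Good) (pd : PD S s s') {i : ℕ} (hi : i < pd.m) :
    pd.dp i + 1 ≤ (pd.R (i + 1)).A := by
  rw [pd.A_succ hi]
  have := (hS.base (pd.x (i + 1))).L_one (pd.x i) (pd.x (i + 2))
  linarith

theorem A_mono (hS : S.Good) (pd : PD S s s') {i j : ℕ} (hij : i ≤ j) (hj : j ≤ pd.m) :
    (pd.R i).A + ((j : ℝ) - i) ≤ (pd.R j).A := by
  induction j, hij using Nat.le_induction with
  | base => simp
  | succ j hij ih =>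
    have h1 := ih (by omega)
    have h2 := pd.dp_lt_A hS (i := j) (by omega)
    have h3 := pd.A_le_dp j
    push_cast
    linarith

theorem A_nonneg (hS : S.Good) (pd : PD S s s') {i : ℕ} (hi : i ≤ pd.m) : 0 ≤ (pd.R i).A := by
  have := pd.A_mono hS (Nat.zero_le i) hi
  rw [pd.R0] at this
  have h2 : (0 : ℝ) ≤ i := Nat.cast_nonneg _
  simp only [St.ini, Nat.cast_zero, sub_zero, zero_add] at this
  linarith

theorem B_le_A (hS : S.Good) (pd : PD S s s') {i : ℕ} (hi : i ≤ pd.m) :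
    (pd.R i).B ≤ (pd.R i).A := by
  cases i with
  | zero => rw [pd.R0]; rfl
  | succ i =>
    rw [pd.B_succ (by omega)]
    have h2 := pd.dp_lt_A hS (i := i) (by omega)
    have h3 := pd.A_le_dp i
    linarith

/-- position on the wall `i` at time `t` -/
noncomputable def wallPos (pd : PD S s s') (i : ℕ) (t : ℝ) : St V E where
  a := pd.x i
  b := pd.x (i + 1)
  fa := (pd.R i).f + cl (t - (pd.R i).B) ((pd.R' i).φ - (pd.R i).f)
  fb := (pd.R i).φ + cl (t - (pd.R i).A) ((pd.R' i).f - (pd.R i).φ)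
  c := (pd.R i).γ + cl (t - (pd.R i).A) ((pd.R' i).γ - (pd.R i).γ)

/-- displacement of the fibre coordinate of the piece `x (i+1)` -/
noncomputable def th (pd : PD S s s') (i : ℕ) : E :=
  (pd.R' (i + 1)).φ - (pd.R i).φ - S.D (pd.x (i + 1)) (pd.x i) (pd.x (i + 2))

/-- fibre coordinate of the piece `x (i+1)` at the wall `w` at time `t` -/
noncomputable def fv (pd : PD S s s') (i : ℕ) (w : V) (t : ℝ) : E :=
  (pd.R i).φ + S.D (pd.x (i + 1)) (pd.x i) w + cl (t - (pd.R i).A) (pd.th i)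

/-- remaining coordinates at an intermediate wall -/
noncomputable def bv (pd : PD S s s') (i : ℕ) (w : V) (t : ℝ) : E × E :=
  S.p (pd.x (i + 1)) w (pd.x i) +
    cl2 (t - pd.dp i - S.L (pd.x (i + 1)) (pd.x i) w)
      (S.p (pd.x (i + 1)) w (pd.x (i + 2)) - S.p (pd.x (i + 1)) w (pd.x i))

/-- position on the wall `{x (i+1), w}` inside the piece `x (i+1)` at time `t` -/
noncomputable def inPos (pd : PD S s s') (i : ℕ) (w : V) (t : ℝ) : St V E where
  a := pd.x (i + 1)
  b := w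
  fa := pd.fv i w t
  fb := (pd.bv i w t).1
  c := (pd.bv i w t).2

open Classical in
/-- position at a wall of the piece `x (i+1)`, oriented away from the piece -/
noncomputable def locPos (pd : PD S s s') (i : ℕ) (w : V) (t : ℝ) : St V E :=
  if w = pd.x i then (pd.wallPos i t).rev
  else if w = pd.x (i + 2) then pd.wallPos (i + 1) t
  else pd.inPos i w t

/-- validity of a wall at a time -/
def Val (pd : PD S s s') (M K : ℝ) (i : ℕ) (w : V) (t : ℝ) : Prop :=
  (w = pd.x i ∧ (pd.R i).A - K ≤ t ∧ t ≤ pd.dp i + K) ∨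
  (w = pd.x (i + 2) ∧ (pd.R (i + 1)).A - K ≤ t ∧ (i + 1 < pd.m → t ≤ pd.dp (i + 1) + K)) ∨
  (w ∈ S.N (pd.x (i + 1)) ∧ w ≠ pd.x i ∧ w ≠ pd.x (i + 2) ∧
    1 / M ≤ ‖S.p (pd.x (i + 1)) w (pd.x i) - S.p (pd.x (i + 1)) w (pd.x (i + 2))‖ ∧
    pd.dp i + S.L (pd.x (i + 1)) (pd.x i) w - K ≤ t ∧
    t ≤ pd.dp i + S.L (pd.x (i + 1)) (pd.x i) w +
      ‖S.p (pd.x (i + 1)) w (pd.x i) - S.p (pd.x (i + 1)) w (pd.x (i + 2))‖ + K)

theorem memN (pd : PD S s s') {i : ℕ} (hi : i < pd.m) :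
    pd.x i ∈ S.N (pd.x (i + 1)) ∧ pd.x (i + 2) ∈ S.N (pd.x (i + 1)) :=
  ⟨(pd.adj i (by omega)).symm, pd.adj (i + 1) (by omega)⟩

/-- fibre coordinate of `locPos` -/
theorem locPos_fa (hS : S.Good) (pd : PD S s s') {i : ℕ} (hi : i < pd.m) (w : V) (t : ℝ) :
    (pd.locPos i w t).fa = pd.fv i w t := by
  unfold locPos
  split_ifs with h1 h2
  · subst h1
    change (pd.wallPos i t).fb = _
    unfold wallPos fv th
    simp only
    rw [pd.Rs' i hi]
    unfold Sys.tr
    simp only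
    rw [hS.D_self, (hS.base _).D_symm (pd.x (i + 2)) (pd.x i)]
    congr 2
    · abel
    · abel
  · subst h2
    unfold wallPos fv th
    simp only
    rw [pd.Rs i hi]
    unfold Sys.tr
    simp only
    congr 2
    abel
  · rfl

theorem locPos_a (pd : PD S s s') (i : ℕ) (w : V) (t : ℝ) :
    (pd.locPos i w t).a = pd.x (i + 1) := by
  unfold locPos
  split_ifs with h1 h2
  · rfl
  · rfl
  · rfl

theorem locPos_b (pd : PD S s s') (i : ℕ) (w : V) (t : ℝ) :
    (pd.locPos i w t).b = w := by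
  unfold locPos
  split_ifs with h1 h2
  · exact h1.symm
  · exact h2.symm
  · rfl

/-- The remaining coordinates satisfy the position predicate. -/
theorem locPos_inPos (pd : PD S s s') {i : ℕ} (hi : i < pd.m) {M K : ℝ} (hK : 0 ≤ K)
    {w : V} {t : ℝ} (hv : pd.Val M K i w t) :
    S.InPos M K (pd.x (i + 1)) (pd.x i) (pd.x (i + 2)) (t - pd.dp i) w
      ((pd.locPos i w t).fb, (pd.locPos i w t).c) := by
  have hne := pd.nb i hi
  rcases hv with ⟨h1, h2, h3⟩ | ⟨h1, h2, h3⟩ | ⟨h1, h2, h3, h4, h5, h6⟩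
  · left
    refine ⟨h1, by linarith, ?_⟩
    unfold locPos
    rw [if_pos h1]
    change ‖((pd.wallPos i t).fa, (pd.wallPos i t).c) - _‖ ≤ _
    unfold wallPos
    simp only
    rw [pd.Rs' i hi]
    unfold Sys.tr
    simp only
    set q := S.p (pd.x (i + 1)) (pd.x i) (pd.x (i + 2)) with hq
    have d1 : (pd.R i).A + ‖q.2 - (pd.R i).γ‖ ≤ pd.dp i := le_max_left _ _
    have d2 : (pd.R i).B + ‖q.1 - (pd.R i).f‖ ≤ pd.dp i := le_max_right _ _
    rw [Prod.norm_def]
    refine le_trans (max_le ?_ ?_) (by linarith : max (-(t - pd.dp i)) 0 ≤ _)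
    · change ‖(pd.R i).f + cl (t - (pd.R i).B) (q.1 - (pd.R i).f) - q.1‖ ≤ _
      have e : (pd.R i).f + cl (t - (pd.R i).B) (q.1 - (pd.R i).f) - q.1 =
          -((q.1 - (pd.R i).f) - cl (t - (pd.R i).B) (q.1 - (pd.R i).f)) := by abel
      rw [e, norm_neg, norm_sub_cl]
      apply max_le_max _ le_rfl
      have := le_max_left (t - (pd.R i).B) 0
      linarith
    · change ‖(pd.R i).γ + cl (t - (pd.R i).A) (q.2 - (pd.R i).γ) - q.2‖ ≤ _
      have e : (pd.R i).γ + cl (t - (pd.R i).A) (q.2 - (pd.R i).γ) - q.2 =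
          -((q.2 - (pd.R i).γ) - cl (t - (pd.R i).A) (q.2 - (pd.R i).γ)) := by abel
      rw [e, norm_neg, norm_sub_cl]
      apply max_le_max _ le_rfl
      have := le_max_left (t - (pd.R i).A) 0
      linarith
  · right; left
    have hA := pd.A_succ hi
    refine ⟨h1, by linarith, ?_⟩
    unfold locPos
    rw [if_neg (by rw [h1]; exact hne.symm), if_pos h1]
    unfold wallPos
    simp only
    have e0 : t - pd.dp i - S.L (pd.x (i + 1)) (pd.x i) (pd.x (i + 2)) =
        t - (pd.R (i + 1)).A := by rw [hA]; ring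
    rw [e0]
    have eφ : (pd.R (i + 1)).φ = (S.p (pd.x (i + 1)) (pd.x (i + 2)) (pd.x i)).1 := by
      rw [pd.Rs i hi]; rfl
    have eγ : (pd.R (i + 1)).γ = (S.p (pd.x (i + 1)) (pd.x (i + 2)) (pd.x i)).2 := by
      rw [pd.Rs i hi]; rfl
    rw [Prod.norm_def]
    refine le_trans (max_le ?_ ?_)
      (by linarith : max (t - (pd.R (i + 1)).A) 0 ≤ max (t - (pd.R (i + 1)).A) 0 + K)
    · change ‖(pd.R (i + 1)).φ + cl (t - (pd.R (i + 1)).A) _ -
        (S.p (pd.x (i + 1)) (pd.x (i + 2)) (pd.x i)).1‖ ≤ _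
      rw [← eφ, add_sub_cancel_left, norm_cl]
      exact min_le_left _ _
    · change ‖(pd.R (i + 1)).γ + cl (t - (pd.R (i + 1)).A) _ -
        (S.p (pd.x (i + 1)) (pd.x (i + 2)) (pd.x i)).2‖ ≤ _
      rw [← eγ, add_sub_cancel_left, norm_cl]
      exact min_le_left _ _
  · right; right
    refine ⟨h1, h2, h3, h4, by linarith, by linarith, ?_⟩
    unfold locPos
    rw [if_neg h2, if_neg h3]
    change ‖pd.bv i w t - _‖ ≤ _
    unfold bv
    rw [sub_self, norm_zero]
    exact hK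

end PD

/-! ### Closeness of states -/

section near

/-- Elementary closeness of states. -/
inductive Nb (S : Sys V E) (K : ℝ) : St V E → St V E → Prop
  | rev (z : St V E) : Nb S K z z.rev
  | same {z z' : St V E} (ha : z.a = z'.a) (hb : z.b = z'.b) (h1 : ‖z.fa - z'.fa‖ ≤ K)
      (h2 : ‖z.fb - z'.fb‖ ≤ K) (h3 : ‖z.c - z'.c‖ ≤ K) : Nb S K z z'
  | cross {z z' : St V E} (ha : z.a = z'.a) (h1 : S.G.Adj z.a z.b) (h2 : S.G.Adj z.a z'.b)
      (hne : z.b ≠ z'.b) (hs : S.s z.a z.b z'.b ≤ K)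
      (hb : ‖(z.fb, z.c) - S.p z.a z.b z'.b‖ ≤ K) (hb' : ‖(z'.fb, z'.c) - S.p z.a z'.b z.b‖ ≤ K)
      (hf : ‖z'.fa - z.fa - S.D z.a z.b z'.b‖ ≤ K) : Nb S K z z'

theorem Nb.mono {S : Sys V E} {K K' : ℝ} (h : K ≤ K') {z z' : St V E} (hz : Nb S K z z') :
    Nb S K' z z' := by
  cases hz with
  | rev => exact Nb.rev z
  | same ha hb h1 h2 h3 => exact Nb.same ha hb (h1.trans h) (h2.trans h) (h3.trans h)
  | cross ha h1 h2 hne hs hb hb' hf =>
    exact Nb.cross ha h1 h2 hne (hs.trans h) (hb.trans h) (hb'.trans h) (hf.trans h)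

theorem Nb.symm {S : Sys V E} (hS : S.Good) {K : ℝ} {z z' : St V E} (hz : Nb S K z z') :
    Nb S K z' z := by
  cases hz with
  | rev => exact Nb.rev z.rev
  | same ha hb h1 h2 h3 =>
    exact Nb.same ha.symm hb.symm (by rwa [norm_sub_rev]) (by rwa [norm_sub_rev])
      (by rwa [norm_sub_rev])
  | cross ha h1 h2 hne hs hb hb' hf =>
    refine Nb.cross ha.symm (by rw [← ha]; exact h2) (by rw [← ha]; exact h1) hne.symm ?_ ?_ ?_ ?_
    · rw [← ha, (hS.base _).s_symm]; exact hs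
    · rw [← ha]; exact hb'
    · rw [← ha]; exact hb
    · rw [← ha, (hS.base _).D_symm, ← norm_neg]
      calc _ = ‖z'.fa - z.fa - S.D z.a z.b z'.b‖ := by congr 1; abel
        _ ≤ _ := hf

/-- Chains. -/
inductive NearN (S : Sys V E) (K : ℝ) : ℕ → St V E → St V E → Prop
  | refl (z : St V E) : NearN S K 0 z z
  | step {n : ℕ} {z w z' : St V E} (h : Nb S K z w) (h' : NearN S K n w z') :
      NearN S K (n + 1) z z'

theorem NearN.mono {S : Sys V E} {K K' : ℝ} (h : K ≤ K') {n : ℕ} {z z' : St V E}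
    (hz : NearN S K n z z') : NearN S K' n z z' := by
  induction hz with
  | refl z => exact NearN.refl z
  | step h1 _ ih => exact NearN.step (h1.mono h) ih

theorem NearN.trans {S : Sys V E} {K : ℝ} {n n' : ℕ} {z z' z'' : St V E}
    (h : NearN S K n z z') (h' : NearN S K n' z' z'') : NearN S K (n + n') z z'' := by
  induction h with
  | refl z => simpa using h'
  | @step n z w z' h1 _ ih =>
    have := NearN.step h1 (ih h')
    rwa [show n + 1 + n' = n + n' + 1 by ring]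

theorem NearN.symm {S : Sys V E} (hS : S.Good) {K : ℝ} {n : ℕ} {z z' : St V E}
    (h : NearN S K n z z') : NearN S K n z' z := by
  induction h with
  | refl z => exact NearN.refl z
  | @step n z w z' h1 _ ih =>
    exact ih.trans (NearN.step (h1.symm hS) (NearN.refl _))

/-- Coarse closeness. -/
def Near (S : Sys V E) (K : ℝ) (z z' : St V E) : Prop :=
  ∃ n : ℕ, (n : ℝ) ≤ K ∧ NearN S K n z z'

theorem Near.mono {S : Sys V E} {K K' : ℝ} (h : K ≤ K') {z z' : St V E} (hz : Near S K z z') :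
    Near S K' z z' := by
  obtain ⟨n, hn, h1⟩ := hz
  exact ⟨n, hn.trans h, h1.mono h⟩

theorem Near.refl (S : Sys V E) {K : ℝ} (hK : 0 ≤ K) (z : St V E) : Near S K z z :=
  ⟨0, by simpa using hK, NearN.refl z⟩

theorem Near.of_nb {S : Sys V E} {K : ℝ} (hK : 1 ≤ K) {z z' : St V E} (h : Nb S K z z') :
    Near S K z z' := ⟨1, by simpa using hK, NearN.step h (NearN.refl _)⟩

theorem Near.symm {S : Sys V E} (hS : S.Good) {K : ℝ} {z z' : St V E} (h : Near S K z z') :
    Near S K z' z := by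
  obtain ⟨n, hn, h1⟩ := h
  exact ⟨n, hn, h1.symm hS⟩

theorem Near.nonneg {S : Sys V E} {K : ℝ} {z z' : St V E} (h : Near S K z z') : 0 ≤ K := by
  obtain ⟨n, hn, _⟩ := h
  exact (Nat.cast_nonneg n).trans hn

theorem Near.trans {S : Sys V E} {K K' : ℝ} {z z' z'' : St V E} (h : Near S K z z')
    (h' : Near S K' z' z'') : Near S (K + K') z z'' := by
  have k0 := h.nonneg
  have k1 := h'.nonneg
  obtain ⟨n, hn, h1⟩ := h
  obtain ⟨n', hn', h1'⟩ := h'
  refine ⟨n + n', by push_cast; linarith, ?_⟩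
  exact (h1.mono (by linarith)).trans (h1'.mono (by linarith))

end near

end Pool.Agent.H81.HDG
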