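import Mathlib
import Pool.Agent.H81.HDG.Path

/-!
# Uniqueness and existence of the position at a given time
-/

set_option autoImplicit false
set_option linter.unusedSectionVars false

namespace Pool.Agent.H81.HDG

variable {V E : Type*} [NormedAddCommGroup E] [NormedSpace ℝ E]

namespace PD

variable {S : Sys V E} {s s' : St V E}

theorem Val.memN {pd : PD S s s'} {M K : ℝ} {i : ℕ} (hi : i < pd.m) {w : V} {t : ℝ}
    (h : pd.Val M K i w t) : w ∈ S.N (pd.x (i + 1)) := by
  rcases h with h | h | h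
  · rw [h.1]; exact (pd.memN hi).1
  · rw [h.1]; exact (pd.memN hi).2
  · exact h.1

theorem Val.mono {pd : PD S s s'} {M K M' K' : ℝ} {i : ℕ} {w : V} {t : ℝ}
    (h : pd.Val M K i w t) (hM0 : 1 ≤ M) (hM : M ≤ M') (hK : K ≤ K') : pd.Val M' K' i w t := by
  have e : 1 / M' ≤ 1 / M := one_div_le_one_div_of_le (by linarith) hM
  rcases h with h | h | h
  · left; exact ⟨h.1, by linarith [h.2.1], by linarith [h.2.2]⟩
  · right; left; exact ⟨h.1, by linarith [h.2.1], fun hi => by linarith [h.2.2 hi]⟩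
  · right; right
    obtain ⟨h1, h2, h3, h4, h5, h6⟩ := h
    exact ⟨h1, h2, h3, e.trans h4, by linarith, by linarith⟩

theorem Val.mono' {pd : PD S s s'} {M K K' : ℝ} {i : ℕ} {w : V} {t : ℝ}
    (h : pd.Val M K i w t) (hK : K ≤ K') : pd.Val M K' i w t := by
  rcases h with h | h | h
  · left; exact ⟨h.1, by linarith [h.2.1], by linarith [h.2.2]⟩
  · right; left; exact ⟨h.1, by linarith [h.2.1], fun hi => by linarith [h.2.2 hi]⟩
  · right; right
    obtain ⟨h1, h2, h3, h4, h5, h6⟩ := h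
    exact ⟨h1, h2, h3, h4, by linarith, by linarith⟩

end PD

theorem Sys.Good.locNear {S : Sys V E} (hS : S.Good) (M : ℝ) (hM : 1 ≤ M) (K : ℝ) (hK : 0 ≤ K) :
    ∃ K', 1 ≤ K' ∧ ∀ (s s' : St V E) (pd : PD S s s') (i : ℕ), i < pd.m → ∀ (w w' : V) (t : ℝ),
      pd.Val M K i w t → pd.Val M K i w' t → Near S K' (pd.locPos i w t) (pd.locPos i w' t) := by
  obtain ⟨K', hK', h⟩ := hS.inU M hM K hK
  refine ⟨K' + 1, by linarith, ?_⟩
  intro s s' pd i hi w w' t hw hw'
  by_cases hww' : w = w'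
  · subst hww'; exact Near.refl S (by linarith) _
  have mem := pd.memN hi
  have hne := pd.nb i hi
  obtain ⟨a1, a2, a3, a4⟩ := h (pd.x (i + 1)) (pd.x i) mem.1 (pd.x (i + 2)) mem.2 hne
    (t - pd.dp i) w _ w' _ (pd.locPos_inPos hi hK hw) (pd.locPos_inPos hi hK hw') hww'
  apply Near.of_nb (by linarith)
  have haw := pd.locPos_a i w t
  have hbw := pd.locPos_b i w t
  have haw' := pd.locPos_a i w' t
  have hbw' := pd.locPos_b i w' t
  refine Nb.cross (by rw [haw, haw']) ?_ ?_ ?_ ?_ ?_ ?_ ?_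
  · rw [haw, hbw]; exact hw.memN hi
  · rw [haw, hbw']; exact hw'.memN hi
  · rw [hbw, hbw']; exact hww'
  · rw [haw, hbw, hbw']; linarith
  · rw [haw, hbw, hbw']; linarith
  · rw [haw, hbw, hbw']; linarith
  · rw [haw, hbw, hbw', pd.locPos_fa hS hi, pd.locPos_fa hS hi]
    unfold PD.fv
    calc _ = ‖S.D (pd.x (i + 1)) (pd.x i) w' - S.D (pd.x (i + 1)) (pd.x i) w -
          S.D (pd.x (i + 1)) w w'‖ := by congr 1; abel
      _ ≤ _ := by linarith

namespace PD

variable {S : Sys V E} {s s' : St V E}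

/-- exact position at time `t` -/
def TP (pd : PD S s s') (M K t : ℝ) (z : St V E) : Prop :=
  (pd.m = 0 ∧ z = pd.wallPos 0 t ∧ -K ≤ t) ∨
  ∃ i < pd.m, ∃ w, pd.Val M K i w t ∧ z = pd.locPos i w t

theorem Val.lower (hS : S.Good) {pd : PD S s s'} {M K : ℝ} {j : ℕ} (hj : j < pd.m)
    {w : V} {t : ℝ} (h : pd.Val M K j w t) : (pd.R j).A - K ≤ t := by
  have h1 := pd.A_le_dp j
  have h2 := pd.dp_lt_A hS hj
  have h3 := (hS.base (pd.x (j + 1))).L_one (pd.x j) w
  rcases h with h | h | h
  · exact h.2.1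
  · linarith [h.2.1]
  · linarith [h.2.2.2.2.1]

end PD

theorem Sys.Good.val_upper {S : Sys V E} (hS : S.Good) (M : ℝ) (hM : 1 ≤ M) (K : ℝ) (hK : 0 ≤ K) :
    ∃ K', K ≤ K' ∧ ∀ (s s' : St V E) (pd : PD S s s') (i : ℕ), i + 1 < pd.m → ∀ (w : V) (t : ℝ),
      pd.Val M K i w t → t ≤ pd.dp (i + 1) + K' := by
  obtain ⟨K1, hK1, hMK1, g1⟩ := hS.at' M
  refine ⟨K + K1, by linarith, ?_⟩
  intro s s' pd i hi w t h
  have h1 := pd.A_le_dp (i + 1)
  have h2 := pd.dp_lt_A hS (i := i) (by omega)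
  have mem := pd.memN (i := i) (by omega)
  have hne := pd.nb i (by omega)
  rcases h with h | h | h
  · linarith [h.2.2]
  · linarith [h.2.2 hi]
  · obtain ⟨q1, q2, q3, q4, q5, q6⟩ := h
    have add := (g1 (pd.x (i + 1)) M hM le_rfl).add_L (pd.x i) mem.1 (pd.x (i + 2)) mem.2 w q1 hne
      q2 q3 q4
    rw [abs_le] at add
    have h3 := (hS.base (pd.x (i + 1))).L_one w (pd.x (i + 2))
    have h4 := pd.A_succ (i := i) (by omega)
    linarith

theorem Sys.Good.unique {S : Sys V E} (hS : S.Good) (M : ℝ) (hM : 1 ≤ M) (K : ℝ) (hK : 0 ≤ K) :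
    ∃ K', 1 ≤ K' ∧ ∀ (s s' : St V E) (pd : PD S s s') (t : ℝ) (z z' : St V E),
      pd.TP M K t z → pd.TP M K t z' → Near S K' z z' := by
  obtain ⟨Kb, hKb, hup⟩ := hS.val_upper M hM K hK
  obtain ⟨K0, hK0, hloc⟩ := hS.locNear M hM Kb (by linarith)
  obtain ⟨n0, hn0⟩ := exists_nat_ge (K + Kb)
  set KK := K0 + (K0 + 1) * n0 + 1 + K0 with hKK
  have hn0' : (0 : ℝ) ≤ n0 := Nat.cast_nonneg _
  have hprod : 0 ≤ (K0 + 1) * n0 := by positivity
  refine ⟨KK, by linarith, ?_⟩
  -- ordered version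
  have main : ∀ (s s' : St V E) (pd : PD S s s') (t : ℝ) (i j : ℕ) (w w' : V), j < pd.m →
      i ≤ j → pd.Val M K i w t → pd.Val M K j w' t →
      Near S KK (pd.locPos i w t) (pd.locPos j w' t) := by
    intro s s' pd t i j w w' hj hij hw hw'
    rcases hij.eq_or_lt with rfl | hij'
    · exact (hloc s s' pd i hj w w' t (hw.mono hM le_rfl hKb) (hw'.mono hM le_rfl hKb)).mono
        (by linarith)
    have hi : i + 1 < pd.m := by omega
    have tup := hup s s' pd i hi w t hw
    have tlow := hw'.lower hS hj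
    -- walls in between are valid
    have wv : ∀ k, i + 1 ≤ k → k ≤ j → (pd.R k).A - Kb ≤ t ∧ t ≤ pd.dp k + Kb := by
      intro k hk1 hk2
      have m1 := pd.A_mono hS hk2 (by omega)
      have hkj : (k : ℝ) ≤ j := by exact_mod_cast hk2
      refine ⟨by linarith, ?_⟩
      rcases hk1.eq_or_lt with rfl | hk1'
      · exact tup
      · obtain ⟨k', rfl⟩ : ∃ k', k = k' + 1 := ⟨k - 1, by omega⟩
        have m2 := pd.A_mono hS (i := i + 2) (j := k' + 1) (by omega) (by omega)
        have m3 := pd.dp_lt_A hS (i := i + 1) (by omega)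
        have m4 := pd.A_le_dp (k' + 1)
        have : ((i + 2 : ℕ) : ℝ) ≤ ((k' + 1 : ℕ) : ℝ) := by exact_mod_cast (by omega)
        linarith
    have step1 : Near S K0 (pd.locPos i w t) (pd.wallPos (i + 1) t) := by
      have hv : pd.Val M Kb i (pd.x (i + 2)) t := by
        right; left
        exact ⟨rfl, (wv (i + 1) le_rfl (by omega)).1, fun _ => (wv (i + 1) le_rfl (by omega)).2⟩
      have := hloc s s' pd i (by omega) w _ t (hw.mono hM le_rfl hKb) hv
      have e : pd.locPos i (pd.x (i + 2)) t = pd.wallPos (i + 1) t := by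
        unfold PD.locPos
        rw [if_neg (pd.nb i (by omega)).symm, if_pos rfl]
      rwa [e] at this
    have step2 : ∀ n, i + 1 + n ≤ j →
        Near S ((K0 + 1) * n) (pd.wallPos (i + 1) t) (pd.wallPos (i + 1 + n) t) := by
      intro n
      induction n with
      | zero => intro _; simpa using Near.refl S le_rfl _
      | succ n ih =>
        intro hn
        have h1 := ih (by omega)
        set k := i + 1 + n with hk
        have hv1 : pd.Val M Kb k (pd.x k) t := by
          left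
          exact ⟨rfl, (wv k (by omega) (by omega)).1, (wv k (by omega) (by omega)).2⟩
        have hv2 : pd.Val M Kb k (pd.x (k + 2)) t := by
          right; left
          exact ⟨rfl, (wv (k + 1) (by omega) (by omega)).1,
            fun _ => (wv (k + 1) (by omega) (by omega)).2⟩
        have h2 := hloc s s' pd k (by omega) _ _ t hv1 hv2
        have e1 : pd.locPos k (pd.x (k + 2)) t = pd.wallPos (k + 1) t := by
          unfold PD.locPos
          rw [if_neg (pd.nb k (by omega)).symm, if_pos rfl]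
        have e2 : pd.locPos k (pd.x k) t = (pd.wallPos k t).rev := by
          unfold PD.locPos
          rw [if_pos rfl]
        rw [e1, e2] at h2
        have h3 : Near S 1 (pd.wallPos k t) (pd.wallPos k t).rev := Near.of_nb le_rfl (Nb.rev _)
        have h4 := (h1.trans h3).trans h2
        refine (h4.mono ?_)
        push_cast
        ring_nf
        linarith
    have step3 : Near S (1 + K0) (pd.wallPos j t) (pd.locPos j w' t) := by
      have hv1 : pd.Val M Kb j (pd.x j) t := by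
        left
        exact ⟨rfl, (wv j (by omega) (by omega)).1, (wv j (by omega) (by omega)).2⟩
      have h2 := hloc s s' pd j hj _ _ t hv1 (hw'.mono hM le_rfl hKb)
      have e2 : pd.locPos j (pd.x j) t = (pd.wallPos j t).rev := by
        unfold PD.locPos
        rw [if_pos rfl]
      rw [e2] at h2
      have h3 : Near S 1 (pd.wallPos j t) (pd.wallPos j t).rev := Near.of_nb le_rfl (Nb.rev _)
      exact h3.trans h2
    obtain ⟨n, hn⟩ : ∃ n, j = i + 1 + n := ⟨j - (i + 1), by omega⟩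
    have hnb : (n : ℝ) ≤ n0 := by
      rcases Nat.eq_zero_or_pos n with h0 | h0
      · subst h0; simpa using hn0'
      · have m2 := pd.A_mono hS (i := i + 2) (j := j) (by omega) (by omega)
        have m3 := pd.dp_lt_A hS (i := i + 1) (by omega)
        have e : ((j : ℕ) : ℝ) = (i : ℝ) + 1 + n := by rw [hn]; push_cast; ring
        push_cast at m2
        rw [e] at m2
        linarith
    have s2 := step2 n (by omega)
    rw [← hn] at s2
    have := (step1.trans s2).trans step3
    refine this.mono ?_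
    have : (K0 + 1) * (n : ℝ) ≤ (K0 + 1) * n0 := by gcongr
    linarith
  intro s s' pd t z z' hz hz'
  rcases hz with ⟨hm, hz, _⟩ | ⟨i, hi, w, hw, hz⟩
  · rcases hz' with ⟨_, hz', _⟩ | ⟨j, hj, _⟩
    · rw [hz, hz']; exact Near.refl S (by linarith) _
    · omega
  · rcases hz' with ⟨hm, _, _⟩ | ⟨j, hj, w', hw', hz'⟩
    · omega
    · rw [hz, hz']
      rcases le_total i j with hij | hij
      · exact main s s' pd t i j w w' hj hij hw hw'
      · exact (main s s' pd t j i w' w hi hij hw' hw).symm hS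

/-- Existence of positions. -/
theorem Sys.Good.exists_TP {S : Sys V E} (hS : S.Good) :
    ∃ M K, 1 ≤ M ∧ 0 ≤ K ∧ ∀ (s s' : St V E) (pd : PD S s s') (t : ℝ), 0 ≤ t →
      ∃ z, pd.TP M K t z := by
  obtain ⟨M, K, hM, hK, h⟩ := hS.inEx
  refine ⟨M, K, hM, hK, ?_⟩
  intro s s' pd t ht
  rcases Nat.eq_zero_or_pos pd.m with hm | hm
  · exact ⟨_, Or.inl ⟨hm, rfl, by linarith⟩⟩
  by_cases hA : (pd.R pd.m).A ≤ t
  · refine ⟨_, Or.inr ⟨pd.m - 1, by omega, pd.x (pd.m - 1 + 2), Or.inr (Or.inl ⟨rfl, ?_, ?_⟩),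
      rfl⟩⟩
    · rw [show pd.m - 1 + 1 = pd.m by omega]; linarith
    · intro h; omega
  · classical
    -- first index with t < A
    have hex : ∃ k, k ≤ pd.m ∧ t < (pd.R k).A := ⟨pd.m, le_rfl, not_le.1 hA⟩
    set k := Nat.find hex with hk
    have hk1 := Nat.find_spec hex
    rw [← hk] at hk1
    have hk0 : k ≠ 0 := by
      intro h0
      have := hk1.2
      rw [h0, pd.R0] at this
      simp only [St.ini] at this
      linarith
    obtain ⟨i, hik⟩ : ∃ i, k = i + 1 := ⟨k - 1, by omega⟩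
    have hi : i < pd.m := by omega
    have hAi : (pd.R i).A ≤ t := by
      have := Nat.find_min hex (m := i) (by omega)
      push Not at this
      exact this (by omega)
    have hAi1 : t < (pd.R (i + 1)).A := by rw [← hik]; exact hk1.2
    have mem := pd.memN hi
    have hne := pd.nb i hi
    by_cases hd : t ≤ pd.dp i
    · exact ⟨_, Or.inr ⟨i, hi, pd.x i, Or.inl ⟨rfl, by linarith, by linarith⟩, rfl⟩⟩
    · push Not at hd
      have hA1 := pd.A_succ hi
      rcases h (pd.x (i + 1)) (pd.x i) mem.1 (pd.x (i + 2)) mem.2 hne (t - pd.dp i) (by linarith)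
        (by linarith) with h1 | h1 | ⟨w, hwN, hw1, hw2, hw3, hw4, hw5⟩
      · exact ⟨_, Or.inr ⟨i, hi, pd.x i, Or.inl ⟨rfl, by linarith, by linarith⟩, rfl⟩⟩
      · refine ⟨_, Or.inr ⟨i, hi, pd.x (i + 2), Or.inr (Or.inl ⟨rfl, by linarith, ?_⟩), rfl⟩⟩
        intro _
        have := pd.A_le_dp (i + 1)
        linarith
      · exact ⟨_, Or.inr ⟨i, hi, w, Or.inr (Or.inr ⟨hwN, hw1, hw2, hw3, by linarith,
          by linarith⟩), rfl⟩⟩

end Pool.Agent.H81.HDG
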