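import Mathlib
import Pool.Agent.H81.HDG.Unique

/-!
# Closeness of records and positions
-/

set_option autoImplicit false
set_option linter.unusedSectionVars false

namespace Pool.Agent.H81.HDG

variable {V E : Type*} [NormedAddCommGroup E] [NormedSpace ℝ E]

/-- closeness of records -/
structure RC (M : ℝ) (R R' : Rec E) : Prop where
  h1 : |R.A - R'.A| + ‖R.γ - R'.γ‖ ≤ M
  h2 : |R.B - R'.B| + ‖R.f - R'.f‖ ≤ M
  h3 : |R.A - R'.A| + ‖R.φ - R'.φ‖ ≤ M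

/-- closeness of the coordinates of records -/
structure CC (M : ℝ) (R R' : Rec E) : Prop where
  f : ‖R.f - R'.f‖ ≤ M
  φ : ‖R.φ - R'.φ‖ ≤ M
  γ : ‖R.γ - R'.γ‖ ≤ M

theorem RC.cc {M : ℝ} {R R' : Rec E} (h : RC M R R') : CC M R R' :=
  ⟨by linarith [h.h2, abs_nonneg (R.B - R'.B)], by linarith [h.h3, abs_nonneg (R.A - R'.A)],
    by linarith [h.h1, abs_nonneg (R.A - R'.A)]⟩

theorem RC.A {M : ℝ} {R R' : Rec E} (h : RC M R R') : |R.A - R'.A| ≤ M := by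
  linarith [h.h1, norm_nonneg (R.γ - R'.γ)]

theorem RC.B {M : ℝ} {R R' : Rec E} (h : RC M R R') : |R.B - R'.B| ≤ M := by
  linarith [h.h2, norm_nonneg (R.f - R'.f)]

theorem RC.nonneg {M : ℝ} {R R' : Rec E} (h : RC M R R') : 0 ≤ M :=
  (abs_nonneg _).trans h.A

theorem CC.nonneg {M : ℝ} {R R' : Rec E} (h : CC M R R') : 0 ≤ M :=
  (norm_nonneg _).trans h.f

theorem RC.refl {M : ℝ} (hM : 0 ≤ M) (R : Rec E) : RC M R R := ⟨by simpa, by simpa, by simpa⟩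

theorem CC.refl {M : ℝ} (hM : 0 ≤ M) (R : Rec E) : CC M R R := ⟨by simpa, by simpa, by simpa⟩

theorem RC.mono {M M' : ℝ} (hM : M ≤ M') {R R' : Rec E} (h : RC M R R') : RC M' R R' :=
  ⟨h.h1.trans hM, h.h2.trans hM, h.h3.trans hM⟩

theorem CC.mono {M M' : ℝ} (hM : M ≤ M') {R R' : Rec E} (h : CC M R R') : CC M' R R' :=
  ⟨h.f.trans hM, h.φ.trans hM, h.γ.trans hM⟩

theorem abs_max_sub_le {a b c d M : ℝ} (h1 : |a - c| ≤ M) (h2 : |b - d| ≤ M) :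
    |max a b - max c d| ≤ M :=
  (abs_max_sub_max_le_max a b c d).trans (max_le h1 h2)

theorem aux_norm_shift (q r r' : E) (A A' M : ℝ) (h : |A - A'| + ‖r - r'‖ ≤ M) :
    |A + ‖q - r‖ - (A' + ‖q - r'‖)| ≤ M := by
  have h1 : |‖q - r‖ - ‖q - r'‖| ≤ ‖r - r'‖ := by
    calc |‖q - r‖ - ‖q - r'‖| ≤ ‖(q - r) - (q - r')‖ := abs_norm_sub_norm_le _ _
      _ = ‖r - r'‖ := by rw [sub_sub_sub_cancel_left, norm_sub_rev]
  calc |A + ‖q - r‖ - (A' + ‖q - r'‖)| = |(A - A') + (‖q - r‖ - ‖q - r'‖)| := by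
        congr 1; ring
    _ ≤ |A - A'| + |‖q - r‖ - ‖q - r'‖| := abs_add_le _ _
    _ ≤ _ := by linarith

theorem RC.dep {S : Sys V E} {M : ℝ} {R R' : Rec E} (h : RC M R R') (x v y : V) :
    |S.dep x v y R - S.dep x v y R'| ≤ M := by
  unfold Sys.dep
  exact abs_max_sub_le (aux_norm_shift _ _ _ _ _ _ h.h1) (aux_norm_shift _ _ _ _ _ _ h.h2)

theorem RC.tr {S : Sys V E} {M : ℝ} {R R' : Rec E} (h : RC M R R') (x v y : V) :
    RC M (S.tr x v y R) (S.tr x v y R') := by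
  have hd := h.dep (S := S) x v y
  refine ⟨?_, ?_, ?_⟩
  · simp only [Sys.tr, sub_self, norm_zero, add_zero]
    rw [add_sub_add_right_eq_sub]; exact hd
  · simp only [Sys.tr]
    rw [add_sub_add_right_eq_sub]; exact h.h3
  · simp only [Sys.tr, sub_self, norm_zero, add_zero]
    rw [add_sub_add_right_eq_sub]; exact hd

theorem CC.tr {S : Sys V E} {M : ℝ} {R R' : Rec E} (h : CC M R R') (x v y : V) :
    CC M (S.tr x v y R) (S.tr x v y R') := by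
  have h0 := h.nonneg
  refine ⟨?_, ?_, ?_⟩
  · simp only [Sys.tr]
    rw [add_sub_add_right_eq_sub]; exact h.φ
  · simp only [Sys.tr, sub_self, norm_zero]; exact h0
  · simp only [Sys.tr, sub_self, norm_zero]; exact h0

/-- distance of moving points -/
theorem mv_close (f f' g g' : E) (t t' K : ℝ) (h1 : ‖f - f'‖ ≤ K) (h2 : ‖g - g'‖ ≤ K)
    (h3 : |t - t'| ≤ K) : ‖(f + cl t (g - f)) - (f' + cl t' (g' - f'))‖ ≤ 6 * K := by
  have h4 := cl_close t t' (g - f) (g' - f')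
  have h5 : ‖(g - f) - (g' - f')‖ ≤ 2 * K := by
    calc _ = ‖(g - g') - (f - f')‖ := by congr 1; abel
      _ ≤ _ := norm_sub_le _ _
      _ ≤ _ := by linarith
  calc _ = ‖(f - f') + (cl t (g - f) - cl t' (g' - f'))‖ := by congr 1; abel
    _ ≤ _ := norm_add_le _ _
    _ ≤ _ := by linarith

theorem mv_close2 (f f' g g' : E × E) (t t' K : ℝ) (h1 : ‖f - f'‖ ≤ K) (h2 : ‖g - g'‖ ≤ K)
    (h3 : |t - t'| ≤ K) : ‖(f + cl2 t (g - f)) - (f' + cl2 t' (g' - f'))‖ ≤ 6 * K := by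
  have h4 := cl2_close t t' (g - f) (g' - f')
  have h5 : ‖(g - f) - (g' - f')‖ ≤ 2 * K := by
    calc _ = ‖(g - g') - (f - f')‖ := by congr 1; abel
      _ ≤ _ := norm_sub_le _ _
      _ ≤ _ := by linarith
  calc _ = ‖(f - f') + (cl2 t (g - f) - cl2 t' (g' - f'))‖ := by congr 1; abel
    _ ≤ _ := norm_add_le _ _
    _ ≤ _ := by linarith

/-- the target is almost reached -/
theorem almost_done (g r : E) (τ M : ℝ) (h : ‖g - r‖ ≤ τ + M) (hM : 0 ≤ M) :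
    ‖(r + cl τ (g - r)) - g‖ ≤ M := by
  have e : (r + cl τ (g - r)) - g = -((g - r) - cl τ (g - r)) := by abel
  rw [e, norm_neg, norm_sub_cl]
  apply max_le _ hM
  have := le_max_left τ 0
  linarith

theorem almost_start (g r : E) (τ M : ℝ) (h : ‖g - r‖ ≤ M) :
    ‖(r + cl τ (g - r)) - r‖ ≤ M := by
  rw [add_sub_cancel_left]
  exact (norm_cl_le _ _).trans h

theorem almost_start' (g r : E) (τ M : ℝ) (h : τ ≤ M) (hM : 0 ≤ M) :
    ‖(r + cl τ (g - r)) - r‖ ≤ M := by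
  rw [add_sub_cancel_left, norm_cl]
  exact (min_le_left _ _).trans (max_le h hM)

namespace PD

variable {S : Sys V E} {s s' s₂ s₂' : St V E}

theorem wall_close (pd : PD S s s') (pd₂ : PD S s₂ s₂') (i j : ℕ) (K t : ℝ)
    (hx0 : pd.x i = pd₂.x j) (hx1 : pd.x (i + 1) = pd₂.x (j + 1))
    (hR : RC K (pd.R i) (pd₂.R j)) (hR' : CC K (pd.R' i) (pd₂.R' j)) :
    Nb S (6 * K) (pd.wallPos i t) (pd₂.wallPos j t) := by
  have hA : |t - (pd.R i).A - (t - (pd₂.R j).A)| ≤ K := by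
    rw [sub_sub_sub_cancel_left, abs_sub_comm]; exact hR.A
  have hB : |t - (pd.R i).B - (t - (pd₂.R j).B)| ≤ K := by
    rw [sub_sub_sub_cancel_left, abs_sub_comm]; exact hR.B
  refine Nb.same hx0 hx1 ?_ ?_ ?_
  · exact mv_close _ _ _ _ _ _ _ hR.cc.f hR'.φ hB
  · exact mv_close _ _ _ _ _ _ _ hR.cc.φ hR'.f hA
  · exact mv_close _ _ _ _ _ _ _ hR.cc.γ hR'.γ hA

theorem wall_close_rev (pd : PD S s s') (pd₂ : PD S s₂ s₂') (i j : ℕ) (K t : ℝ)
    (hx0 : pd.x i = pd₂.x j) (hx1 : pd.x (i + 1) = pd₂.x (j + 1))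
    (hR : RC K (pd.R i) (pd₂.R j)) (hR' : CC K (pd.R' i) (pd₂.R' j)) :
    Nb S (6 * K) (pd.wallPos i t).rev (pd₂.wallPos j t).rev := by
  have hA : |t - (pd.R i).A - (t - (pd₂.R j).A)| ≤ K := by
    rw [sub_sub_sub_cancel_left, abs_sub_comm]; exact hR.A
  have hB : |t - (pd.R i).B - (t - (pd₂.R j).B)| ≤ K := by
    rw [sub_sub_sub_cancel_left, abs_sub_comm]; exact hR.B
  refine Nb.same hx1 hx0 ?_ ?_ ?_
  · exact mv_close _ _ _ _ _ _ _ hR.cc.φ hR'.f hA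
  · exact mv_close _ _ _ _ _ _ _ hR.cc.f hR'.φ hB
  · exact mv_close _ _ _ _ _ _ _ hR.cc.γ hR'.γ hA

theorem in_close (pd : PD S s s') (pd₂ : PD S s₂ s₂') (i j : ℕ) (w : V) (K t : ℝ)
    (hx1 : pd.x (i + 1) = pd₂.x (j + 1))
    (hf : ‖((pd.R i).φ + S.D (pd.x (i + 1)) (pd.x i) w) -
      ((pd₂.R j).φ + S.D (pd₂.x (j + 1)) (pd₂.x j) w)‖ ≤ K)
    (hA : |(pd.R i).A - (pd₂.R j).A| ≤ K) (hth : ‖pd.th i - pd₂.th j‖ ≤ K)
    (hp0 : ‖S.p (pd.x (i + 1)) w (pd.x i) - S.p (pd₂.x (j + 1)) w (pd₂.x j)‖ ≤ K)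
    (hp1 : ‖S.p (pd.x (i + 1)) w (pd.x (i + 2)) - S.p (pd₂.x (j + 1)) w (pd₂.x (j + 2))‖ ≤ K)
    (hL : |(pd.dp i + S.L (pd.x (i + 1)) (pd.x i) w) -
      (pd₂.dp j + S.L (pd₂.x (j + 1)) (pd₂.x j) w)| ≤ K) :
    Nb S (6 * K) (pd.inPos i w t) (pd₂.inPos j w t) := by
  have hK : 0 ≤ K := (abs_nonneg _).trans hA
  have hb : ‖pd.bv i w t - pd₂.bv j w t‖ ≤ 6 * K := by
    unfold bv
    apply mv_close2 _ _ _ _ _ _ _ hp0 hp1
    calc _ = |(pd.dp i + S.L (pd.x (i + 1)) (pd.x i) w) -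
      (pd₂.dp j + S.L (pd₂.x (j + 1)) (pd₂.x j) w)| := by
          rw [abs_sub_comm]; congr 1; ring
      _ ≤ K := hL
  refine Nb.same hx1 rfl ?_ ?_ ?_
  · change ‖pd.fv i w t - pd₂.fv j w t‖ ≤ _
    unfold fv
    have h4 := cl_close (t - (pd.R i).A) (t - (pd₂.R j).A) (pd.th i) (pd₂.th j)
    have h5 : |t - (pd.R i).A - (t - (pd₂.R j).A)| ≤ K := by
      rw [sub_sub_sub_cancel_left, abs_sub_comm]; exact hA
    calc _ = ‖(((pd.R i).φ + S.D (pd.x (i + 1)) (pd.x i) w) -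
      ((pd₂.R j).φ + S.D (pd₂.x (j + 1)) (pd₂.x j) w)) + (cl (t - (pd.R i).A) (pd.th i) -
        cl (t - (pd₂.R j).A) (pd₂.th j))‖ := by congr 1; abel
      _ ≤ _ := norm_add_le _ _
      _ ≤ _ := by linarith
  · exact (norm_fst_le (pd.bv i w t - pd₂.bv j w t)).trans hb
  · exact (norm_snd_le (pd.bv i w t - pd₂.bv j w t)).trans hb

/-- Positions at corresponding vertices of two paths. -/
theorem bulk (pd : PD S s s') (pd₂ : PD S s₂ s₂') (i j : ℕ) (hi : i < pd.m) (hj : j < pd₂.m)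
    (w : V) (M K K₁ t : ℝ) (hK₁ : 1 ≤ K₁)
    (hx0 : pd.x i = pd₂.x j) (hx1 : pd.x (i + 1) = pd₂.x (j + 1))
    (hx2 : pd.x (i + 2) = pd₂.x (j + 2))
    (hR : RC K₁ (pd.R i) (pd₂.R j)) (hR' : CC K₁ (pd.R' (i + 1)) (pd₂.R' (j + 1)))
    (hv : pd.Val M K i w t)
    (hup : w = pd.x (i + 2) → j + 1 < pd₂.m → t ≤ pd₂.dp (j + 1) + (K + K₁)) :
    pd₂.Val M (K + K₁) j w t ∧ Near S (12 * K₁) (pd.locPos i w t) (pd₂.locPos j w t) := by
  have hd : |pd.dp i - pd₂.dp j| ≤ K₁ := by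
    unfold dp
    rw [hx0, hx1, hx2]
    exact hR.dep _ _ _
  have hA := hR.A
  have hR1 : RC K₁ (pd.R (i + 1)) (pd₂.R (j + 1)) := by
    rw [pd.Rs i hi, pd₂.Rs j hj, hx0, hx1, hx2]
    exact hR.tr _ _ _
  have hR'0 : CC K₁ (pd.R' i) (pd₂.R' j) := by
    rw [pd.Rs' i hi, pd₂.Rs' j hj, hx0, hx1, hx2]
    exact hR'.tr _ _ _
  have hA1 := hR1.A
  rw [abs_le] at hd hA hA1
  constructor
  · rcases hv with ⟨h1, h2, h3⟩ | ⟨h1, h2, h3⟩ | ⟨h1, h2, h3, h4, h5, h6⟩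
    · left
      exact ⟨h1.trans hx0, by linarith, by linarith⟩
    · right; left
      exact ⟨h1.trans hx2, by linarith, hup h1⟩
    · right; right
      rw [← hx0, ← hx1, ← hx2]
      exact ⟨h1, h2, h3, h4, by linarith, by linarith⟩
  · unfold locPos
    rw [← hx0, ← hx2]
    split_ifs with h1 h2
    · exact (Near.of_nb (by linarith) (wall_close_rev pd pd₂ i j K₁ t hx0 hx1 hR hR'0)).mono
        (by linarith)
    · exact (Near.of_nb (by linarith)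
        (wall_close pd pd₂ (i + 1) (j + 1) K₁ t hx1 hx2 hR1 hR')).mono (by linarith)
    · rw [show (12 : ℝ) * K₁ = 6 * (2 * K₁) by ring]
      apply Near.of_nb (by linarith)
      have h0 : (0 : ℝ) ≤ 2 * K₁ := by linarith
      apply in_close pd pd₂ i j w (2 * K₁) t hx1
      · rw [← hx0, ← hx1, add_sub_add_right_eq_sub]; linarith [hR.cc.φ]
      · linarith [hR.A]
      · unfold th
        rw [← hx0, ← hx1, ← hx2]
        calc _ = ‖((pd.R' (i + 1)).φ - (pd₂.R' (j + 1)).φ) - ((pd.R i).φ - (pd₂.R j).φ)‖ := by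
              congr 1; abel
          _ ≤ _ := norm_sub_le _ _
          _ ≤ _ := by linarith [hR.cc.φ, hR'.φ]
      · rw [← hx0, ← hx1, sub_self, norm_zero]; exact h0
      · rw [← hx2, ← hx1, sub_self, norm_zero]; exact h0
      · rw [← hx0, ← hx1, add_sub_add_right_eq_sub, abs_le]; constructor <;> linarith

end PD

end Pool.Agent.H81.HDG
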