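import Mathlib
import Pool.Agent.H81.HDG.Close

/-!
# Change of the end points: bulk cases
-/

set_option autoImplicit false
set_option linter.unusedSectionVars false

namespace Pool.Agent.H81.HDG

variable {V E : Type*} [NormedAddCommGroup E] [NormedSpace ℝ E]

namespace PD

variable {S : Sys V E} {s s' s₂ s₂' : St V E}

theorem fwd_close (pd : PD S s s') (pd₂ : PD S s₂ s₂') (a b N : ℕ) (K : ℝ)
    (ha : a + N ≤ pd.m) (hb : b + N ≤ pd₂.m)
    (hx : ∀ k ≤ N + 1, pd.x (a + k) = pd₂.x (b + k)) (h : RC K (pd.R a) (pd₂.R b)) :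
    ∀ k ≤ N, RC K (pd.R (a + k)) (pd₂.R (b + k)) := by
  intro k
  induction k with
  | zero => intro _; simpa using h
  | succ k ih =>
    intro hk
    have h1 := ih (by omega)
    have e1 := hx k (by omega)
    have e2 := hx (k + 1) (by omega)
    have e3 := hx (k + 2) (by omega)
    rw [show a + (k + 1) = a + k + 1 by ring, show b + (k + 1) = b + k + 1 by ring,
      pd.Rs (a + k) (by omega), pd₂.Rs (b + k) (by omega)]
    rw [show a + (k + 1) = a + k + 1 by ring, show b + (k + 1) = b + k + 1 by ring] at e2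
    rw [show a + (k + 2) = a + k + 2 by ring, show b + (k + 2) = b + k + 2 by ring] at e3
    rw [e1, e2, e3]
    exact h1.tr _ _ _

theorem bwd_close (pd : PD S s s') (pd₂ : PD S s₂ s₂') (a b N : ℕ) (K : ℝ)
    (ha : a + N ≤ pd.m) (hb : b + N ≤ pd₂.m)
    (hx : ∀ k ≤ N + 1, pd.x (a + k) = pd₂.x (b + k))
    (h : CC K (pd.R' (a + N)) (pd₂.R' (b + N))) :
    ∀ k ≤ N, CC K (pd.R' (a + k)) (pd₂.R' (b + k)) := by
  intro k hk
  obtain ⟨n, hn⟩ : ∃ n, k + n = N := ⟨N - k, by omega⟩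
  induction n generalizing k with
  | zero =>
    have : k = N := by omega
    rw [this]; exact h
  | succ n ih =>
    have h1 := ih (k + 1) (by omega) (by omega)
    have e1 := hx k (by omega)
    have e2 := hx (k + 1) (by omega)
    have e3 := hx (k + 2) (by omega)
    rw [show a + (k + 1) = a + k + 1 by ring, show b + (k + 1) = b + k + 1 by ring] at e2 h1
    rw [show a + (k + 2) = a + k + 2 by ring, show b + (k + 2) = b + k + 2 by ring] at e3
    rw [pd.Rs' (a + k) (by omega), pd₂.Rs' (b + k) (by omega), e1, e2, e3]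
    exact h1.tr _ _ _

theorem TP_last (pd : PD S s s') {M K t : ℝ} (h : (pd.R pd.m).A - K ≤ t) :
    pd.TP M K t (pd.wallPos pd.m t) := by
  rcases Nat.eq_zero_or_pos pd.m with hm | hm
  · left
    refine ⟨hm, by rw [hm], ?_⟩
    rw [hm, pd.R0] at h
    simp only [St.ini] at h
    linarith
  · right
    refine ⟨pd.m - 1, by omega, pd.x (pd.m - 1 + 2), Or.inr (Or.inl ⟨rfl, ?_, ?_⟩), ?_⟩
    · rw [show pd.m - 1 + 1 = pd.m by omega]; exact h
    · intro h; omega
    · unfold locPos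
      rw [if_neg (pd.nb (pd.m - 1) (by omega)).symm, if_pos rfl,
        show pd.m - 1 + 1 = pd.m by omega]

theorem TP_cases (pd : PD S s s') {M K t : ℝ} {z : St V E} (h : pd.TP M K t z) :
    (z = pd.wallPos pd.m t ∧ (pd.R pd.m).A - K ≤ t) ∨
    (∃ i < pd.m, ∃ w, pd.Val M K i w t ∧ z = pd.locPos i w t ∧
      (w = pd.x (i + 2) → i + 1 < pd.m)) := by
  rcases h with ⟨hm, hz, ht⟩ | ⟨i, hi, w, hv, hz⟩
  · left
    refine ⟨by rw [hm]; exact hz, ?_⟩
    rw [hm, pd.R0]
    simp only [St.ini]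
    linarith
  · by_cases hlast : w = pd.x (i + 2) ∧ ¬ i + 1 < pd.m
    · left
      have him : i + 1 = pd.m := by omega
      have hne := pd.nb i hi
      rcases hv with hv | hv | hv
      · exact absurd (hv.1.symm.trans hlast.1) hne
      · rw [← him]
        refine ⟨?_, hv.2.1⟩
        rw [hz]
        unfold locPos
        rw [if_neg (by rw [hlast.1]; exact hne.symm), if_pos hlast.1]
      · exact absurd hlast.1 hv.2.2.1
    · right
      exact ⟨i, hi, w, hv, hz, fun hw => by tauto⟩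

theorem dp_close (pd : PD S s s') (pd₂ : PD S s₂ s₂') (i j : ℕ) (K : ℝ)
    (h0 : pd.x i = pd₂.x j) (h1 : pd.x (i + 1) = pd₂.x (j + 1)) (h2 : pd.x (i + 2) = pd₂.x (j + 2))
    (h : RC K (pd.R i) (pd₂.R j)) : |pd.dp i - pd₂.dp j| ≤ K := by
  unfold dp
  rw [h0, h1, h2]
  exact h.dep _ _ _

/-- the conclusion of the transfer theorems -/
def Tr (pd : PD S s s') (pd₂ : PD S s₂ s₂') (M K M' K' : ℝ) : Prop :=
  ∀ t z, pd.TP M K t z → ∃ z₂, pd₂.TP M' K' t z₂ ∧ Near S K' z z₂

/-- Change of the states within their walls. -/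
theorem t1 (pd : PD S s s') (pd₂ : PD S s₂ s₂') (M K K₁ : ℝ) (hK : 0 ≤ K) (hK₁ : 1 ≤ K₁)
    (hm : pd₂.m = pd.m) (hx : ∀ k ≤ pd.m + 1, pd.x k = pd₂.x k)
    (h1 : RC K₁ s.ini s₂.ini) (h2 : CC K₁ s'.rev.ini s₂'.rev.ini) :
    Tr pd pd₂ M K M (K + 12 * K₁) := by
  have hx' : ∀ k ≤ pd.m + 1, pd.x (0 + k) = pd₂.x (0 + k) := by simpa using hx
  have F := fwd_close pd pd₂ 0 0 pd.m K₁ (by omega) (by omega) hx' (by rw [pd.R0, pd₂.R0]; exact h1)
  have B := bwd_close pd pd₂ 0 0 pd.m K₁ (by omega) (by omega) hx' (by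
    simp only [zero_add]
    rw [pd.Rm, ← hm, pd₂.Rm]; exact h2)
  simp only [zero_add] at F B
  intro t z hz
  rcases pd.TP_cases hz with ⟨hz, ht⟩ | ⟨i, hi, w, hv, hz, hw⟩
  · refine ⟨pd₂.wallPos pd₂.m t, ?_, ?_⟩
    · apply TP_last
      have := (F pd.m le_rfl).A
      rw [abs_le] at this
      rw [hm]
      linarith
    · rw [hz, hm]
      exact (Near.of_nb (by linarith) (wall_close pd pd₂ pd.m pd.m K₁ t (hx _ (by omega))
        (hx _ (by omega)) (F _ le_rfl) (B _ le_rfl))).mono (by linarith)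
  · have hb := bulk pd pd₂ i i hi (by omega) w M K K₁ t hK₁ (hx _ (by omega)) (hx _ (by omega))
      (hx _ (by omega)) (F i (by omega)) (B (i + 1) (by omega)) hv (by
        intro hw1 _
        have hi1 := hw hw1
        have hd := dp_close pd pd₂ (i + 1) (i + 1) K₁ (hx _ (by omega)) (hx _ (by omega))
          (hx _ (by omega)) (F (i + 1) (by omega))
        rw [abs_le] at hd
        rcases hv with hv | hv | hv
        · exact absurd (hv.1.symm.trans hw1) (pd.nb i hi)
        · linarith [hv.2.2 hi1]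
        · exact absurd hw1 hv.2.2.1)
    refine ⟨_, Or.inr ⟨i, by omega, w, hb.1.mono' ?_, rfl⟩, ?_⟩
    · linarith
    · rw [hz]; exact hb.2.mono (by linarith)

/-- Extension at the end. -/
theorem te2 (hS : S.Good) (K₀ M K : ℝ) (hK : 0 ≤ K) :
    ∃ K', ∀ (s s' s₂' : St V E) (pd : PD S s s') (pd₂ : PD S s s₂'), pd₂.m = pd.m + 1 →
      (∀ k ≤ pd.m + 1, pd.x k = pd₂.x k) →
      S.s s'.b s'.a s₂'.b ≤ K₀ → ‖(s'.fa, s'.c) - S.p s'.b s'.a s₂'.b‖ ≤ K₀ →
      ‖(s₂'.fb, s₂'.c) - S.p s'.b s₂'.b s'.a‖ ≤ K₀ → ‖s₂'.fa - s'.fb - S.D s'.b s'.a s₂'.b‖ ≤ K₀ →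
      Tr pd pd₂ M K M K' := by
  set K₁ := max K₀ 0 + 1 with hK₁def
  obtain ⟨K1, hK1, hMK1, g1⟩ := hS.at' K₁
  have hK₀₁ : K₀ ≤ K₁ := by have := le_max_left K₀ 0; linarith
  have hK₁ : 1 ≤ K₁ := by have := le_max_right K₀ 0; linarith
  refine ⟨K + 12 * K₁ + K1 + 2, ?_⟩
  intro s s' s₂' pd pd₂ hm hx hs hb1 hb2 hf
  have hv : pd₂.x (pd.m + 1) = s'.b := by rw [← hx _ le_rfl, pd.xm1]
  have hxm : pd₂.x pd.m = s'.a := by rw [← hx _ (by omega), pd.xm]
  have hy : pd₂.x (pd.m + 2) = s₂'.b := by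
    have := pd₂.xm1; rw [hm] at this; exact this
  have hva : s₂'.a = s'.b := by
    have := pd₂.xm; rw [hm, hv] at this; exact this.symm
  have hRm : pd₂.R' (pd.m + 1) = s₂'.rev.ini := by
    have := pd₂.Rm; rw [hm] at this; exact this
  have hx' : ∀ k ≤ pd.m + 1, pd.x (0 + k) = pd₂.x (0 + k) := by simpa using hx
  have F := fwd_close pd pd₂ 0 0 pd.m K₁ (by omega) (by omega) hx' (by
    rw [pd.R0, pd₂.R0]; exact RC.refl (by linarith) _)
  have B := bwd_close pd pd₂ 0 0 pd.m K₁ (by omega) (by omega) hx' (by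
    simp only [zero_add]
    rw [pd.Rm, pd₂.Rs' pd.m (by omega), hRm, hv, hxm, hy]
    refine ⟨?_, ?_, ?_⟩
    · simp only [St.ini, St.rev, Sys.tr]
      rw [(hS.base _).D_symm s₂'.b s'.a]
      calc _ = ‖s₂'.fa - s'.fb - S.D s'.b s'.a s₂'.b‖ := by
            rw [← norm_neg]; congr 1; abel
        _ ≤ _ := hf.trans hK₀₁
    · simp only [St.ini, St.rev, Sys.tr]
      exact ((norm_fst_le ((s'.fa, s'.c) - S.p s'.b s'.a s₂'.b)).trans hb1).trans hK₀₁
    · simp only [St.ini, St.rev, Sys.tr]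
      exact ((norm_snd_le ((s'.fa, s'.c) - S.p s'.b s'.a s₂'.b)).trans hb1).trans hK₀₁)
  simp only [zero_add] at F B
  intro t z hz
  rcases pd.TP_cases hz with ⟨hz, ht⟩ | ⟨i, hi, w, hv', hz, hw⟩
  · by_cases hd : t ≤ pd₂.dp pd.m + (K + K₁)
    · refine ⟨pd₂.locPos pd.m (pd₂.x pd.m) t, Or.inr ⟨pd.m, by omega, _, Or.inl ⟨rfl, ?_, ?_⟩,
        rfl⟩, ?_⟩
      · have := (F pd.m le_rfl).A
        rw [abs_le] at this
        linarith
      · linarith
      · unfold locPos
        rw [if_pos rfl, hz]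
        exact ((Near.of_nb (by linarith) (wall_close pd pd₂ pd.m pd.m K₁ t (hx _ (by omega))
          (hx _ (by omega)) (F _ le_rfl) (B _ le_rfl))).trans
          (Near.of_nb le_rfl (Nb.rev _))).mono (by linarith)
    · push Not at hd
      have hne := pd₂.nb pd.m (by omega)
      have hne' : s'.a ≠ s₂'.b := by rw [← hxm, ← hy]; exact hne
      have mem := pd₂.memN (i := pd.m) (by omega)
      rw [hxm, hv, hy] at mem
      have hL := (g1 s'.b K₁ hK₁ le_rfl).L_le s'.a mem.1 s₂'.b mem.2 hne' (hs.trans hK₀₁)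
      have hA2 := pd₂.A_succ (i := pd.m) (by omega)
      rw [hxm, hv, hy] at hA2
      refine ⟨pd₂.wallPos pd₂.m t, ?_, ?_⟩
      · apply TP_last
        rw [hm, hA2]
        linarith
      · -- cross move
        have hFm := F pd.m le_rfl
        have hRA := hFm.A
        have hRB := hFm.B
        rw [abs_le] at hRA hRB
        have d1 : (pd₂.R pd.m).A + ‖(S.p s'.b s'.a s₂'.b).2 - (pd₂.R pd.m).γ‖ ≤ pd₂.dp pd.m := by
          unfold dp; rw [hxm, hv, hy]; exact le_max_left _ _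
        have d2 : (pd₂.R pd.m).B + ‖(S.p s'.b s'.a s₂'.b).1 - (pd₂.R pd.m).f‖ ≤ pd₂.dp pd.m := by
          unfold dp; rw [hxm, hv, hy]; exact le_max_right _ _
        have hR2 := pd₂.Rs pd.m (by omega)
        rw [hxm, hv, hy] at hR2
        have hb1' : ‖s'.fa - (S.p s'.b s'.a s₂'.b).1‖ ≤ K₀ :=
          (norm_fst_le ((s'.fa, s'.c) - S.p s'.b s'.a s₂'.b)).trans hb1
        have hb1'' : ‖s'.c - (S.p s'.b s'.a s₂'.b).2‖ ≤ K₀ :=
          (norm_snd_le ((s'.fa, s'.c) - S.p s'.b s'.a s₂'.b)).trans hb1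
        have hb2' : ‖s₂'.fb - (S.p s'.b s₂'.b s'.a).1‖ ≤ K₀ :=
          (norm_fst_le ((s₂'.fb, s₂'.c) - S.p s'.b s₂'.b s'.a)).trans hb2
        have hb2'' : ‖s₂'.c - (S.p s'.b s₂'.b s'.a).2‖ ≤ K₀ :=
          (norm_snd_le ((s₂'.fb, s₂'.c) - S.p s'.b s₂'.b s'.a)).trans hb2
        have hK₀0 : 0 ≤ K₀ := (norm_nonneg _).trans hb1'
        rw [hz]
        refine ((Near.of_nb le_rfl (Nb.rev _)).trans (Near.of_nb (K := 9 * K₁) (by linarith)
          (Nb.cross (z := (pd.wallPos pd.m t).rev) (z' := pd₂.wallPos pd₂.m t)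
          ?_ ?_ ?_ ?_ ?_ ?_ ?_ ?_))).mono (by linarith)
        · change pd.x (pd.m + 1) = pd₂.x pd₂.m
          rw [hm]; exact hx _ le_rfl
        · exact (pd.adj pd.m le_rfl).symm
        · change S.G.Adj (pd.x (pd.m + 1)) (pd₂.x (pd₂.m + 1))
          rw [hx _ le_rfl, hm]
          exact pd₂.adj (pd.m + 1) (by omega)
        · change pd.x pd.m ≠ pd₂.x (pd₂.m + 1)
          rw [hx _ (by omega), hm]; exact hne
        · change S.s (pd.x (pd.m + 1)) (pd.x pd.m) (pd₂.x (pd₂.m + 1)) ≤ _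
          rw [pd.xm1, pd.xm, pd₂.xm1]
          linarith
        · change ‖((pd.wallPos pd.m t).fa, (pd.wallPos pd.m t).c) -
            S.p (pd.x (pd.m + 1)) (pd.x pd.m) (pd₂.x (pd₂.m + 1))‖ ≤ _
          rw [pd.xm1, pd.xm, pd₂.xm1]
          unfold wallPos
          simp only [pd.Rm, St.ini, St.rev]
          rw [Prod.norm_def]
          apply max_le
          · change ‖(pd.R pd.m).f + cl (t - (pd.R pd.m).B) (s'.fa - (pd.R pd.m).f) -
              (S.p s'.b s'.a s₂'.b).1‖ ≤ _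
            have e1 : ‖s'.fa - (pd.R pd.m).f‖ ≤ (t - (pd.R pd.m).B) + 3 * K₁ := by
              have t1 := tri3 s'.fa (S.p s'.b s'.a s₂'.b).1 (pd.R pd.m).f
              have t2 := tri3 (S.p s'.b s'.a s₂'.b).1 (pd₂.R pd.m).f (pd.R pd.m).f
              have t3 := hFm.cc.f
              rw [norm_sub_rev] at t3
              linarith
            have e2 := almost_done _ _ _ _ e1 (by linarith)
            have t1 := tri3 ((pd.R pd.m).f + cl (t - (pd.R pd.m).B) (s'.fa - (pd.R pd.m).f)) s'.fa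
              (S.p s'.b s'.a s₂'.b).1
            linarith
          · change ‖(pd.R pd.m).γ + cl (t - (pd.R pd.m).A) (s'.c - (pd.R pd.m).γ) -
              (S.p s'.b s'.a s₂'.b).2‖ ≤ _
            have e1 : ‖s'.c - (pd.R pd.m).γ‖ ≤ (t - (pd.R pd.m).A) + 3 * K₁ := by
              have t1 := tri3 s'.c (S.p s'.b s'.a s₂'.b).2 (pd.R pd.m).γ
              have t2 := tri3 (S.p s'.b s'.a s₂'.b).2 (pd₂.R pd.m).γ (pd.R pd.m).γ
              have t3 := hFm.cc.γ
              rw [norm_sub_rev] at t3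
              linarith
            have e2 := almost_done _ _ _ _ e1 (by linarith)
            have t1 := tri3 ((pd.R pd.m).γ + cl (t - (pd.R pd.m).A) (s'.c - (pd.R pd.m).γ)) s'.c
              (S.p s'.b s'.a s₂'.b).2
            linarith
        · change ‖((pd₂.wallPos pd₂.m t).fb, (pd₂.wallPos pd₂.m t).c) -
            S.p (pd.x (pd.m + 1)) (pd₂.x (pd₂.m + 1)) (pd.x pd.m)‖ ≤ _
          rw [pd.xm1, pd.xm, pd₂.xm1]
          unfold wallPos
          simp only [pd₂.Rm, St.ini, St.rev]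
          rw [hm, hR2]
          unfold Sys.tr
          simp only
          rw [Prod.norm_def]
          apply max_le
          · exact (almost_start _ _ _ _ hb2').trans (by linarith)
          · exact (almost_start _ _ _ _ hb2'').trans (by linarith)
        · change ‖(pd₂.wallPos pd₂.m t).fa - (pd.wallPos pd.m t).fb -
            S.D (pd.x (pd.m + 1)) (pd.x pd.m) (pd₂.x (pd₂.m + 1))‖ ≤ _
          rw [pd.xm1, pd.xm, pd₂.xm1]
          unfold wallPos
          simp only [pd₂.Rm, pd.Rm, St.ini, St.rev]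
          rw [hm, hR2]
          unfold Sys.tr
          simp only
          set D := S.D s'.b s'.a s₂'.b with hD
          have c1 := cl_close (t - (pd₂.R pd.m).A) (t - (pd.R pd.m).A)
            (s₂'.fa - ((pd₂.R pd.m).φ + D)) (s'.fb - (pd.R pd.m).φ)
          have c2 : |t - (pd₂.R pd.m).A - (t - (pd.R pd.m).A)| ≤ K₁ := by
            rw [sub_sub_sub_cancel_left]; exact hFm.A
          have c3 : ‖(s₂'.fa - ((pd₂.R pd.m).φ + D)) - (s'.fb - (pd.R pd.m).φ)‖ ≤ 2 * K₁ := by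
            calc _ = ‖(s₂'.fa - s'.fb - D) + ((pd.R pd.m).φ - (pd₂.R pd.m).φ)‖ := by
                  congr 1; abel
              _ ≤ _ := norm_add_le _ _
              _ ≤ _ := by linarith [hFm.cc.φ]
          calc _ = ‖((pd₂.R pd.m).φ - (pd.R pd.m).φ) +
                (cl (t - (pd₂.R pd.m).A) (s₂'.fa - ((pd₂.R pd.m).φ + D)) -
                cl (t - (pd.R pd.m).A) (s'.fb - (pd.R pd.m).φ))‖ := by congr 1; abel
            _ ≤ _ := norm_add_le _ _
            _ ≤ _ := by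
              have t3 := hFm.cc.φ
              rw [norm_sub_rev] at t3
              linarith
  · have hb := bulk pd pd₂ i i hi (by omega) w M K K₁ t hK₁ (hx _ (by omega)) (hx _ (by omega))
      (hx _ (by omega)) (F i (by omega)) (B (i + 1) (by omega)) hv' (by
        intro hw1 _
        have hi1 := hw hw1
        have hd := dp_close pd pd₂ (i + 1) (i + 1) K₁ (hx _ (by omega)) (hx _ (by omega))
          (hx _ (by omega)) (F (i + 1) (by omega))
        rw [abs_le] at hd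
        rcases hv' with hv' | hv' | hv'
        · exact absurd (hv'.1.symm.trans hw1) (pd.nb i hi)
        · linarith [hv'.2.2 hi1]
        · exact absurd hw1 hv'.2.2.1)
    refine ⟨_, Or.inr ⟨i, by omega, w, hb.1.mono' ?_, rfl⟩, ?_⟩
    · linarith
    · rw [hz]; exact hb.2.mono (by linarith)

end PD

end Pool.Agent.H81.HDG
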