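import Mathlib
import Pool.Agent.H81.HDG.Transfer

/-!
# Change of the end points: branching at the end
-/

set_option autoImplicit false
set_option linter.unusedSectionVars false

namespace Pool.Agent.H81.HDG

variable {V E : Type*} [NormedAddCommGroup E] [NormedSpace ℝ E]

namespace PD

variable {S : Sys V E} {s s' s₂ s₂' : St V E}

theorem Tr.trans_near {M K M' K' K'' : ℝ} (pd : PD S s s') (pd₂ : PD S s₂ s₂')
    (t : ℝ) (z z' : St V E) (h : ∃ z₂, pd₂.TP M' K' t z₂ ∧ Near S K' z' z₂)
    (hn : Near S K'' z z') (hM : 1 ≤ M') :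
    ∃ z₂, pd₂.TP M' (K' + K'') t z₂ ∧ Near S (K' + K'') z z₂ := by
  have := hn.nonneg
  obtain ⟨z₂, h1, h2⟩ := h
  refine ⟨z₂, ?_, (hn.trans h2).mono (by linarith)⟩
  rcases h1 with ⟨a1, a2, a3⟩ | ⟨i, hi, w, hv, hz⟩
  · exact Or.inl ⟨a1, a2, by linarith⟩
  · exact Or.inr ⟨i, hi, w, hv.mono' (by linarith), hz⟩

theorem TP.mono {pd : PD S s s'} {M K M' K' t : ℝ} {z : St V E} (h : pd.TP M K t z) (hM0 : 1 ≤ M)
    (hM : M ≤ M') (hK : K ≤ K') : pd.TP M' K' t z := by
  rcases h with ⟨a1, a2, a3⟩ | ⟨i, hi, w, hv, hz⟩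
  · exact Or.inl ⟨a1, a2, by linarith⟩
  · exact Or.inr ⟨i, hi, w, hv.mono hM0 hM hK, hz⟩

/-- Branching at the end: `s'` at the wall `y`, `s₂'` at the wall `y'` of the same piece `v`, `y`
between the entry wall `x` and `y'`. -/
theorem te3 (hS : S.Good) (K₀ M K : ℝ) (hM : 1 ≤ M) (hK : 0 ≤ K) :
    ∃ M' K', 1 ≤ M' ∧ ∀ (s s' s₂' : St V E) (pd : PD S s s') (pd₂ : PD S s s₂') (n : ℕ),
      pd.m = n + 1 → pd₂.m = n + 1 → (∀ k ≤ n + 1, pd.x k = pd₂.x k) → s'.b ≠ s₂'.b →
      S.s s'.a s'.b s₂'.b ≤ K₀ → ‖(s'.fb, s'.c) - S.p s'.a s'.b s₂'.b‖ ≤ K₀ →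
      ‖(s₂'.fb, s₂'.c) - S.p s'.a s₂'.b s'.b‖ ≤ K₀ → ‖s₂'.fa - s'.fa - S.D s'.a s'.b s₂'.b‖ ≤ K₀ →
      1 / K₀ ≤ ‖S.p s'.a s'.b (pd.x n) - S.p s'.a s'.b s₂'.b‖ → 1 ≤ K₀ →
      Tr pd pd₂ M K M' K' := by
  set K₁ := max K₀ M + 1 with hK₁def
  have hK₀₁ : K₀ ≤ K₁ := by have := le_max_left K₀ M; linarith
  have hMK₁ : M ≤ K₁ := by have := le_max_right K₀ M; linarith
  have hK₁ : 1 ≤ K₁ := by linarith
  obtain ⟨Ka, hKa, hKKa, ga⟩ := hS.at' K₁
  obtain ⟨M', hM', hte⟩ := hS.teIn K₁ hK₁
  -- closeness of records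
  have hK₀0 : 0 ≤ |K₀| := abs_nonneg _
  have hK₀a : K₀ ≤ |K₀| := le_abs_self _
  set K₂ := |K₀| + 2 * Ka + 1 with hK₂def
  have hK₂ : 1 ≤ K₂ := by linarith
  -- constant for the last wall
  set K₃ := K + K₂ + 3 * Ka + |K₀| + M' + 1 with hK₃def
  obtain ⟨K₄, hK₄, hloc⟩ := hS.locNear M hM K₃ (by linarith)
  refine ⟨M', K₃ + K₄ + 24 * K₂ + 24 * |K₀| + 24 * Ka + 24, by linarith, ?_⟩
  intro s s' s₂' pd pd₂ n hm hm₂ hx hbb hs hb1 hb2 hf hbtw hK₀1
  -- names
  have hv : pd.x (n + 1) = s'.a := by have := pd.xm; rw [hm] at this; exact this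
  have hy : pd.x (n + 2) = s'.b := by have := pd.xm1; rw [hm] at this; exact this
  have hv₂ : pd₂.x (n + 1) = s'.a := by rw [← hx _ le_rfl]; exact hv
  have hy₂ : pd₂.x (n + 2) = s₂'.b := by have := pd₂.xm1; rw [hm₂] at this; exact this
  have hva : s₂'.a = s'.a := by
    have := pd₂.xm; rw [hm₂, hv₂] at this; exact this.symm
  obtain ⟨x, hxx⟩ : ∃ x, x = pd.x n := ⟨_, rfl⟩
  have hxn : pd.x n = x := hxx.symm
  have hxn₂ : pd₂.x n = x := by rw [← hx n (by omega)]; exact hxn
  clear hxx
  rw [hxn] at hbtw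
  set v := s'.a with hvdef
  set y := s'.b with hydef
  set y' := s₂'.b with hy'def
  have hRm : pd.R' (n + 1) = s'.rev.ini := by have := pd.Rm; rw [hm] at this; exact this
  have hRm₂ : pd₂.R' (n + 1) = s₂'.rev.ini := by have := pd₂.Rm; rw [hm₂] at this; exact this
  have mem := pd.memN (i := n) (by omega)
  have mem₂ := pd₂.memN (i := n) (by omega)
  rw [hv, hxn, hy] at mem
  rw [hv₂, hxn₂, hy₂] at mem₂
  have hxy : x ≠ y := by have := pd.nb n (by omega); rwa [hxn, hy] at this
  have hxy' : x ≠ y' := by have := pd₂.nb n (by omega); rwa [hxn₂, hy₂] at this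
  have GA := ga v K₁ hK₁ le_rfl
  have hbtw' : 1 / K₁ ≤ ‖S.p v y x - S.p v y y'‖ :=
    (one_div_le_one_div_of_le (by linarith) hK₀₁).trans hbtw
  have addL := GA.add_L x mem.1 y' mem₂.2 y mem.2 hxy' hxy.symm hbb hbtw'
  have addD := GA.add_D x mem.1 y' mem₂.2 y mem.2 hxy' hxy.symm hbb hbtw'
  have near := GA.near x mem.1 y' mem₂.2 y mem.2 hxy' hxy.symm hbb hbtw'
  have rxyy := GA.r_le x mem.1 y mem.2 y' mem₂.2 hxy hxy' hbb (hs.trans hK₀₁)
  have Lyy := GA.L_le y mem.2 y' mem₂.2 hbb (hs.trans hK₀₁)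
  have base := hS.base v
  rw [abs_le] at addL
  have hb1' : ‖s'.fb - (S.p v y y').1‖ ≤ K₀ :=
    (norm_fst_le ((s'.fb, s'.c) - S.p v y y')).trans hb1
  have hb1'' : ‖s'.c - (S.p v y y').2‖ ≤ K₀ :=
    (norm_snd_le ((s'.fb, s'.c) - S.p v y y')).trans hb1
  -- forward records
  have F : ∀ k ≤ n, RC K₂ (pd.R k) (pd₂.R k) := by
    have := fwd_close pd pd₂ 0 0 n K₂ (by omega) (by omega) (by simpa using hx) (by
      rw [pd.R0, pd₂.R0]; exact RC.refl (by linarith) _)
    simpa using this
  -- backward records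
  have B : ∀ k ≤ n, CC K₂ (pd.R' k) (pd₂.R' k) := by
    have := bwd_close pd pd₂ 0 0 n K₂ (by omega) (by omega) (by simpa using hx) (by
      simp only [zero_add]
      rw [pd.Rs' n (by omega), pd₂.Rs' n (by omega), hRm, hRm₂, hv, hv₂, hy, hy₂, hxn, hxn₂]
      refine ⟨?_, ?_, ?_⟩
      · simp only [St.ini, St.rev, Sys.tr]
        rw [base.D_symm y x, base.D_symm y' x]
        calc _ = ‖(S.D v x y' - S.D v x y - S.D v y y') - (s₂'.fa - s'.fa - S.D v y y')‖ := by
              congr 1; abel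
          _ ≤ _ := norm_sub_le _ _
          _ ≤ _ := by linarith
      · simp only [St.ini, St.rev, Sys.tr]
        have := norm_fst_le (S.p v x y - S.p v x y')
        simp only [Prod.fst_sub] at this
        linarith
      · simp only [St.ini, St.rev, Sys.tr]
        have := norm_snd_le (S.p v x y - S.p v x y')
        simp only [Prod.snd_sub] at this
        linarith)
    simpa using this
  -- departure times
  have DP : ∀ k ≤ n, |pd.dp k - pd₂.dp k| ≤ K₂ + Ka := by
    intro k hk
    rcases hk.lt_or_eq with hk | rfl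
    · have := dp_close pd pd₂ k k K₂ (hx _ (by omega)) (hx _ (by omega)) (hx _ (by omega))
        (F k hk.le)
      linarith
    · unfold dp
      rw [hv, hv₂, hy, hy₂, hxn, hxn₂]
      have h1 := (F k le_rfl).dep (S := S) x v y
      have h2 : |S.dep x v y (pd₂.R k) - S.dep x v y' (pd₂.R k)| ≤ Ka := by
        unfold Sys.dep
        apply abs_max_sub_le
        · rw [add_sub_add_left_eq_sub]
          refine (abs_norm_sub_norm_le _ _).trans ?_
          rw [sub_sub_sub_cancel_right]
          exact (norm_snd_le (S.p v x y - S.p v x y')).trans rxyy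
        · rw [add_sub_add_left_eq_sub]
          refine (abs_norm_sub_norm_le _ _).trans ?_
          rw [sub_sub_sub_cancel_right]
          exact (norm_fst_le (S.p v x y - S.p v x y')).trans rxyy
      calc _ = |(S.dep x v y (pd.R k) - S.dep x v y (pd₂.R k)) +
            (S.dep x v y (pd₂.R k) - S.dep x v y' (pd₂.R k))| := by congr 1; ring
        _ ≤ _ := abs_add_le _ _
        _ ≤ _ := by linarith
  have DPn := DP n le_rfl
  rw [abs_le] at DPn
  have hAm := pd.A_succ (i := n) (by omega)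
  have hAm₂ := pd₂.A_succ (i := n) (by omega)
  rw [hv, hxn, hy] at hAm
  rw [hv₂, hxn₂, hy₂] at hAm₂
  have hFn := F n le_rfl
  have hFnA := hFn.A
  have hth : ‖pd.th n - pd₂.th n‖ ≤ K₂ + K₀ + Ka := by
    unfold th
    rw [hRm, hRm₂, hv, hv₂, hy, hy₂, hxn, hxn₂]
    simp only [St.ini, St.rev]
    calc _ = ‖(S.D v x y' - S.D v x y - S.D v y y') - (s₂'.fa - s'.fa - S.D v y y') -
          ((pd.R n).φ - (pd₂.R n).φ)‖ := by congr 1; abel
      _ ≤ ‖(S.D v x y' - S.D v x y - S.D v y y') - (s₂'.fa - s'.fa - S.D v y y')‖ +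
          ‖(pd.R n).φ - (pd₂.R n).φ‖ := norm_sub_le _ _
      _ ≤ ‖S.D v x y' - S.D v x y - S.D v y y'‖ + ‖s₂'.fa - s'.fa - S.D v y y'‖ +
          ‖(pd.R n).φ - (pd₂.R n).φ‖ := by gcongr; exact norm_sub_le _ _
      _ ≤ _ := by linarith [hFn.cc.φ]
  -- the wall case, for any constant up to K₃
  have wallcase : ∀ t, (pd.R (n + 1)).A - K₃ ≤ t →
      ∃ z₂, pd₂.TP M' (K₃ + 24 * K₂ + 24 * K₀ + 24 * Ka + 24) t z₂ ∧
        Near S (24 * K₂ + 24 * K₀ + 24 * Ka + 24) (pd.wallPos (n + 1) t) z₂ := by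
    intro t ht
    -- `y` is an intermediate wall for `pd₂`
    by_cases hd : t ≤ pd₂.dp n + S.L v x y + ‖S.p v y x - S.p v y y'‖ + K₃
    · have hval : pd₂.Val M' (K₃ + 24 * K₂ + 24 * K₀ + 24 * Ka + 24) n y t := by
        right; right
        rw [hv₂, hxn₂, hy₂]
        refine ⟨mem.2, hxy.symm, hbb, ?_, ?_, ?_⟩
        · exact (one_div_le_one_div_of_le (by linarith) hM').trans hbtw'
        · linarith
        · linarith
      refine ⟨pd₂.locPos n y t, Or.inr ⟨n, by omega, y, hval, rfl⟩, ?_⟩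
      have e1 : pd₂.locPos n y t = pd₂.inPos n y t := by
        unfold locPos
        rw [if_neg (by rw [hxn₂]; exact hxy.symm), if_neg (by rw [hy₂]; exact hbb)]
      rw [e1]
      apply Near.of_nb (by linarith)
      -- compare wallPos with inPos
      have hA0 : |t - (pd.R (n + 1)).A - (t - pd₂.dp n - S.L v x y)| ≤ K₂ + Ka := by
        rw [hAm]
        calc _ = |pd.dp n - pd₂.dp n| := by
              rw [← abs_neg]; congr 1; ring
          _ ≤ _ := DP n le_rfl
      have hRn1 : (pd.R (n + 1)).φ = (S.p v y x).1 := by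
        rw [pd.Rs n (by omega), hv, hxn, hy]; rfl
      have hRn2 : (pd.R (n + 1)).γ = (S.p v y x).2 := by
        rw [pd.Rs n (by omega), hv, hxn, hy]; rfl
      have hRn3 : (pd.R (n + 1)).f = (pd.R n).φ + S.D v x y := by
        rw [pd.Rs n (by omega), hv, hxn, hy]; rfl
      have hRn4 : (pd.R (n + 1)).B = (pd.R n).A := pd.B_succ (by omega)
      have big : ∀ u : ℝ, u ≤ 6 * (K₂ + K₀ + Ka) → u ≤ 24 * K₂ + 24 * K₀ + 24 * Ka + 24 :=
        fun u hu => by linarith
      refine Nb.same ?_ ?_ ?_ ?_ ?_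
      · change pd.x (n + 1) = pd₂.x (n + 1); rw [hv, hv₂]
      · change pd.x (n + 1 + 1) = y; exact hy
      · change ‖(pd.R (n + 1)).f + cl (t - (pd.R (n + 1)).B)
          ((pd.R' (n + 1)).φ - (pd.R (n + 1)).f) - ((pd₂.R n).φ + S.D (pd₂.x (n + 1)) (pd₂.x n) y +
          cl (t - (pd₂.R n).A) (pd₂.th n))‖ ≤ _
        rw [hRn3, hRn4, hv₂, hxn₂]
        apply big
        have e2 : (pd.R' (n + 1)).φ - ((pd.R n).φ + S.D v x y) = pd.th n := by
          unfold th
          rw [hv, hxn, hy]; abel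
        rw [e2]
        have c1 := cl_close (t - (pd.R n).A) (t - (pd₂.R n).A) (pd.th n) (pd₂.th n)
        have c2 : |t - (pd.R n).A - (t - (pd₂.R n).A)| ≤ K₂ := by
          rw [sub_sub_sub_cancel_left, abs_sub_comm]; exact hFnA
        calc _ = ‖((pd.R n).φ - (pd₂.R n).φ) + (cl (t - (pd.R n).A) (pd.th n) -
              cl (t - (pd₂.R n).A) (pd₂.th n))‖ := by congr 1; abel
          _ ≤ _ := norm_add_le _ _
          _ ≤ _ := by linarith [hFn.cc.φ]
      · change ‖(pd.R (n + 1)).φ + cl (t - (pd.R (n + 1)).A)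
          ((pd.R' (n + 1)).f - (pd.R (n + 1)).φ) - (pd₂.bv n y t).1‖ ≤ _
        apply big
        rw [hRn1, hRm]
        unfold bv
        rw [hv₂, hxn₂, hy₂]
        change ‖(S.p v y x).1 + cl (t - (pd.R (n + 1)).A) (s'.fb - (S.p v y x).1) -
          ((S.p v y x).1 + cl (t - pd₂.dp n - S.L v x y) ((S.p v y y').1 - (S.p v y x).1))‖ ≤ _
        apply mv_close
        · rw [sub_self, norm_zero]; linarith
        · linarith
        · linarith
      · change ‖(pd.R (n + 1)).γ + cl (t - (pd.R (n + 1)).A)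
          ((pd.R' (n + 1)).γ - (pd.R (n + 1)).γ) - (pd₂.bv n y t).2‖ ≤ _
        apply big
        rw [hRn2, hRm]
        unfold bv
        rw [hv₂, hxn₂, hy₂]
        change ‖(S.p v y x).2 + cl (t - (pd.R (n + 1)).A) (s'.c - (S.p v y x).2) -
          ((S.p v y x).2 + cl (t - pd₂.dp n - S.L v x y) ((S.p v y y').2 - (S.p v y x).2))‖ ≤ _
        apply mv_close
        · rw [sub_self, norm_zero]; linarith
        · linarith
        · linarith
    · push Not at hd
      refine ⟨pd₂.wallPos pd₂.m t, ?_, ?_⟩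
      · apply TP_last
        rw [hm₂, hAm₂]
        linarith
      · apply Near.of_nb (by linarith)
        have hRn1 : (pd.R (n + 1)).φ = (S.p v y x).1 := by
          rw [pd.Rs n (by omega), hv, hxn, hy]; rfl
        have hRn2 : (pd.R (n + 1)).γ = (S.p v y x).2 := by
          rw [pd.Rs n (by omega), hv, hxn, hy]; rfl
        have hRn3 : (pd.R (n + 1)).f = (pd.R n).φ + S.D v x y := by
          rw [pd.Rs n (by omega), hv, hxn, hy]; rfl
        have hRn4 : (pd.R (n + 1)).B = (pd.R n).A := pd.B_succ (by omega)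
        have hRn1₂ : (pd₂.R (n + 1)).φ = (S.p v y' x).1 := by
          rw [pd₂.Rs n (by omega), hv₂, hxn₂, hy₂]; rfl
        have hRn2₂ : (pd₂.R (n + 1)).γ = (S.p v y' x).2 := by
          rw [pd₂.Rs n (by omega), hv₂, hxn₂, hy₂]; rfl
        have hRn3₂ : (pd₂.R (n + 1)).f = (pd₂.R n).φ + S.D v x y' := by
          rw [pd₂.Rs n (by omega), hv₂, hxn₂, hy₂]; rfl
        have hRn4₂ : (pd₂.R (n + 1)).B = (pd₂.R n).A := pd₂.B_succ (by omega)
        refine Nb.cross (z := pd.wallPos (n + 1) t) (z' := pd₂.wallPos pd₂.m t)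
          ?_ ?_ ?_ ?_ ?_ ?_ ?_ ?_
        · change pd.x (n + 1) = pd₂.x pd₂.m
          rw [hm₂]; exact hx _ le_rfl
        · exact pd.adj (n + 1) (by omega)
        · change S.G.Adj (pd.x (n + 1)) (pd₂.x (pd₂.m + 1))
          rw [hx _ le_rfl, hm₂]
          exact pd₂.adj (n + 1) (by omega)
        · change pd.x (n + 1 + 1) ≠ pd₂.x (pd₂.m + 1)
          rw [pd₂.xm1]
          change pd.x (n + 2) ≠ _
          rw [hy]; exact hbb
        · change S.s (pd.x (n + 1)) (pd.x (n + 2)) (pd₂.x (pd₂.m + 1)) ≤ _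
          rw [pd₂.xm1, hv, hy]
          linarith
        · change ‖((pd.wallPos (n + 1) t).fb, (pd.wallPos (n + 1) t).c) -
            S.p (pd.x (n + 1)) (pd.x (n + 2)) (pd₂.x (pd₂.m + 1))‖ ≤ _
          rw [pd₂.xm1, hv, hy]
          unfold wallPos
          simp only
          rw [hRn1, hRn2, hRm]
          simp only [St.ini, St.rev]
          rw [Prod.norm_def]
          have hr1 : ‖(S.p v y y').1 - (S.p v y x).1‖ ≤ ‖S.p v y x - S.p v y y'‖ := by
            rw [norm_sub_rev (S.p v y x)]; exact norm_fst_le (S.p v y y' - S.p v y x)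
          have hr2 : ‖(S.p v y y').2 - (S.p v y x).2‖ ≤ ‖S.p v y x - S.p v y y'‖ := by
            rw [norm_sub_rev (S.p v y x)]; exact norm_snd_le (S.p v y y' - S.p v y x)
          apply max_le
          · change ‖(S.p v y x).1 + cl (t - (pd.R (n + 1)).A) (s'.fb - (S.p v y x).1) -
              (S.p v y y').1‖ ≤ _
            have e1 : ‖s'.fb - (S.p v y x).1‖ ≤ (t - (pd.R (n + 1)).A) +
                (K₀ + K₂ + Ka) := by
              have t1 := tri3 s'.fb (S.p v y y').1 (S.p v y x).1
              rw [hAm]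
              linarith
            have e2 := almost_done _ _ _ _ e1 (by linarith)
            have t1 := tri3 ((S.p v y x).1 + cl (t - (pd.R (n + 1)).A) (s'.fb - (S.p v y x).1))
              s'.fb (S.p v y y').1
            linarith
          · change ‖(S.p v y x).2 + cl (t - (pd.R (n + 1)).A) (s'.c - (S.p v y x).2) -
              (S.p v y y').2‖ ≤ _
            have e1 : ‖s'.c - (S.p v y x).2‖ ≤ (t - (pd.R (n + 1)).A) +
                (K₀ + K₂ + Ka) := by
              have t1 := tri3 s'.c (S.p v y y').2 (S.p v y x).2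
              rw [hAm]
              linarith
            have e2 := almost_done _ _ _ _ e1 (by linarith)
            have t1 := tri3 ((S.p v y x).2 + cl (t - (pd.R (n + 1)).A) (s'.c - (S.p v y x).2))
              s'.c (S.p v y y').2
            linarith
        · change ‖((pd₂.wallPos pd₂.m t).fb, (pd₂.wallPos pd₂.m t).c) -
            S.p (pd.x (n + 1)) (pd₂.x (pd₂.m + 1)) (pd.x (n + 2))‖ ≤ _
          rw [pd₂.xm1, hv, hy]
          unfold wallPos
          simp only [pd₂.Rm, St.ini, St.rev]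
          rw [hm₂, hRn1₂, hRn2₂]
          have hq1 : ‖s₂'.fb - (S.p v y' x).1‖ ≤ K₀ + Ka := by
            have t1 := tri3 s₂'.fb (S.p v y' y).1 (S.p v y' x).1
            have t2 : ‖s₂'.fb - (S.p v y' y).1‖ ≤ K₀ :=
              (norm_fst_le ((s₂'.fb, s₂'.c) - S.p v y' y)).trans hb2
            have t3 : ‖(S.p v y' y).1 - (S.p v y' x).1‖ ≤ Ka :=
              (norm_fst_le (S.p v y' y - S.p v y' x)).trans near
            linarith
          have hq2 : ‖s₂'.c - (S.p v y' x).2‖ ≤ K₀ + Ka := by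
            have t1 := tri3 s₂'.c (S.p v y' y).2 (S.p v y' x).2
            have t2 : ‖s₂'.c - (S.p v y' y).2‖ ≤ K₀ :=
              (norm_snd_le ((s₂'.fb, s₂'.c) - S.p v y' y)).trans hb2
            have t3 : ‖(S.p v y' y).2 - (S.p v y' x).2‖ ≤ Ka :=
              (norm_snd_le (S.p v y' y - S.p v y' x)).trans near
            linarith
          rw [Prod.norm_def]
          apply max_le
          · have e1 := almost_start s₂'.fb (S.p v y' x).1 (t - (pd₂.R (n + 1)).A) _ hq1
            have t3 : ‖(S.p v y' x).1 - (S.p v y' y).1‖ ≤ Ka := by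
              rw [norm_sub_rev]; exact (norm_fst_le (S.p v y' y - S.p v y' x)).trans near
            have t1 := tri3 ((S.p v y' x).1 + cl (t - (pd₂.R (n + 1)).A)
              (s₂'.fb - (S.p v y' x).1)) (S.p v y' x).1 (S.p v y' y).1
            exact t1.trans (by linarith)
          · have e1 := almost_start s₂'.c (S.p v y' x).2 (t - (pd₂.R (n + 1)).A) _ hq2
            have t3 : ‖(S.p v y' x).2 - (S.p v y' y).2‖ ≤ Ka := by
              rw [norm_sub_rev]; exact (norm_snd_le (S.p v y' y - S.p v y' x)).trans near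
            have t1 := tri3 ((S.p v y' x).2 + cl (t - (pd₂.R (n + 1)).A)
              (s₂'.c - (S.p v y' x).2)) (S.p v y' x).2 (S.p v y' y).2
            exact t1.trans (by linarith)
        · change ‖(pd₂.wallPos pd₂.m t).fa - (pd.wallPos (n + 1) t).fa -
            S.D (pd.x (n + 1)) (pd.x (n + 2)) (pd₂.x (pd₂.m + 1))‖ ≤ _
          rw [pd₂.xm1, hv, hy]
          unfold wallPos
          simp only [pd₂.Rm, hRm, St.ini, St.rev]
          rw [hm₂, hRn3, hRn3₂, hRn4, hRn4₂]
          have e2 : s'.fa - ((pd.R n).φ + S.D v x y) = pd.th n := by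
            unfold th
            rw [hRm, hv, hxn, hy]; simp only [St.ini, St.rev]; abel
          have e3 : s₂'.fa - ((pd₂.R n).φ + S.D v x y') = pd₂.th n := by
            unfold th
            rw [hRm₂, hv₂, hxn₂, hy₂]; simp only [St.ini, St.rev]; abel
          rw [e2, e3]
          have c1 := cl_close (t - (pd₂.R n).A) (t - (pd.R n).A) (pd₂.th n) (pd.th n)
          rw [norm_sub_rev (pd₂.th n)] at c1
          have c2 : |t - (pd₂.R n).A - (t - (pd.R n).A)| ≤ K₂ := by
            rw [sub_sub_sub_cancel_left]; exact hFnA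
          calc _ = ‖(S.D v x y' - S.D v x y - S.D v y y') + ((pd₂.R n).φ - (pd.R n).φ) +
                (cl (t - (pd₂.R n).A) (pd₂.th n) - cl (t - (pd.R n).A) (pd.th n))‖ := by
                congr 1; abel
            _ ≤ ‖(S.D v x y' - S.D v x y - S.D v y y') + ((pd₂.R n).φ - (pd.R n).φ)‖ +
                ‖cl (t - (pd₂.R n).A) (pd₂.th n) - cl (t - (pd.R n).A) (pd.th n)‖ :=
                norm_add_le _ _
            _ ≤ ‖S.D v x y' - S.D v x y - S.D v y y'‖ + ‖(pd₂.R n).φ - (pd.R n).φ‖ +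
                ‖cl (t - (pd₂.R n).A) (pd₂.th n) - cl (t - (pd.R n).A) (pd.th n)‖ := by
                gcongr; exact norm_add_le _ _
            _ ≤ _ := by
              have t3 := hFn.cc.φ
              rw [norm_sub_rev] at t3
              linarith
  -- all cases
  intro t z hz
  rcases pd.TP_cases hz with ⟨hz, ht⟩ | ⟨i, hi, w, hval, hz, hw⟩
  · rw [hm] at ht hz
    obtain ⟨z₂, h1, h2⟩ := wallcase t (by linarith)
    refine ⟨z₂, h1.mono (by linarith) le_rfl (by linarith), ?_⟩
    rw [hz]; exact h2.mono (by linarith)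
  · by_cases hin : i < n
    · have hb := bulk pd pd₂ i i hi (by omega) w M K (K₂ + Ka) t (by linarith) (hx _ (by omega))
        (hx _ (by omega)) (hx _ (by omega)) ((F i (by omega)).mono (by linarith))
        ((B (i + 1) (by omega)).mono (by linarith)) hval (by
          intro hw1 _
          have hi1 := hw hw1
          have hd := DP (i + 1) (by omega)
          rw [abs_le] at hd
          rcases hval with hv' | hv' | hv'
          · exact absurd (hv'.1.symm.trans hw1) (pd.nb i hi)
          · linarith [hv'.2.2 hi1]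
          · exact absurd hw1 hv'.2.2.1)
      refine ⟨_, Or.inr ⟨i, by omega, w, hb.1.mono hM (by linarith) ?_, rfl⟩, ?_⟩
      · linarith
      · rw [hz]; exact hb.2.mono (by linarith)
    · have hin' : i = n := by omega
      subst hin'
      have hval0 := hval
      rcases hval with ⟨h1, h2, h3⟩ | ⟨h1, h2, h3⟩ | ⟨h1, h2, h3, h4, h5, h6⟩
      · -- entry wall
        rw [abs_le] at hFnA
        refine ⟨pd₂.locPos i w t, Or.inr ⟨i, by omega, w, Or.inl ⟨?_, ?_, ?_⟩, rfl⟩, ?_⟩
        · rw [h1]; exact hx _ (by omega)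
        · linarith
        · linarith
        · rw [hz]
          unfold locPos
          rw [if_pos h1, if_pos (by rw [h1]; exact hx _ (by omega))]
          exact (Near.of_nb (by linarith) (wall_close_rev pd pd₂ i i K₂ t (hx _ (by omega))
            (hx _ (by omega)) hFn (B i le_rfl))).mono (by linarith)
      · have := hw h1; omega
      · rw [hv, hxn] at h5 h6
        rw [hv] at h1
        rw [hv, hxn, hy] at h4
        rw [hy] at h6
        rw [hxn] at h2
        rw [hy] at h3
        have h4' : 1 / K₁ ≤ ‖S.p v w x - S.p v w y‖ :=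
          (one_div_le_one_div_of_le (by linarith) hMK₁).trans h4
        rcases hte v x mem.1 y mem.2 y' mem₂.2 w h1 hxy hxy' hbb h2 h3 (hs.trans hK₀₁) hbtw' h4'
          with ⟨q1, q2⟩ | q1
        · -- still an intermediate wall
          have rw1 := GA.r_le w h1 y mem.2 y' mem₂.2 h3 q1 hbb (hs.trans hK₀₁)
          have t1 := tri3 (S.p v w x) (S.p v w y') (S.p v w y)
          rw [norm_sub_rev (S.p v w y')] at t1
          refine ⟨pd₂.locPos i w t, Or.inr ⟨i, by omega, w, Or.inr (Or.inr ?_), rfl⟩, ?_⟩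
          · rw [hv₂, hxn₂, hy₂]
            exact ⟨h1, h2, q1, q2, by linarith, by linarith⟩
          · rw [hz]
            unfold locPos
            rw [if_neg (by rw [hxn]; exact h2), if_neg (by rw [hy]; exact h3),
              if_neg (by rw [hxn₂]; exact h2), if_neg (by rw [hy₂]; exact q1)]
            have hle : 1 ≤ K₂ + K₀ + Ka := by linarith
            have : Nb S (6 * (K₂ + K₀ + Ka)) (pd.inPos i w t) (pd₂.inPos i w t) := by
              apply in_close
              · rw [hv, hv₂]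
              · rw [hv, hv₂, hxn, hxn₂, add_sub_add_right_eq_sub]
                linarith [hFn.cc.φ]
              · linarith
              · linarith
              · rw [hv, hv₂, hxn, hxn₂, sub_self, norm_zero]; linarith
              · rw [hv, hv₂, hy, hy₂]; linarith
              · rw [hv, hv₂, hxn, hxn₂, add_sub_add_right_eq_sub]
                have := DP i le_rfl
                linarith
            exact (Near.of_nb (by linarith) this).mono (by linarith)
        · -- near the last wall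
          have hv1 : pd.Val M K₃ i w t := hval0.mono' (by linarith)
          have hv2 : pd.Val M K₃ i (pd.x (i + 2)) t := by
            right; left
            refine ⟨rfl, ?_, fun h => by omega⟩
            rw [hAm]
            linarith
          have hnear := hloc s s' pd i (by omega) w _ t hv1 hv2
          have e1 : pd.locPos i (pd.x (i + 2)) t = pd.wallPos (i + 1) t := by
            unfold locPos
            rw [if_neg (pd.nb i (by omega)).symm, if_pos rfl]
          rw [e1] at hnear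
          obtain ⟨z₂, g1, g2⟩ := wallcase t (by rw [hAm]; linarith)
          refine ⟨z₂, g1.mono (by linarith) le_rfl (by linarith), ?_⟩
          rw [hz]
          exact (hnear.trans g2).mono (by linarith)

end PD

end Pool.Agent.H81.HDG
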