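import Mathlib
import Pool.Agent.H81.HDG.Transfer2

/-!
# Change of the start point
-/

set_option autoImplicit false
set_option linter.unusedSectionVars false

namespace Pool.Agent.H81.HDG

variable {V E : Type*} [NormedAddCommGroup E] [NormedSpace ℝ E]

namespace PD

variable {S : Sys V E} {s s' s₂ s₂' : St V E}

/-- Extension at the start: `s` at the wall `{v, b}` (oriented away from `v`), `s₂` at the wall
`{y, v}`. -/
theorem ts2 (hS : S.Good) (K₀ M K : ℝ) (hK : 0 ≤ K) :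
    ∃ K', ∀ (s s₂ s' : St V E) (pd : PD S s s') (pd₂ : PD S s₂ s'), pd₂.m = pd.m + 1 →
      (∀ k ≤ pd.m + 1, pd.x k = pd₂.x (k + 1)) →
      S.s s.a s.b s₂.a ≤ K₀ → ‖(s.fb, s.c) - S.p s.a s.b s₂.a‖ ≤ K₀ →
      ‖(s₂.fa, s₂.c) - S.p s.a s₂.a s.b‖ ≤ K₀ → ‖s₂.fb - s.fa - S.D s.a s.b s₂.a‖ ≤ K₀ →
      Tr pd pd₂ M K M K' := by
  obtain ⟨K1, hK1, hMK1, g1⟩ := hS.at' (max K₀ 1)
  set K₁ := 2 * |K₀| + K1 + 1 with hK₁def
  have hK₀0 : 0 ≤ |K₀| := abs_nonneg _
  have hK₀a : K₀ ≤ |K₀| := le_abs_self _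
  have hK₁ : 1 ≤ K₁ := by linarith
  refine ⟨K + 12 * K₁, ?_⟩
  intro s s₂ s' pd pd₂ hm hx hs hb1 hb2 hf
  have hv : pd₂.x 1 = s.a := by rw [← hx 0 (by omega), pd.x0]
  have hb : pd₂.x 2 = s.b := by rw [← hx 1 (by omega), pd.x1]
  have hy : pd₂.x 0 = s₂.a := pd₂.x0
  have base := hS.base s.a
  have hne : s₂.a ≠ s.b := by
    have := pd₂.nb 0 (by omega)
    rw [hy] at this
    change s₂.a ≠ pd₂.x 2 at this
    rwa [hb] at this
  have mem := pd₂.memN (i := 0) (by omega)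
  change pd₂.x 0 ∈ S.N (pd₂.x 1) ∧ pd₂.x 2 ∈ S.N (pd₂.x 1) at mem
  rw [hv, hy, hb] at mem
  have hL := (g1 s.a (max K₀ 1) (le_max_right _ _) le_rfl).L_le s.b mem.2 s₂.a mem.1 hne.symm
    (hs.trans (le_max_left _ _))
  rw [base.L_symm] at hL
  have hL1 := base.L_one s₂.a s.b
  have hR1 : pd₂.R 1 = S.tr s₂.a s.a s.b s₂.ini := by
    have := pd₂.Rs 0 (by omega)
    rw [pd₂.R0] at this
    change pd₂.R 1 = S.tr (pd₂.x 0) (pd₂.x 1) (pd₂.x 2) s₂.ini at this
    rwa [hv, hy, hb] at this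
  have hdep : S.dep s₂.a s.a s.b s₂.ini ≤ |K₀| := by
    unfold Sys.dep
    simp only [St.ini, zero_add]
    apply max_le
    · have := norm_snd_le ((s₂.fa, s₂.c) - S.p s.a s₂.a s.b)
      rw [norm_sub_rev]
      exact (this.trans hb2).trans hK₀a
    · have := norm_fst_le ((s₂.fa, s₂.c) - S.p s.a s₂.a s.b)
      rw [norm_sub_rev]
      exact (this.trans hb2).trans hK₀a
  have hdep0 : 0 ≤ S.dep s₂.a s.a s.b s₂.ini := by
    unfold Sys.dep
    simp only [St.ini, zero_add]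
    exact le_trans (norm_nonneg _) (le_max_left _ _)
  have hRC : RC K₁ (pd.R 0) (pd₂.R 1) := by
    rw [pd.R0, hR1]
    have hA : |0 - (S.dep s₂.a s.a s.b s₂.ini + S.L s.a s₂.a s.b)| ≤ |K₀| + K1 := by
      rw [zero_sub, abs_neg, abs_of_nonneg (by linarith)]; linarith
    have b1 : ‖s.fb - (S.p s.a s.b s₂.a).1‖ ≤ K₀ :=
      (norm_fst_le ((s.fb, s.c) - S.p s.a s.b s₂.a)).trans hb1
    have b2 : ‖s.c - (S.p s.a s.b s₂.a).2‖ ≤ K₀ :=
      (norm_snd_le ((s.fb, s.c) - S.p s.a s.b s₂.a)).trans hb1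
    refine ⟨?_, ?_, ?_⟩
    · change |0 - (S.dep s₂.a s.a s.b s₂.ini + S.L s.a s₂.a s.b)| +
        ‖s.c - (S.p s.a s.b s₂.a).2‖ ≤ K₁
      linarith
    · simp only [St.ini, Sys.tr, sub_self, abs_zero, zero_add]
      rw [base.D_symm s₂.a s.b]
      calc _ = ‖s₂.fb - s.fa - S.D s.a s.b s₂.a‖ := by
            rw [← norm_neg]; congr 1; abel
        _ ≤ _ := by linarith
    · change |0 - (S.dep s₂.a s.a s.b s₂.ini + S.L s.a s₂.a s.b)| +
        ‖s.fb - (S.p s.a s.b s₂.a).1‖ ≤ K₁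
      linarith
  have hx' : ∀ k ≤ pd.m + 1, pd.x (0 + k) = pd₂.x (1 + k) := by
    intro k hk
    rw [zero_add, add_comm]; exact hx k hk
  have F := fwd_close pd pd₂ 0 1 pd.m K₁ (by omega) (by omega) hx' hRC
  have B := bwd_close pd pd₂ 0 1 pd.m K₁ (by omega) (by omega) hx' (by
    rw [zero_add, pd.Rm, show 1 + pd.m = pd₂.m by omega, pd₂.Rm]
    exact CC.refl (by linarith) _)
  have F' : ∀ k ≤ pd.m, RC K₁ (pd.R k) (pd₂.R (k + 1)) := by
    intro k hk
    have := F k hk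
    rwa [zero_add, add_comm] at this
  have B' : ∀ k ≤ pd.m, CC K₁ (pd.R' k) (pd₂.R' (k + 1)) := by
    intro k hk
    have := B k hk
    rwa [zero_add, add_comm] at this
  intro t z hz
  rcases pd.TP_cases hz with ⟨hz, ht⟩ | ⟨i, hi, w, hv', hz, hw⟩
  · refine ⟨pd₂.wallPos pd₂.m t, ?_, ?_⟩
    · apply TP_last
      have := (F' pd.m le_rfl).A
      rw [abs_le] at this
      rw [hm]
      linarith
    · rw [hz, hm]
      exact (Near.of_nb (by linarith) (wall_close pd pd₂ pd.m (pd.m + 1) K₁ t (hx _ (by omega))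
        (hx _ (by omega)) (F' _ le_rfl) (B' _ le_rfl))).mono (by linarith)
  · have hb := bulk pd pd₂ i (i + 1) hi (by omega) w M K K₁ t hK₁ (hx _ (by omega))
      (hx _ (by omega)) (hx _ (by omega)) (F' i (by omega)) (B' (i + 1) (by omega)) hv' (by
        intro hw1 _
        have hi1 := hw hw1
        have hd := dp_close pd pd₂ (i + 1) (i + 2) K₁ (hx _ (by omega)) (hx _ (by omega))
          (hx _ (by omega)) (F' (i + 1) (by omega))
        rw [abs_le] at hd
        change t ≤ pd₂.dp (i + 2) + (K + K₁)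
        rcases hv' with hv' | hv' | hv'
        · exact absurd (hv'.1.symm.trans hw1) (pd.nb i hi)
        · linarith [hv'.2.2 hi1]
        · exact absurd hw1 hv'.2.2.1)
    refine ⟨_, Or.inr ⟨i + 1, by omega, w, hb.1.mono' ?_, rfl⟩, ?_⟩
    · linarith
    · rw [hz]; exact hb.2.mono (by linarith)

/-- Branching at the start: `s` at the wall `{x, v}`, `s₂` at the wall `{y, v}`, the path leaves
the piece `v` through the wall `{v, z}`, and `x` is between `y` and `z`. -/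
theorem ts3 (hS : S.Good) (K₀ M K : ℝ) (hM : 1 ≤ M) (hK : 0 ≤ K) :
    ∃ M' K', 1 ≤ M' ∧ ∀ (s s₂ s' : St V E) (pd : PD S s s') (pd₂ : PD S s₂ s') (n : ℕ),
      pd.m = n + 1 → pd₂.m = n + 1 → (∀ k, 1 ≤ k → k ≤ n + 2 → pd.x k = pd₂.x k) → s.a ≠ s₂.a →
      S.s s.b s.a s₂.a ≤ K₀ → ‖(s.fa, s.c) - S.p s.b s.a s₂.a‖ ≤ K₀ →
      ‖(s₂.fa, s₂.c) - S.p s.b s₂.a s.a‖ ≤ K₀ → ‖s₂.fb - s.fb - S.D s.b s.a s₂.a‖ ≤ K₀ →
      1 / K₀ ≤ ‖S.p s.b s.a s₂.a - S.p s.b s.a (pd.x 2)‖ → 1 ≤ K₀ →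
      Tr pd pd₂ M K M' K' := by
  set K₁ := max K₀ M + 1 with hK₁def
  have hK₀₁ : K₀ ≤ K₁ := by have := le_max_left K₀ M; linarith
  have hMK₁ : M ≤ K₁ := by have := le_max_right K₀ M; linarith
  have hK₁ : 1 ≤ K₁ := by linarith
  obtain ⟨Ka, hKa, hKKa, ga⟩ := hS.at' K₁
  obtain ⟨M', hM', hts⟩ := hS.tsIn K₁ hK₁
  obtain ⟨Kb, hKb, hts2⟩ := hS.tsIn2 M' (by linarith)
  have hK₀0 : 0 ≤ |K₀| := abs_nonneg _
  have hK₀a : K₀ ≤ |K₀| := le_abs_self _
  set K₂ := 3 * |K₀| + 4 * Ka + Kb + 1 with hK₂def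
  have hK₂ : 1 ≤ K₂ := by linarith
  set K₃ := K + M' + 1 with hK₃def
  obtain ⟨K₄, hK₄, hloc⟩ := hS.locNear M hM K₃ (by linarith)
  refine ⟨M', K₃ + K₄ + 24 * K₂, by linarith, ?_⟩
  intro s s₂ s' pd pd₂ n hm hm₂ hx hab hs hb1 hb2 hf hbtw hK₀1
  have hKabs : |K₀| = K₀ := abs_of_nonneg (by linarith)
  obtain ⟨z, hz0⟩ : ∃ z, z = pd.x 2 := ⟨_, rfl⟩
  have hz : pd.x 2 = z := hz0.symm
  have hz₂ : pd₂.x 2 = z := by rw [← hx 2 (by omega) (by omega)]; exact hz
  clear hz0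
  rw [hz] at hbtw
  have hx0 : pd.x 0 = s.a := pd.x0
  have hy0 : pd₂.x 0 = s₂.a := pd₂.x0
  have hv : pd.x 1 = s.b := pd.x1
  have hv₂ : pd₂.x 1 = s.b := by rw [← hx 1 (by omega) (by omega)]; exact hv
  set v := s.b with hvdef
  set x := s.a with hxdef
  set y := s₂.a with hydef
  have mem := pd.memN (i := 0) (by omega)
  change pd.x 0 ∈ S.N (pd.x 1) ∧ pd.x 2 ∈ S.N (pd.x 1) at mem
  have mem₂ := pd₂.memN (i := 0) (by omega)
  change pd₂.x 0 ∈ S.N (pd₂.x 1) ∧ pd₂.x 2 ∈ S.N (pd₂.x 1) at mem₂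
  rw [hv, hx0, hz] at mem
  rw [hv₂, hy0, hz₂] at mem₂
  have hxz : x ≠ z := by have := pd.nb 0 (by omega); rwa [hx0, show 0 + 2 = 2 from rfl, hz] at this
  have hyz : y ≠ z := by
    have := pd₂.nb 0 (by omega); rwa [hy0, show 0 + 2 = 2 from rfl, hz₂] at this
  have GA := ga v K₁ hK₁ le_rfl
  have hbtw' : 1 / K₁ ≤ ‖S.p v x y - S.p v x z‖ :=
    (one_div_le_one_div_of_le (by linarith) hK₀₁).trans hbtw
  have addL := GA.add_L y mem₂.1 z mem.2 x mem.1 hyz hab hxz hbtw'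
  have addD := GA.add_D y mem₂.1 z mem.2 x mem.1 hyz hab hxz hbtw'
  have near := GA.near z mem.2 y mem₂.1 x mem.1 hyz.symm hxz hab (by rwa [norm_sub_rev])
  have rz := GA.r_le z mem.2 x mem.1 y mem₂.1 hxz.symm hyz.symm hab (hs.trans hK₀₁)
  have Lxy := GA.L_le x mem.1 y mem₂.1 hab (hs.trans hK₀₁)
  have base := hS.base v
  have Lyx1 := base.L_one y x
  rw [base.L_symm x y] at Lxy
  rw [abs_le] at addL
  have hb1' : ‖s.fa - (S.p v x y).1‖ ≤ K₀ :=
    (norm_fst_le ((s.fa, s.c) - S.p v x y)).trans hb1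
  have hb1'' : ‖s.c - (S.p v x y).2‖ ≤ K₀ :=
    (norm_snd_le ((s.fa, s.c) - S.p v x y)).trans hb1
  -- departure times
  have hdp0 : pd.dp 0 = ‖S.p v x z - (s.fa, s.c)‖ := by
    unfold dp Sys.dep
    change max ((pd.R 0).A + ‖(S.p (pd.x 1) (pd.x 0) (pd.x 2)).2 - (pd.R 0).γ‖)
      ((pd.R 0).B + ‖(S.p (pd.x 1) (pd.x 0) (pd.x 2)).1 - (pd.R 0).f‖) = _
    rw [pd.R0, hv, hx0, hz, Prod.norm_def, max_comm]
    simp only [St.ini, zero_add]
    rfl
  have hdp0₂ : pd₂.dp 0 = ‖S.p v y z - (s₂.fa, s₂.c)‖ := by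
    unfold dp Sys.dep
    change max ((pd₂.R 0).A + ‖(S.p (pd₂.x 1) (pd₂.x 0) (pd₂.x 2)).2 - (pd₂.R 0).γ‖)
      ((pd₂.R 0).B + ‖(S.p (pd₂.x 1) (pd₂.x 0) (pd₂.x 2)).1 - (pd₂.R 0).f‖) = _
    rw [pd₂.R0, hv₂, hy0, hz₂, Prod.norm_def, max_comm]
    simp only [St.ini, zero_add]
    rfl
  have d1 : |pd.dp 0 - ‖S.p v x y - S.p v x z‖| ≤ K₀ := by
    rw [hdp0, norm_sub_rev (S.p v x y)]
    refine (abs_norm_sub_norm_le _ _).trans ?_
    rw [sub_sub_sub_cancel_left, norm_sub_rev]; exact hb1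
  have d2 : pd₂.dp 0 ≤ K₀ + Ka := by
    rw [hdp0₂]
    have := tri3 (S.p v y z) (S.p v y x) (s₂.fa, s₂.c)
    rw [norm_sub_rev (S.p v y x) (s₂.fa, s₂.c), norm_sub_rev (S.p v y z) (S.p v y x)] at this
    linarith
  have d3 : 0 ≤ pd₂.dp 0 := by rw [hdp0₂]; exact norm_nonneg _
  rw [abs_le] at d1
  -- first records
  have hR1 : pd.R 1 = S.tr x v z s.ini := by
    have := pd.Rs 0 (by omega)
    rw [pd.R0] at this
    change pd.R 1 = S.tr (pd.x 0) (pd.x 1) (pd.x 2) s.ini at this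
    rwa [hv, hx0, hz] at this
  have hR1₂ : pd₂.R 1 = S.tr y v z s₂.ini := by
    have := pd₂.Rs 0 (by omega)
    rw [pd₂.R0] at this
    change pd₂.R 1 = S.tr (pd₂.x 0) (pd₂.x 1) (pd₂.x 2) s₂.ini at this
    rwa [hv₂, hy0, hz₂] at this
  have hA1 : (pd.R 1).A = pd.dp 0 + S.L v x z := by
    have := pd.A_succ (i := 0) (by omega)
    change (pd.R 1).A = pd.dp 0 + S.L (pd.x 1) (pd.x 0) (pd.x 2) at this
    rwa [hv, hx0, hz] at this
  have hA1₂ : (pd₂.R 1).A = pd₂.dp 0 + S.L v y z := by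
    have := pd₂.A_succ (i := 0) (by omega)
    change (pd₂.R 1).A = pd₂.dp 0 + S.L (pd₂.x 1) (pd₂.x 0) (pd₂.x 2) at this
    rwa [hv₂, hy0, hz₂] at this
  have hDf : ‖s.fb + S.D v x z - (s₂.fb + S.D v y z)‖ ≤ K₀ + Ka := by
    calc _ = ‖-(S.D v y z - S.D v y x - S.D v x z) - (s₂.fb - s.fb - S.D v x y)‖ := by
          rw [base.D_symm y x]; congr 1; abel
      _ ≤ _ := norm_sub_le _ _
      _ ≤ _ := by rw [norm_neg]; linarith
  have hRC : RC K₂ (pd.R 1) (pd₂.R 1) := by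
    have hA : |(pd.R 1).A - (pd₂.R 1).A| ≤ 2 * K₀ + 3 * Ka := by
      rw [hA1, hA1₂, abs_le]
      constructor <;> linarith
    have hφ : ‖(pd.R 1).φ - (pd₂.R 1).φ‖ ≤ Ka := by
      rw [hR1, hR1₂]
      exact (norm_fst_le (S.p v z x - S.p v z y)).trans rz
    have hγ : ‖(pd.R 1).γ - (pd₂.R 1).γ‖ ≤ Ka := by
      rw [hR1, hR1₂]
      exact (norm_snd_le (S.p v z x - S.p v z y)).trans rz
    refine ⟨by linarith, ?_, by linarith⟩
    rw [hR1, hR1₂]
    simp only [St.ini, Sys.tr, sub_self, abs_zero, zero_add]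
    linarith
  have hx' : ∀ k ≤ n + 1, pd.x (1 + k) = pd₂.x (1 + k) := fun k hk => hx _ (by omega) (by omega)
  have F : ∀ k, 1 ≤ k → k ≤ n + 1 → RC K₂ (pd.R k) (pd₂.R k) := by
    intro k hk1 hk2
    have := fwd_close pd pd₂ 1 1 n K₂ (by omega) (by omega) hx' hRC (k - 1) (by omega)
    rwa [show 1 + (k - 1) = k by omega] at this
  have B : ∀ k, 1 ≤ k → k ≤ n + 1 → CC K₂ (pd.R' k) (pd₂.R' k) := by
    intro k hk1 hk2
    have := bwd_close pd pd₂ 1 1 n K₂ (by omega) (by omega) hx' (by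
      have h1 := pd.Rm
      have h2 := pd₂.Rm
      rw [hm] at h1
      rw [hm₂] at h2
      rw [show 1 + n = n + 1 by ring, h1, h2]
      exact CC.refl (by linarith) _) (k - 1) (by omega)
    rwa [show 1 + (k - 1) = k by omega] at this
  -- displacement
  have hth : ‖pd.th 0 - pd₂.th 0‖ ≤ K₂ + K₀ + Ka := by
    unfold th
    change ‖(pd.R' 1).φ - (pd.R 0).φ - S.D (pd.x 1) (pd.x 0) (pd.x 2) -
      ((pd₂.R' 1).φ - (pd₂.R 0).φ - S.D (pd₂.x 1) (pd₂.x 0) (pd₂.x 2))‖ ≤ _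
    rw [pd.R0, pd₂.R0, hv, hv₂, hx0, hy0, hz, hz₂]
    simp only [St.ini]
    have := (B 1 le_rfl (by omega)).φ
    calc _ = ‖((pd.R' 1).φ - (pd₂.R' 1).φ) - (s.fb + S.D v x z - (s₂.fb + S.D v y z))‖ := by
          congr 1; abel
      _ ≤ _ := norm_sub_le _ _
      _ ≤ _ := by linarith
  -- the start wall
  have startcase : ∀ t, -K₃ ≤ t → t ≤ pd.dp 0 + K₃ →
      ∃ z₂, pd₂.TP M' (K₃ + 24 * K₂) t z₂ ∧ Near S (24 * K₂) (pd.wallPos 0 t).rev z₂ := by
    intro t ht1 ht2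
    have hval : pd₂.Val M' (K₃ + 24 * K₂) 0 x t := by
      right; right
      change x ∈ S.N (pd₂.x 1) ∧ x ≠ pd₂.x 0 ∧ x ≠ pd₂.x 2 ∧
        1 / M' ≤ ‖S.p (pd₂.x 1) x (pd₂.x 0) - S.p (pd₂.x 1) x (pd₂.x 2)‖ ∧
        pd₂.dp 0 + S.L (pd₂.x 1) (pd₂.x 0) x - (K₃ + 24 * K₂) ≤ t ∧
        t ≤ pd₂.dp 0 + S.L (pd₂.x 1) (pd₂.x 0) x +
        ‖S.p (pd₂.x 1) x (pd₂.x 0) - S.p (pd₂.x 1) x (pd₂.x 2)‖ + (K₃ + 24 * K₂)
      rw [hv₂, hy0, hz₂]
      refine ⟨mem.1, hab, hxz, ?_, ?_, ?_⟩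
      · exact (one_div_le_one_div_of_le (by linarith) hM').trans hbtw'
      · linarith
      · linarith
    refine ⟨pd₂.locPos 0 x t, Or.inr ⟨0, by omega, x, hval, rfl⟩, ?_⟩
    have e1 : pd₂.locPos 0 x t = pd₂.inPos 0 x t := by
      unfold locPos
      rw [if_neg (by rw [hy0]; exact hab),
        if_neg (by rw [show 0 + 2 = 2 from rfl, hz₂]; exact hxz)]
    rw [e1]
    apply Near.of_nb (by linarith)
    have hR'0 : pd.R' 0 = S.tr z v x (pd.R' 1) := by
      have := pd.Rs' 0 (by omega)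
      change pd.R' 0 = S.tr (pd.x 2) (pd.x 1) (pd.x 0) (pd.R' 1) at this
      rwa [hv, hx0, hz] at this
    refine Nb.same ?_ ?_ ?_ ?_ ?_
    · change pd.x 1 = pd₂.x 1; rw [hv, hv₂]
    · change pd.x 0 = x; exact hx0
    · change ‖(pd.R 0).φ + cl (t - (pd.R 0).A) ((pd.R' 0).f - (pd.R 0).φ) -
        ((pd₂.R 0).φ + S.D (pd₂.x 1) (pd₂.x 0) x + cl (t - (pd₂.R 0).A) (pd₂.th 0))‖ ≤ _
      have e2 : (pd.R' 0).f - (pd.R 0).φ = pd.th 0 := by
        unfold th
        change _ = (pd.R' 1).φ - (pd.R 0).φ - S.D (pd.x 1) (pd.x 0) (pd.x 2)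
        rw [hR'0, hv, hx0, hz]
        simp only [Sys.tr]
        rw [base.D_symm z x]; abel
      rw [e2, pd.R0, pd₂.R0, hv₂, hy0]
      simp only [St.ini, sub_zero]
      have c1 := cl_close t t (pd.th 0) (pd₂.th 0)
      rw [sub_self, abs_zero, zero_add] at c1
      have c2 : ‖s.fb - (s₂.fb + S.D v y x)‖ ≤ K₀ := by
        rw [base.D_symm y x]
        calc _ = ‖s₂.fb - s.fb - S.D v x y‖ := by rw [← norm_neg]; congr 1; abel
          _ ≤ _ := hf
      calc _ = ‖(s.fb - (s₂.fb + S.D v y x)) + (cl t (pd.th 0) - cl t (pd₂.th 0))‖ := by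
            congr 1; abel
        _ ≤ _ := norm_add_le _ _
        _ ≤ _ := by linarith
    · change ‖(pd.R 0).f + cl (t - (pd.R 0).B) ((pd.R' 0).φ - (pd.R 0).f) -
        (pd₂.bv 0 x t).1‖ ≤ _
      rw [pd.R0, hR'0]
      have e3 : (pd₂.bv 0 x t).1 = (S.p v x y).1 + cl (t - pd₂.dp 0 - S.L v y x)
          ((S.p v x z).1 - (S.p v x y).1) := by
        change (S.p (pd₂.x 1) x (pd₂.x 0)).1 + cl (t - pd₂.dp 0 - S.L (pd₂.x 1) (pd₂.x 0) x)
          ((S.p (pd₂.x 1) x (pd₂.x 2)).1 - (S.p (pd₂.x 1) x (pd₂.x 0)).1) = _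
        rw [hv₂, hy0, hz₂]
      rw [e3]
      simp only [St.ini, Sys.tr, sub_zero]
      refine (mv_close s.fa (S.p v x y).1 (S.p v x z).1 (S.p v x z).1 t
        (t - pd₂.dp 0 - S.L v y x) (K₀ + 2 * Ka) (by linarith)
        (by rw [sub_self, norm_zero]; linarith) ?_).trans (by linarith)
      rw [show t - (t - pd₂.dp 0 - S.L v y x) = pd₂.dp 0 + S.L v y x by ring,
        abs_of_nonneg (by linarith)]
      linarith
    · change ‖(pd.R 0).γ + cl (t - (pd.R 0).A) ((pd.R' 0).γ - (pd.R 0).γ) -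
        (pd₂.bv 0 x t).2‖ ≤ _
      rw [pd.R0, hR'0]
      have e3 : (pd₂.bv 0 x t).2 = (S.p v x y).2 + cl (t - pd₂.dp 0 - S.L v y x)
          ((S.p v x z).2 - (S.p v x y).2) := by
        change (S.p (pd₂.x 1) x (pd₂.x 0)).2 + cl (t - pd₂.dp 0 - S.L (pd₂.x 1) (pd₂.x 0) x)
          ((S.p (pd₂.x 1) x (pd₂.x 2)).2 - (S.p (pd₂.x 1) x (pd₂.x 0)).2) = _
        rw [hv₂, hy0, hz₂]
      rw [e3]
      simp only [St.ini, Sys.tr, sub_zero]
      refine (mv_close s.c (S.p v x y).2 (S.p v x z).2 (S.p v x z).2 t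
        (t - pd₂.dp 0 - S.L v y x) (K₀ + 2 * Ka) (by linarith)
        (by rw [sub_self, norm_zero]; linarith) ?_).trans (by linarith)
      rw [show t - (t - pd₂.dp 0 - S.L v y x) = pd₂.dp 0 + S.L v y x by ring,
        abs_of_nonneg (by linarith)]
      linarith
  intro t z' hz'
  rcases pd.TP_cases hz' with ⟨hz', ht⟩ | ⟨i, hi, w, hval, hz', hw⟩
  · refine ⟨pd₂.wallPos pd₂.m t, ?_, ?_⟩
    · apply TP_last
      have := (F pd.m (by omega) (by omega)).A
      rw [abs_le] at this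
      rw [hm₂, ← hm]
      linarith
    · rw [hz', hm₂, ← hm]
      exact (Near.of_nb (by linarith) (wall_close pd pd₂ pd.m pd.m K₂ t (hx _ (by omega) (by omega))
        (hx _ (by omega) (by omega)) (F _ (by omega) (by omega)) (B _ (by omega) (by omega)))).mono
        (by linarith)
  · by_cases hi1 : 1 ≤ i
    · have hb := bulk pd pd₂ i i hi (by omega) w M K K₂ t hK₂ (hx _ (by omega) (by omega))
        (hx _ (by omega) (by omega)) (hx _ (by omega) (by omega)) (F i (by omega) (by omega))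
        (B (i + 1) (by omega) (by omega)) hval (by
          intro hw1 _
          have hi1 := hw hw1
          have hd := dp_close pd pd₂ (i + 1) (i + 1) K₂ (hx _ (by omega) (by omega))
            (hx _ (by omega) (by omega)) (hx _ (by omega) (by omega)) (F (i + 1) (by omega)
            (by omega))
          rw [abs_le] at hd
          rcases hval with hv' | hv' | hv'
          · exact absurd (hv'.1.symm.trans hw1) (pd.nb i hi)
          · linarith [hv'.2.2 hi1]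
          · exact absurd hw1 hv'.2.2.1)
      refine ⟨_, Or.inr ⟨i, by omega, w, hb.1.mono hM (by linarith) ?_, rfl⟩, ?_⟩
      · linarith
      · rw [hz']; exact hb.2.mono (by linarith)
    · have hi0 : i = 0 := by omega
      subst hi0
      have hval0 := hval
      rcases hval with ⟨h1, h2, h3⟩ | ⟨h1, h2, h3⟩ | ⟨h1, h2, h3, h4, h5, h6⟩
      · -- start wall
        rw [pd.R0] at h2
        simp only [St.ini] at h2
        obtain ⟨z₂, g1, g2⟩ := startcase t (by linarith) (by linarith)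
        refine ⟨z₂, g1.mono (by linarith) le_rfl (by linarith), ?_⟩
        rw [hz']
        unfold locPos
        rw [if_pos h1]
        exact g2.mono (by linarith)
      · -- exit wall
        have hm1 := hw h1
        have hRC1 := F 1 le_rfl (by omega)
        have hA := hRC1.A
        have hd := dp_close pd pd₂ 1 1 K₂ (hx _ (by omega) (by omega)) (hx _ (by omega) (by omega))
          (hx _ (by omega) (by omega)) hRC1
        rw [abs_le] at hA hd
        change (pd.R 1).A - K ≤ t at h2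
        have h3' : t ≤ pd.dp 1 + K := h3 hm1
        refine ⟨pd₂.locPos 0 w t, Or.inr ⟨0, by omega, w, Or.inr (Or.inl ⟨?_, ?_, ?_⟩), rfl⟩, ?_⟩
        · rw [h1]; exact hx _ (by omega) (by omega)
        · change (pd₂.R 1).A - _ ≤ t
          linarith
        · intro _
          change t ≤ pd₂.dp 1 + _
          linarith
        · rw [hz']
          unfold locPos
          rw [if_neg (by rw [h1]; exact (pd.nb 0 (by omega)).symm), if_pos h1,
            if_neg (by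
              rw [h1]
              change pd.x 2 ≠ _
              rw [hx 2 (by omega) (by omega)]; exact (pd₂.nb 0 (by omega)).symm),
            if_pos (by rw [h1]; exact hx _ (by omega) (by omega))]
          exact (Near.of_nb (by linarith) (wall_close pd pd₂ 1 1 K₂ t (hx _ (by omega) (by omega))
            (hx _ (by omega) (by omega)) hRC1 (B 1 le_rfl (by omega)))).mono (by linarith)
      · change pd.dp 0 + S.L (pd.x 1) (pd.x 0) w - K ≤ t at h5
        change t ≤ pd.dp 0 + S.L (pd.x 1) (pd.x 0) w +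
          ‖S.p (pd.x 1) w (pd.x 0) - S.p (pd.x 1) w (pd.x 2)‖ + K at h6
        change 1 / M ≤ ‖S.p (pd.x 1) w (pd.x 0) - S.p (pd.x 1) w (pd.x 2)‖ at h4
        change w ∈ S.N (pd.x 1) at h1
        change w ≠ pd.x 2 at h3
        rw [hv, hx0] at h5 h6
        rw [hv] at h1
        rw [hv, hx0, hz] at h4
        rw [hz] at h6
        rw [hx0] at h2
        rw [hz] at h3
        have h4' : 1 / K₁ ≤ ‖S.p v w x - S.p v w z‖ :=
          (one_div_le_one_div_of_le (by linarith) hMK₁).trans h4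
        rcases hts v x mem.1 z mem.2 y mem₂.1 w h1 hxz hyz hab h2 h3 (hs.trans hK₀₁) hbtw' h4'
          with ⟨q1, q2⟩ | q1
        · -- still an intermediate wall
          have e0 : 1 / M' ≤ 1 / K₁ := one_div_le_one_div_of_le (by linarith) hM'
          have tt := hts2 v x mem.1 z mem.2 y mem₂.1 w h1 hxz hyz hab h2 q1 (by linarith)
            (e0.trans hbtw') (Or.inr ⟨e0.trans h4', q2⟩)
          obtain ⟨tL, tD⟩ := tt
          rw [abs_le] at tL
          have rw1 := GA.r_le w h1 x mem.1 y mem₂.1 h2 q1 hab (hs.trans hK₀₁)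
          have t1 := tri3 (S.p v w x) (S.p v w y) (S.p v w z)
          refine ⟨pd₂.locPos 0 w t, Or.inr ⟨0, by omega, w, Or.inr (Or.inr ?_), rfl⟩, ?_⟩
          · change w ∈ S.N (pd₂.x 1) ∧ w ≠ pd₂.x 0 ∧ w ≠ pd₂.x 2 ∧
              1 / M' ≤ ‖S.p (pd₂.x 1) w (pd₂.x 0) - S.p (pd₂.x 1) w (pd₂.x 2)‖ ∧
              pd₂.dp 0 + S.L (pd₂.x 1) (pd₂.x 0) w - (K₃ + K₄ + 24 * K₂) ≤ t ∧
              t ≤ pd₂.dp 0 + S.L (pd₂.x 1) (pd₂.x 0) w +
              ‖S.p (pd₂.x 1) w (pd₂.x 0) - S.p (pd₂.x 1) w (pd₂.x 2)‖ + (K₃ + K₄ + 24 * K₂)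
            rw [hv₂, hy0, hz₂]
            exact ⟨h1, q1, h3, q2, by linarith, by linarith⟩
          · rw [hz']
            unfold locPos
            rw [if_neg (by rw [hx0]; exact h2),
              if_neg (by rw [show 0 + 2 = 2 from rfl, hz]; exact h3),
              if_neg (by rw [hy0]; exact q1),
              if_neg (by rw [show 0 + 2 = 2 from rfl, hz₂]; exact h3)]
            have hle : 1 ≤ 4 * K₂ := by linarith
            have : Nb S (6 * (4 * K₂)) (pd.inPos 0 w t) (pd₂.inPos 0 w t) := by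
              apply in_close
              · change pd.x 1 = pd₂.x 1
                rw [hv, hv₂]
              · change ‖(pd.R 0).φ + S.D (pd.x 1) (pd.x 0) w -
                  ((pd₂.R 0).φ + S.D (pd₂.x 1) (pd₂.x 0) w)‖ ≤ _
                rw [hv, hv₂, hx0, hy0, pd.R0, pd₂.R0]
                simp only [St.ini]
                calc _ = ‖-(S.D v y w - S.D v y x - S.D v x w) -
                      (s₂.fb - s.fb - S.D v x y)‖ := by
                      rw [base.D_symm y x]; congr 1; abel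
                  _ ≤ _ := norm_sub_le _ _
                  _ ≤ _ := by rw [norm_neg]; linarith
              · rw [pd.R0, pd₂.R0]
                simp only [St.ini, sub_self, abs_zero]
                linarith
              · linarith
              · change ‖S.p (pd.x 1) w (pd.x 0) - S.p (pd₂.x 1) w (pd₂.x 0)‖ ≤ _
                rw [hv, hv₂, hx0, hy0]
                linarith
              · change ‖S.p (pd.x 1) w (pd.x 2) - S.p (pd₂.x 1) w (pd₂.x 2)‖ ≤ _
                rw [hv, hv₂, hz, hz₂, sub_self, norm_zero]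
                linarith
              · change |pd.dp 0 + S.L (pd.x 1) (pd.x 0) w -
                  (pd₂.dp 0 + S.L (pd₂.x 1) (pd₂.x 0) w)| ≤ _
                rw [hv, hv₂, hx0, hy0, abs_le]
                constructor <;> linarith
            exact (Near.of_nb (by linarith) this).mono (by linarith)
        · -- near the start wall
          have hv1 : pd.Val M K₃ 0 w t := hval0.mono' (by linarith)
          have hL0 := base.L_one x w
          have hv2 : pd.Val M K₃ 0 (pd.x 0) t := by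
            left
            refine ⟨rfl, ?_, by linarith⟩
            rw [pd.R0]
            simp only [St.ini]
            have := (abs_nonneg (pd.dp 0))
            have h0 : 0 ≤ pd.dp 0 := by rw [hdp0]; exact norm_nonneg _
            linarith
          have hnear := hloc s s' pd 0 (by omega) w _ t hv1 hv2
          have e1 : pd.locPos 0 (pd.x 0) t = (pd.wallPos 0 t).rev := by
            unfold locPos
            rw [if_pos rfl]
          rw [e1] at hnear
          have h0 : 0 ≤ pd.dp 0 := by rw [hdp0]; exact norm_nonneg _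
          have hn0 := norm_nonneg (S.p v w x - S.p v w z)
          obtain ⟨z₂, g1, g2⟩ := startcase t (by linarith) (by linarith)
          refine ⟨z₂, g1.mono (by linarith) le_rfl (by linarith), ?_⟩
          rw [hz']
          exact (hnear.trans g2).mono (by linarith)

end PD

end Pool.Agent.H81.HDG
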