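import Mathlib
import Pool.Agent.H81.HDG.Transfer3

/-!
# Arrival times
-/

set_option autoImplicit false
set_option linter.unusedSectionVars false

namespace Pool.Agent.H81.HDG

variable {V E : Type*} [NormedAddCommGroup E] [NormedSpace ℝ E]

/-- arrival time at the state `z`, given the record at its wall -/
noncomputable def Tend (R : Rec E) (z : St V E) : ℝ :=
  max (R.A + ‖(z.fb, z.c) - (R.φ, R.γ)‖) (R.B + ‖z.fa - R.f‖)

namespace PD

variable {S : Sys V E} {s s' s₂ s₂' : St V E}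

/-- arrival time -/
noncomputable def Tval (pd : PD S s s') : ℝ := Tend (pd.R pd.m) s'

/-- Construction of path data from the underlying sequence. -/
theorem exists_mk (S : Sys V E) (s s' : St V E) (m : ℕ) (x : ℕ → V) (x0 : x 0 = s.a)
    (x1 : x 1 = s.b) (xm : x m = s'.a) (xm1 : x (m + 1) = s'.b)
    (adj : ∀ i ≤ m, S.G.Adj (x i) (x (i + 1))) (nb : ∀ i < m, x i ≠ x (i + 2)) :
    ∃ pd : PD S s s', pd.m = m ∧ pd.x = x := by
  let R : ℕ → Rec E := fun k => Nat.rec s.ini (fun i r => S.tr (x i) (x (i + 1)) (x (i + 2)) r) k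
  let Q : ℕ → Rec E := fun k => Nat.rec s'.rev.ini
    (fun j r => S.tr (x (m - j + 1)) (x (m - j)) (x (m - j - 1)) r) k
  refine ⟨⟨m, x, R, fun i => Q (m - i), x0, x1, xm, xm1, adj, nb, rfl, fun i _ => rfl, ?_, ?_⟩,
    rfl, rfl⟩
  · simp only [Nat.sub_self]
    rfl
  · intro i hi
    have e : m - i = (m - (i + 1)) + 1 := by omega
    change Q (m - i) = S.tr (x (i + 2)) (x (i + 1)) (x i) (Q (m - (i + 1)))
    rw [e]
    change S.tr (x (m - (m - (i + 1)) + 1)) (x (m - (m - (i + 1))))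
      (x (m - (m - (i + 1)) - 1)) (Q (m - (i + 1))) = _
    rw [show m - (m - (i + 1)) + 1 = i + 2 by omega, show m - (m - (i + 1)) = i + 1 by omega,
      show i + 1 - 1 = i by omega]

/-- The records depend only on the start and the sequence. -/
theorem R_congr (pd : PD S s s') (pd₂ : PD S s s₂') (N : ℕ) (h1 : N ≤ pd.m) (h2 : N ≤ pd₂.m)
    (hx : ∀ k ≤ N + 1, pd.x k = pd₂.x k) : ∀ k ≤ N, pd.R k = pd₂.R k := by
  intro k
  induction k with
  | zero => intro _; rw [pd.R0, pd₂.R0]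
  | succ k ih =>
    intro hk
    rw [pd.Rs k (by omega), pd₂.Rs k (by omega), ih (by omega), hx k (by omega),
      hx (k + 1) (by omega), hx (k + 2) (by omega)]

theorem Tval_lower (pd : PD S s s') : (pd.R pd.m).A ≤ pd.Tval :=
  le_trans (by linarith [norm_nonneg ((s'.fb, s'.c) - ((pd.R pd.m).φ, (pd.R pd.m).γ))])
    (le_max_left _ _)

theorem Tval_nonneg (hS : S.Good) (pd : PD S s s') : 0 ≤ pd.Tval :=
  (pd.A_nonneg hS le_rfl).trans pd.Tval_lower

/-- The path has arrived at time `Tval`. -/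
theorem wallPos_fin (pd : PD S s s') {t : ℝ} (h : pd.Tval ≤ t) : pd.wallPos pd.m t = s' := by
  have h1 : (pd.R pd.m).A + ‖(s'.fb, s'.c) - ((pd.R pd.m).φ, (pd.R pd.m).γ)‖ ≤ t :=
    (le_max_left _ _).trans h
  have h2 : (pd.R pd.m).B + ‖s'.fa - (pd.R pd.m).f‖ ≤ t := (le_max_right _ _).trans h
  have h3 : ‖s'.fb - (pd.R pd.m).φ‖ ≤ ‖(s'.fb, s'.c) - ((pd.R pd.m).φ, (pd.R pd.m).γ)‖ :=
    norm_fst_le ((s'.fb, s'.c) - ((pd.R pd.m).φ, (pd.R pd.m).γ))
  have h4 : ‖s'.c - (pd.R pd.m).γ‖ ≤ ‖(s'.fb, s'.c) - ((pd.R pd.m).φ, (pd.R pd.m).γ)‖ :=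
    norm_snd_le ((s'.fb, s'.c) - ((pd.R pd.m).φ, (pd.R pd.m).γ))
  unfold wallPos
  rw [pd.Rm, pd.xm, pd.xm1]
  simp only [St.ini, St.rev]
  rw [cl_of_le (by linarith), cl_of_le (by linarith), cl_of_le (by linarith)]
  simp

theorem TP_fin (pd : PD S s s') {M K t : ℝ} (hK : 0 ≤ K) (h : pd.Tval ≤ t) :
    pd.TP M K t s' := by
  have h1 := pd.TP_last (M := M) (K := K) (t := t) (by linarith [pd.Tval_lower])
  rwa [pd.wallPos_fin h] at h1

theorem wallPos_start (pd : PD S s s') : pd.wallPos 0 0 = s := by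
  unfold wallPos
  rw [pd.R0, pd.x0, pd.x1]
  simp only [St.ini]
  rw [cl_nonpos (by simp), cl_nonpos (by simp), cl_nonpos (by simp)]
  simp

theorem TP_start (pd : PD S s s') {M K : ℝ} (hK : 0 ≤ K) :
    pd.TP M K 0 s ∨ pd.TP M K 0 s.rev := by
  rcases Nat.eq_zero_or_pos pd.m with hm | hm
  · left; left
    exact ⟨hm, pd.wallPos_start.symm, by linarith⟩
  · right; right
    have h1 := pd.A_le_dp 0
    rw [pd.R0] at h1
    simp only [St.ini] at h1
    refine ⟨0, hm, pd.x 0, Or.inl ⟨rfl, ?_, by linarith⟩, ?_⟩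
    · rw [pd.R0]; simp only [St.ini]; linarith
    · unfold locPos
      rw [if_pos rfl, pd.wallPos_start]

/-- The positions move with bounded speed. -/
theorem locPos_time (pd : PD S s s') (i : ℕ) (w : V) (t t' : ℝ) :
    Nb S |t - t'| (pd.locPos i w t) (pd.locPos i w t') := by
  have aux : ∀ (a b : E) (u : ℝ), ‖(a + cl (t - u) b) - (a + cl (t' - u) b)‖ ≤ |t - t'| := by
    intro a b u
    rw [add_sub_add_left_eq_sub]
    refine (cl_time _ _ _).trans (le_of_eq ?_)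
    congr 1; ring
  unfold locPos
  split_ifs with h1 h2
  · exact Nb.same rfl rfl (aux _ _ _) (aux _ _ _) (aux _ _ _)
  · exact Nb.same rfl rfl (aux _ _ _) (aux _ _ _) (aux _ _ _)
  · refine Nb.same rfl rfl (aux _ _ _) ?_ ?_
    · change ‖(_ + cl _ _) - (_ + cl _ _)‖ ≤ _
      rw [add_sub_add_left_eq_sub]
      refine (cl_time _ _ _).trans (le_of_eq ?_)
      congr 1; ring
    · change ‖(_ + cl _ _) - (_ + cl _ _)‖ ≤ _
      rw [add_sub_add_left_eq_sub]
      refine (cl_time _ _ _).trans (le_of_eq ?_)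
      congr 1; ring

theorem wallPos_time (pd : PD S s s') (i : ℕ) (t t' : ℝ) :
    Nb S |t - t'| (pd.wallPos i t) (pd.wallPos i t') := by
  have aux : ∀ (a b : E) (u : ℝ), ‖(a + cl (t - u) b) - (a + cl (t' - u) b)‖ ≤ |t - t'| := by
    intro a b u
    rw [add_sub_add_left_eq_sub]
    refine (cl_time _ _ _).trans (le_of_eq ?_)
    congr 1; ring
  exact Nb.same rfl rfl (aux _ _ _) (aux _ _ _) (aux _ _ _)

theorem TP_step (pd : PD S s s') {M K t : ℝ} (t' : ℝ) {z : St V E} (h : pd.TP M K t z)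
    (htt : |t - t'| ≤ 1) : ∃ z', pd.TP M (K + 1) t' z' ∧ Near S 1 z z' := by
  have htt' := abs_le.1 htt
  rcases h with ⟨hm, hz, ht⟩ | ⟨i, hi, w, hv, hz⟩
  · refine ⟨pd.wallPos 0 t', Or.inl ⟨hm, rfl, by linarith⟩, ?_⟩
    rw [hz]
    exact Near.of_nb le_rfl ((pd.wallPos_time 0 t t').mono htt)
  · refine ⟨pd.locPos i w t', Or.inr ⟨i, hi, w, ?_, rfl⟩, ?_⟩
    · rcases hv with ⟨h1, h2, h3⟩ | ⟨h1, h2, h3⟩ | ⟨h1, h2, h3, h4, h5, h6⟩
      · exact Or.inl ⟨h1, by linarith, by linarith⟩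
      · exact Or.inr (Or.inl ⟨h1, by linarith, fun h => by linarith [h3 h]⟩)
      · exact Or.inr (Or.inr ⟨h1, h2, h3, h4, by linarith, by linarith⟩)
    · rw [hz]
      exact Near.of_nb le_rfl ((pd.locPos_time i w t t').mono htt)

/-! ### Progress -/

theorem min_aux {A t K x : ℝ} (h1 : A - K ≤ t) (hK : 0 ≤ K) :
    A + min (max (t - A) 0) x ≤ t + K := by
  have : min (max (t - A) 0) x ≤ max (t - A) 0 := min_le_left _ _
  have h2 : max (t - A) 0 ≤ t + K - A := max_le (by linarith) (by linarith)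
  linarith

theorem min_aux2 {A t K x : ℝ} (h1 : t ≤ A + x + K) (hK : 0 ≤ K) :
    t - K ≤ A + min (max (t - A) 0) x := by
  have h2 : t - K - A ≤ min (max (t - A) 0) x := by
    apply le_min
    · exact le_trans (by linarith) (le_max_left _ _)
    · linarith
  linarith

/-- arrival time at a point reached by straight motion -/
theorem Tend_mv (R : Rec E) (z : St V E) (g h k : E) (t K : ℝ) (hK : 0 ≤ K)
    (hfa : z.fa = R.f + cl (t - R.B) (g - R.f)) (hfb : z.fb = R.φ + cl (t - R.A) (h - R.φ))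
    (hc : z.c = R.γ + cl (t - R.A) (k - R.γ)) (hA : R.A - K ≤ t) (hBA : R.B ≤ R.A)
    (hup : t ≤ max (R.A + ‖(h, k) - (R.φ, R.γ)‖) (R.B + ‖g - R.f‖) + K) :
    |Tend R z - t| ≤ K := by
  have e1 : ‖(z.fb, z.c) - (R.φ, R.γ)‖ = max (min (max (t - R.A) 0) ‖h - R.φ‖)
      (min (max (t - R.A) 0) ‖k - R.γ‖) := by
    rw [Prod.norm_def, hfb, hc]
    change max ‖R.φ + cl (t - R.A) (h - R.φ) - R.φ‖ ‖R.γ + cl (t - R.A) (k - R.γ) - R.γ‖ = _
    rw [add_sub_cancel_left, add_sub_cancel_left, norm_cl, norm_cl]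
  have e2 : ‖z.fa - R.f‖ = min (max (t - R.B) 0) ‖g - R.f‖ := by
    rw [hfa, add_sub_cancel_left, norm_cl]
  have e3 : ‖(h, k) - (R.φ, R.γ)‖ = max ‖h - R.φ‖ ‖k - R.γ‖ := by
    rw [Prod.norm_def]; rfl
  unfold Tend
  rw [e1, e2, abs_le]
  rw [e3] at hup
  constructor
  · rw [neg_le_sub_iff_le_add, ← tsub_le_iff_right]
    have : t - K ≤ max (R.A + max ‖h - R.φ‖ ‖k - R.γ‖) (R.B + ‖g - R.f‖) := by linarith
    rcases le_max_iff.1 this with h1 | h1
    · refine le_trans ?_ (le_max_left _ _)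
      rcases le_total ‖h - R.φ‖ ‖k - R.γ‖ with h2 | h2
      · rw [max_eq_right h2] at h1
        have := min_aux2 (A := R.A) (t := t) (K := K) (x := ‖k - R.γ‖) (by linarith) hK
        exact this.trans (by gcongr; exact le_max_right _ _)
      · rw [max_eq_left h2] at h1
        have := min_aux2 (A := R.A) (t := t) (K := K) (x := ‖h - R.φ‖) (by linarith) hK
        exact this.trans (by gcongr; exact le_max_left _ _)
    · refine le_trans ?_ (le_max_right _ _)
      exact min_aux2 (A := R.B) (t := t) (K := K) (x := ‖g - R.f‖) (by linarith) hK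
  · rw [sub_le_iff_le_add, add_comm K t]
    apply max_le
    · rw [← max_add_add_left]
      exact max_le (min_aux hA hK) (min_aux hA hK)
    · exact min_aux (by linarith) hK

/-- truncation at the wall `i` -/
theorem prog_wall (hS : S.Good) (pd : PD S s s') (i : ℕ) (hi : i < pd.m) (K t : ℝ) (hK : 0 ≤ K)
    (h1 : (pd.R i).A - K ≤ t) (h2 : t ≤ pd.dp i + K) :
    ∃ pdz : PD S s (pd.wallPos i t), |pdz.Tval - t| ≤ K := by
  obtain ⟨pdz, hm, hx⟩ := exists_mk S s (pd.wallPos i t) i pd.x pd.x0 pd.x1 rfl rfl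
    (fun j hj => pd.adj j (by omega)) (fun j hj => pd.nb j (by omega))
  refine ⟨pdz, ?_⟩
  have hR := pdz.R_congr pd i (by omega) (by omega) (fun k _ => by rw [hx]) i le_rfl
  unfold Tval
  rw [hm, hR]
  refine Tend_mv (pd.R i) _ (pd.R' i).φ (pd.R' i).f (pd.R' i).γ t K hK rfl rfl rfl h1
    (pd.B_le_A hS hi.le) ?_
  refine h2.trans ?_
  gcongr
  unfold dp Sys.dep
  rw [pd.Rs' i hi]
  simp only [Sys.tr]
  apply max_le
  · refine le_trans ?_ (le_max_left _ _)
    gcongr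
    exact norm_snd_le (((pd.R' (i + 1)).φ + S.D (pd.x (i + 1)) (pd.x (i + 2)) (pd.x i),
      (S.p (pd.x (i + 1)) (pd.x i) (pd.x (i + 2))).2) - ((pd.R i).φ, (pd.R i).γ))
  · exact le_max_right _ _

theorem prog_last (hS : S.Good) (pd : PD S s s') (K t : ℝ) (hK : 0 ≤ K)
    (h1 : (pd.R pd.m).A - K ≤ t) (h2 : t ≤ pd.Tval + K) :
    ∃ pdz : PD S s (pd.wallPos pd.m t), |pdz.Tval - t| ≤ K := by
  obtain ⟨pdz, hm, hx⟩ := exists_mk S s (pd.wallPos pd.m t) pd.m pd.x pd.x0 pd.x1 rfl rfl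
    pd.adj pd.nb
  refine ⟨pdz, ?_⟩
  have hR := pdz.R_congr pd pd.m (by omega) (by omega) (fun k _ => by rw [hx]) pd.m le_rfl
  unfold Tval
  rw [hm, hR]
  refine Tend_mv (pd.R pd.m) _ (pd.R' pd.m).φ (pd.R' pd.m).f (pd.R' pd.m).γ t K hK rfl rfl rfl h1
    (pd.B_le_A hS le_rfl) ?_
  rw [pd.Rm]
  exact h2

end PD

/-- Progress: the arrival time at the point reached at time `t` is about `t`. -/
theorem Sys.Good.prog {S : Sys V E} (hS : S.Good) (M : ℝ) (hM : 1 ≤ M) (K : ℝ) (hK : 0 ≤ K) :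
    ∃ K', 0 ≤ K' ∧ ∀ (s s' : St V E) (pd : PD S s s') (t : ℝ) (z : St V E),
      pd.TP M K t z → t ≤ pd.Tval → ∃ z', (z' = z ∨ z' = z.rev) ∧ ∃ pdz : PD S s z',
        |pdz.Tval - t| ≤ K' := by
  obtain ⟨K1, hK1, hMK1, g1⟩ := hS.at' M
  refine ⟨K + 2 * K1, by linarith, ?_⟩
  intro s s' pd t z hz ht
  rcases pd.TP_cases hz with ⟨hz, h1⟩ | ⟨i, hi, w, hv, hz, hw⟩
  · refine ⟨z, Or.inl rfl, ?_⟩
    rw [hz]
    obtain ⟨pdz, h⟩ := pd.prog_last hS K t hK h1 (by linarith)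
    exact ⟨pdz, h.trans (by linarith)⟩
  · rcases hv with ⟨h1, h2, h3⟩ | ⟨h1, h2, h3⟩ | ⟨h1, h2, h3, h4, h5, h6⟩
    · refine ⟨z.rev, Or.inr rfl, ?_⟩
      have e : z.rev = pd.wallPos i t := by
        rw [hz]; unfold PD.locPos; rw [if_pos h1]; rfl
      rw [e]
      obtain ⟨pdz, h⟩ := pd.prog_wall hS i hi K t hK h2 h3
      exact ⟨pdz, h.trans (by linarith)⟩
    · refine ⟨z, Or.inl rfl, ?_⟩
      have e : z = pd.wallPos (i + 1) t := by
        rw [hz]; unfold PD.locPos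
        rw [if_neg (by rw [h1]; exact (pd.nb i hi).symm), if_pos h1]
      rw [e]
      obtain ⟨pdz, h⟩ := pd.prog_wall hS (i + 1) (hw h1) K t hK h2 (h3 (hw h1))
      exact ⟨pdz, h.trans (by linarith)⟩
    · refine ⟨z, Or.inl rfl, ?_⟩
      have e : z = pd.inPos i w t := by
        rw [hz]; unfold PD.locPos
        rw [if_neg h2, if_neg h3]
      rw [e]
      have mem := pd.memN hi
      have hne := pd.nb i hi
      set v := pd.x (i + 1) with hvdef
      set x := pd.x i with hxdef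
      set y := pd.x (i + 2) with hydef
      have near := (g1 v M hM le_rfl).near y mem.2 x mem.1 w h1 hne.symm h3 h2
        (by rwa [norm_sub_rev])
      obtain ⟨pdz, hm, hx⟩ := PD.exists_mk S s (pd.inPos i w t) (i + 1)
        (fun k => if k = i + 2 then w else pd.x k) (by simp [pd.x0]) (by
          by_cases h : i + 2 = 1
          · omega
          · simp [pd.x1]) (by simp [PD.inPos]) (by simp [PD.inPos]) (by
          intro j hj
          by_cases h : j = i + 1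
          · subst h
            simp only [show i + 1 ≠ i + 2 by omega, if_false, show i + 1 + 1 = i + 2 by ring,
              if_true]
            exact h1
          · simp only [show j ≠ i + 2 by omega, show j + 1 ≠ i + 2 by omega, if_false]
            exact pd.adj j (by omega)) (by
          intro j hj
          by_cases h : j = i
          · subst h
            simp only [show j ≠ j + 2 by omega, if_false, if_true]
            exact h2.symm
          · simp only [show j ≠ i + 2 by omega, show j + 2 ≠ i + 2 by omega, if_false]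
            exact pd.nb j (by omega))
      refine ⟨pdz, ?_⟩
      have hR := pdz.R_congr pd i (by omega) (by omega) (fun k hk => by
        rw [hx]; simp only [show k ≠ i + 2 by omega, if_false]) i le_rfl
      have hR1 : pdz.R (i + 1) = S.tr x v w (pd.R i) := by
        rw [pdz.Rs i (by omega), hx, hR]
        simp only [show i ≠ i + 2 by omega, show i + 1 ≠ i + 2 by omega, if_false, if_true]
        rfl
      unfold PD.Tval
      rw [hm, hR1]
      -- change the departure time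
      set R₀ : Rec E := ⟨pd.dp i + S.L v x w, (pd.R i).A, (pd.R i).φ + S.D v x w,
        (S.p v w x).1, (S.p v w x).2⟩ with hR₀
      have hd : |S.dep x v w (pd.R i) - pd.dp i| ≤ K1 := by
        unfold PD.dp Sys.dep
        rw [← hvdef, ← hxdef, ← hydef]
        apply abs_max_sub_le
        · rw [add_sub_add_left_eq_sub]
          refine (abs_norm_sub_norm_le _ _).trans ?_
          rw [sub_sub_sub_cancel_right]
          exact (norm_snd_le (S.p v x w - S.p v x y)).trans near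
        · rw [add_sub_add_left_eq_sub]
          refine (abs_norm_sub_norm_le _ _).trans ?_
          rw [sub_sub_sub_cancel_right]
          exact (norm_fst_le (S.p v x w - S.p v x y)).trans near
      have hT : |Tend (S.tr x v w (pd.R i)) (pd.inPos i w t) - Tend R₀ (pd.inPos i w t)| ≤ K1 := by
        unfold Tend
        apply abs_max_sub_le
        · rw [hR₀]
          simp only [Sys.tr]
          rw [add_sub_add_right_eq_sub, add_sub_add_right_eq_sub]
          exact hd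
        · rw [hR₀]
          simp only [Sys.tr, sub_self, abs_zero]
          linarith
      have hL1 := (hS.base v).L_one x w
      have hAdp := pd.A_le_dp i
      have hT2 : |Tend R₀ (pd.inPos i w t) - t| ≤ K := by
        refine PD.Tend_mv R₀ _ (pd.th i + R₀.f) (S.p v w y).1 (S.p v w y).2 t K hK ?_ ?_ ?_ ?_ ?_ ?_
        · rw [hR₀]
          change pd.fv i w t = _
          unfold PD.fv
          rw [add_sub_cancel_right]
        · rw [hR₀]
          change (pd.bv i w t).1 = _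
          unfold PD.bv
          rw [← hvdef, ← hxdef, ← hydef]
          change (S.p v w x).1 + cl (t - pd.dp i - S.L v x w) _ = _
          rw [sub_sub]; rfl
        · rw [hR₀]
          change (pd.bv i w t).2 = _
          unfold PD.bv
          rw [← hvdef, ← hxdef, ← hydef]
          change (S.p v w x).2 + cl (t - pd.dp i - S.L v x w) _ = _
          rw [sub_sub]; rfl
        · rw [hR₀]; simp only; linarith
        · rw [hR₀]; simp only; linarith
        · refine h6.trans ?_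
          rw [norm_sub_rev]
          gcongr
          exact le_max_left _ _
      calc _ = |(Tend (S.tr x v w (pd.R i)) (pd.inPos i w t) - Tend R₀ (pd.inPos i w t)) +
            (Tend R₀ (pd.inPos i w t) - t)| := by congr 1; ring
        _ ≤ _ := abs_add_le _ _
        _ ≤ _ := by linarith

namespace PD

variable {S : Sys V E} {s s' s₂ s₂' : St V E}

/-! ### The arrival time depends coarsely Lipschitz on the end point -/

theorem Tend_close (R : Rec E) (z z' : St V E) (K : ℝ) (h1 : ‖z.fa - z'.fa‖ ≤ K)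
    (h2 : ‖z.fb - z'.fb‖ ≤ K) (h3 : ‖z.c - z'.c‖ ≤ K) : |Tend R z - Tend R z'| ≤ K := by
  unfold Tend
  apply abs_max_sub_le
  · rw [add_sub_add_left_eq_sub]
    refine (abs_norm_sub_norm_le _ _).trans ?_
    rw [sub_sub_sub_cancel_right, Prod.norm_def]
    exact max_le h2 h3
  · rw [add_sub_add_left_eq_sub]
    refine (abs_norm_sub_norm_le _ _).trans ?_
    rw [sub_sub_sub_cancel_right]
    exact h1

theorem Tval_t1 (pd : PD S s s') (pd₂ : PD S s s₂') (K : ℝ) (hm : pd₂.m = pd.m)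
    (hx : ∀ k ≤ pd.m + 1, pd.x k = pd₂.x k) (h1 : ‖s'.fa - s₂'.fa‖ ≤ K)
    (h2 : ‖s'.fb - s₂'.fb‖ ≤ K) (h3 : ‖s'.c - s₂'.c‖ ≤ K) : |pd.Tval - pd₂.Tval| ≤ K := by
  have hR := pd.R_congr pd₂ pd.m le_rfl (by omega) hx pd.m le_rfl
  unfold Tval
  rw [hm, ← hR]
  exact Tend_close _ _ _ _ h1 h2 h3

end PD

theorem Sys.Good.Tval_te2 {S : Sys V E} (hS : S.Good) (K₀ : ℝ) :
    ∃ K', ∀ (s s' s₂' : St V E) (pd : PD S s s') (pd₂ : PD S s s₂'), pd₂.m = pd.m + 1 →
      (∀ k ≤ pd.m + 1, pd.x k = pd₂.x k) →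
      S.s s'.b s'.a s₂'.b ≤ K₀ → ‖(s'.fa, s'.c) - S.p s'.b s'.a s₂'.b‖ ≤ K₀ →
      ‖(s₂'.fb, s₂'.c) - S.p s'.b s₂'.b s'.a‖ ≤ K₀ → ‖s₂'.fa - s'.fb - S.D s'.b s'.a s₂'.b‖ ≤ K₀ →
      |pd.Tval - pd₂.Tval| ≤ K' := by
  obtain ⟨K1, hK1, hMK1, g1⟩ := hS.at' (max K₀ 1)
  refine ⟨2 * K₀ + K1, ?_⟩
  intro s s' s₂' pd pd₂ hm hx hs hb1 hb2 hf
  have hv : pd₂.x (pd.m + 1) = s'.b := by rw [← hx _ le_rfl, pd.xm1]
  have hxm : pd₂.x pd.m = s'.a := by rw [← hx _ (by omega), pd.xm]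
  have hy : pd₂.x (pd.m + 2) = s₂'.b := by
    have := pd₂.xm1; rw [hm] at this; exact this
  have hR := pd.R_congr pd₂ pd.m le_rfl (by omega) hx pd.m le_rfl
  have mem := pd₂.memN (i := pd.m) (by omega)
  rw [hxm, hv, hy] at mem
  have hne := pd₂.nb pd.m (by omega)
  rw [hxm, hy] at hne
  have hL := (g1 s'.b (max K₀ 1) (le_max_right _ _) le_rfl).L_le s'.a mem.1 s₂'.b mem.2 hne
    (hs.trans (le_max_left _ _))
  have hL1 := (hS.base s'.b).L_one s'.a s₂'.b
  have hR2 := pd₂.Rs pd.m (by omega)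
  rw [hxm, hv, hy, ← hR] at hR2
  unfold PD.Tval
  rw [hm, hR2]
  set R := pd.R pd.m with hRdef
  have hb1' : ‖s'.fa - (S.p s'.b s'.a s₂'.b).1‖ ≤ K₀ :=
    (norm_fst_le ((s'.fa, s'.c) - S.p s'.b s'.a s₂'.b)).trans hb1
  have hb1'' : ‖s'.c - (S.p s'.b s'.a s₂'.b).2‖ ≤ K₀ :=
    (norm_snd_le ((s'.fa, s'.c) - S.p s'.b s'.a s₂'.b)).trans hb1
  have hK₀0 : 0 ≤ K₀ := (norm_nonneg _).trans hb1
  have e1 : Tend R s' = max (max (R.A + ‖s'.c - R.γ‖) (R.B + ‖s'.fa - R.f‖))
      (R.A + ‖s'.fb - R.φ‖) := by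
    unfold Tend
    rw [Prod.norm_def, ← max_add_add_left]
    change max (max (R.A + ‖s'.fb - R.φ‖) (R.A + ‖s'.c - R.γ‖)) (R.B + ‖s'.fa - R.f‖) = _
    rw [max_assoc, max_comm]
  rw [e1]
  unfold Tend
  apply abs_max_sub_le
  · have e2 : |max (R.A + ‖s'.c - R.γ‖) (R.B + ‖s'.fa - R.f‖) - S.dep s'.a s'.b s₂'.b R| ≤ K₀ := by
      unfold Sys.dep
      apply abs_max_sub_le
      · rw [add_sub_add_left_eq_sub]
        refine (abs_norm_sub_norm_le _ _).trans ?_
        rw [sub_sub_sub_cancel_right]; exact hb1''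
      · rw [add_sub_add_left_eq_sub]
        refine (abs_norm_sub_norm_le _ _).trans ?_
        rw [sub_sub_sub_cancel_right]; exact hb1'
    simp only [Sys.tr, Prod.mk.eta]
    rw [abs_le] at e2 ⊢
    have := norm_nonneg ((s₂'.fb, s₂'.c) - S.p s'.b s₂'.b s'.a)
    constructor <;> linarith
  · simp only [Sys.tr]
    rw [add_sub_add_left_eq_sub]
    refine (abs_norm_sub_norm_le _ _).trans ?_
    calc _ = ‖s₂'.fa - s'.fb - S.D s'.b s'.a s₂'.b‖ := by
          rw [← norm_neg]; congr 1; abel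
      _ ≤ _ := by linarith

theorem Sys.Good.Tval_te3 {S : Sys V E} (hS : S.Good) (K₀ : ℝ) :
    ∃ K', ∀ (s s' s₂' : St V E) (pd : PD S s s') (pd₂ : PD S s s₂') (n : ℕ),
      pd.m = n + 1 → pd₂.m = n + 1 → (∀ k ≤ n + 1, pd.x k = pd₂.x k) → s'.b ≠ s₂'.b →
      S.s s'.a s'.b s₂'.b ≤ K₀ → ‖(s'.fb, s'.c) - S.p s'.a s'.b s₂'.b‖ ≤ K₀ →
      ‖(s₂'.fb, s₂'.c) - S.p s'.a s₂'.b s'.b‖ ≤ K₀ → ‖s₂'.fa - s'.fa - S.D s'.a s'.b s₂'.b‖ ≤ K₀ →
      1 / K₀ ≤ ‖S.p s'.a s'.b (pd.x n) - S.p s'.a s'.b s₂'.b‖ → 1 ≤ K₀ →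
      |pd.Tval - pd₂.Tval| ≤ K' := by
  obtain ⟨Ka, hKa, hKKa, ga⟩ := hS.at' (max K₀ 1)
  refine ⟨3 * K₀ + 6 * Ka, ?_⟩
  intro s s' s₂' pd pd₂ n hm hm₂ hx hbb hs hb1 hb2 hf hbtw hK₀1
  have hv : pd.x (n + 1) = s'.a := by have := pd.xm; rw [hm] at this; exact this
  have hy : pd.x (n + 2) = s'.b := by have := pd.xm1; rw [hm] at this; exact this
  have hv₂ : pd₂.x (n + 1) = s'.a := by rw [← hx _ le_rfl]; exact hv
  have hy₂ : pd₂.x (n + 2) = s₂'.b := by have := pd₂.xm1; rw [hm₂] at this; exact this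
  obtain ⟨x, hxx⟩ : ∃ x, x = pd.x n := ⟨_, rfl⟩
  have hxn : pd.x n = x := hxx.symm
  have hxn₂ : pd₂.x n = x := by rw [← hx n (by omega)]; exact hxn
  clear hxx
  rw [hxn] at hbtw
  have hR := pd.R_congr pd₂ n (by omega) (by omega) hx n le_rfl
  set v := s'.a with hvdef
  set y := s'.b with hydef
  set y' := s₂'.b with hy'def
  have mem := pd.memN (i := n) (by omega)
  have mem₂ := pd₂.memN (i := n) (by omega)
  rw [hv, hxn, hy] at mem
  rw [hv₂, hxn₂, hy₂] at mem₂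
  have hxy : x ≠ y := by have := pd.nb n (by omega); rwa [hxn, hy] at this
  have hxy' : x ≠ y' := by have := pd₂.nb n (by omega); rwa [hxn₂, hy₂] at this
  have GA := ga v (max K₀ 1) (le_max_right _ _) le_rfl
  have hK₀₁ : K₀ ≤ max K₀ 1 := le_max_left _ _
  have hbtw' : 1 / max K₀ 1 ≤ ‖S.p v y x - S.p v y y'‖ :=
    (one_div_le_one_div_of_le (by linarith) hK₀₁).trans hbtw
  have addL := GA.add_L x mem.1 y' mem₂.2 y mem.2 hxy' hxy.symm hbb hbtw'
  have addD := GA.add_D x mem.1 y' mem₂.2 y mem.2 hxy' hxy.symm hbb hbtw'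
  have near := GA.near x mem.1 y' mem₂.2 y mem.2 hxy' hxy.symm hbb hbtw'
  have rxyy := GA.r_le x mem.1 y mem.2 y' mem₂.2 hxy hxy' hbb (hs.trans hK₀₁)
  have Lyy := GA.L_le y mem.2 y' mem₂.2 hbb (hs.trans hK₀₁)
  have base := hS.base v
  have Lyy1 := base.L_one y y'
  rw [abs_le] at addL
  have hR1 : pd.R (n + 1) = S.tr x v y (pd.R n) := by
    rw [pd.Rs n (by omega), hv, hxn, hy]
  have hR1₂ : pd₂.R (n + 1) = S.tr x v y' (pd.R n) := by
    rw [pd₂.Rs n (by omega), hv₂, hxn₂, hy₂, hR]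
  unfold PD.Tval
  rw [hm, hm₂, hR1, hR1₂]
  set R := pd.R n with hRdef
  have hd : |S.dep x v y R - S.dep x v y' R| ≤ Ka := by
    unfold Sys.dep
    apply abs_max_sub_le
    · rw [add_sub_add_left_eq_sub]
      refine (abs_norm_sub_norm_le _ _).trans ?_
      rw [sub_sub_sub_cancel_right]
      exact (norm_snd_le (S.p v x y - S.p v x y')).trans rxyy
    · rw [add_sub_add_left_eq_sub]
      refine (abs_norm_sub_norm_le _ _).trans ?_
      rw [sub_sub_sub_cancel_right]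
      exact (norm_fst_le (S.p v x y - S.p v x y')).trans rxyy
  rw [abs_le] at hd
  unfold Tend
  apply abs_max_sub_le
  · simp only [Sys.tr, Prod.mk.eta]
    have t1 := tri3 (s'.fb, s'.c) (S.p v y y') (S.p v y x)
    have t2 := tri3 (S.p v y x) (s'.fb, s'.c) (S.p v y y')
    have t3 := tri3 (s₂'.fb, s₂'.c) (S.p v y' y) (S.p v y' x)
    have t4 := norm_nonneg ((s₂'.fb, s₂'.c) - S.p v y' x)
    rw [norm_sub_rev (S.p v y y') (S.p v y x)] at t1
    rw [norm_sub_rev (S.p v y x) (s'.fb, s'.c)] at t2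
    rw [abs_le]
    constructor <;> linarith
  · simp only [Sys.tr]
    rw [add_sub_add_left_eq_sub]
    refine (abs_norm_sub_norm_le _ _).trans ?_
    calc _ = ‖(S.D v x y' - S.D v x y - S.D v y y') - (s₂'.fa - s'.fa - S.D v y y')‖ := by
          congr 1; abel
      _ ≤ _ := norm_sub_le _ _
      _ ≤ _ := by linarith

end Pool.Agent.H81.HDG
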