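import Mathlib

/-!
# Non-backtracking sequences in trees
-/

set_option autoImplicit false

namespace Pool.Agent.H81.HDG

/-- A non-backtracking sequence `x 0, …, x (m + 1)`. -/
structure NBT {V : Type*} (T : SimpleGraph V) (m : ℕ) (x : ℕ → V) : Prop where
  adj : ∀ i ≤ m, T.Adj (x i) (x (i + 1))
  nb : ∀ i < m, x i ≠ x (i + 2)

theorem nbt_path {V : Type*} {T : SimpleGraph V} (hT : T.IsAcyclic) {x : ℕ → V} (n : ℕ)
    (adj : ∀ i < n, T.Adj (x i) (x (i + 1))) (nb : ∀ i, i + 1 < n → x i ≠ x (i + 2)) :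
    ∃ p : T.Walk (x 0) (x n), p.IsPath ∧ p.length = n ∧ ∀ i ≤ n, p.getVert i = x i := by
  induction n with
  | zero =>
    refine ⟨SimpleGraph.Walk.nil, SimpleGraph.Walk.IsPath.nil, rfl, fun i hi => ?_⟩
    obtain rfl : i = 0 := by omega
    simp
  | succ n ih =>
    obtain ⟨p, hp, hl, hv⟩ := ih (fun i hi => adj i (by omega)) (fun i hi => nb i (by omega))
    have hadj := adj n (by omega)
    have hns : x (n + 1) ∉ p.support := by
      intro hs
      have h1 := hT.eq_penultimate_of_adj_end hp hadj hs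
      rw [SimpleGraph.Walk.penultimate, hl, hv (n - 1) (by omega)] at h1
      rcases Nat.eq_zero_or_pos n with h0 | h0
      · subst h0
        exact hadj.ne h1.symm
      · refine nb (n - 1) (by omega) ?_
        rw [← h1]
        congr 1
        omega
    refine ⟨p.concat hadj, hp.concat hns hadj, by rw [SimpleGraph.Walk.length_concat, hl],
      fun i hi => ?_⟩
    rw [SimpleGraph.Walk.concat_eq_append, SimpleGraph.Walk.getVert_append, hl]
    split_ifs with h
    · exact hv i (by omega)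
    · obtain rfl | rfl : i = n + 1 ∨ i = n := by omega
      · simp
      · simp

theorem path_len {V : Type*} {T : SimpleGraph V} (hT : T.IsAcyclic) {a b a' b' : V}
    (p : T.Walk a b) (p' : T.Walk a' b') (hp : p.IsPath) (hp' : p'.IsPath) (ha : a = a')
    (hb : b = b') : p.length = p'.length ∧ ∀ i, p.getVert i = p'.getVert i := by
  subst ha hb
  have h := Subtype.mk.inj (hT.subsingleton_path a b |>.elim ⟨p, hp⟩ ⟨p', hp'⟩)
  rw [h]
  exact ⟨rfl, fun _ => rfl⟩

theorem nbt_exists {V : Type*} {T : SimpleGraph V} (hT : T.IsTree) {a b : V} (hab : T.Adj a b)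
    (v : V) : ∃ (m : ℕ) (x : ℕ → V), NBT T m x ∧
      ((x 0 = a ∧ x 1 = b) ∨ (x 0 = b ∧ x 1 = a)) ∧ x (m + 1) = v := by
  obtain ⟨p, hp, -⟩ := hT.existsUnique_path a v
  have hinj := hp.getVert_injOn
  by_cases hb : 1 ≤ p.length ∧ p.getVert 1 = b
  · refine ⟨p.length - 1, p.getVert, ⟨fun i hi => p.adj_getVert_succ (by omega), ?_⟩,
      Or.inl ⟨p.getVert_zero, hb.2⟩, ?_⟩
    · intro i hi h
      have := hinj (x₁ := i) (x₂ := i + 2) (by simp only [Set.mem_ofPred_eq]; omega)
        (by simp only [Set.mem_ofPred_eq]; omega) h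
      omega
    · rw [Nat.sub_add_cancel hb.1, p.getVert_length]
  · refine ⟨p.length, fun i => if i = 0 then b else p.getVert (i - 1), ⟨?_, ?_⟩,
      Or.inr ⟨by simp, by simp⟩, by simp⟩
    · intro i hi
      rcases Nat.eq_zero_or_pos i with h0 | h0
      · subst h0
        simpa using hab.symm
      · have h1 := p.adj_getVert_succ (i := i - 1) (by omega)
        have h2 : i ≠ 0 := by omega
        have h3 : i - 1 + 1 = i := by omega
        rw [h3] at h1
        simpa [h2] using h1
    · intro i hi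
      rcases Nat.eq_zero_or_pos i with h0 | h0
      · subst h0
        simp only [if_true]
        intro h
        exact hb ⟨by omega, by simpa using h.symm⟩
      · have h2 : i ≠ 0 := by omega
        intro h
        have h4 : p.getVert (i - 1) = p.getVert (i + 1) := by simpa [h2] using h
        have := hinj (x₁ := i - 1) (x₂ := i + 1) (by simp only [Set.mem_ofPred_eq]; omega)
          (by simp only [Set.mem_ofPred_eq]; omega) h4
        omega

theorem nbt_unique {V : Type*} {T : SimpleGraph V} (hT : T.IsTree) {m m' : ℕ} {x x' : ℕ → V}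
    (h : NBT T m x) (h' : NBT T m' x')
    (h0 : (x 0 = x' 0 ∧ x 1 = x' 1) ∨ (x 0 = x' 1 ∧ x 1 = x' 0))
    (h1 : (x m = x' m' ∧ x (m + 1) = x' (m' + 1)) ∨ (x m = x' (m' + 1) ∧ x (m + 1) = x' m')) :
    (m = m' ∧ ∀ k ≤ m + 1, x k = x' k) ∨ (m = 0 ∧ m' = 0 ∧ x 0 = x' 1 ∧ x 1 = x' 0) := by
  have hA := hT.isAcyclic
  -- paths between two members of the sequence
  have key : ∀ (m : ℕ) (x : ℕ → V), NBT T m x → ∀ j k, j ≤ k → k ≤ m + 1 →
      ∃ p : T.Walk (x j) (x k), p.IsPath ∧ p.length = k - j ∧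
        ∀ i ≤ k - j, p.getVert i = x (j + i) := by
    intro m x h j k hjk hk
    obtain ⟨d, rfl⟩ := Nat.exists_eq_add_of_le hjk
    obtain ⟨p, hp, hl, hv⟩ := nbt_path hA (x := fun i => x (j + i)) d
      (fun i hi => h.adj (j + i) (by omega)) (fun i hi => h.nb (j + i) (by omega))
    refine ⟨p, hp, by rw [hl]; omega, fun i hi => hv i (by omega)⟩
  obtain ⟨p, hp, hl, hv⟩ := key m x h 0 (m + 1) (by omega) le_rfl
  obtain ⟨q, hq, hql, -⟩ := key m x h 0 m (by omega) (by omega)
  obtain ⟨r, hr, hrl, -⟩ := key m x h 1 (m + 1) (by omega) le_rfl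
  obtain ⟨p', hp', hl', hv'⟩ := key m' x' h' 0 (m' + 1) (by omega) le_rfl
  obtain ⟨q', hq', hql', -⟩ := key m' x' h' 0 m' (by omega) (by omega)
  obtain ⟨r', hr', hrl', -⟩ := key m' x' h' 1 (m' + 1) (by omega) le_rfl
  rcases h0 with ⟨a0, a1⟩ | ⟨a0, a1⟩ <;> rcases h1 with ⟨b0, b1⟩ | ⟨b0, b1⟩
  · left
    have h2 := path_len hA p p' hp hp' a0 b1
    rw [hl, hl'] at h2
    have hm : m = m' := by omega
    subst hm
    refine ⟨rfl, fun k hk => ?_⟩
    have h3 := h2.2 k
    rwa [hv k (by omega), hv' k (by omega), zero_add] at h3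
  · exfalso
    have h2 := (path_len hA p q' hp hq' a0 b1).1
    have h3 := (path_len hA q p' hq hp' a0 b0).1
    omega
  · exfalso
    have h2 := (path_len hA p r' hp hr' a0 b1).1
    have h3 := (path_len hA r p' hr hp' a1 b1).1
    omega
  · right
    rcases Nat.eq_zero_or_pos m' with hm' | hm'
    · subst hm'
      have h2 := (path_len hA p p'.reverse hp hp'.reverse a0 b1).1
      rw [SimpleGraph.Walk.length_reverse] at h2
      exact ⟨by omega, rfl, a0, a1⟩
    · exfalso
      obtain ⟨s', hs', hsl', -⟩ := key m' x' h' 1 m' hm' (by omega)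
      have h2 := (path_len hA p s' hp hs' a0 b1).1
      rcases Nat.eq_zero_or_pos m with hm | hm
      · subst hm
        have h3 := (path_len hA q r' hq hr' a0 b0).1
        omega
      · obtain ⟨s, hs, hsl, -⟩ := key m x h 1 m hm (by omega)
        have h3 := (path_len hA s p' hs hp' a1 b0).1
        omega

end Pool.Agent.H81.HDG
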