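import Mathlib
import Pool.Agent.H81.HDG.Time
import Pool.Agent.H81.HDG.TreePath

/-!
# Paths between unoriented states
-/

set_option autoImplicit false
set_option linter.unusedSectionVars false

namespace Pool.Agent.H81.HDG

variable {V E : Type*} [NormedAddCommGroup E] [NormedSpace ℝ E]

/-- the wall of a state is a wall -/
def Sys.Adm (S : Sys V E) (z : St V E) : Prop := S.G.Adj z.a z.b

theorem Sys.Adm.rev {S : Sys V E} {z : St V E} (h : S.Adm z) : S.Adm z.rev := h.symm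

/-- `z` and `z'` are equal up to orientation -/
def St.Eqv (z z' : St V E) : Prop := z' = z ∨ z' = z.rev

theorem St.Eqv.near {z z' : St V E} (h : z.Eqv z') (S : Sys V E) : Near S 1 z z' := by
  rcases h with rfl | rfl
  · exact Near.refl S zero_le_one _
  · exact Near.of_nb le_rfl (Nb.rev _)

/-- position at time `t` -/
def Sys.TPs (S : Sys V E) (s s' : St V E) (M K t : ℝ) (z : St V E) : Prop :=
  ∃ r r' : St V E, s.Eqv r ∧ s'.Eqv r' ∧ ∃ pd : PD S r r', pd.TP M K t z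

/-- arrival time -/
def Sys.Tvs (S : Sys V E) (s s' : St V E) (τ : ℝ) : Prop :=
  ∃ r r' : St V E, s.Eqv r ∧ s'.Eqv r' ∧ ∃ pd : PD S r r', pd.Tval = τ

theorem Sys.TPs.mono {S : Sys V E} {s s' : St V E} {M K M' K' t : ℝ} {z : St V E}
    (h : S.TPs s s' M K t z) (hM0 : 1 ≤ M) (hM : M ≤ M') (hK : K ≤ K') : S.TPs s s' M' K' t z := by
  obtain ⟨r, r', h1, h2, pd, h3⟩ := h
  exact ⟨r, r', h1, h2, pd, h3.mono hM0 hM hK⟩

namespace PD

variable {S : Sys V E} {s s' s₂ s₂' : St V E}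

theorem nbt (pd : PD S s s') : NBT S.G pd.m pd.x := ⟨pd.adj, pd.nb⟩

/-- Uniqueness of the underlying sequence. -/
theorem same (hT : S.G.IsTree) (pd : PD S s s') (pd₂ : PD S s₂ s₂') (h : s.Eqv s₂)
    (h' : s'.Eqv s₂') :
    (s₂ = s ∧ s₂' = s' ∧ pd₂.m = pd.m ∧ ∀ k ≤ pd.m + 1, pd.x k = pd₂.x k) ∨
    (s₂ = s.rev ∧ s₂' = s'.rev ∧ pd.m = 0 ∧ pd₂.m = 0) := by
  have a1 : s.a ≠ s.b := by
    have := (pd.adj 0 (by omega)).ne
    rwa [pd.x0, zero_add, pd.x1] at this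
  have a2 : s'.a ≠ s'.b := by
    have := (pd.adj pd.m le_rfl).ne
    rwa [pd.xm, pd.xm1] at this
  have h0 : (pd.x 0 = pd₂.x 0 ∧ pd.x 1 = pd₂.x 1) ∨ (pd.x 0 = pd₂.x 1 ∧ pd.x 1 = pd₂.x 0) := by
    rw [pd.x0, pd.x1, pd₂.x0, pd₂.x1]
    rcases h with rfl | rfl
    · exact Or.inl ⟨rfl, rfl⟩
    · exact Or.inr ⟨rfl, rfl⟩
  have h1 : (pd.x pd.m = pd₂.x pd₂.m ∧ pd.x (pd.m + 1) = pd₂.x (pd₂.m + 1)) ∨
      (pd.x pd.m = pd₂.x (pd₂.m + 1) ∧ pd.x (pd.m + 1) = pd₂.x pd₂.m) := by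
    rw [pd.xm, pd.xm1, pd₂.xm, pd₂.xm1]
    rcases h' with rfl | rfl
    · exact Or.inl ⟨rfl, rfl⟩
    · exact Or.inr ⟨rfl, rfl⟩
  rcases nbt_unique hT pd.nbt pd₂.nbt h0 h1 with ⟨q1, q2⟩ | ⟨q1, q2, q3, q4⟩
  · left
    refine ⟨?_, ?_, q1.symm, q2⟩
    · rcases h with h | h
      · exact h
      · exfalso
        have := q2 0 (by omega)
        rw [pd.x0, pd₂.x0, h] at this
        exact a1 this
    · rcases h' with h | h
      · exact h
      · exfalso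
        have := q2 pd.m (by omega)
        rw [pd.xm, q1, pd₂.xm, h] at this
        exact a2 this
  · right
    refine ⟨?_, ?_, q1, q2⟩
    · rcases h with h | h
      · exfalso
        rw [pd.x0, pd₂.x1, h] at q3
        exact a1 q3
      · exact h
    · rcases h' with h | h
      · exfalso
        have e1 := pd.xm
        rw [q1, q3] at e1
        have e2 := pd₂.xm1
        rw [q2] at e2
        have e3 : s₂'.b = s'.b := by rw [h]
        exact a2 (e1.symm.trans (e2.trans e3))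
      · exact h

/-- If `m = 0` the reversed path is the same. -/
theorem wallPos_rev_zero (pd : PD S s s') (pd₂ : PD S s.rev s'.rev) (h : pd.m = 0)
    (h₂ : pd₂.m = 0) (t : ℝ) : pd₂.wallPos 0 t = (pd.wallPos 0 t).rev := by
  have e1 := pd.Rm
  rw [h] at e1
  have e2 := pd₂.Rm
  rw [h₂] at e2
  unfold wallPos St.rev
  simp only
  rw [pd.x0, pd.x1, pd₂.x0, pd₂.x1, pd.R0, pd₂.R0, e1, e2]
  simp only [St.ini, St.rev]

theorem Tval_rev_zero (pd : PD S s s') (pd₂ : PD S s.rev s'.rev) (h : pd.m = 0)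
    (h₂ : pd₂.m = 0) : pd₂.Tval = pd.Tval := by
  unfold Tval Tend
  rw [h, h₂, pd.R0, pd₂.R0, Prod.norm_def, Prod.norm_def]
  simp only [St.ini, St.rev, zero_add]
  change max (max ‖s'.fa - s.fa‖ ‖s'.c - s.c‖) ‖s'.fb - s.fb‖ =
    max (max ‖s'.fb - s.fb‖ ‖s'.c - s.c‖) ‖s'.fa - s.fa‖
  rw [max_assoc, max_comm]
  congr 1
  rw [max_comm]

end PD

/-- existence of paths -/
theorem Sys.exists_PD (S : Sys V E) (hT : S.G.IsTree) {s s' : St V E} (hs : S.Adm s)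
    (hs' : S.Adm s') : ∃ r r' : St V E, s.Eqv r ∧ s'.Eqv r' ∧ Nonempty (PD S r r') := by
  obtain ⟨m, x, hx, h0, h1⟩ := nbt_exists hT hs s'.a
  have hr : ∃ r, s.Eqv r ∧ x 0 = r.a ∧ x 1 = r.b := by
    rcases h0 with h0 | h0
    · exact ⟨s, Or.inl rfl, h0.1, h0.2⟩
    · exact ⟨s.rev, Or.inr rfl, h0.1, h0.2⟩
  obtain ⟨r, hr, hr0, hr1⟩ := hr
  by_cases hb : x m = s'.b
  · obtain ⟨pd, _⟩ := PD.exists_mk S r s'.rev m x hr0 hr1 hb h1 hx.adj hx.nb
    exact ⟨r, s'.rev, hr, Or.inr rfl, ⟨pd⟩⟩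
  · obtain ⟨pd, _⟩ := PD.exists_mk S r s' (m + 1) (fun k => if k = m + 2 then s'.b else x k)
      (by simp [hr0]) (by simp [hr1]) (by simp [h1]) (by simp) (by
        intro i hi
        by_cases h : i = m + 1
        · subst h
          simp only [show m + 1 ≠ m + 2 by omega, if_false, show m + 1 + 1 = m + 2 by ring,
            if_true]
          rw [h1]; exact hs'
        · simp only [show i ≠ m + 2 by omega, show i + 1 ≠ m + 2 by omega, if_false]
          exact hx.adj i (by omega)) (by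
        intro i hi
        by_cases h : i = m
        · subst h
          simp only [show i ≠ i + 2 by omega, if_false, if_true]
          exact hb
        · simp only [show i ≠ m + 2 by omega, show i + 2 ≠ m + 2 by omega, if_false]
          exact hx.nb i (by omega))
    exact ⟨r, s', hr, Or.inl rfl, ⟨pd⟩⟩

theorem Sys.exists_Tvs (S : Sys V E) (hT : S.G.IsTree) {s s' : St V E} (hs : S.Adm s)
    (hs' : S.Adm s') : ∃ τ, S.Tvs s s' τ := by
  obtain ⟨r, r', h1, h2, ⟨pd⟩⟩ := S.exists_PD hT hs hs'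
  exact ⟨pd.Tval, r, r', h1, h2, pd, rfl⟩

theorem St.Eqv.symm {z z' : St V E} (h : z.Eqv z') : z'.Eqv z := by
  rcases h with rfl | rfl
  · exact Or.inl rfl
  · exact Or.inr rfl

theorem St.Eqv.trans {z z' z'' : St V E} (h : z.Eqv z') (h' : z'.Eqv z'') : z.Eqv z'' := by
  rcases h with rfl | rfl
  · exact h'
  · rcases h' with rfl | rfl
    · exact Or.inr rfl
    · exact Or.inl rfl

theorem Sys.Tvs.unique {S : Sys V E} (hT : S.G.IsTree) {s s' : St V E} {τ τ' : ℝ}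
    (h : S.Tvs s s' τ) (h' : S.Tvs s s' τ') : τ = τ' := by
  obtain ⟨r, r', h1, h2, pd, h3⟩ := h
  obtain ⟨r₂, r₂', h1', h2', pd₂, h3'⟩ := h'
  rcases pd.same hT pd₂ (h1.symm.trans h1') (h2.symm.trans h2') with ⟨rfl, rfl, q3, q4⟩ |
    ⟨rfl, rfl, q3, q4⟩
  · rw [← h3, ← h3']
    unfold PD.Tval
    rw [q3, pd.R_congr pd₂ pd.m le_rfl (by omega) q4 pd.m le_rfl]
  · rw [← h3, ← h3', pd.Tval_rev_zero pd₂ q3 q4]

/-- Uniqueness of positions. -/
theorem Sys.Good.uniqueS {S : Sys V E} (hS : S.Good) (hT : S.G.IsTree) (M : ℝ) (hM : 1 ≤ M) (K : ℝ)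
    (hK : 0 ≤ K) : ∃ K', 1 ≤ K' ∧ ∀ (s s' : St V E) (t : ℝ) (z z' : St V E),
      S.TPs s s' M K t z → S.TPs s s' M K t z' → Near S K' z z' := by
  obtain ⟨K1, hK1, h⟩ := hS.unique M hM (K + 12) (by linarith)
  refine ⟨K1 + K + 12, by linarith, ?_⟩
  intro s s' t z z' hz hz'
  obtain ⟨r, r', h1, h2, pd, h3⟩ := hz
  obtain ⟨r₂, r₂', h1', h2', pd₂, h3'⟩ := hz'
  rcases pd.same hT pd₂ (h1.symm.trans h1') (h2.symm.trans h2') with ⟨rfl, rfl, q3, q4⟩ |
    ⟨rfl, rfl, q3, q4⟩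
  · have tr := pd.t1 pd₂ M K 1 hK le_rfl q3 q4 (RC.refl zero_le_one _) (CC.refl zero_le_one _)
    obtain ⟨z₂, a1, a2⟩ := tr t z h3
    rw [mul_one] at a1 a2
    have := h _ _ pd₂ t z₂ z' a1 (h3'.mono hM le_rfl (by linarith))
    exact (a2.trans this).mono (by linarith)
  · rcases h3 with ⟨_, hz, _⟩ | ⟨i, hi, _⟩
    · rcases h3' with ⟨_, hz', _⟩ | ⟨i, hi, _⟩
      · rw [hz', pd.wallPos_rev_zero pd₂ q3 q4, hz]
        exact (Near.of_nb le_rfl (Nb.rev _)).mono (by linarith)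
      · omega
    · omega

end Pool.Agent.H81.HDG
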