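import Mathlib
import Pool.Agent.H81.HDG.States

/-!
# Comparison of paths with nearby end points
-/

set_option autoImplicit false
set_option linter.unusedSectionVars false

namespace Pool.Agent.H81.HDG

variable {V E : Type*} [NormedAddCommGroup E] [NormedSpace ℝ E]

/-- the two states lie on different walls of the piece `z.a` and face each other -/
structure Cross (S : Sys V E) (K : ℝ) (z z' : St V E) : Prop where
  ha : z.a = z'.a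
  h1 : S.G.Adj z.a z.b
  h2 : S.G.Adj z.a z'.b
  hne : z.b ≠ z'.b
  hs : S.s z.a z.b z'.b ≤ K
  hb : ‖(z.fb, z.c) - S.p z.a z.b z'.b‖ ≤ K
  hb' : ‖(z'.fb, z'.c) - S.p z.a z'.b z.b‖ ≤ K
  hf : ‖z'.fa - z.fa - S.D z.a z.b z'.b‖ ≤ K

theorem Cross.symm {S : Sys V E} (hS : S.Good) {K : ℝ} {z z' : St V E} (h : Cross S K z z') :
    Cross S K z' z := by
  obtain ⟨ha, h1, h2, hne, hs, hb, hb', hf⟩ := h
  refine ⟨ha.symm, by rw [← ha]; exact h2, by rw [← ha]; exact h1, hne.symm, ?_, ?_, ?_, ?_⟩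
  · rw [← ha, (hS.base _).s_symm]; exact hs
  · rw [← ha]; exact hb'
  · rw [← ha]; exact hb
  · rw [← ha, (hS.base _).D_symm, ← norm_neg]
    calc _ = ‖z'.fa - z.fa - S.D z.a z.b z'.b‖ := by congr 1; abel
      _ ≤ _ := hf

theorem Cross.mono {S : Sys V E} {K K' : ℝ} {z z' : St V E} (h : Cross S K z z') (hK : K ≤ K') :
    Cross S K' z z' := by
  obtain ⟨ha, h1, h2, hne, hs, hb, hb', hf⟩ := h
  exact ⟨ha, h1, h2, hne, hs.trans hK, hb.trans hK, hb'.trans hK, hf.trans hK⟩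

/-- passing to a given orientation -/
theorem Sys.TPs.toPD {S : Sys V E} (hT : S.G.IsTree) {s s' r r' : St V E} {M K t : ℝ} {z : St V E}
    (hM : 1 ≤ M) (hK : 0 ≤ K) (h : S.TPs s s' M K t z) (hr : s.Eqv r) (hr' : s'.Eqv r')
    (pd : PD S r r') : ∃ z₁, pd.TP M (K + 12) t z₁ ∧ Near S (K + 12) z z₁ := by
  obtain ⟨r₂, r₂', h1', h2', pd₂, h3'⟩ := h
  rcases pd₂.same hT pd (h1'.symm.trans hr) (h2'.symm.trans hr') with ⟨rfl, rfl, q3, q4⟩ |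
    ⟨rfl, rfl, q3, q4⟩
  · have tr := pd₂.t1 pd M K 1 hK le_rfl q3 q4 (RC.refl zero_le_one _) (CC.refl zero_le_one _)
    obtain ⟨z₂, a1, a2⟩ := tr t z h3'
    rw [mul_one] at a1 a2
    exact ⟨z₂, a1, a2⟩
  · rcases h3' with ⟨_, hz, ht⟩ | ⟨i, hi, _⟩
    · refine ⟨pd.wallPos 0 t, Or.inl ⟨q4, rfl, by linarith⟩, ?_⟩
      rw [pd₂.wallPos_rev_zero pd q3 q4, hz]
      exact (Near.of_nb le_rfl (Nb.rev _)).mono (by linarith)
    · omega

/-- From transfer to closeness of positions. -/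
theorem Sys.Good.closeTr {S : Sys V E} (hS : S.Good) (hT : S.G.IsTree) (M K M' K' : ℝ)
    (hM : 1 ≤ M) (hK : 0 ≤ K) (hM' : 1 ≤ M') :
    ∃ K'', ∀ (s s' s₂ s₂' r r' r₂ r₂' : St V E) (pd : PD S r r') (pd₂ : PD S r₂ r₂'),
      s.Eqv r → s'.Eqv r' → s₂.Eqv r₂ → s₂'.Eqv r₂' → PD.Tr pd pd₂ M (K + 12) M' K' →
      ∀ t z z₂, S.TPs s s' M K t z → S.TPs s₂ s₂' M K t z₂ → Near S K'' z z₂ := by
  obtain ⟨K1, hK1, h⟩ := hS.uniqueS hT (max M M') (hM.trans (le_max_left _ _)) (max K K')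
    (hK.trans (le_max_left _ _))
  refine ⟨K + 12 + K' + K1, ?_⟩
  intro s s' s₂ s₂' r r' r₂ r₂' pd pd₂ e1 e2 e3 e4 tr t z z₂ hz hz₂
  obtain ⟨z₁, a1, a2⟩ := hz.toPD hT hM hK e1 e2 pd
  obtain ⟨z₃, b1, b2⟩ := tr t z₁ a1
  have c1 : S.TPs s₂ s₂' M' K' t z₃ := ⟨r₂, r₂', e3, e4, pd₂, b1⟩
  have c2 := h s₂ s₂' t z₃ z₂ (c1.mono hM' (le_max_right _ _) (le_max_right _ _))
    (hz₂.mono hM (le_max_left _ _) (le_max_left _ _))
  exact (a2.trans (b2.trans c2)).mono (by linarith)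

theorem Sys.Tvs.close {S : Sys V E} (hT : S.G.IsTree) {s s' s₂ s₂' r r' r₂ r₂' : St V E}
    {τ τ₂ K : ℝ} (pd : PD S r r') (pd₂ : PD S r₂ r₂') (e1 : s.Eqv r) (e2 : s'.Eqv r')
    (e3 : s₂.Eqv r₂) (e4 : s₂'.Eqv r₂') (h : |pd.Tval - pd₂.Tval| ≤ K) (h1 : S.Tvs s s' τ)
    (h2 : S.Tvs s₂ s₂' τ₂) : |τ - τ₂| ≤ K := by
  have a1 : τ = pd.Tval := h1.unique hT ⟨r, r', e1, e2, pd, rfl⟩
  have a2 : τ₂ = pd₂.Tval := h2.unique hT ⟨r₂, r₂', e3, e4, pd₂, rfl⟩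
  rw [a1, a2]; exact h

/-! ### Building path data -/

theorem exists_ext (S : Sys V E) {r s' : St V E} {m : ℕ} {x : ℕ → V} (hx : NBT S.G m x)
    (h0 : x 0 = r.a) (h1 : x 1 = r.b) (hm : x (m + 1) = s'.a) (hne : x m ≠ s'.b)
    (hs' : S.Adm s') : ∃ pd : PD S r s', pd.m = m + 1 ∧ ∀ k ≤ m + 1, pd.x k = x k := by
  obtain ⟨pd, e1, e2⟩ := PD.exists_mk S r s' (m + 1) (fun k => if k = m + 2 then s'.b else x k)
    (by simp [h0]) (by simp [h1]) (by simp [hm]) (by simp) (by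
      intro i hi
      by_cases h : i = m + 1
      · subst h
        simp only [show m + 1 ≠ m + 2 by omega, if_false, show m + 1 + 1 = m + 2 by ring,
          if_true]
        rw [hm]; exact hs'
      · simp only [show i ≠ m + 2 by omega, show i + 1 ≠ m + 2 by omega, if_false]
        exact hx.adj i (by omega)) (by
      intro i hi
      by_cases h : i = m
      · subst h
        simp only [show i ≠ i + 2 by omega, if_false, if_true]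
        exact hne
      · simp only [show i ≠ m + 2 by omega, show i + 2 ≠ m + 2 by omega, if_false]
        exact hx.nb i (by omega))
  refine ⟨pd, e1, fun k hk => ?_⟩
  rw [e2]
  simp only [show k ≠ m + 2 by omega, if_false]

theorem exists_cons (S : Sys V E) {s r' : St V E} {m : ℕ} {y : ℕ → V} (hy : NBT S.G m y)
    (h0 : y 0 = s.b) (hm : y m = r'.a) (hm1 : y (m + 1) = r'.b) (hne : y 1 ≠ s.a)
    (hs : S.Adm s) : ∃ pd : PD S s r', pd.m = m + 1 ∧ ∀ k, pd.x (k + 1) = y k := by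
  obtain ⟨pd, e1, e2⟩ := PD.exists_mk S s r' (m + 1) (fun k => if k = 0 then s.a else y (k - 1))
    (by simp) (by simp [h0]) (by simp [hm]) (by simp [hm1]) (by
      intro i hi
      by_cases h : i = 0
      · subst h
        simp only [if_true, zero_add, show (1 : ℕ) ≠ 0 by omega, if_false, Nat.sub_self]
        rw [h0]; exact hs
      · simp only [h, if_false, show i + 1 ≠ 0 by omega]
        have := hy.adj (i - 1) (by omega)
        rwa [show i - 1 + 1 = i + 1 - 1 by omega] at this) (by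
      intro i hi
      by_cases h : i = 0
      · subst h
        simp only [if_true, zero_add, show (2 : ℕ) ≠ 0 by omega, if_false]
        exact hne.symm
      · simp only [h, if_false, show i + 2 ≠ 0 by omega]
        have := hy.nb (i - 1) (by omega)
        rwa [show i - 1 + 2 = i + 2 - 1 by omega] at this)
  refine ⟨pd, e1, fun k => ?_⟩
  rw [e2]
  simp

theorem nbt_from {T : SimpleGraph V} (hT : T.IsTree) {a b : V} (hab : T.Adj a b) (v : V) :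
    ∃ (m : ℕ) (y : ℕ → V), NBT T m y ∧ y 0 = v ∧
      ((y m = a ∧ y (m + 1) = b) ∨ (y m = b ∧ y (m + 1) = a)) := by
  obtain ⟨m, x, hx, h0, h1⟩ := nbt_exists hT hab v
  refine ⟨m, fun i => x (m + 1 - i), ⟨?_, ?_⟩, by simpa using h1, ?_⟩
  · intro i hi
    have := hx.adj (m - i) (by omega)
    rw [show m - i + 1 = m + 1 - i by omega] at this
    have h := this.symm
    rwa [show m - i = m + 1 - (i + 1) by omega] at h
  · intro i hi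
    have := hx.nb (m + 1 - (i + 2)) (by omega)
    rw [show m + 1 - (i + 2) + 2 = m + 1 - i by omega] at this
    exact this.symm
  · simp only [show m + 1 - m = 1 by omega, Nat.sub_self]
    rcases h0 with h0 | h0
    · exact Or.inr ⟨h0.2, h0.1⟩
    · exact Or.inl ⟨h0.2, h0.1⟩

/-! ### Changing the end point -/

/-- Ordered version of the cross move at the end. -/
theorem Sys.Good.endOrd {S : Sys V E} (hS : S.Good) (hT : S.G.IsTree) (K₀ M K : ℝ) (hK₀ : 1 ≤ K₀)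
    (hM : 1 ≤ M) (hK : 0 ≤ K) :
    ∃ K', ∀ (s r s' s'' : St V E) (m : ℕ) (x : ℕ → V), s.Eqv r → NBT S.G m x → x 0 = r.a →
      x 1 = r.b → x (m + 1) = s'.a → Cross S K₀ s' s'' →
      (x m = s'.b ∨ (x m ≠ s'.b ∧ x m ≠ s''.b ∧
        1 / K₀ ≤ ‖S.p s'.a s'.b (x m) - S.p s'.a s'.b s''.b‖)) →
      (∀ t z z'', S.TPs s s' M K t z → S.TPs s s'' M K t z'' → Near S K' z z'') ∧
      (∀ τ τ', S.Tvs s s' τ → S.Tvs s s'' τ' → |τ - τ'| ≤ K') := by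
  obtain ⟨Ka, ha⟩ := PD.te2 hS K₀ M (K + 12) (by linarith)
  obtain ⟨Kb, hb⟩ := hS.closeTr hT M K M Ka hM hK hM
  obtain ⟨Mc, Kc, hMc, hc⟩ := PD.te3 hS K₀ M (K + 12) hM (by linarith)
  obtain ⟨Kd, hd⟩ := hS.closeTr hT M K Mc Kc hM hK hMc
  obtain ⟨Ke, he⟩ := hS.Tval_te2 K₀
  obtain ⟨Kf, hf⟩ := hS.Tval_te3 K₀
  refine ⟨max (max Kb Kd) (max Ke Kf), ?_⟩
  intro s r s' s'' m x hsr hx h0 h1 hm hcr ho
  have hs'' : S.Adm s'' := by unfold Sys.Adm; rw [← hcr.ha]; exact hcr.h2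
  have hs' : S.Adm s' := hcr.h1
  rcases ho with ho | ⟨o1, o2, o3⟩
  · obtain ⟨pd, e1, e2⟩ := PD.exists_mk S r s'.rev m x h0 h1 ho hm hx.adj hx.nb
    obtain ⟨pd₂, f1, f2⟩ := exists_ext S hx h0 h1 (hm.trans hcr.ha) (by rw [ho]; exact hcr.hne) hs''
    have hxx : ∀ k ≤ pd.m + 1, pd.x k = pd₂.x k := by
      intro k hk
      rw [e2, f2 k (by omega)]
    have hmm : pd₂.m = pd.m + 1 := by omega
    constructor
    · intro t z z'' hz hz''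
      have tr := ha r s'.rev s'' pd pd₂ hmm hxx hcr.hs hcr.hb hcr.hb' hcr.hf
      exact (hb s s' s s'' r s'.rev r s'' pd pd₂ hsr (Or.inr rfl) hsr (Or.inl rfl) tr t z z'' hz
        hz'').mono ((le_max_left _ _).trans (le_max_left _ _))
    · intro τ τ' hτ hτ'
      have := he r s'.rev s'' pd pd₂ hmm hxx hcr.hs hcr.hb hcr.hb' hcr.hf
      exact (Sys.Tvs.close hT pd pd₂ hsr (Or.inr rfl) hsr (Or.inl rfl) this hτ hτ').trans
        ((le_max_left _ _).trans (le_max_right _ _))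
  · obtain ⟨pd, e1, e2⟩ := exists_ext S hx h0 h1 hm o1 hs'
    obtain ⟨pd₂, f1, f2⟩ := exists_ext S hx h0 h1 (hm.trans hcr.ha) o2 hs''
    have hxx : ∀ k ≤ m + 1, pd.x k = pd₂.x k := by
      intro k hk
      rw [e2 k hk, f2 k hk]
    have o3' : 1 / K₀ ≤ ‖S.p s'.a s'.b (pd.x m) - S.p s'.a s'.b s''.b‖ := by
      rw [e2 m (by omega)]; exact o3
    constructor
    · intro t z z'' hz hz''
      have tr := hc r s' s'' pd pd₂ m e1 f1 hxx hcr.hne hcr.hs hcr.hb hcr.hb' hcr.hf o3' hK₀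
      exact (hd s s' s s'' r s' r s'' pd pd₂ hsr (Or.inl rfl) hsr (Or.inl rfl) tr t z z'' hz
        hz'').mono ((le_max_right _ _).trans (le_max_left _ _))
    · intro τ τ' hτ hτ'
      have := hf r s' s'' pd pd₂ m e1 f1 hxx hcr.hne hcr.hs hcr.hb hcr.hb' hcr.hf o3' hK₀
      exact (Sys.Tvs.close hT pd pd₂ hsr (Or.inl rfl) hsr (Or.inl rfl) this hτ hτ').trans
        ((le_max_right _ _).trans (le_max_right _ _))

theorem Sys.Good.endCross {S : Sys V E} (hS : S.Good) (hT : S.G.IsTree) (K₀ M K : ℝ)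
    (hM : 1 ≤ M) (hK : 0 ≤ K) :
    ∃ K', ∀ (s s' s'' : St V E), S.Adm s → Cross S K₀ s' s'' →
      (∀ t z z'', S.TPs s s' M K t z → S.TPs s s'' M K t z'' → Near S K' z z'') ∧
      (∀ τ τ', S.Tvs s s' τ → S.Tvs s s'' τ' → |τ - τ'| ≤ K') := by
  obtain ⟨K1, hK1, hKK1, g1⟩ := hS.at' (max K₀ 1)
  have hK₀K1 : K₀ ≤ K1 := (le_max_left _ _).trans hKK1
  obtain ⟨K', h⟩ := hS.endOrd hT K1 M K hK1 hM hK
  refine ⟨K', ?_⟩
  intro s s' s'' hs hcr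
  obtain ⟨m, x, hx, h0, h1⟩ := nbt_exists hT hs s'.a
  have hr : ∃ r, s.Eqv r ∧ x 0 = r.a ∧ x 1 = r.b := by
    rcases h0 with h0 | h0
    · exact ⟨s, Or.inl rfl, h0.1, h0.2⟩
    · exact ⟨s.rev, Or.inr rfl, h0.1, h0.2⟩
  obtain ⟨r, hr, hr0, hr1⟩ := hr
  have hcr1 := hcr.mono hK₀K1
  have swap : ((∀ t z z'', S.TPs s s'' M K t z → S.TPs s s' M K t z'' → Near S K' z z'') ∧
      (∀ τ τ', S.Tvs s s'' τ → S.Tvs s s' τ' → |τ - τ'| ≤ K')) →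
      ((∀ t z z'', S.TPs s s' M K t z → S.TPs s s'' M K t z'' → Near S K' z z'') ∧
      (∀ τ τ', S.Tvs s s' τ → S.Tvs s s'' τ' → |τ - τ'| ≤ K')) := by
    rintro ⟨a1, a2⟩
    exact ⟨fun t z z'' hz hz'' => (a1 t z'' z hz'' hz).symm hS,
      fun τ τ' hτ hτ' => by rw [abs_sub_comm]; exact a2 τ' τ hτ' hτ⟩
  by_cases c1 : x m = s'.b
  · exact h s r s' s'' m x hr hx hr0 hr1 h1 hcr1 (Or.inl c1)
  by_cases c2 : x m = s''.b
  · exact swap (h s r s'' s' m x hr hx hr0 hr1 (h1.trans hcr.ha) (hcr1.symm hS) (Or.inl c2))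
  have hxN : x m ∈ S.N s'.a := by
    have := (hx.adj m le_rfl).symm
    rwa [h1] at this
  rcases (g1 s'.a (max K₀ 1) (le_max_right _ _) le_rfl).two s'.b hcr.h1 s''.b hcr.h2 (x m) hxN
    hcr.hne c1 c2 (hcr.hs.trans (le_max_left _ _)) with t | t
  · exact h s r s' s'' m x hr hx hr0 hr1 h1 hcr1 (Or.inr ⟨c1, c2, t⟩)
  · refine swap (h s r s'' s' m x hr hx hr0 hr1 (h1.trans hcr.ha) (hcr1.symm hS)
      (Or.inr ⟨c2, c1, ?_⟩))
    rw [← hcr.ha]; exact t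

/-- Moving the end point within its wall. -/
theorem Sys.Good.endSame {S : Sys V E} (hS : S.Good) (hT : S.G.IsTree) (K₀ M K : ℝ)
    (hM : 1 ≤ M) (hK : 0 ≤ K) :
    ∃ K', ∀ (s s' s'' : St V E), S.Adm s → S.Adm s' → s'.a = s''.a → s'.b = s''.b →
      ‖s'.fa - s''.fa‖ ≤ K₀ → ‖s'.fb - s''.fb‖ ≤ K₀ → ‖s'.c - s''.c‖ ≤ K₀ →
      (∀ t z z'', S.TPs s s' M K t z → S.TPs s s'' M K t z'' → Near S K' z z'') ∧
      (∀ τ τ', S.Tvs s s' τ → S.Tvs s s'' τ' → |τ - τ'| ≤ K') := by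
  have hK₁ : (1 : ℝ) ≤ max K₀ 1 := le_max_right _ _
  have hK₀₁ : K₀ ≤ max K₀ 1 := le_max_left _ _
  obtain ⟨Kb, hb⟩ := hS.closeTr hT M K M (K + 12 + 12 * max K₀ 1) hM hK hM
  refine ⟨max Kb K₀, ?_⟩
  intro s s' s'' hs hs' ha hbb hf1 hf2 hf3
  obtain ⟨r, r', e1, e2, ⟨pd⟩⟩ := S.exists_PD hT hs hs'
  have key : ∀ r'' : St V E, s''.Eqv r'' → r'.a = r''.a → r'.b = r''.b →
      ‖r'.fa - r''.fa‖ ≤ K₀ → ‖r'.fb - r''.fb‖ ≤ K₀ → ‖r'.c - r''.c‖ ≤ K₀ →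
      (∀ t z z'', S.TPs s s' M K t z → S.TPs s s'' M K t z'' → Near S (max Kb K₀) z z'') ∧
      (∀ τ τ', S.Tvs s s' τ → S.Tvs s s'' τ' → |τ - τ'| ≤ max Kb K₀) := by
    intro r'' e3 q1 q2 q3 q4 q5
    obtain ⟨pd₂, f1, f2⟩ := PD.exists_mk S r r'' pd.m pd.x pd.x0 pd.x1 (pd.xm.trans q1)
      (pd.xm1.trans q2) pd.adj pd.nb
    have hxx : ∀ k ≤ pd.m + 1, pd.x k = pd₂.x k := fun k _ => by rw [f2]
    constructor
    · intro t z z'' hz hz''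
      have tr := pd.t1 pd₂ M (K + 12) (max K₀ 1) (by linarith) hK₁ f1 hxx
        (RC.refl (by linarith) _)
        (by
          refine ⟨?_, ?_, ?_⟩
          · exact q4.trans hK₀₁
          · exact q3.trans hK₀₁
          · exact q5.trans hK₀₁)
      exact (hb s s' s s'' r r' r r'' pd pd₂ e1 e2 e1 e3 tr t z z'' hz hz'').mono
        (le_max_left _ _)
    · intro τ τ' hτ hτ'
      have := pd.Tval_t1 pd₂ K₀ f1 hxx q3 q4 q5
      exact (Sys.Tvs.close hT pd pd₂ e1 e2 e1 e3 this hτ hτ').trans (le_max_right _ _)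
  rcases e2 with rfl | rfl
  · exact key s'' (Or.inl rfl) ha hbb hf1 hf2 hf3
  · exact key s''.rev (Or.inr rfl) hbb ha hf2 hf1 hf3

/-! ### Changing the start point -/

theorem Sys.Good.startSame {S : Sys V E} (hS : S.Good) (hT : S.G.IsTree) (K₀ M K : ℝ)
    (hM : 1 ≤ M) (hK : 0 ≤ K) :
    ∃ K', ∀ (s s₂ s' : St V E), S.Adm s → S.Adm s' → s.a = s₂.a → s.b = s₂.b →
      ‖s.fa - s₂.fa‖ ≤ K₀ → ‖s.fb - s₂.fb‖ ≤ K₀ → ‖s.c - s₂.c‖ ≤ K₀ →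
      (∀ t z z₂, S.TPs s s' M K t z → S.TPs s₂ s' M K t z₂ → Near S K' z z₂) := by
  have hK₁ : (1 : ℝ) ≤ max K₀ 1 := le_max_right _ _
  have hK₀₁ : K₀ ≤ max K₀ 1 := le_max_left _ _
  obtain ⟨Kb, hb⟩ := hS.closeTr hT M K M (K + 12 + 12 * max K₀ 1) hM hK hM
  refine ⟨Kb, ?_⟩
  intro s s₂ s' hs hs' ha hbb hf1 hf2 hf3
  obtain ⟨r, r', e1, e2, ⟨pd⟩⟩ := S.exists_PD hT hs hs'
  have key : ∀ r₂ : St V E, s₂.Eqv r₂ → r.a = r₂.a → r.b = r₂.b →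
      ‖r.fa - r₂.fa‖ ≤ K₀ → ‖r.fb - r₂.fb‖ ≤ K₀ → ‖r.c - r₂.c‖ ≤ K₀ →
      (∀ t z z₂, S.TPs s s' M K t z → S.TPs s₂ s' M K t z₂ → Near S Kb z z₂) := by
    intro r₂ e3 q1 q2 q3 q4 q5
    obtain ⟨pd₂, f1, f2⟩ := PD.exists_mk S r₂ r' pd.m pd.x (pd.x0.trans q1) (pd.x1.trans q2)
      pd.xm pd.xm1 pd.adj pd.nb
    have hxx : ∀ k ≤ pd.m + 1, pd.x k = pd₂.x k := fun k _ => by rw [f2]
    intro t z z₂ hz hz₂
    have tr := pd.t1 pd₂ M (K + 12) (max K₀ 1) (by linarith) hK₁ f1 hxx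
      (by
        refine ⟨?_, ?_, ?_⟩
        · simp only [St.ini, sub_self, abs_zero, zero_add]; exact q5.trans hK₀₁
        · simp only [St.ini, sub_self, abs_zero, zero_add]; exact q3.trans hK₀₁
        · simp only [St.ini, sub_self, abs_zero, zero_add]; exact q4.trans hK₀₁)
      (CC.refl (by linarith) _)
    exact hb s s' s₂ s' r r' r₂ r' pd pd₂ e1 e2 e3 e2 tr t z z₂ hz hz₂
  rcases e1 with rfl | rfl
  · exact key s₂ (Or.inl rfl) ha hbb hf1 hf2 hf3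
  · exact key s₂.rev (Or.inr rfl) hbb ha hf2 hf1 hf3

theorem Sys.Good.startOrd {S : Sys V E} (hS : S.Good) (hT : S.G.IsTree) (K₀ M K : ℝ)
    (hK₀ : 1 ≤ K₀) (hM : 1 ≤ M) (hK : 0 ≤ K) :
    ∃ K', ∀ (s s₂ s' r' : St V E) (m : ℕ) (y : ℕ → V), s'.Eqv r' → NBT S.G m y → y 0 = s.a →
      y m = r'.a → y (m + 1) = r'.b → Cross S K₀ s s₂ →
      (y 1 = s.b ∨ (y 1 ≠ s.b ∧ y 1 ≠ s₂.b ∧
        1 / K₀ ≤ ‖S.p s.a s.b (y 1) - S.p s.a s.b s₂.b‖)) →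
      (∀ t z z₂, S.TPs s s' M K t z → S.TPs s₂ s' M K t z₂ → Near S K' z z₂) := by
  obtain ⟨Ka, ha⟩ := PD.ts2 hS K₀ M (K + 12) (by linarith)
  obtain ⟨Kb, hb⟩ := hS.closeTr hT M K M Ka hM hK hM
  obtain ⟨Mc, Kc, hMc, hc⟩ := PD.ts3 hS K₀ M (K + 12) hM (by linarith)
  obtain ⟨Kd, hd⟩ := hS.closeTr hT M K Mc Kc hM hK hMc
  refine ⟨max Kb Kd, ?_⟩
  intro s s₂ s' r' m y hsr hy h0 hm hm1 hcr ho
  have hs₂ : S.Adm s₂ := by unfold Sys.Adm; rw [← hcr.ha]; exact hcr.h2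
  have hs : S.Adm s := hcr.h1
  rcases ho with ho | ⟨o1, o2, o3⟩
  · obtain ⟨pd, e1, e2⟩ := PD.exists_mk S s r' m y h0 ho hm hm1 hy.adj hy.nb
    obtain ⟨pd₂, f1, f2⟩ := exists_cons S (s := s₂.rev) hy (h0.trans hcr.ha) hm hm1
      (by rw [ho]; exact hcr.hne) hs₂.rev
    have hxx : ∀ k ≤ pd.m + 1, pd.x k = pd₂.x (k + 1) := by
      intro k hk
      rw [e2, f2 k]
    intro t z z₂ hz hz₂
    have tr := ha s s₂.rev r' pd pd₂ (by omega) hxx hcr.hs hcr.hb hcr.hb' hcr.hf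
    exact (hb s s' s₂ s' s r' s₂.rev r' pd pd₂ (Or.inl rfl) hsr (Or.inr rfl) hsr tr t z z₂ hz
      hz₂).mono (le_max_left _ _)
  · obtain ⟨pd, e1, e2⟩ := exists_cons S (s := s.rev) hy h0 hm hm1 o1 hs.rev
    obtain ⟨pd₂, f1, f2⟩ := exists_cons S (s := s₂.rev) hy (h0.trans hcr.ha) hm hm1 o2 hs₂.rev
    have hxx : ∀ k, 1 ≤ k → k ≤ m + 2 → pd.x k = pd₂.x k := by
      intro k hk1 _
      obtain ⟨j, rfl⟩ : ∃ j, k = j + 1 := ⟨k - 1, by omega⟩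
      rw [e2, f2]
    have o3' : 1 / K₀ ≤ ‖S.p s.a s.b s₂.b - S.p s.a s.b (pd.x 2)‖ := by
      rw [e2 1, norm_sub_rev]; exact o3
    intro t z z₂ hz hz₂
    have tr := hc s.rev s₂.rev r' pd pd₂ m e1 f1 hxx hcr.hne hcr.hs hcr.hb hcr.hb' hcr.hf o3' hK₀
    exact (hd s s' s₂ s' s.rev r' s₂.rev r' pd pd₂ (Or.inr rfl) hsr (Or.inr rfl) hsr tr t z z₂ hz
      hz₂).mono (le_max_right _ _)

theorem Sys.Good.startCross {S : Sys V E} (hS : S.Good) (hT : S.G.IsTree) (K₀ M K : ℝ)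
    (hM : 1 ≤ M) (hK : 0 ≤ K) :
    ∃ K', ∀ (s s₂ s' : St V E), S.Adm s' → Cross S K₀ s s₂ →
      (∀ t z z₂, S.TPs s s' M K t z → S.TPs s₂ s' M K t z₂ → Near S K' z z₂) := by
  obtain ⟨K1, hK1, hKK1, g1⟩ := hS.at' (max K₀ 1)
  have hK₀K1 : K₀ ≤ K1 := (le_max_left _ _).trans hKK1
  obtain ⟨K', h⟩ := hS.startOrd hT K1 M K hK1 hM hK
  refine ⟨K', ?_⟩
  intro s s₂ s' hs' hcr
  obtain ⟨m, y, hy, h0, h1⟩ := nbt_from hT hs' s.a
  have hr : ∃ r', s'.Eqv r' ∧ y m = r'.a ∧ y (m + 1) = r'.b := by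
    rcases h1 with h1 | h1
    · exact ⟨s', Or.inl rfl, h1.1, h1.2⟩
    · exact ⟨s'.rev, Or.inr rfl, h1.1, h1.2⟩
  obtain ⟨r', hr, hr0, hr1⟩ := hr
  have hcr1 := hcr.mono hK₀K1
  have swap : (∀ t z z₂, S.TPs s₂ s' M K t z → S.TPs s s' M K t z₂ → Near S K' z z₂) →
      (∀ t z z₂, S.TPs s s' M K t z → S.TPs s₂ s' M K t z₂ → Near S K' z z₂) := by
    intro a1 t z z₂ hz hz₂
    exact (a1 t z₂ z hz₂ hz).symm hS
  by_cases c1 : y 1 = s.b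
  · exact h s s₂ s' r' m y hr hy h0 hr0 hr1 hcr1 (Or.inl c1)
  by_cases c2 : y 1 = s₂.b
  · exact swap (h s₂ s s' r' m y hr hy (h0.trans hcr.ha) hr0 hr1 (hcr1.symm hS) (Or.inl c2))
  have hyN : y 1 ∈ S.N s.a := by
    have := hy.adj 0 (by omega)
    rwa [h0] at this
  rcases (g1 s.a (max K₀ 1) (le_max_right _ _) le_rfl).two s.b hcr.h1 s₂.b hcr.h2 (y 1) hyN
    hcr.hne c1 c2 (hcr.hs.trans (le_max_left _ _)) with t | t
  · exact h s s₂ s' r' m y hr hy h0 hr0 hr1 hcr1 (Or.inr ⟨c1, c2, t⟩)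
  · refine swap (h s₂ s s' r' m y hr hy (h0.trans hcr.ha) hr0 hr1 (hcr1.symm hS)
      (Or.inr ⟨c2, c1, ?_⟩))
    rw [← hcr.ha]; exact t

end Pool.Agent.H81.HDG
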