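import Mathlib
import Pool.Agent.H81.HDG.Compare

/-!
# Comparison of paths whose end points are close
-/

set_option autoImplicit false
set_option linter.unusedSectionVars false

namespace Pool.Agent.H81.HDG

variable {V E : Type*} [NormedAddCommGroup E] [NormedSpace ℝ E]

theorem Nb.adm {S : Sys V E} {K : ℝ} {z z' : St V E} (h : Nb S K z z') (hz : S.Adm z) :
    S.Adm z' := by
  cases h with
  | rev => exact hz.rev
  | same ha hb _ _ _ => unfold Sys.Adm; rw [← ha, ← hb]; exact hz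
  | cross ha _ h2 _ _ _ _ _ => unfold Sys.Adm; rw [← ha]; exact h2

theorem NearN.adm {S : Sys V E} {K : ℝ} {n : ℕ} {z z' : St V E} (h : NearN S K n z z')
    (hz : S.Adm z) : S.Adm z' := by
  induction h with
  | refl z => exact hz
  | step h1 _ ih => exact ih (h1.adm hz)

theorem Near.adm {S : Sys V E} {K : ℝ} {z z' : St V E} (h : Near S K z z') (hz : S.Adm z) :
    S.Adm z' := by
  obtain ⟨n, _, h1⟩ := h
  exact h1.adm hz

theorem Sys.TPs.rev_right {S : Sys V E} {s s' : St V E} {M K t : ℝ} {z : St V E}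
    (h : S.TPs s s'.rev M K t z) : S.TPs s s' M K t z := by
  obtain ⟨r, r', h1, h2, pd, h3⟩ := h
  exact ⟨r, r', h1, St.Eqv.trans (Or.inr rfl) h2, pd, h3⟩

theorem Sys.TPs.rev_left {S : Sys V E} {s s' : St V E} {M K t : ℝ} {z : St V E}
    (h : S.TPs s.rev s' M K t z) : S.TPs s s' M K t z := by
  obtain ⟨r, r', h1, h2, pd, h3⟩ := h
  exact ⟨r, r', St.Eqv.trans (Or.inr rfl) h1, h2, pd, h3⟩

theorem Sys.Tvs.rev_right {S : Sys V E} {s s' : St V E} {τ : ℝ}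
    (h : S.Tvs s s'.rev τ) : S.Tvs s s' τ := by
  obtain ⟨r, r', h1, h2, pd, h3⟩ := h
  exact ⟨r, r', h1, St.Eqv.trans (Or.inr rfl) h2, pd, h3⟩

theorem Sys.Good.nbEnd {S : Sys V E} (hS : S.Good) (hT : S.G.IsTree) (K₀ M K : ℝ)
    (hM : 1 ≤ M) (hK : 0 ≤ K) :
    ∃ K', 0 ≤ K' ∧ ∀ (s s' s'' : St V E), S.Adm s → S.Adm s' → Nb S K₀ s' s'' →
      (∀ t z z'', S.TPs s s' M K t z → S.TPs s s'' M K t z'' → Near S K' z z'') ∧
      (∀ τ τ', S.Tvs s s' τ → S.Tvs s s'' τ' → |τ - τ'| ≤ K') := by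
  obtain ⟨K1, hK1, h1⟩ := hS.uniqueS hT M hM K hK
  obtain ⟨K2, h2⟩ := hS.endSame hT K₀ M K hM hK
  obtain ⟨K3, h3⟩ := hS.endCross hT K₀ M K hM hK
  refine ⟨K1 + |K2| + |K3|, by positivity, ?_⟩
  have a2 := le_abs_self K2
  have a3 := le_abs_self K3
  have b2 := abs_nonneg K2
  have b3 := abs_nonneg K3
  intro s s' s'' hs hs' hn
  cases hn with
  | rev =>
    constructor
    · intro t z z'' hz hz''
      exact (h1 s s' t z z'' hz hz''.rev_right).mono (by linarith)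
    · intro τ τ' hτ hτ'
      rw [hτ.unique hT hτ'.rev_right, sub_self, abs_zero]
      positivity
  | same ha hb q1 q2 q3 =>
    obtain ⟨c1, c2⟩ := h2 s s' s'' hs hs' ha hb q1 q2 q3
    exact ⟨fun t z z'' hz hz'' => (c1 t z z'' hz hz'').mono (by linarith),
      fun τ τ' hτ hτ' => (c2 τ τ' hτ hτ').trans (by linarith)⟩
  | cross ha q1 q2 hne hs hb hb' hf =>
    obtain ⟨c1, c2⟩ := h3 s s' s'' (by assumption) ⟨ha, q1, q2, hne, hs, hb, hb', hf⟩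
    exact ⟨fun t z z'' hz hz'' => (c1 t z z'' hz hz'').mono (by linarith),
      fun τ τ' hτ hτ' => (c2 τ τ' hτ hτ').trans (by linarith)⟩

theorem Sys.Good.nbStart {S : Sys V E} (hS : S.Good) (hT : S.G.IsTree) (K₀ M K : ℝ)
    (hM : 1 ≤ M) (hK : 0 ≤ K) :
    ∃ K', 0 ≤ K' ∧ ∀ (s s₂ s' : St V E), S.Adm s → S.Adm s' → Nb S K₀ s s₂ →
      (∀ t z z₂, S.TPs s s' M K t z → S.TPs s₂ s' M K t z₂ → Near S K' z z₂) := by
  obtain ⟨K1, hK1, h1⟩ := hS.uniqueS hT M hM K hK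
  obtain ⟨K2, h2⟩ := hS.startSame hT K₀ M K hM hK
  obtain ⟨K3, h3⟩ := hS.startCross hT K₀ M K hM hK
  refine ⟨K1 + |K2| + |K3|, by positivity, ?_⟩
  have a2 := le_abs_self K2
  have a3 := le_abs_self K3
  have b2 := abs_nonneg K2
  have b3 := abs_nonneg K3
  intro s s₂ s' hs hs' hn
  cases hn with
  | rev =>
    intro t z z₂ hz hz₂
    exact (h1 s s' t z z₂ hz hz₂.rev_left).mono (by linarith)
  | same ha hb q1 q2 q3 =>
    intro t z z₂ hz hz₂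
    exact (h2 s s₂ s' hs hs' ha hb q1 q2 q3 t z z₂ hz hz₂).mono (by linarith)
  | cross ha q1 q2 hne hs hb hb' hf =>
    intro t z z₂ hz hz₂
    exact (h3 s s₂ s' hs' ⟨ha, q1, q2, hne, hs, hb, hb', hf⟩ t z z₂ hz hz₂).mono (by linarith)

/-- Existence of positions. -/
theorem Sys.Good.existsTPs {S : Sys V E} (hS : S.Good) (hT : S.G.IsTree) :
    ∃ M K, 1 ≤ M ∧ 0 ≤ K ∧ ∀ (s s' : St V E), S.Adm s → S.Adm s' → ∀ t, 0 ≤ t →
      ∃ z, S.TPs s s' M K t z := by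
  obtain ⟨M, K, hM, hK, h⟩ := hS.exists_TP
  refine ⟨M, K, hM, hK, ?_⟩
  intro s s' hs hs' t ht
  obtain ⟨r, r', h1, h2, ⟨pd⟩⟩ := S.exists_PD hT hs hs'
  obtain ⟨z, hz⟩ := h r r' pd t ht
  exact ⟨z, r, r', h1, h2, pd, hz⟩

theorem Sys.Good.nearEnd {S : Sys V E} (hS : S.Good) (hT : S.G.IsTree) (M K : ℝ)
    (hM : 1 ≤ M) (hK : 0 ≤ K)
    (hex : ∀ (s s' : St V E), S.Adm s → S.Adm s' → ∀ t, 0 ≤ t → ∃ z, S.TPs s s' M K t z)
    (R : ℝ) :
    ∃ K', 0 ≤ K' ∧ ∀ (s s' s'' : St V E), S.Adm s → S.Adm s' → Near S R s' s'' →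
      (∀ t z z'', 0 ≤ t → S.TPs s s' M K t z → S.TPs s s'' M K t z'' → Near S K' z z'') ∧
      (∀ τ τ', S.Tvs s s' τ → S.Tvs s s'' τ' → |τ - τ'| ≤ K') := by
  obtain ⟨K1, hK1, h1⟩ := hS.uniqueS hT M hM K hK
  obtain ⟨K2, hK2, h2⟩ := hS.nbEnd hT R M K hM hK
  have key : ∀ (n : ℕ) (s s' s'' : St V E), S.Adm s → S.Adm s' → NearN S R n s' s'' →
      (∀ t z z'', 0 ≤ t → S.TPs s s' M K t z → S.TPs s s'' M K t z'' →
        Near S (K1 + n * K2) z z'') ∧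
      (∀ τ τ', S.Tvs s s' τ → S.Tvs s s'' τ' → |τ - τ'| ≤ n * K2) := by
    intro n s s' s'' hs hs' hn
    induction hn with
    | refl z =>
      constructor
      · intro t z z'' _ hz hz''
        exact (h1 s _ t z z'' hz hz'').mono (by simp)
      · intro τ τ' hτ hτ'
        rw [hτ.unique hT hτ']; simp
    | @step n s' w s'' hb _ ih =>
      have hw := hb.adm hs'
      obtain ⟨c1, c2⟩ := ih hw
      obtain ⟨d1, d2⟩ := h2 s s' w hs hs' hb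
      constructor
      · intro t z z'' ht hz hz''
        obtain ⟨z', hz'⟩ := hex s w hs hw t ht
        refine ((d1 t z z' hz hz').trans (c1 t z' z'' ht hz' hz'')).mono ?_
        push_cast; linarith
      · intro τ τ' hτ hτ'
        obtain ⟨σ, hσ⟩ := S.exists_Tvs hT hs hw
        have e1 := d2 τ σ hτ hσ
        have e2 := c2 σ τ' hσ hτ'
        have := abs_sub_le τ σ τ'
        push_cast; linarith
  refine ⟨K1 + |R| * K2, by positivity, ?_⟩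
  intro s s' s'' hs hs' hn
  obtain ⟨n, hn1, hn2⟩ := hn
  obtain ⟨c1, c2⟩ := key n s s' s'' hs hs' hn2
  have e : (n : ℝ) * K2 ≤ |R| * K2 := by
    gcongr; exact hn1.trans (le_abs_self _)
  exact ⟨fun t z z'' ht hz hz'' => (c1 t z z'' ht hz hz'').mono (by linarith),
    fun τ τ' hτ hτ' => (c2 τ τ' hτ hτ').trans (by linarith)⟩

theorem Sys.Good.nearStart {S : Sys V E} (hS : S.Good) (hT : S.G.IsTree) (M K : ℝ)
    (hM : 1 ≤ M) (hK : 0 ≤ K)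
    (hex : ∀ (s s' : St V E), S.Adm s → S.Adm s' → ∀ t, 0 ≤ t → ∃ z, S.TPs s s' M K t z)
    (R : ℝ) :
    ∃ K', 0 ≤ K' ∧ ∀ (s s₂ s' : St V E), S.Adm s → S.Adm s' → Near S R s s₂ →
      (∀ t z z₂, 0 ≤ t → S.TPs s s' M K t z → S.TPs s₂ s' M K t z₂ → Near S K' z z₂) := by
  obtain ⟨K1, hK1, h1⟩ := hS.uniqueS hT M hM K hK
  obtain ⟨K2, hK2, h2⟩ := hS.nbStart hT R M K hM hK
  have key : ∀ (n : ℕ) (s s₂ s' : St V E), S.Adm s → S.Adm s' → NearN S R n s s₂ →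
      (∀ t z z₂, 0 ≤ t → S.TPs s s' M K t z → S.TPs s₂ s' M K t z₂ →
        Near S (K1 + n * K2) z z₂) := by
    intro n s s₂ s' hs hs' hn
    induction hn with
    | refl z =>
      intro t z z₂ _ hz hz₂
      exact (h1 _ s' t z z₂ hz hz₂).mono (by simp)
    | @step n s w s₂ hb _ ih =>
      have hw := hb.adm hs
      intro t z z₂ ht hz hz₂
      obtain ⟨z', hz'⟩ := hex w s' hw hs' t ht
      refine ((h2 s w s' hs hs' hb t z z' hz hz').trans (ih hw t z' z₂ ht hz' hz₂)).mono ?_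
      push_cast; linarith
  refine ⟨K1 + |R| * K2, by positivity, ?_⟩
  intro s s₂ s' hs hs' hn
  obtain ⟨n, hn1, hn2⟩ := hn
  have e : (n : ℝ) * K2 ≤ |R| * K2 := by
    gcongr; exact hn1.trans (le_abs_self _)
  exact fun t z z₂ ht hz hz₂ => (key n s s₂ s' hs hs' hn2 t z z₂ ht hz hz₂).mono (by linarith)

/-! ### Start, end, step, progress -/

theorem Sys.Good.startS {S : Sys V E} (hS : S.Good) (hT : S.G.IsTree) (M K : ℝ)
    (hM : 1 ≤ M) (hK : 0 ≤ K) :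
    ∃ K', ∀ (s s' z : St V E), S.TPs s s' M K 0 z → Near S K' s z := by
  obtain ⟨K1, hK1, h1⟩ := hS.uniqueS hT M hM K hK
  refine ⟨K1 + 2, ?_⟩
  intro s s' z hz
  obtain ⟨r, r', e1, e2, pd, _⟩ := id hz
  have : ∃ z', s.Eqv z' ∧ pd.TP M K 0 z' := by
    rcases pd.TP_start (M := M) hK with h | h
    · exact ⟨r, e1, h⟩
    · exact ⟨r.rev, e1.trans (Or.inr rfl), h⟩
  obtain ⟨z', e3, h3⟩ := this
  exact ((e3.near S).trans (h1 s s' 0 z' z ⟨r, r', e1, e2, pd, h3⟩ hz)).mono (by linarith)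

theorem Sys.Good.finS {S : Sys V E} (hS : S.Good) (hT : S.G.IsTree) (M K : ℝ)
    (hM : 1 ≤ M) (hK : 0 ≤ K) :
    ∃ K', ∀ (s s' z : St V E) (τ t : ℝ), S.Tvs s s' τ → τ ≤ t → S.TPs s s' M K t z →
      Near S K' z s' := by
  obtain ⟨K1, hK1, h1⟩ := hS.uniqueS hT M hM K hK
  refine ⟨K1 + 2, ?_⟩
  intro s s' z τ t hτ ht hz
  obtain ⟨r, r', e1, e2, pd, e3⟩ := id hτ
  have h3 : pd.TP M K t r' := pd.TP_fin hK (by rw [e3]; exact ht)
  exact ((h1 s s' t z r' hz ⟨r, r', e1, e2, pd, h3⟩).trans (e2.symm.near S)).mono (by linarith)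

theorem Sys.Good.stepS {S : Sys V E} (hS : S.Good) (hT : S.G.IsTree) (M K : ℝ)
    (hM : 1 ≤ M) (hK : 0 ≤ K) :
    ∃ K', ∀ (s s' z z' : St V E) (t t' : ℝ), |t - t'| ≤ 1 → S.TPs s s' M K t z →
      S.TPs s s' M K t' z' → Near S K' z z' := by
  obtain ⟨K1, hK1, h1⟩ := hS.uniqueS hT M hM (K + 1) (by linarith)
  refine ⟨K1 + 1, ?_⟩
  intro s s' z z' t t' htt hz hz'
  obtain ⟨r, r', e1, e2, pd, e3⟩ := id hz
  obtain ⟨z₁, a1, a2⟩ := pd.TP_step t' e3 htt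
  exact (a2.trans (h1 s s' t' z₁ z' ⟨r, r', e1, e2, pd, a1⟩
    (hz'.mono hM le_rfl (by linarith)))).mono (by linarith)

theorem Sys.Good.progS {S : Sys V E} (hS : S.Good) (hT : S.G.IsTree) (M K : ℝ)
    (hM : 1 ≤ M) (hK : 0 ≤ K) :
    ∃ K', ∀ (s s' z : St V E) (τ t τ' : ℝ), S.Tvs s s' τ → t ≤ τ → S.TPs s s' M K t z →
      S.Tvs s z τ' → |τ' - t| ≤ K' := by
  obtain ⟨K1, hK1, h1⟩ := hS.prog M hM K hK
  refine ⟨K1, ?_⟩
  intro s s' z τ t τ' hτ ht hz hτ'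
  obtain ⟨r, r', e1, e2, pd, e3⟩ := id hz
  have e4 : τ = pd.Tval := hτ.unique hT ⟨r, r', e1, e2, pd, rfl⟩
  obtain ⟨z', h2, pdz, h3⟩ := h1 r r' pd t z e3 (by rw [← e4]; exact ht)
  have e5 : τ' = pdz.Tval := hτ'.unique hT ⟨r, z', e1, h2, pdz, rfl⟩
  rw [e5]; exact h3

theorem PD.TP.adm {S : Sys V E} {s s' : St V E} {pd : PD S s s'} {M K t : ℝ} {z : St V E}
    (h : pd.TP M K t z) : S.Adm z := by
  rcases h with ⟨hm, hz, _⟩ | ⟨i, hi, w, hv, hz⟩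
  · rw [hz]; exact pd.adj 0 (by omega)
  · rw [hz]
    unfold Sys.Adm
    rw [pd.locPos_a, pd.locPos_b]
    exact hv.memN hi

theorem Sys.TPs.adm {S : Sys V E} {s s' : St V E} {M K t : ℝ} {z : St V E}
    (h : S.TPs s s' M K t z) : S.Adm z := by
  obtain ⟨r, r', e1, e2, pd, e3⟩ := h
  exact e3.adm

end Pool.Agent.H81.HDG
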