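import Mathlib
import Pool.Agent.H81.HDG.NearCmp

/-!
# Subspaces of coordinates
-/

set_option autoImplicit false
set_option linter.unusedSectionVars false

namespace Pool.Agent.H81.HDG

variable {V E : Type*} [NormedAddCommGroup E] [NormedSpace ℝ E]

/-- The subspaces in which the coordinates live. -/
structure Sub (S : Sys V E) where
  FS : V → Submodule ℝ E
  CS : V → V → Submodule ℝ E
  CS_symm : ∀ v w, S.G.Adj v w → CS v w = CS w v
  p_mem : ∀ v w x, S.G.Adj v w → S.G.Adj v x → w ≠ x →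
    (S.p v w x).1 ∈ FS w ∧ (S.p v w x).2 ∈ CS v w
  D_mem : ∀ v a b, S.G.Adj v a → S.G.Adj v b → S.D v a b ∈ FS v

/-- valid states -/
structure Sub.Valid {S : Sys V E} (B : Sub S) (z : St V E) : Prop where
  adj : S.G.Adj z.a z.b
  fa : z.fa ∈ B.FS z.a
  fb : z.fb ∈ B.FS z.b
  c : z.c ∈ B.CS z.a z.b

theorem Sub.Valid.rev {S : Sys V E} {B : Sub S} {z : St V E} (h : B.Valid z) : B.Valid z.rev :=
  ⟨h.adj.symm, h.fb, h.fa, by
    have := h.c
    rwa [B.CS_symm _ _ h.adj] at this⟩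

theorem Sub.Valid.eqv {S : Sys V E} {B : Sub S} {z z' : St V E} (h : B.Valid z)
    (h' : z.Eqv z') : B.Valid z' := by
  rcases h' with rfl | rfl
  · exact h
  · exact h.rev

theorem cl_mem {F : Submodule ℝ E} {x : E} (hx : x ∈ F) (t : ℝ) : cl t x ∈ F := by
  unfold cl
  split_ifs
  · exact hx
  · exact F.smul_mem _ hx

/-- records with coordinates in the subspaces -/
structure Sub.RV {S : Sys V E} (B : Sub S) (x y : V) (R : Rec E) : Prop where
  f : R.f ∈ B.FS x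
  φ : R.φ ∈ B.FS y
  γ : R.γ ∈ B.CS x y

theorem Sub.RV.tr {S : Sys V E} {B : Sub S} {x v y : V} {R : Rec E} (h : B.RV x v R)
    (hx : S.G.Adj v x) (hy : S.G.Adj v y) (hxy : x ≠ y) : B.RV v y (S.tr x v y R) := by
  refine ⟨?_, ?_, ?_⟩
  · exact (B.FS v).add_mem h.φ (B.D_mem v x y hx hy)
  · exact (B.p_mem v y x hy hx hxy.symm).1
  · exact (B.p_mem v y x hy hx hxy.symm).2

namespace PD

variable {S : Sys V E} {s s' : St V E}

theorem rv (B : Sub S) (pd : PD S s s') (hs : B.Valid s) :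
    ∀ k ≤ pd.m, B.RV (pd.x k) (pd.x (k + 1)) (pd.R k) := by
  intro k
  induction k with
  | zero =>
    intro _
    rw [pd.R0, pd.x0, zero_add, pd.x1]
    exact ⟨hs.fa, hs.fb, hs.c⟩
  | succ k ih =>
    intro hk
    rw [pd.Rs k (by omega)]
    exact (ih (by omega)).tr (pd.adj k (by omega)).symm (pd.adj (k + 1) (by omega))
      (pd.nb k (by omega))

theorem rv' (B : Sub S) (pd : PD S s s') (hs' : B.Valid s') :
    ∀ k ≤ pd.m, B.RV (pd.x (k + 1)) (pd.x k) (pd.R' k) := by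
  intro k hk
  obtain ⟨n, hn⟩ : ∃ n, k + n = pd.m := ⟨pd.m - k, by omega⟩
  induction n generalizing k with
  | zero =>
    have : k = pd.m := by omega
    rw [this, pd.Rm, pd.xm, pd.xm1]
    have h := hs'.rev
    exact ⟨h.fa, h.fb, h.c⟩
  | succ n ih =>
    rw [pd.Rs' k (by omega)]
    exact (ih (k + 1) (by omega) (by omega)).tr (pd.adj (k + 1) (by omega))
      (pd.adj k (by omega)).symm (pd.nb k (by omega)).symm

theorem wall_valid (B : Sub S) (pd : PD S s s') (hs : B.Valid s) (hs' : B.Valid s') (k : ℕ)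
    (hk : k ≤ pd.m) (t : ℝ) : B.Valid (pd.wallPos k t) := by
  have h1 := pd.rv B hs k hk
  have h2 := pd.rv' B hs' k hk
  have hadj := pd.adj k hk
  refine ⟨hadj, ?_, ?_, ?_⟩
  · exact Submodule.add_mem _ h1.f (cl_mem (Submodule.sub_mem _ h2.φ h1.f) _)
  · exact Submodule.add_mem _ h1.φ (cl_mem (Submodule.sub_mem _ h2.f h1.φ) _)
  · refine Submodule.add_mem _ h1.γ (cl_mem (Submodule.sub_mem _ ?_ h1.γ) _)
    have := h2.γ
    rwa [← B.CS_symm _ _ hadj] at this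

theorem TP.valid {B : Sub S} {pd : PD S s s'} (hs : B.Valid s) (hs' : B.Valid s')
    {M K t : ℝ} {z : St V E} (h : pd.TP M K t z) : B.Valid z := by
  rcases h with ⟨hm, hz, _⟩ | ⟨i, hi, w, hv, hz⟩
  · rw [hz]; exact pd.wall_valid B hs hs' 0 (by omega) t
  · have hw := hv.memN hi
    have mem := pd.memN hi
    rw [hz]
    unfold locPos
    split_ifs with h1 h2
    · exact (pd.wall_valid B hs hs' i (by omega) t).rev
    · exact pd.wall_valid B hs hs' (i + 1) (by omega) t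
    · have p1 := B.p_mem (pd.x (i + 1)) w (pd.x i) hw mem.1 h1
      have p2 := B.p_mem (pd.x (i + 1)) w (pd.x (i + 2)) hw mem.2 h2
      have r1 := (pd.rv B hs i (by omega)).φ
      have r2 := (pd.rv' B hs' (i + 1) (by omega)).φ
      refine ⟨hw, ?_, ?_, ?_⟩
      · change pd.fv i w t ∈ B.FS (pd.x (i + 1))
        unfold fv th
        refine Submodule.add_mem _ (Submodule.add_mem _ r1 (B.D_mem _ _ _ mem.1 hw)) (cl_mem ?_ _)
        exact Submodule.sub_mem _ (Submodule.sub_mem _ r2 r1) (B.D_mem _ _ _ mem.1 mem.2)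
      · exact Submodule.add_mem _ p1.1 (cl_mem (Submodule.sub_mem _ p2.1 p1.1) _)
      · exact Submodule.add_mem _ p1.2 (cl_mem (Submodule.sub_mem _ p2.2 p1.2) _)

end PD

theorem Sys.TPs.valid {S : Sys V E} {B : Sub S} {s s' : St V E} (hs : B.Valid s)
    (hs' : B.Valid s') {M K t : ℝ} {z : St V E} (h : S.TPs s s' M K t z) : B.Valid z := by
  obtain ⟨r, r', e1, e2, pd, e3⟩ := h
  exact PD.TP.valid (hs.eqv e1) (hs'.eqv e2) e3

/-! ### Group actions -/

/-- A group acting on the system. -/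
structure Act {S : Sys V E} (B : Sub S) (G : Type*) [Group G] [MulAction G V] where
  θf : G → V → V → E
  θc : G → V → V → E
  adj : ∀ (g : G) a b, S.G.Adj a b → S.G.Adj (g • a) (g • b)
  θf_mul : ∀ g h a b, S.G.Adj a b → θf (g * h) a b = θf g (h • a) (h • b) + θf h a b
  θc_mul : ∀ g h a b, S.G.Adj a b → θc (g * h) a b = θc g (h • a) (h • b) + θc h a b
  θc_symm : ∀ g a b, S.G.Adj a b → θc g a b = θc g b a
  FS_smul : ∀ (g : G) a, B.FS (g • a) = B.FS a
  CS_smul : ∀ (g : G) a b, S.G.Adj a b → B.CS (g • a) (g • b) = B.CS a b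
  θf_mem : ∀ g a b, S.G.Adj a b → θf g a b ∈ B.FS a
  θc_mem : ∀ g a b, S.G.Adj a b → θc g a b ∈ B.CS a b
  s_eq : ∀ (g : G) v a b, S.G.Adj v a → S.G.Adj v b → S.s (g • v) (g • a) (g • b) = S.s v a b
  L_eq : ∀ (g : G) v a b, S.G.Adj v a → S.G.Adj v b → S.L (g • v) (g • a) (g • b) = S.L v a b
  p_eq : ∀ (g : G) v w x, S.G.Adj v w → S.G.Adj v x → w ≠ x →
    S.p (g • v) (g • w) (g • x) = S.p v w x + (θf g w v, θc g v w)
  D_eq : ∀ (g : G) v a b, S.G.Adj v a → S.G.Adj v b →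
    S.D (g • v) (g • a) (g • b) = S.D v a b + θf g v b - θf g v a
  proper : ∀ (R : ℝ) a b, S.G.Adj a b → {g : G | g • a = a ∧ g • b = b ∧ ‖θf g a b‖ ≤ R ∧
    ‖θf g b a‖ ≤ R ∧ ‖θc g a b‖ ≤ R}.Finite
  cobdd : ∃ R : ℝ, ∀ a b, S.G.Adj a b → ∀ x ∈ B.FS a, ∀ y ∈ B.FS b, ∀ z ∈ B.CS a b,
    ∃ g : G, g • a = a ∧ g • b = b ∧ ‖x - θf g a b‖ ≤ R ∧ ‖y - θf g b a‖ ≤ R ∧
      ‖z - θc g a b‖ ≤ R
  orbits : ∃ F : Finset (V × V), ∀ a b, S.G.Adj a b → ∃ (g : G), ∃ e ∈ F, S.G.Adj e.1 e.2 ∧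
    a = g • e.1 ∧ b = g • e.2
  balls : ∀ (R : ℝ) v w, S.G.Adj v w →
    {x | S.G.Adj v x ∧ w ≠ x ∧ S.s v w x ≤ R ∧ ‖S.p v w x‖ ≤ R}.Finite

namespace Act

variable {S : Sys V E} {B : Sub S} {G : Type*} [Group G] [MulAction G V]

/-- the action on states -/
def sm (A : Act B G) (g : G) (z : St V E) : St V E :=
  ⟨g • z.a, g • z.b, z.fa + A.θf g z.a z.b, z.fb + A.θf g z.b z.a, z.c + A.θc g z.a z.b⟩

theorem sm_adm (A : Act B G) (g : G) {z : St V E} (h : S.Adm z) : S.Adm (A.sm g z) :=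
  A.adj g _ _ h

theorem sm_rev (A : Act B G) (g : G) {z : St V E} (h : S.Adm z) :
    A.sm g z.rev = (A.sm g z).rev := by
  unfold sm St.rev
  simp only
  rw [A.θc_symm g z.b z.a h.symm]

theorem sm_valid (A : Act B G) (g : G) {z : St V E} (h : B.Valid z) : B.Valid (A.sm g z) := by
  refine ⟨A.adj g _ _ h.adj, ?_, ?_, ?_⟩
  · change z.fa + A.θf g z.a z.b ∈ B.FS (g • z.a)
    rw [A.FS_smul]
    exact Submodule.add_mem _ h.fa (A.θf_mem _ _ _ h.adj)
  · change z.fb + A.θf g z.b z.a ∈ B.FS (g • z.b)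
    rw [A.FS_smul]
    exact Submodule.add_mem _ h.fb (A.θf_mem _ _ _ h.adj.symm)
  · change z.c + A.θc g z.a z.b ∈ B.CS (g • z.a) (g • z.b)
    rw [A.CS_smul _ _ _ h.adj]
    exact Submodule.add_mem _ h.c (A.θc_mem _ _ _ h.adj)

theorem sm_one (A : Act B G) {z : St V E} (h : S.Adm z) : A.sm 1 z = z := by
  have e1 : ∀ a b, S.G.Adj a b → A.θf 1 a b = 0 := by
    intro a b hab
    have := A.θf_mul 1 1 a b hab
    simpa using this
  have e2 : ∀ a b, S.G.Adj a b → A.θc 1 a b = 0 := by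
    intro a b hab
    have := A.θc_mul 1 1 a b hab
    simpa using this
  unfold sm
  rw [e1 _ _ h, e1 _ _ h.symm, e2 _ _ h]
  simp

theorem sm_mul (A : Act B G) (g h : G) {z : St V E} (hz : S.Adm z) :
    A.sm (g * h) z = A.sm g (A.sm h z) := by
  unfold sm
  simp only
  rw [A.θf_mul g h _ _ hz, A.θf_mul g h _ _ hz.symm, A.θc_mul g h _ _ hz, mul_smul, mul_smul]
  congr 1
  · abel
  · abel
  · abel

theorem smul_inj (g : G) {a b : V} : g • a = g • b ↔ a = b :=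
  ⟨fun h => by simpa using congrArg (fun x => g⁻¹ • x) h, fun h => by rw [h]⟩

theorem sm_nb (A : Act B G) (g : G) {K : ℝ} {z z' : St V E} (hz : S.Adm z) (h : Nb S K z z') :
    Nb S K (A.sm g z) (A.sm g z') := by
  cases h with
  | rev => rw [A.sm_rev g hz]; exact Nb.rev _
  | same ha hb h1 h2 h3 =>
    refine Nb.same ?_ ?_ ?_ ?_ ?_
    · change g • z.a = g • z'.a; rw [ha]
    · change g • z.b = g • z'.b; rw [hb]
    · change ‖z.fa + A.θf g z.a z.b - (z'.fa + A.θf g z'.a z'.b)‖ ≤ K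
      rw [← ha, ← hb, add_sub_add_right_eq_sub]; exact h1
    · change ‖z.fb + A.θf g z.b z.a - (z'.fb + A.θf g z'.b z'.a)‖ ≤ K
      rw [← ha, ← hb, add_sub_add_right_eq_sub]; exact h2
    · change ‖z.c + A.θc g z.a z.b - (z'.c + A.θc g z'.a z'.b)‖ ≤ K
      rw [← ha, ← hb, add_sub_add_right_eq_sub]; exact h3
  | cross ha h1 h2 hne hs hb hb' hf =>
    have h2' : S.G.Adj z'.a z'.b := by rw [← ha]; exact h2
    refine Nb.cross ?_ ?_ ?_ ?_ ?_ ?_ ?_ ?_
    · change g • z.a = g • z'.a; rw [ha]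
    · exact A.adj g _ _ h1
    · exact A.adj g _ _ h2
    · change g • z.b ≠ g • z'.b
      rw [Ne, smul_inj]; exact hne
    · change S.s (g • z.a) (g • z.b) (g • z'.b) ≤ K
      rw [A.s_eq g _ _ _ h1 h2]; exact hs
    · change ‖(z.fb + A.θf g z.b z.a, z.c + A.θc g z.a z.b) -
        S.p (g • z.a) (g • z.b) (g • z'.b)‖ ≤ K
      rw [A.p_eq g _ _ _ h1 h2 hne]
      calc _ = ‖(z.fb, z.c) - S.p z.a z.b z'.b‖ := by
            congr 1
            ext <;> simp
        _ ≤ K := hb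
    · change ‖(z'.fb + A.θf g z'.b z'.a, z'.c + A.θc g z'.a z'.b) -
        S.p (g • z.a) (g • z'.b) (g • z.b)‖ ≤ K
      rw [A.p_eq g _ _ _ h2 h1 hne.symm, ← ha]
      calc _ = ‖(z'.fb, z'.c) - S.p z.a z'.b z.b‖ := by
            congr 1
            ext <;> simp
        _ ≤ K := hb'
    · change ‖z'.fa + A.θf g z'.a z'.b - (z.fa + A.θf g z.a z.b) -
        S.D (g • z.a) (g • z.b) (g • z'.b)‖ ≤ K
      rw [A.D_eq g _ _ _ h1 h2, ← ha]
      calc _ = ‖z'.fa - z.fa - S.D z.a z.b z'.b‖ := by congr 1; abel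
        _ ≤ K := hf

theorem sm_nearN (A : Act B G) (g : G) {K : ℝ} {n : ℕ} {z z' : St V E} (hz : S.Adm z)
    (h : NearN S K n z z') : NearN S K n (A.sm g z) (A.sm g z') := by
  induction h with
  | refl z => exact NearN.refl _
  | step h1 _ ih => exact NearN.step (A.sm_nb g hz h1) (ih (h1.adm hz))

theorem sm_near (A : Act B G) (g : G) {K : ℝ} {z z' : St V E} (hz : S.Adm z)
    (h : Near S K z z') : Near S K (A.sm g z) (A.sm g z') := by
  obtain ⟨n, h1, h2⟩ := h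
  exact ⟨n, h1, A.sm_nearN g hz h2⟩

/-! ### Equivariance of paths -/

/-- the action on records -/
def rm (A : Act B G) (g : G) (x y : V) (R : Rec E) : Rec E :=
  ⟨R.A, R.B, R.f + A.θf g x y, R.φ + A.θf g y x, R.γ + A.θc g x y⟩

theorem rm_dep (A : Act B G) (g : G) {x v y : V} (hx : S.G.Adj v x) (hy : S.G.Adj v y)
    (hxy : x ≠ y) (R : Rec E) :
    S.dep (g • x) (g • v) (g • y) (A.rm g x v R) = S.dep x v y R := by
  unfold Sys.dep rm
  rw [A.p_eq g v x y hx hy hxy]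
  simp only [Prod.fst_add, Prod.snd_add]
  rw [A.θc_symm g v x hx, add_sub_add_right_eq_sub, add_sub_add_right_eq_sub]

theorem rm_tr (A : Act B G) (g : G) {x v y : V} (hx : S.G.Adj v x) (hy : S.G.Adj v y)
    (hxy : x ≠ y) (R : Rec E) :
    S.tr (g • x) (g • v) (g • y) (A.rm g x v R) = A.rm g v y (S.tr x v y R) := by
  have h1 := A.rm_dep g hx hy hxy R
  unfold Sys.tr
  rw [h1, A.L_eq g v x y hx hy, A.D_eq g v x y hx hy, A.p_eq g v y x hy hx hxy.symm]
  unfold rm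
  simp only [Prod.fst_add, Prod.snd_add]
  congr 1
  abel

theorem sm_pd (A : Act B G) (g : G) {s s' : St V E} (pd : PD S s s') :
    ∃ pd' : PD S (A.sm g s) (A.sm g s'), pd'.m = pd.m ∧ (∀ k, pd'.x k = g • pd.x k) ∧
      (∀ k ≤ pd.m, pd'.R k = A.rm g (pd.x k) (pd.x (k + 1)) (pd.R k)) ∧
      (∀ k ≤ pd.m, pd'.R' k = A.rm g (pd.x (k + 1)) (pd.x k) (pd.R' k)) := by
  obtain ⟨pd', h1, h2⟩ := PD.exists_mk S (A.sm g s) (A.sm g s') pd.m (fun k => g • pd.x k)
    (by rw [pd.x0]; rfl) (by rw [pd.x1]; rfl) (by rw [pd.xm]; rfl) (by rw [pd.xm1]; rfl)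
    (fun i hi => A.adj g _ _ (pd.adj i hi)) (fun i hi => by
      rw [Ne, smul_inj]; exact pd.nb i hi)
  have h2' : ∀ k, pd'.x k = g • pd.x k := fun k => by rw [h2]
  refine ⟨pd', h1, h2', ?_, ?_⟩
  · intro k
    induction k with
    | zero =>
      intro _
      rw [pd'.R0, pd.R0, pd.x0, zero_add, pd.x1]
      rfl
    | succ k ih =>
      intro hk
      rw [pd'.Rs k (by omega), pd.Rs k (by omega), ih (by omega), h2', h2', h2']
      exact A.rm_tr g (pd.adj k (by omega)).symm (pd.adj (k + 1) (by omega))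
        (pd.nb k (by omega)) _
  · intro k hk
    obtain ⟨n, hn⟩ : ∃ n, k + n = pd.m := ⟨pd.m - k, by omega⟩
    induction n generalizing k with
    | zero =>
      have hkm : k = pd.m := by omega
      have e1 := pd'.Rm
      rw [h1] at e1
      rw [hkm, e1, pd.Rm, pd.xm, pd.xm1]
      unfold sm rm St.ini St.rev
      simp only
      have hadj := pd.adj pd.m le_rfl
      rw [pd.xm, pd.xm1] at hadj
      rw [A.θc_symm g _ _ hadj]
    | succ n ih =>
      rw [pd'.Rs' k (by omega), pd.Rs' k (by omega), ih (k + 1) (by omega) (by omega), h2', h2',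
        h2']
      exact A.rm_tr g (pd.adj (k + 1) (by omega)) (pd.adj k (by omega)).symm
        (pd.nb k (by omega)).symm _

theorem sm_wall (A : Act B G) (g : G) {s s' : St V E} (pd : PD S s s')
    (pd' : PD S (A.sm g s) (A.sm g s')) (h2 : ∀ k, pd'.x k = g • pd.x k)
    (h3 : ∀ k ≤ pd.m, pd'.R k = A.rm g (pd.x k) (pd.x (k + 1)) (pd.R k))
    (h4 : ∀ k ≤ pd.m, pd'.R' k = A.rm g (pd.x (k + 1)) (pd.x k) (pd.R' k)) (k : ℕ)
    (hk : k ≤ pd.m) (t : ℝ) : pd'.wallPos k t = A.sm g (pd.wallPos k t) := by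
  unfold PD.wallPos sm
  rw [h3 k hk, h4 k hk, h2, h2]
  unfold rm
  simp only
  rw [A.θc_symm g _ _ (pd.adj k hk).symm, add_sub_add_right_eq_sub, add_sub_add_right_eq_sub,
    add_sub_add_right_eq_sub]
  congr 1 <;> abel

theorem sm_loc (A : Act B G) (g : G) {s s' : St V E} (pd : PD S s s')
    (pd' : PD S (A.sm g s) (A.sm g s')) (h2 : ∀ k, pd'.x k = g • pd.x k)
    (h3 : ∀ k ≤ pd.m, pd'.R k = A.rm g (pd.x k) (pd.x (k + 1)) (pd.R k))
    (h4 : ∀ k ≤ pd.m, pd'.R' k = A.rm g (pd.x (k + 1)) (pd.x k) (pd.R' k)) (i : ℕ)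
    (hi : i < pd.m) (w : V) (hw : S.G.Adj (pd.x (i + 1)) w) (t : ℝ) :
    pd'.locPos i (g • w) t = A.sm g (pd.locPos i w t) := by
  have mem := pd.memN hi
  unfold PD.locPos
  rw [h2, h2, smul_inj, smul_inj]
  split_ifs with c1 c2
  · rw [A.sm_wall g pd pd' h2 h3 h4 i (by omega) t, A.sm_rev]
    exact pd.adj i (by omega)
  · exact A.sm_wall g pd pd' h2 h3 h4 (i + 1) (by omega) t
  · have hdp : pd'.dp i = pd.dp i := by
      unfold PD.dp
      rw [h2, h2, h2, h3 i (by omega)]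
      exact A.rm_dep g mem.1 mem.2 (pd.nb i hi) _
    have hL := A.L_eq g _ _ _ mem.1 hw
    have hD := A.D_eq g _ _ _ mem.1 hw
    have hD2 := A.D_eq g _ _ _ mem.1 mem.2
    have hp1 := A.p_eq g _ w _ hw mem.1 c1
    have hp2 := A.p_eq g _ w _ hw mem.2 c2
    have hth : pd'.th i = pd.th i := by
      unfold PD.th
      rw [h2, h2, h2, h3 i (by omega), h4 (i + 1) (by omega), hD2]
      unfold rm
      simp only
      abel
    have hbv : pd'.bv i (g • w) t = pd.bv i w t + (A.θf g w (pd.x (i + 1)),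
        A.θc g (pd.x (i + 1)) w) := by
      unfold PD.bv
      rw [hdp, h2, h2, h2, hL, hp1, hp2, add_sub_add_right_eq_sub]
      abel
    apply St.ext
    · change pd'.x (i + 1) = g • pd.x (i + 1)
      exact h2 _
    · rfl
    · change pd'.fv i (g • w) t = pd.fv i w t + A.θf g (pd.x (i + 1)) w
      unfold PD.fv
      rw [hth, h2, h2, h3 i (by omega), hD]
      unfold rm
      simp only
      abel
    · change (pd'.bv i (g • w) t).1 = (pd.bv i w t).1 + A.θf g w (pd.x (i + 1))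
      rw [hbv, Prod.fst_add]
    · change (pd'.bv i (g • w) t).2 = (pd.bv i w t).2 + A.θc g (pd.x (i + 1)) w
      rw [hbv, Prod.snd_add]

theorem sm_TP (A : Act B G) (g : G) {s s' : St V E} {pd : PD S s s'} {M K t : ℝ} {z : St V E}
    (h : pd.TP M K t z) : ∃ pd' : PD S (A.sm g s) (A.sm g s'), pd'.TP M K t (A.sm g z) := by
  obtain ⟨pd', h1, h2, h3, h4⟩ := A.sm_pd g pd
  refine ⟨pd', ?_⟩
  rcases h with ⟨hm, hz, ht⟩ | ⟨i, hi, w, hv, hz⟩
  · left
    refine ⟨by omega, ?_, ht⟩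
    rw [hz, A.sm_wall g pd pd' h2 h3 h4 0 (by omega) t]
  · right
    have mem := pd.memN hi
    have hwN := hv.memN hi
    refine ⟨i, by omega, g • w, ?_, ?_⟩
    · have hdp : ∀ j < pd.m, pd'.dp j = pd.dp j := by
        intro j hj
        have mem := pd.memN hj
        unfold PD.dp
        rw [h2, h2, h2, h3 j (by omega)]
        exact A.rm_dep g mem.1 mem.2 (pd.nb j hj) _
      have hA : ∀ j ≤ pd.m, (pd'.R j).A = (pd.R j).A := by
        intro j hj
        rw [h3 j hj]; rfl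
      rcases hv with ⟨q1, q2, q3⟩ | ⟨q1, q2, q3⟩ | ⟨q1, q2, q3, q4, q5, q6⟩
      · left
        rw [h2, hdp i hi, hA i (by omega)]
        exact ⟨by rw [q1], q2, q3⟩
      · right; left
        rw [h2, hA (i + 1) (by omega)]
        refine ⟨by rw [q1], q2, fun h => ?_⟩
        rw [hdp (i + 1) (by omega)]
        exact q3 (by omega)
      · right; right
        rw [h2, h2, h2, hdp i hi, A.L_eq g _ _ _ mem.1 hwN, A.p_eq g _ w _ hwN mem.1 q2,
          A.p_eq g _ w _ hwN mem.2 q3, add_sub_add_right_eq_sub]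
        exact ⟨A.adj g _ _ hwN, by rw [Ne, smul_inj]; exact q2, by rw [Ne, smul_inj]; exact q3,
          q4, q5, q6⟩
    · rw [hz, A.sm_loc g pd pd' h2 h3 h4 i hi w hwN t]

theorem sm_eqv (A : Act B G) (g : G) {z z' : St V E} (hz : S.Adm z) (h : z.Eqv z') :
    (A.sm g z).Eqv (A.sm g z') := by
  rcases h with rfl | rfl
  · exact Or.inl rfl
  · right; exact A.sm_rev g hz

theorem sm_TPs (A : Act B G) (g : G) {s s' : St V E} (hs : S.Adm s) (hs' : S.Adm s')
    {M K t : ℝ} {z : St V E} (h : S.TPs s s' M K t z) :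
    S.TPs (A.sm g s) (A.sm g s') M K t (A.sm g z) := by
  obtain ⟨r, r', e1, e2, pd, e3⟩ := h
  obtain ⟨pd', h1⟩ := A.sm_TP g e3
  exact ⟨_, _, A.sm_eqv g hs e1, A.sm_eqv g hs' e2, pd', h1⟩

end Act

end Pool.Agent.H81.HDG
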