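import Mathlib
import Pool.Agent.H81.HDG.Subsp
import Pool.Agent.H81.HDG.Comb

/-!
# The group acting on the system is semihyperbolic
-/

set_option autoImplicit false
set_option linter.unusedSectionVars false

namespace Pool.Agent.H81.HDG

variable {V E : Type*} [NormedAddCommGroup E] [NormedSpace ℝ E]

/-- the coordinates are bounded by `R` -/
def St.Bd (z : St V E) (R : ℝ) : Prop := ‖z.fa‖ ≤ R ∧ ‖z.fb‖ ≤ R ∧ ‖z.c‖ ≤ R

namespace Act

variable {S : Sys V E} {B : Sub S} {G : Type*} [Group G] [MulAction G V]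

/-- one step from a bounded set leads to a bounded set -/
theorem reach_one (A : Act B G) (K : ℝ) (D₀ : Set (V × V)) (hD₀ : D₀.Finite) (R₀ : ℝ) :
    ∃ (D₁ : Set (V × V)) (R₁ : ℝ), D₁.Finite ∧ ∀ z z' : St V E, S.Adm z → (z.a, z.b) ∈ D₀ →
      z.Bd R₀ → Nb S K z z' → (z'.a, z'.b) ∈ D₁ ∧ z'.Bd R₁ := by
  classical
  -- triples
  set Q : Set (V × V × V) := {q | (q.1, q.2.1) ∈ D₀ ∧ S.G.Adj q.1 q.2.1 ∧ S.G.Adj q.1 q.2.2 ∧
    q.2.1 ≠ q.2.2 ∧ S.s q.1 q.2.1 q.2.2 ≤ |K| + |R₀| ∧ ‖S.p q.1 q.2.1 q.2.2‖ ≤ |K| + |R₀|}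
    with hQ
  have hQf : Q.Finite := by
    have h1 : Q ⊆ ⋃ e ∈ D₀, (fun x => (e.1, e.2, x)) '' {x | S.G.Adj e.1 e.2 ∧ S.G.Adj e.1 x ∧
        e.2 ≠ x ∧ S.s e.1 e.2 x ≤ |K| + |R₀| ∧ ‖S.p e.1 e.2 x‖ ≤ |K| + |R₀|} := by
      rintro ⟨v, w, x⟩ hq
      simp only [hQ, Set.mem_ofPred_eq] at hq
      simp only [Set.mem_iUnion]
      exact ⟨(v, w), hq.1, x, ⟨hq.2.1, hq.2.2.1, hq.2.2.2.1, hq.2.2.2.2.1, hq.2.2.2.2.2⟩, rfl⟩
    refine Set.Finite.subset (hD₀.biUnion fun e he => Set.Finite.image _ ?_) h1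
    by_cases hadj : S.G.Adj e.1 e.2
    · refine (A.balls (|K| + |R₀|) e.1 e.2 hadj).subset ?_
      intro x hx
      exact ⟨hx.2.1, hx.2.2.1, hx.2.2.2.1, hx.2.2.2.2⟩
    · convert Set.finite_empty
      ext x
      simp only [Set.mem_ofPred_eq, Set.mem_empty_iff_false, iff_false]
      intro hx
      exact hadj hx.1
  obtain ⟨C, hC⟩ := (hQf.image (fun q => ‖S.p q.1 q.2.2 q.2.1‖ + ‖S.D q.1 q.2.1 q.2.2‖)).bddAbove
  refine ⟨D₀ ∪ (Prod.swap '' D₀) ∪ ((fun q : V × V × V => (q.1, q.2.2)) '' Q),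
    |C| + |K| + |R₀|, (hD₀.union (hD₀.image _)).union (hQf.image _), ?_⟩
  intro z z' hz hzD hzB hn
  have aC := le_abs_self C
  have aK := le_abs_self K
  have aR := le_abs_self R₀
  have bC := abs_nonneg C
  have bK := abs_nonneg K
  have bR := abs_nonneg R₀
  obtain ⟨b1, b2, b3⟩ := hzB
  cases hn with
  | rev =>
    refine ⟨Or.inl (Or.inr ⟨_, hzD, rfl⟩), ?_, ?_, ?_⟩
    · change ‖z.fb‖ ≤ _; linarith
    · change ‖z.fa‖ ≤ _; linarith
    · change ‖z.c‖ ≤ _; linarith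
  | same ha hb h1 h2 h3 =>
    refine ⟨Or.inl (Or.inl (by rw [← ha, ← hb]; exact hzD)), ?_, ?_, ?_⟩
    · have := norm_sub_norm_le z'.fa z.fa
      rw [norm_sub_rev] at this; linarith
    · have := norm_sub_norm_le z'.fb z.fb
      rw [norm_sub_rev] at this; linarith
    · have := norm_sub_norm_le z'.c z.c
      rw [norm_sub_rev] at this; linarith
  | cross ha h1 h2 hne hs hb hb' hf =>
    have hq : (z.a, z.b, z'.b) ∈ Q := by
      simp only [hQ, Set.mem_ofPred_eq]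
      refine ⟨hzD, h1, h2, hne, by linarith, ?_⟩
      have e1 := norm_sub_norm_le (S.p z.a z.b z'.b) (z.fb, z.c)
      rw [norm_sub_rev] at e1
      have e2 : ‖((z.fb, z.c) : E × E)‖ ≤ R₀ := by
        rw [Prod.norm_def]; exact max_le b2 b3
      linarith
    have hCq := hC ⟨_, hq, rfl⟩
    simp only at hCq
    have n1 := norm_nonneg (S.p z.a z'.b z.b)
    have n2 := norm_nonneg (S.D z.a z.b z'.b)
    have e3 : ‖((z'.fb, z'.c) : E × E)‖ ≤ |C| + |K| := by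
      have e1 := norm_sub_norm_le ((z'.fb, z'.c) : E × E) (S.p z.a z'.b z.b)
      linarith
    refine ⟨Or.inr ⟨_, hq, by rw [ha]⟩, ?_, ?_, ?_⟩
    · have e1 : z'.fa = (z'.fa - z.fa - S.D z.a z.b z'.b) + (z.fa + S.D z.a z.b z'.b) := by abel
      rw [e1]
      refine (norm_add_le _ _).trans ?_
      have := norm_add_le z.fa (S.D z.a z.b z'.b)
      linarith
    · have := norm_fst_le ((z'.fb, z'.c) : E × E)
      simp only at this
      linarith
    · have := norm_snd_le ((z'.fb, z'.c) : E × E)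
      simp only at this
      linarith

theorem reach (A : Act B G) (K : ℝ) (n : ℕ) : ∀ (D₀ : Set (V × V)) (_ : D₀.Finite) (R₀ : ℝ),
    ∃ (D₁ : Set (V × V)) (R₁ : ℝ), D₁.Finite ∧ ∀ z z' : St V E, S.Adm z → (z.a, z.b) ∈ D₀ →
      z.Bd R₀ → NearN S K n z z' → (z'.a, z'.b) ∈ D₁ ∧ z'.Bd R₁ := by
  induction n with
  | zero =>
    intro D₀ hD₀ R₀
    refine ⟨D₀, R₀, hD₀, ?_⟩
    intro z z' _ h1 h2 hn
    cases hn with
    | refl => exact ⟨h1, h2⟩
  | succ n ih =>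
    intro D₀ hD₀ R₀
    obtain ⟨D₁, R₁, hD₁, h1⟩ := A.reach_one K D₀ hD₀ R₀
    obtain ⟨D₂, R₂, hD₂, h2⟩ := ih D₁ hD₁ R₁
    refine ⟨D₂, R₂, hD₂, ?_⟩
    intro z z' hz q1 q2 hn
    cases hn with
    | step hb hn' =>
      obtain ⟨q3, q4⟩ := h1 _ _ hz q1 q2 hb
      exact h2 _ _ (hb.adm hz) q3 q4 hn'

theorem finite_dart (A : Act B G) {o : St V E} (ho : S.Adm o) (e : V × V) (R : ℝ) :
    {g : G | ((A.sm g o).a, (A.sm g o).b) = e ∧ (A.sm g o).Bd R}.Finite := by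
  rcases Set.eq_empty_or_nonempty {g : G | ((A.sm g o).a, (A.sm g o).b) = e ∧ (A.sm g o).Bd R}
    with he | ⟨g₀, hg₀⟩
  · rw [he]; exact Set.finite_empty
  set R' := 2 * R + 2 * (‖o.fa‖ + ‖o.fb‖ + ‖o.c‖) with hR'
  have hfin := A.proper R' o.a o.b ho
  refine Set.Finite.of_injOn (f := fun g => g₀⁻¹ * g) ?_ (fun x _ y _ h => mul_left_cancel h) hfin
  intro g hg
  obtain ⟨h1, h2, h3, h4⟩ := hg
  obtain ⟨k1, k2, k3, k4⟩ := hg₀
  have e1 : g • o.a = g₀ • o.a := congrArg Prod.fst (h1.trans k1.symm)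
  have e2 : g • o.b = g₀ • o.b := congrArg Prod.snd (h1.trans k1.symm)
  have f1 : (g₀⁻¹ * g) • o.a = o.a := by rw [mul_smul, e1, inv_smul_smul]
  have f2 : (g₀⁻¹ * g) • o.b = o.b := by rw [mul_smul, e2, inv_smul_smul]
  have g1 : A.θf g o.a o.b = A.θf g₀ o.a o.b + A.θf (g₀⁻¹ * g) o.a o.b := by
    have := A.θf_mul g₀ (g₀⁻¹ * g) o.a o.b ho
    rwa [mul_inv_cancel_left, f1, f2] at this
  have g2 : A.θf g o.b o.a = A.θf g₀ o.b o.a + A.θf (g₀⁻¹ * g) o.b o.a := by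
    have := A.θf_mul g₀ (g₀⁻¹ * g) o.b o.a ho.symm
    rwa [mul_inv_cancel_left, f1, f2] at this
  have g3 : A.θc g o.a o.b = A.θc g₀ o.a o.b + A.θc (g₀⁻¹ * g) o.a o.b := by
    have := A.θc_mul g₀ (g₀⁻¹ * g) o.a o.b ho
    rwa [mul_inv_cancel_left, f1, f2] at this
  have n1 := norm_nonneg o.fa
  have n2 := norm_nonneg o.fb
  have n3 := norm_nonneg o.c
  have aux : ∀ (x t t₀ th : E), ‖x + t‖ ≤ R → ‖x + t₀‖ ≤ R → t = t₀ + th → ‖th‖ ≤ 2 * R := by
    intro x t t₀ th q1 q2 q3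
    have : th = (x + t) - (x + t₀) := by rw [q3]; abel
    rw [this]
    refine (norm_sub_le _ _).trans ?_
    linarith
  refine ⟨f1, f2, ?_, ?_, ?_⟩
  · exact (aux _ _ _ _ h2 k2 g1).trans (by linarith)
  · exact (aux _ _ _ _ h3 k3 g2).trans (by linarith)
  · exact (aux _ _ _ _ h4 k4 g3).trans (by linarith)

/-- properness -/
theorem proper_near (A : Act B G) {o : St V E} (ho : S.Adm o) (K : ℝ) :
    {g : G | Near S K o (A.sm g o)}.Finite := by
  obtain ⟨N, hN⟩ := exists_nat_ge K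
  have h1 : {g : G | Near S K o (A.sm g o)} ⊆ ⋃ n ∈ Finset.range (N + 1),
      {g : G | NearN S K n o (A.sm g o)} := by
    rintro g ⟨n, hn, hg⟩
    simp only [Set.mem_iUnion]
    refine ⟨n, ?_, hg⟩
    rw [Finset.mem_range]
    have : (n : ℝ) ≤ N := hn.trans hN
    have : n ≤ N := by exact_mod_cast this
    omega
  refine Set.Finite.subset (Set.Finite.biUnion (Finset.finite_toSet _) fun n _ => ?_) h1
  obtain ⟨D₁, R₁, hD₁, h2⟩ := A.reach K n {(o.a, o.b)} (Set.finite_singleton _)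
    (‖o.fa‖ + ‖o.fb‖ + ‖o.c‖)
  have h3 : {g : G | NearN S K n o (A.sm g o)} ⊆ ⋃ e ∈ D₁,
      {g : G | ((A.sm g o).a, (A.sm g o).b) = e ∧ (A.sm g o).Bd R₁} := by
    intro g hg
    have n1 := norm_nonneg o.fa
    have n2 := norm_nonneg o.fb
    have n3 := norm_nonneg o.c
    obtain ⟨q1, q2⟩ := h2 o (A.sm g o) ho rfl ⟨by linarith, by linarith, by linarith⟩ hg
    simp only [Set.mem_iUnion]
    exact ⟨_, q1, rfl, q2⟩
  exact Set.Finite.subset (hD₁.biUnion fun e _ => A.finite_dart ho e R₁) h3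

end Act

/-! ### Connectedness -/

theorem conn_vertex {S : Sys V E} (hS : S.Good) {z z' : St V E} (hz : S.Adm z) (hz' : S.Adm z')
    (h : z.a = z'.a) : ∃ K, Near S K z z' := by
  by_cases hb : z.b = z'.b
  · refine ⟨max 1 (‖z.fa - z'.fa‖ + ‖z.fb - z'.fb‖ + ‖z.c - z'.c‖),
      Near.of_nb (le_max_left _ _) (Nb.same h hb ?_ ?_ ?_)⟩ <;>
    · refine le_trans ?_ (le_max_right _ _)
      linarith [norm_nonneg (z.fa - z'.fa), norm_nonneg (z.fb - z'.fb), norm_nonneg (z.c - z'.c)]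
  · set z₁ : St V E := ⟨z.a, z.b, z.fa, (S.p z.a z.b z'.b).1, (S.p z.a z.b z'.b).2⟩ with hz₁
    set z₂ : St V E := ⟨z.a, z'.b, z.fa + S.D z.a z.b z'.b, (S.p z.a z'.b z.b).1,
      (S.p z.a z'.b z.b).2⟩ with hz₂
    have n1 : ∃ K, Near S K z z₁ := by
      refine ⟨max 1 (‖z.fa - z₁.fa‖ + ‖z.fb - z₁.fb‖ + ‖z.c - z₁.c‖),
        Near.of_nb (le_max_left _ _) (Nb.same rfl rfl ?_ ?_ ?_)⟩ <;>
      · refine le_trans ?_ (le_max_right _ _)
        linarith [norm_nonneg (z.fa - z₁.fa), norm_nonneg (z.fb - z₁.fb),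
          norm_nonneg (z.c - z₁.c)]
    have n3 : ∃ K, Near S K z₂ z' := by
      refine ⟨max 1 (‖z₂.fa - z'.fa‖ + ‖z₂.fb - z'.fb‖ + ‖z₂.c - z'.c‖),
        Near.of_nb (le_max_left _ _) (Nb.same h rfl ?_ ?_ ?_)⟩ <;>
      · refine le_trans ?_ (le_max_right _ _)
        linarith [norm_nonneg (z₂.fa - z'.fa), norm_nonneg (z₂.fb - z'.fb),
          norm_nonneg (z₂.c - z'.c)]
    have n2 : Near S (max 1 (S.s z.a z.b z'.b)) z₁ z₂ := by
      have h0 : (0 : ℝ) ≤ max 1 (S.s z.a z.b z'.b) := le_trans zero_le_one (le_max_left _ _)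
      refine Near.of_nb (le_max_left _ _) (Nb.cross rfl hz ?_ hb (le_max_right _ _) ?_ ?_ ?_)
      · change S.G.Adj z.a z'.b
        rw [h]; exact hz'
      · simp only [hz₁, hz₂, Prod.mk.eta, sub_self, norm_zero]; exact h0
      · simp only [hz₁, hz₂, Prod.mk.eta, sub_self, norm_zero]; exact h0
      · simp only [hz₁, hz₂, add_sub_cancel_left, sub_self, norm_zero]; exact h0
    obtain ⟨K1, n1⟩ := n1
    obtain ⟨K3, n3⟩ := n3
    exact ⟨_, (n1.trans n2).trans n3⟩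

theorem conn_all {S : Sys V E} (hS : S.Good) (hT : S.G.IsTree) {z z' : St V E} (hz : S.Adm z)
    (hz' : S.Adm z') : ∃ K, Near S K z z' := by
  have key : ∀ (v w : V) (q : S.G.Walk v w) (z z' : St V E), S.Adm z → S.Adm z' → z.a = v →
      z'.a = w → ∃ K, Near S K z z' := by
    intro v w q
    induction q with
    | nil =>
      intro z z' hz hz' h h'
      exact conn_vertex hS hz hz' (h.trans h'.symm)
    | @cons v u w hadj q ih =>
      intro z z' hz hz' h h'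
      obtain ⟨K1, h1⟩ := conn_vertex hS (z' := (⟨v, u, 0, 0, 0⟩ : St V E)) hz hadj h
      obtain ⟨K2, h2⟩ := ih (⟨u, v, 0, 0, 0⟩ : St V E) z' hadj.symm hz' rfl h'
      exact ⟨_, (h1.trans (Near.of_nb le_rfl (Nb.rev _))).trans h2⟩
  obtain ⟨q⟩ := hT.1.preconnected z.a z'.a
  exact key _ _ q z z' hz hz' rfl rfl

namespace Act

variable {S : Sys V E} {B : Sub S} {G : Type*} [Group G] [MulAction G V]

/-- coboundedness -/
theorem cobdd_near (A : Act B G) (hS : S.Good) (hT : S.G.IsTree) {o : St V E} (ho : S.Adm o) :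
    ∃ K, ∀ z : St V E, B.Valid z → ∃ g : G, Near S K z (A.sm g o) := by
  classical
  obtain ⟨R, hR⟩ := A.cobdd
  obtain ⟨F, hF⟩ := A.orbits
  have h1 : ∀ e : V × V, ∃ K : ℝ, S.G.Adj e.1 e.2 → Near S K (⟨e.1, e.2, 0, 0, 0⟩ : St V E) o := by
    intro e
    by_cases he : S.G.Adj e.1 e.2
    · obtain ⟨K, hK⟩ := conn_all hS hT (z := (⟨e.1, e.2, 0, 0, 0⟩ : St V E)) he ho
      exact ⟨K, fun _ => hK⟩
    · exact ⟨0, fun h => absurd h he⟩
  choose C hC using h1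
  refine ⟨max R 1 + ∑ e ∈ F, |C e|, ?_⟩
  intro z hz
  obtain ⟨g, e, heF, hadj, ha, hb⟩ := hF z.a z.b hz.adj
  have hv := A.sm_valid g⁻¹ hz
  have ea : (A.sm g⁻¹ z).a = e.1 := by
    change g⁻¹ • z.a = e.1
    rw [ha, inv_smul_smul]
  have eb : (A.sm g⁻¹ z).b = e.2 := by
    change g⁻¹ • z.b = e.2
    rw [hb, inv_smul_smul]
  have hfa := hv.fa
  have hfb := hv.fb
  have hc := hv.c
  rw [ea] at hfa
  rw [eb] at hfb
  rw [ea, eb] at hc
  obtain ⟨h, k1, k2, k3, k4, k5⟩ := hR e.1 e.2 hadj _ hfa _ hfb _ hc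
  have n1 : Near S (max R 1) (A.sm g⁻¹ z) (A.sm h (⟨e.1, e.2, 0, 0, 0⟩ : St V E)) := by
    refine Near.of_nb (le_max_right _ _) (Nb.same ?_ ?_ ?_ ?_ ?_)
    · change _ = h • e.1
      rw [ea, k1]
    · change _ = h • e.2
      rw [eb, k2]
    · change ‖_ - (0 + A.θf h e.1 e.2)‖ ≤ _
      rw [zero_add]; exact k3.trans (le_max_left _ _)
    · change ‖_ - (0 + A.θf h e.2 e.1)‖ ≤ _
      rw [zero_add]; exact k4.trans (le_max_left _ _)
    · change ‖_ - (0 + A.θc h e.1 e.2)‖ ≤ _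
      rw [zero_add]; exact k5.trans (le_max_left _ _)
  have n2 : Near S (C e) (A.sm h (⟨e.1, e.2, 0, 0, 0⟩ : St V E)) (A.sm h o) :=
    A.sm_near h hadj (hC e hadj)
  have n3 := A.sm_near g (A.sm_adm g⁻¹ hz.adj) (n1.trans n2)
  rw [← A.sm_mul g g⁻¹ hz.adj, mul_inv_cancel, A.sm_one hz.adj, ← A.sm_mul g h ho] at n3
  refine ⟨g * h, n3.mono ?_⟩
  gcongr
  refine (le_abs_self _).trans ?_
  exact Finset.single_le_sum (f := fun e => |C e|) (fun _ _ => abs_nonneg _) heF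

/-- Main theorem for group actions. -/
theorem semihyperbolic (A : Act B G) (hS : S.Good) (hT : S.G.IsTree) {o : St V E}
    (ho : B.Valid o) : Semihyperbolic G := by
  classical
  let X := {z : St V E // B.Valid z}
  let act : MulAction G X :=
    { smul := fun g x => ⟨A.sm g x.1, A.sm_valid g x.2⟩
      one_smul := fun x => Subtype.ext (A.sm_one x.2.adj)
      mul_smul := fun g h x => Subtype.ext (A.sm_mul g h x.2.adj) }
  obtain ⟨M, K, hM, hK, hex⟩ := hS.existsTPs hT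
  have hσ : ∀ (x y : X) (t : ℝ), ∃ z : X, 0 ≤ t → S.TPs x.1 y.1 M K t z.1 := by
    intro x y t
    by_cases ht : 0 ≤ t
    · obtain ⟨z, hz⟩ := hex x.1 y.1 x.2.adj y.2.adj t ht
      exact ⟨⟨z, hz.valid x.2 y.2⟩, fun _ => hz⟩
    · exact ⟨x, fun h => absurd h ht⟩
  choose σ hσ using hσ
  have hTv : ∀ (x y : X), ∃ τ, S.Tvs x.1 y.1 τ := fun x y => S.exists_Tvs hT x.2.adj y.2.adj
  choose T hTv using hTv
  have P : PathSys G X (fun K x y => Near S K x.1 y.1) ⟨o, ho⟩ T σ :=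
    { mono := fun K K' x y h h' => h'.mono h
      refl := fun x => Near.refl S le_rfl _
      symm := fun K x y h => h.symm hS
      trans := fun K K' x y z h h' => h.trans h'
      inv := fun K g x y h => A.sm_near g x.2.adj h
      proper := fun K => A.proper_near ho.adj K
      cobdd := by
        obtain ⟨K', h⟩ := A.cobdd_near hS hT ho.adj
        exact ⟨K', fun x => h x.1 x.2⟩
      start := by
        obtain ⟨K', h⟩ := hS.startS hT M K hM hK
        exact ⟨K', fun x y => h _ _ _ (hσ x y 0 le_rfl)⟩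
      fin := by
        obtain ⟨K', h⟩ := hS.finS hT M K hM hK
        exact ⟨K', fun x y t ht htT => h _ _ _ _ _ (hTv x y) htT (hσ x y t ht)⟩
      step := by
        obtain ⟨K', h⟩ := hS.stepS hT M K hM hK
        refine ⟨K', fun x y t t' ht htt' htt => h _ _ _ _ _ _ ?_ (hσ x y t ht)
          (hσ x y t' (ht.trans htt'))⟩
        rw [abs_le]; constructor <;> linarith
      prog := by
        obtain ⟨K', h⟩ := hS.progS hT M K hM hK
        exact ⟨K', fun x y t ht htT => h _ _ _ _ _ _ (hTv x y) htT (hσ x y t ht)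
          (hTv x (σ x y t))⟩
      T_lip := by
        intro R
        obtain ⟨K', _, h⟩ := hS.nearEnd hT M K hM hK hex R
        exact ⟨K', fun x y y' hyy => (h _ _ _ x.2.adj y.2.adj hyy).2 _ _ (hTv x y) (hTv x y')⟩
      cmpR := by
        intro R
        obtain ⟨K', _, h⟩ := hS.nearEnd hT M K hM hK hex R
        exact ⟨K', fun x y y' t ht hyy => (h _ _ _ x.2.adj y.2.adj hyy).1 t _ _ ht
          (hσ x y t ht) (hσ x y' t ht)⟩
      cmpL := by
        intro R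
        obtain ⟨K', _, h⟩ := hS.nearStart hT M K hM hK hex R
        exact ⟨K', fun x x' y t ht hxx => h _ _ _ x.2.adj y.2.adj hxx t _ _ ht
          (hσ x y t ht) (hσ x' y t ht)⟩
      equi := by
        obtain ⟨K', _, h⟩ := hS.uniqueS hT M hM K hK
        exact ⟨K', fun g x y t ht => h _ _ t _ _
          (A.sm_TPs g x.2.adj y.2.adj (hσ x y t ht)) (hσ (g • x) (g • y) t ht)⟩ }
  exact P.semihyperbolic

end Act

end Pool.Agent.H81.HDG
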