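import Mathlib
import Pool.Agent.H81.HDG.Defs

/-!
# Chains of horoballs along geodesics of hyperbolic space (module CHAIN of MP_77db41_gt)
-/

set_option autoImplicit false

namespace Pool.Agent.H81.HDG

namespace Chain

variable {m : ℕ}

theorem lor_add_left (a b c : Mink m) : lor (a + b) c = lor a c + lor b c := by
  simp only [lor, Prod.fst_add, Prod.snd_add, inner_add_left]; ring

theorem lor_add_right (a b c : Mink m) : lor a (b + c) = lor a b + lor a c := by
  simp only [lor, Prod.fst_add, Prod.snd_add, inner_add_right]; ring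

theorem lor_smul_left (r : ℝ) (a b : Mink m) : lor (r • a) b = r * lor a b := by
  simp only [lor, Prod.smul_fst, Prod.smul_snd, inner_smul_left, smul_eq_mul]
  simp; ring

theorem lor_smul_right (r : ℝ) (a b : Mink m) : lor a (r • b) = r * lor a b := by
  simp only [lor, Prod.smul_fst, Prod.smul_snd, inner_smul_right, smul_eq_mul]; ring

theorem lor_symm (a b : Mink m) : lor a b = lor b a := by
  simp only [lor, real_inner_comm]; ring

theorem lor_self (a : Mink m) : lor a a = ‖a.1‖ ^ 2 - a.2 ^ 2 := by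
  simp only [lor, real_inner_self_eq_norm_sq]; ring

/-- A light-like vector has negative product with every point of hyperbolic space. -/
theorem lor_hyp_light_neg {p u : Mink m} (hp : IsHyp p) (hu : IsLight u) : lor p u < 0 := by
  obtain ⟨hp1, hp2⟩ := hp
  obtain ⟨hu1, hu2⟩ := hu
  rw [lor_self] at hp1 hu1
  have h1 : ‖u.1‖ = u.2 := by
    have : ‖u.1‖ ^ 2 = u.2 ^ 2 := by linarith
    exact (pow_left_inj₀ (norm_nonneg _) hu2.le two_ne_zero).1 this
  have h2 : ‖p.1‖ < p.2 := by
    apply lt_of_pow_lt_pow_left₀ 2 hp2.le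
    linarith
  have h3 := real_inner_le_norm p.1 u.1
  rw [h1] at h3
  simp only [lor]
  nlinarith

/-- The orthogonal complement of a point of hyperbolic space is positive. -/
theorem lor_orth_nonneg {p w : Mink m} (hp : IsHyp p) (hw : lor p w = 0) : 0 ≤ lor w w := by
  obtain ⟨hp1, hp2⟩ := hp
  rw [lor_self] at hp1 ⊢
  have h1 : inner ℝ p.1 w.1 = p.2 * w.2 := by
    simp only [lor] at hw; linarith
  have h2 := abs_real_inner_le_norm p.1 w.1
  have h3 : (p.2 * w.2) ^ 2 ≤ (‖p.1‖ * ‖w.1‖) ^ 2 := by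
    rw [← h1, ← sq_abs]
    exact pow_le_pow_left₀ (abs_nonneg _) h2 2
  have h4 : p.2 ^ 2 * w.2 ^ 2 ≤ (p.2 ^ 2 - 1) * ‖w.1‖ ^ 2 := by
    have : ‖p.1‖ ^ 2 = p.2 ^ 2 - 1 := by linarith
    rw [← this]
    nlinarith
  have h5 : 0 < p.2 ^ 2 := by positivity
  have h6 : p.2 ^ 2 * w.2 ^ 2 ≤ p.2 ^ 2 * ‖w.1‖ ^ 2 := by nlinarith [sq_nonneg ‖w.1‖]
  have h7 := le_of_mul_le_mul_left h6 h5
  linarith

/-- Two light-like vectors close to a point of hyperbolic space are close to each other. -/
theorem lor_light_light_le {p u v : Mink m} (hp : IsHyp p) (hu : IsLight u) (hv : IsLight v) :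
    - lor u v ≤ 2 * ((- lor p u) * (- lor p v)) := by
  have hr : 0 < - lor p u := by linarith [lor_hyp_light_neg hp hu]
  have hs : 0 < - lor p v := by linarith [lor_hyp_light_neg hp hv]
  set r := - lor p u with hrdef
  set s := - lor p v with hsdef
  have hw0 : lor p (s • u + r • v + (-(2 * r * s)) • p) = 0 := by
    simp only [lor_add_right, lor_smul_right, hp.1]
    have h1 : lor p u = -r := by rw [hrdef]; ring
    have h2 : lor p v = -s := by rw [hsdef]; ring
    rw [h1, h2]; ring
  have h := lor_orth_nonneg hp hw0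
  simp only [lor_add_right, lor_smul_right, lor_add_left, lor_smul_left, hp.1, hu.1, hv.1,
    lor_symm u p, lor_symm v p, lor_symm v u] at h
  have h1 : lor p u = -r := by rw [hrdef]; ring
  have h2 : lor p v = -s := by rw [hsdef]; ring
  rw [h1, h2] at h
  have h3 : 0 ≤ 2 * (r * s) * (lor u v + 2 * (r * s)) := by nlinarith
  have h4 : 0 < 2 * (r * s) := by positivity
  have h5 := (mul_nonneg_iff_of_pos_left h4).1 h3
  linarith

end Chain

open Chain

/-- Two horoballs are joined by a chain of horoballs close to the geodesic between them. -/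
theorem hyp_chain.{u} (m : ℕ) (R : ℝ) :
    ∃ δ M : ℝ, 0 < δ ∧ 0 < M ∧ ∀ (X : Type u) (N : Set X) (u : X → Mink m),
      (∀ a ∈ N, IsLight (u a)) →
      (∀ a ∈ N, ∀ b ∈ N, a ≠ b → lor (u a) (u b) ≤ -2) →
      (∀ p : Mink m, IsHyp p → ∃ a ∈ N, - lor p (u a) ≤ R) →
      ∀ a ∈ N, ∀ b ∈ N, a ≠ b →
        Relation.ReflTransGen (fun x y => x ≠ y ∧
          (x ∈ N ∧ (x = a ∨ x = b ∨
            δ ^ 2 * (lor (u x) (u a) * lor (u x) (u b)) ≤ - lor (u a) (u b))) ∧
          (y ∈ N ∧ (y = a ∨ y = b ∨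
            δ ^ 2 * (lor (u y) (u a) * lor (u y) (u b)) ≤ - lor (u a) (u b))) ∧
          - lor (u x) (u y) ≤ M) a b := by
  set R' : ℝ := max R 1 with hR'
  have hR1 : 1 ≤ R' := le_max_right _ _
  have hR0 : 0 < R' := by linarith
  refine ⟨1 / R', 2 * (R' * (Real.exp 1 * R')), by positivity, by positivity, ?_⟩
  intro X N u hlight hsep hcov a ha b hb hab
  set s : ℝ := - lor (u a) (u b) with hs
  have hs2 : 2 ≤ s := by linarith [hsep a ha b hb hab]
  have hs0 : 0 < s := by linarith
  have hnn : ∀ x ∈ N, ∀ y ∈ N, 0 ≤ - lor (u x) (u y) := by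
    intro x hx y hy
    by_cases hxy : x = y
    · rw [hxy, (hlight y hy).1]; simp
    · linarith [hsep x hx y hy hxy]
  set p : ℝ → Mink m := fun t => (Real.exp (-t) / 2) • u a + (Real.exp t / s) • u b with hp
  have hpu : ∀ t x, - lor (p t) (u x) = (Real.exp (-t) / 2) * (- lor (u x) (u a)) +
      (Real.exp t / s) * (- lor (u x) (u b)) := by
    intro t x
    simp only [hp, lor_add_left, lor_smul_left, lor_symm (u a) (u x), lor_symm (u b) (u x)]
    ring
  have hee : ∀ t : ℝ, Real.exp (-t) * Real.exp t = 1 := by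
    intro t
    rw [← Real.exp_add]; simp
  have hphyp : ∀ t, IsHyp (p t) := by
    intro t
    constructor
    · simp only [hp, lor_add_left, lor_smul_left, lor_add_right, lor_smul_right, (hlight a ha).1,
        (hlight b hb).1, lor_symm (u b) (u a)]
      have h1 : lor (u a) (u b) = -s := by rw [hs]; ring
      rw [h1]
      have h2 := hee t
      have h3 : (Real.exp t / s) * s = Real.exp t := by field_simp
      linear_combination (-Real.exp (-t)) * h3 - h2
    · have h1 := (hlight a ha).2
      have h2 := (hlight b hb).2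
      have h3 := Real.exp_pos (-t)
      have h4 := Real.exp_pos t
      simp only [hp, Prod.snd_add, Prod.smul_snd, smul_eq_mul]
      positivity
  set At : ℝ → X → Prop := fun t x => x ∈ N ∧ - lor (p t) (u x) ≤ R' with hAt
  have hex : ∀ t, ∃ x, At t x := by
    intro t
    obtain ⟨x, hx, hx2⟩ := hcov (p t) (hphyp t)
    exact ⟨x, hx, le_trans hx2 (le_max_left _ _)⟩
  have hgood : ∀ t x, At t x → x = a ∨ x = b ∨
      (1 / R') ^ 2 * (lor (u x) (u a) * lor (u x) (u b)) ≤ s := by
    intro t x ⟨hx, hx2⟩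
    refine Or.inr (Or.inr ?_)
    rw [hpu] at hx2
    have hA := hnn x hx a ha
    have hB := hnn x hx b hb
    set A := - lor (u x) (u a) with hAdef
    set B := - lor (u x) (u b) with hBdef
    have h1 : lor (u x) (u a) * lor (u x) (u b) = A * B := by
      rw [hAdef, hBdef]; ring
    rw [h1]
    have h3 := Real.exp_pos (-t)
    have h4 := Real.exp_pos t
    have h5 : 4 * ((Real.exp (-t) / 2 * A) * (Real.exp t / s * B)) ≤ R' ^ 2 := by
      have h6 : 0 ≤ Real.exp (-t) / 2 * A := by positivity
      have h7 : 0 ≤ Real.exp t / s * B := by positivity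
      nlinarith [sq_nonneg (Real.exp (-t) / 2 * A - Real.exp t / s * B)]
    have h8 : 4 * ((Real.exp (-t) / 2 * A) * (Real.exp t / s * B)) = 2 * (A * B) / s := by
      have h9 : 4 * ((Real.exp (-t) / 2 * A) * (Real.exp t / s * B)) =
          2 * (A * B) / s * (Real.exp (-t) * Real.exp t) := by ring
      rw [h9, hee t, mul_one]
    rw [h8, div_le_iff₀ hs0] at h5
    rw [one_div, inv_pow, inv_mul_le_iff₀ (by positivity)]
    have h9 : 0 ≤ A * B := by positivity
    linarith
  have hstep : ∀ t t' x y, t ≤ t' → t' ≤ t + 1 → At t x → At t' y → x ≠ y →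
      (x ≠ y ∧
          (x ∈ N ∧ (x = a ∨ x = b ∨
            (1 / R') ^ 2 * (lor (u x) (u a) * lor (u x) (u b)) ≤ s)) ∧
          (y ∈ N ∧ (y = a ∨ y = b ∨
            (1 / R') ^ 2 * (lor (u y) (u a) * lor (u y) (u b)) ≤ s)) ∧
          - lor (u x) (u y) ≤ 2 * (R' * (Real.exp 1 * R'))) := by
    intro t t' x y h1 h2 hx hy hxy
    refine ⟨hxy, ⟨hx.1, hgood t x hx⟩, ⟨hy.1, hgood t' y hy⟩, ?_⟩
    have h3 := lor_light_light_le (hphyp t) (hlight x hx.1) (hlight y hy.1)
    have h4 : - lor (p t) (u y) ≤ Real.exp 1 * R' := by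
      have h5 := hy.2
      rw [hpu] at h5 ⊢
      have hA := hnn y hy.1 a ha
      have hB := hnn y hy.1 b hb
      have h6 : Real.exp (-t) ≤ Real.exp 1 * Real.exp (-t') := by
        rw [← Real.exp_add]; exact Real.exp_le_exp.2 (by linarith)
      have h7 : Real.exp t ≤ Real.exp 1 * Real.exp t' := by
        rw [← Real.exp_add]; exact Real.exp_le_exp.2 (by linarith)
      calc Real.exp (-t) / 2 * (- lor (u y) (u a)) + Real.exp t / s * (- lor (u y) (u b))
          ≤ (Real.exp 1 * Real.exp (-t')) / 2 * (- lor (u y) (u a)) +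
            (Real.exp 1 * Real.exp t') / s * (- lor (u y) (u b)) := by gcongr
        _ = Real.exp 1 * (Real.exp (-t') / 2 * (- lor (u y) (u a)) +
            Real.exp t' / s * (- lor (u y) (u b))) := by ring
        _ ≤ Real.exp 1 * R' := by
            have := Real.exp_pos 1
            gcongr
    have h8 : 0 < - lor (p t) (u x) := by linarith [lor_hyp_light_neg (hphyp t) (hlight x hx.1)]
    have h9 : 0 < - lor (p t) (u y) := by linarith [lor_hyp_light_neg (hphyp t) (hlight y hy.1)]
    calc - lor (u x) (u y) ≤ 2 * (- lor (p t) (u x) * - lor (p t) (u y)) := h3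
      _ ≤ 2 * (R' * (Real.exp 1 * R')) := by
          have := hx.2
          gcongr
  have h0a : At 0 a := by
    refine ⟨ha, ?_⟩
    rw [hpu, (hlight a ha).1, ← hs, Real.exp_zero]
    have : 1 / s * s = 1 := by field_simp
    rw [this]
    simpa using hR1
  have key : ∀ k : ℕ, ∀ t : ℝ, 0 ≤ t → t ≤ k → ∀ x, At t x →
      Relation.ReflTransGen (fun x y => x ≠ y ∧
          (x ∈ N ∧ (x = a ∨ x = b ∨
            (1 / R') ^ 2 * (lor (u x) (u a) * lor (u x) (u b)) ≤ s)) ∧
          (y ∈ N ∧ (y = a ∨ y = b ∨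
            (1 / R') ^ 2 * (lor (u y) (u a) * lor (u y) (u b)) ≤ s)) ∧
          - lor (u x) (u y) ≤ 2 * (R' * (Real.exp 1 * R'))) a x := by
    intro k
    induction k with
    | zero =>
      intro t h0 h1 x hx
      have ht : t = 0 := le_antisymm (by simpa using h1) h0
      rw [ht] at hx
      by_cases hax : a = x
      · rw [hax]
      · exact Relation.ReflTransGen.single (hstep 0 0 a x (le_refl _) (by linarith) h0a hx hax)
    | succ k ih =>
      intro t h0 h1 x hx
      push_cast at h1
      obtain ⟨y, hy⟩ := hex (max (t - 1) 0)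
      have h2 := ih (max (t - 1) 0) (le_max_right _ _)
        (max_le (by linarith) (Nat.cast_nonneg _)) y hy
      by_cases hyx : y = x
      · rw [← hyx]; exact h2
      · exact h2.tail (hstep (max (t - 1) 0) t y x (max_le (by linarith) h0)
          (by linarith [le_max_left (t - 1) 0]) hy hx hyx)
  obtain ⟨k, hk⟩ := exists_nat_ge (Real.log (s / 2))
  refine key k (Real.log (s / 2)) (Real.log_nonneg (by linarith)) hk b ⟨hb, ?_⟩
  rw [hpu, (hlight b hb).1, lor_symm (u b) (u a), ← hs, Real.exp_neg,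
    Real.exp_log (by linarith)]
  have : (s / 2)⁻¹ / 2 * s = 1 := by field_simp
  rw [this]
  simpa using hR1

end Pool.Agent.H81.HDG
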