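import Mathlib
import Pool.Agent.H81.HDG.Defs

/-!
# Internal structures for irreducible higher dimensional graph manifold groups

The statement of the theorem uses the structures of `Model.lean`; the ones here are derived from
them in `Convert.lean`.

An HDG manifold `M` of dimension `n` is obtained from pieces `V = N' x T^k` by gluing boundary
components in pairs, where `N'` is a complete non-compact hyperbolic manifold of finite volume and
dimension `m = n - k ≥ 3` with toric cusps, minus open horospherical neighbourhoods of the cusps.

The universal cover of a piece is `(H^m minus disjoint open horoballs) x ℝ^k`, with fundamental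
group `Λ x ℤ^k`, where `Λ` is the group of deck transformations of the hyperbolic manifold. The
universal cover of `M` is a tree of copies of such spaces, glued along boundary components, and the
fundamental group of `M` acts on this tree (Bass-Serre theory). This action is recorded below.
-/

set_option autoImplicit false

namespace Pool.Agent.H81.HDG

/-- The group theoretic data of a piece `V = N' x T^k` of dimension `n`.

`S` is the fundamental group of the piece; it is the product of the deck group `ρ S`, acting
on hyperbolic `m`-space, and of the fundamental group `ℤ^k` of the fibre (the homomorphism `τ` is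
the projection to `ℤ^k`). `N` is the set of boundary components of the universal cover of the
piece; `S` acts on it, and `{p | -⟨p, u w⟩ < 1}` is the open horoball of hyperbolic `m`-space
bounded by the component `w`. -/
structure CuspedPiece (n : ℕ) (S X : Type*) [Group S] [MulAction S X] (N : Set X) where
  /-- the dimension of the hyperbolic factor -/
  m : ℕ
  /-- the dimension of the fibre torus -/
  k : ℕ
  three_le : 3 ≤ m
  dim : m + k = n
  /-- the action on hyperbolic `m`-space by isometries -/
  ρ : S →* (Mink m ≃ₗ[ℝ] Mink m)
  lor_ρ : ∀ g x y, lor (ρ g x) (ρ g y) = lor x y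
  hyp_ρ : ∀ g p, IsHyp p → IsHyp (ρ g p)
  /-- the projection to the fundamental group of the fibre -/
  τ : S →* Multiplicative (Fin k → ℤ)
  /-- `S` is the product of its image under `ρ` and of `ℤ^k` -/
  prod : ∀ (g : S) (z : Multiplicative (Fin k → ℤ)), ∃! h : S, ρ h = ρ g ∧ τ h = z
  /-- the action on hyperbolic space is properly discontinuous: finitely many elements of the
  deck group move the base point `(0, 1)` by at most a given distance (the hyperbolic cosine of the
  distance from `(0, 1)` to `p` is `p.2`) -/
  proper : ∀ R : ℝ, {A : Mink m ≃ₗ[ℝ] Mink m | A ∈ Set.range ρ ∧ (A (0, 1)).2 ≤ R}.Finite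
  /-- the deck group acts freely -/
  free : ∀ g p, IsHyp p → ρ g p = p → ρ g = 1
  /-- the horoballs -/
  u : X → Mink m
  light : ∀ w ∈ N, IsLight (u w)
  smul_mem : ∀ (g : S), ∀ w ∈ N, g • w ∈ N
  equiv : ∀ (g : S), ∀ w ∈ N, u (g • w) = ρ g (u w)
  /-- the open horoballs are disjoint (for future light-like vectors `u`, `u'` this means that
  `⟨u, u'⟩ ≤ -2`) -/
  disjoint : ∀ w ∈ N, ∀ w' ∈ N, w ≠ w' → lor (u w) (u w') ≤ -2
  /-- there is a cusp -/
  nonempty : N.Nonempty
  /-- the complement of the open horoballs has compact quotient -/
  cocompact : ∃ R : ℝ, ∀ p, IsHyp p → (∀ w ∈ N, 1 ≤ - lor p (u w)) → ∃ g, (ρ g p).2 ≤ R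
  /-- the cusps are toric: the stabilizer of a horoball acts on its horosphere by translations,
  that is, trivially on the orthogonal complement of `u w` modulo `u w` -/
  toric : ∀ w ∈ N, ∀ g : S, g • w = w → ∀ x, lor x (u w) = 0 → ∃ c : ℝ, ρ g x = x + c • u w

/-- `G` is the fundamental group of an irreducible higher dimensional graph manifold `M` of
dimension `n`, acting on the tree `T` dual to the decomposition of the universal cover of `M`.

The vertices of `T` are the lifts of the pieces (the vertices `v` with `piece v`) and the lifts of
the boundary components of `M` (leaves of the tree); the edges are the lifts of the boundary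
components of the pieces, those between two piece vertices being the lifts of the internal walls.
For a piece vertex `v` the stabilizer is the fundamental group of the piece, and the boundary
components of the universal cover of the piece are the edges at `v`, identified with the neighbours
of `v`; `fib v` is the fundamental group of the fibre. -/
structure IrreducibleHDG.{u, v} (n : ℕ) (G : Type u) [Group G] where
  /-- the vertices of the tree -/
  V : Type v
  [act : MulAction G V]
  /-- the tree -/
  T : SimpleGraph V
  tree : T.IsTree
  adj_smul : ∀ (g : G) (v w : V), T.Adj v w → T.Adj (g • v) (g • w)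
  /-- the group acts without inversions -/
  no_inversion : ∀ (g : G) (v w : V), T.Adj v w → g • v = w → g • w ≠ v
  /-- there are finitely many orbits of edges -/
  finite_edges : ∃ F : Finset (V × V), ∀ v w, T.Adj v w →
    ∃ (g : G), ∃ e ∈ F, v = g • e.1 ∧ w = g • e.2
  /-- the vertices given by the pieces -/
  piece : V → Prop
  piece_smul : ∀ (g : G) (v : V), piece v → piece (g • v)
  exists_piece : ∃ v, piece v
  /-- the other vertices are leaves attached to pieces -/
  leaf : ∀ v, ¬ piece v → ∃ w, piece w ∧ ∀ x, T.Adj v x ↔ x = w
  /-- the stabilizer of a piece vertex is the group of a piece -/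
  data : ∀ v, piece v → CuspedPiece n (MulAction.stabilizer G v) V (T.neighborSet v)
  /-- the fibre subgroups: `fib v` is the kernel of the action of the stabilizer of `v` on
  hyperbolic space -/
  fib : V → Subgroup G
  fib_conj : ∀ (g : G) (v : V), ∀ h ∈ fib v, g * h * g⁻¹ ∈ fib (g • v)
  fib_eq : ∀ (v : V) (hv : piece v) (g : G),
    g ∈ fib v ↔ ∃ hg : g ∈ MulAction.stabilizer G v, (data v hv).ρ ⟨g, hg⟩ = 1
  /-- irreducibility: the fibres of adjacent pieces are transverse -/
  transverse : ∀ v w, T.Adj v w → piece v → piece w → fib v ⊓ fib w = ⊥

end Pool.Agent.H81.HDG
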