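import Mathlib
import Pool.Agent.H81.HDG.Defs
import Pool.Agent.H81.HDG.Struct
import Pool.Agent.H81.HDG.HypChain

/-!
# Horospheres of a cusped piece (module HORO of MP_77db41_gt)
-/

set_option autoImplicit false

namespace Pool.Agent.H81.HDG

namespace Horo

open Chain

variable {m : ℕ}

theorem norm_fst_light {u : Mink m} (hu : IsLight u) : ‖u.1‖ = u.2 := by
  obtain ⟨hu1, hu2⟩ := hu
  rw [lor_self] at hu1
  have : ‖u.1‖ ^ 2 = u.2 ^ 2 := by linarith
  exact (pow_left_inj₀ (norm_nonneg _) hu2.le two_ne_zero).1 this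

theorem norm_fst_hyp {p : Mink m} (hp : IsHyp p) : ‖p.1‖ ≤ p.2 := by
  obtain ⟨hp1, hp2⟩ := hp
  rw [lor_self] at hp1
  apply le_of_lt
  apply lt_of_pow_lt_pow_left₀ 2 hp2.le
  linarith

theorem neg_lor_le {p u : Mink m} (hp : IsHyp p) (hu : IsLight u) :
    - lor p u ≤ 2 * (p.2 * u.2) := by
  have h1 := norm_fst_light hu
  have h2 := norm_fst_hyp hp
  have h3 := abs_real_inner_le_norm p.1 u.1
  have h4 := (abs_le.1 h3).1
  rw [h1] at h4
  have h5 : ‖p.1‖ * u.2 ≤ p.2 * u.2 := mul_le_mul_of_nonneg_right h2 hu.2.le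
  simp only [lor]
  linarith

theorem neg_lor_symm (a b : Mink m) : - lor a b = - lor b a := by rw [lor_symm]

/-- the component of the space part orthogonal to `u` -/
noncomputable def qE (u : Mink m) : Mink m →ₗ[ℝ] EuclideanSpace ℝ (Fin m) where
  toFun x := x.1 - (inner ℝ u.1 x.1 / ‖u.1‖ ^ 2) • u.1
  map_add' := by
    intro x y
    simp only [Prod.fst_add, inner_add_right, add_div, add_smul]
    abel
  map_smul' := by
    intro r x
    simp only [Prod.smul_fst, inner_smul_right, RingHom.id_apply, smul_sub, smul_smul,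
      mul_div_assoc]

theorem qE_apply (u x : Mink m) : qE u x = x.1 - (inner ℝ u.1 x.1 / ‖u.1‖ ^ 2) • u.1 := rfl

theorem norm_qE_sq {u : Mink m} (hu : IsLight u) (x : Mink m) :
    ‖qE u x‖ ^ 2 = ‖x.1‖ ^ 2 - (inner ℝ u.1 x.1) ^ 2 / u.2 ^ 2 := by
  have h1 := norm_fst_light hu
  have h2 : u.2 ≠ 0 := hu.2.ne'
  rw [qE_apply, norm_sub_sq_real, inner_smul_right, norm_smul, h1, real_inner_comm u.1 x.1,
    mul_pow, Real.norm_eq_abs, sq_abs]
  field_simp
  ring

theorem norm_qE_le {u : Mink m} (hu : IsLight u) (x : Mink m) : ‖qE u x‖ ≤ ‖x.1‖ := by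
  apply le_of_sq_le_sq _ (norm_nonneg _)
  rw [norm_qE_sq hu]
  have : 0 ≤ (inner ℝ u.1 x.1) ^ 2 / u.2 ^ 2 := by positivity
  linarith

theorem norm_qE_of_orth {u : Mink m} (hu : IsLight u) {x : Mink m} (hx : lor u x = 0) :
    ‖qE u x‖ ^ 2 = lor x x := by
  have h2 : u.2 ≠ 0 := hu.2.ne'
  rw [norm_qE_sq hu, lor_self]
  have h3 : inner ℝ u.1 x.1 = u.2 * x.2 := by
    simp only [lor] at hx; linarith
  rw [h3]
  field_simp

theorem eq_of_qE_eq_zero {u : Mink m} (hu : IsLight u) {x : Mink m} (hx : lor u x = 0)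
    (h : qE u x = 0) : x = (x.2 / u.2) • u := by
  have h1 := norm_fst_light hu
  have h2 : u.2 ≠ 0 := hu.2.ne'
  have h3 : inner ℝ u.1 x.1 = u.2 * x.2 := by
    simp only [lor] at hx; linarith
  rw [qE_apply, h3, h1, sub_eq_zero] at h
  refine Prod.ext ?_ ?_
  · rw [h, Prod.smul_fst]
    congr 1
    field_simp
  · simp only [Prod.smul_snd, smul_eq_mul]
    field_simp

theorem qE_self {u : Mink m} (hu : IsLight u) : qE u u = 0 := by
  have h1 := norm_fst_light hu
  have h2 : u.2 ≠ 0 := hu.2.ne'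
  rw [qE_apply, real_inner_self_eq_norm_sq, h1, div_self (pow_ne_zero 2 h2), one_smul, sub_self]

theorem qE_mem (u x : Mink m) (hu : IsLight u) : qE u x ∈ (Submodule.span ℝ {u.1})ᗮ := by
  rw [Submodule.mem_orthogonal_singleton_iff_inner_right]
  have h1 := norm_fst_light hu
  have h2 : u.2 ≠ 0 := hu.2.ne'
  rw [qE_apply, inner_sub_right, inner_smul_right, real_inner_self_eq_norm_sq, h1]
  field_simp
  ring

/-- The projection to the translation space of the horosphere. -/
noncomputable def qW (u : Mink m) (hu : IsLight u) :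
    Mink m →ₗ[ℝ] ((Submodule.span ℝ {u.1})ᗮ : Submodule ℝ (EuclideanSpace ℝ (Fin m))) :=
  (qE u).codRestrict _ fun x => qE_mem u x hu

theorem norm_qW {u : Mink m} (hu : IsLight u) (x : Mink m) : ‖qW u hu x‖ = ‖qE u x‖ := rfl

theorem qW_eq_zero {u : Mink m} (hu : IsLight u) (x : Mink m) :
    qW u hu x = 0 ↔ qE u x = 0 := by
  rw [← norm_eq_zero, norm_qW, norm_eq_zero]

/-- the base vector -/
noncomputable def base (u : Mink m) : Mink m := (0, 1 / u.2)

theorem lor_base {u : Mink m} (hu : IsLight u) : lor u (base u) = -1 := by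
  have h2 : u.2 ≠ 0 := hu.2.ne'
  simp only [lor, base, inner_zero_right]
  field_simp
  ring

theorem qE_base (u : Mink m) : qE u (base u) = 0 := by
  rw [qE_apply]
  simp [base]

/-- the point of the horosphere of `u` with coordinate `y` -/
noncomputable def hpt (u : Mink m) (y : EuclideanSpace ℝ (Fin m)) : Mink m :=
  ((y, 0) : Mink m) + ((1 + ‖y‖ ^ 2 - 1 / u.2 ^ 2) / 2) • u + base u

theorem lor_hpt {u : Mink m} (hu : IsLight u) {y : EuclideanSpace ℝ (Fin m)}
    (hy : inner ℝ u.1 y = 0) : lor u (hpt u y) = -1 := by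
  rw [hpt, lor_add_right, lor_add_right, lor_smul_right, hu.1, lor_base hu]
  simp [lor, hy]

theorem hpt_hyp {u : Mink m} (hu : IsLight u) {y : EuclideanSpace ℝ (Fin m)}
    (hy : inner ℝ u.1 y = 0) : IsHyp (hpt u y) := by
  have h2 : 0 < u.2 := hu.2
  constructor
  · have e1 : lor ((y, 0) : Mink m) (y, 0) = ‖y‖ ^ 2 := by
      rw [lor_self]; simp
    have e2 : lor ((y, 0) : Mink m) u = 0 := by
      simp only [lor]; rw [real_inner_comm, hy]; ring
    have e3 : lor ((y, 0) : Mink m) (base u) = 0 := by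
      simp [lor, base]
    have e4 : lor (base u) (base u) = - (1 / u.2 ^ 2) := by
      rw [lor_self]; simp [base]
    have e5 := lor_base hu
    simp only [hpt, lor_add_left, lor_add_right, lor_smul_left, lor_smul_right, e1, e2, e3, e4,
      e5, hu.1, lor_symm u (y, 0), lor_symm (base u) u, lor_symm (base u) (y, 0)]
    ring
  · simp only [hpt, base, Prod.snd_add, Prod.smul_snd, smul_eq_mul]
    have : 0 + (1 + ‖y‖ ^ 2 - 1 / u.2 ^ 2) / 2 * u.2 + 1 / u.2
        = ((1 + ‖y‖ ^ 2) * u.2 + 1 / u.2) / 2 := by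
      field_simp
      ring
    rw [this]
    positivity

theorem qE_hpt {u : Mink m} (hu : IsLight u) {y : EuclideanSpace ℝ (Fin m)}
    (hy : inner ℝ u.1 y = 0) : qE u (hpt u y) = y := by
  rw [hpt, map_add, map_add, map_smul, qE_self hu, qE_base, qE_apply]
  simp [hy]

/-- Light-like vectors of disjoint horoballs are separated. -/
theorem norm_sub_light {u v : Mink m} (hu : IsLight u) (hv : IsLight v) (h : lor u v ≤ -2) :
    2 ≤ ‖u.1 - v.1‖ := by
  apply le_of_sq_le_sq _ (norm_nonneg _)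
  rw [norm_sub_sq_real, norm_fst_light hu, norm_fst_light hv]
  simp only [lor] at h
  nlinarith [sq_nonneg (u.2 - v.2)]

/-- There are only finitely many disjoint horoballs of bounded distance to the origin. -/
theorem finite_light (C : ℝ) (A : Set (Mink m)) (hl : ∀ a ∈ A, IsLight a)
    (hd : ∀ a ∈ A, ∀ b ∈ A, a ≠ b → lor a b ≤ -2) (hb : ∀ a ∈ A, a.2 ≤ C) : A.Finite := by
  have hinj : Set.InjOn Prod.fst A := by
    intro a ha b hb' hab
    by_contra hne
    have := norm_sub_light (hl a ha) (hl b hb') (hd a ha b hb' hne)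
    rw [hab, sub_self, norm_zero] at this
    linarith
  refine Set.Finite.of_finite_image ?_ hinj
  by_contra hinf
  have hinf' : (Prod.fst '' A).Infinite := hinf
  have hsub : Prod.fst '' A ⊆ Metric.closedBall (0 : EuclideanSpace ℝ (Fin m)) C := by
    rintro _ ⟨a, ha, rfl⟩
    rw [mem_closedBall_zero_iff, norm_fst_light (hl a ha)]
    exact hb a ha
  obtain ⟨x, -, hx⟩ := hinf'.exists_accPt_of_subset_isCompact (isCompact_closedBall 0 C) hsub
  rw [accPt_iff_frequently] at hx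
  have hball : ∀ᶠ y in nhds x, dist y x < 1 := Metric.eventually_nhds_iff.2 ⟨1, one_pos, fun _ h => h⟩
  obtain ⟨y, ⟨hyx, hyA⟩, hy1⟩ := (hx.and_eventually hball).exists
  have hball2 : ∀ᶠ z in nhds x, dist z x < dist y x :=
    Metric.eventually_nhds_iff.2 ⟨dist y x, dist_pos.2 hyx, fun _ h => h⟩
  obtain ⟨z, ⟨hzx, hzA⟩, hz1⟩ := (hx.and_eventually hball2).exists
  obtain ⟨a, ha, rfl⟩ := hyA
  obtain ⟨b, hb', rfl⟩ := hzA
  have hne : a ≠ b := by
    rintro rfl
    exact lt_irrefl _ hz1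
  have h1 := norm_sub_light (hl a ha) (hl b hb') (hd a ha b hb' hne)
  rw [← dist_eq_norm] at h1
  have h2 := dist_triangle_right a.1 b.1 x
  linarith

end Horo

open Chain Horo

variable {n : ℕ} {S X : Type*} [Group S] [MulAction S X] {N : Set X}

/-- The horoballs come close to every point of hyperbolic space. -/
theorem CuspedPiece.cover (P : CuspedPiece n S X N) :
    ∃ R : ℝ, ∀ p : Mink P.m, IsHyp p → ∃ a ∈ N, - lor p (P.u a) ≤ R := by
  obtain ⟨R₀, hR₀⟩ := P.cocompact
  obtain ⟨w₀, hw₀⟩ := P.nonempty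
  refine ⟨max 1 (2 * (R₀ * (P.u w₀).2)), ?_⟩
  intro p hp
  by_cases hall : ∀ w ∈ N, 1 ≤ - lor p (P.u w)
  · obtain ⟨g, hg⟩ := hR₀ p hp hall
    refine ⟨g⁻¹ • w₀, P.smul_mem _ _ hw₀, le_trans ?_ (le_max_right _ _)⟩
    rw [P.equiv _ _ hw₀, ← P.lor_ρ g, map_inv]
    have : P.ρ g ((P.ρ g)⁻¹ (P.u w₀)) = P.u w₀ := (P.ρ g).apply_symm_apply _
    rw [this]
    refine (neg_lor_le (P.hyp_ρ g p hp) (P.light _ hw₀)).trans ?_
    have := (P.light _ hw₀).2
    gcongr
  · push Not at hall
    obtain ⟨w, hw, h⟩ := hall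
    exact ⟨w, hw, h.le.trans (le_max_left _ _)⟩

/-- An element acting trivially on hyperbolic space fixes all walls. -/
theorem CuspedPiece.smul_of_ρ (P : CuspedPiece n S X N) (g : S) (hg : P.ρ g = 1) {w : X}
    (hw : w ∈ N) : g • w = w := by
  by_contra hne
  have h1 := P.disjoint _ (P.smul_mem g w hw) _ hw hne
  rw [P.equiv g w hw, hg] at h1
  have h2 : (1 : Mink P.m ≃ₗ[ℝ] Mink P.m) (P.u w) = P.u w := rfl
  rw [h2, (P.light w hw).1] at h1
  linarith

namespace Horo

variable {m : ℕ}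

/-- base independence of the translation -/
theorem base_indep (P : CuspedPiece n S X N) {w : X} (hw : w ∈ N) {g : S} (hg : g • w = w)
    {b b' : Mink P.m} (hb : lor (P.u w) b = -1) (hb' : lor (P.u w) b' = -1) :
    qE (P.u w) (P.ρ g b - b) = qE (P.u w) (P.ρ g b' - b') := by
  have h0 : lor (b - b') (P.u w) = 0 := by
    rw [lor_symm, sub_eq_add_neg, ← neg_one_smul ℝ b', lor_add_right, lor_smul_right, hb, hb']
    ring
  obtain ⟨c, hc⟩ := P.toric w hw g hg _ h0
  have h1 : (P.ρ g b - b) - (P.ρ g b' - b') = c • P.u w := by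
    rw [map_sub] at hc
    have : (P.ρ g b - b) - (P.ρ g b' - b') = (P.ρ g b - P.ρ g b') - (b - b') := by abel
    rw [this, hc]; abel
  have h2 : qE (P.u w) ((P.ρ g b - b) - (P.ρ g b' - b')) = 0 := by
    rw [h1, map_smul, qE_self (P.light w hw), smul_zero]
  rw [map_sub, sub_eq_zero] at h2
  exact h2

theorem lor_stab (P : CuspedPiece n S X N) {w : X} (hw : w ∈ N) {g : S} (hg : g • w = w)
    (b : Mink P.m) : lor (P.u w) (P.ρ g b) = lor (P.u w) b := by
  have h1 : P.ρ g (P.u w) = P.u w := by rw [← P.equiv g w hw, hg]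
  conv_lhs => rw [← h1]
  exact P.lor_ρ g _ _

theorem ρ_inv_apply (P : CuspedPiece n S X N) (g : S) (x : Mink P.m) :
    P.ρ g⁻¹ (P.ρ g x) = x := by
  rw [map_inv]
  exact (P.ρ g).symm_apply_apply x

theorem ρ_mul_apply (P : CuspedPiece n S X N) (g h : S) (x : Mink P.m) :
    P.ρ (g * h) x = P.ρ g (P.ρ h x) := by
  rw [map_mul]
  rfl

/-- additivity of translations -/
theorem trans_mul (P : CuspedPiece n S X N) {w : X} (hw : w ∈ N) {g h : S} (hg : g • w = w)
    (hh : h • w = w) {b : Mink P.m} (hb : lor (P.u w) b = -1) :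
    qE (P.u w) (P.ρ (g * h) b - b) = qE (P.u w) (P.ρ g b - b) + qE (P.u w) (P.ρ h b - b) := by
  have h1 : P.ρ (g * h) b - b = (P.ρ g (P.ρ h b) - P.ρ h b) + (P.ρ h b - b) := by
    rw [ρ_mul_apply]; abel
  have h2 : lor (P.u w) (P.ρ h b) = -1 := by rw [lor_stab P hw hh, hb]
  rw [h1, map_add, base_indep P hw hg h2 hb]

theorem lor_sub_right (a b c : Mink m) : lor a (b - c) = lor a b - lor a c := by
  rw [sub_eq_add_neg, ← neg_one_smul ℝ c, lor_add_right, lor_smul_right]; ring

theorem lor_sub_left (a b c : Mink m) : lor (a - b) c = lor a c - lor b c := by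
  rw [lor_symm, lor_sub_right, lor_symm c a, lor_symm c b]

/-- the height of the translate of the base vector -/
theorem height_trans (P : CuspedPiece n S X N) {w : X} (hw : w ∈ N) {g : S} (hg : g • w = w) :
    (P.ρ g (base (P.u w))).2 = 1 / (P.u w).2 +
      (P.u w).2 * ‖qE (P.u w) (P.ρ g (base (P.u w)) - base (P.u w))‖ ^ 2 / 2 := by
  have hu := P.light w hw
  have h2 : (P.u w).2 ≠ 0 := hu.2.ne'
  set u := P.u w with hudef
  set b := base u with hb
  have hx : lor u (P.ρ g b - b) = 0 := by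
    rw [lor_sub_right, lor_stab P hw hg]; ring
  rw [norm_qE_of_orth hu hx]
  have e1 : lor (P.ρ g b - b) (P.ρ g b - b) = 2 * lor b b - 2 * lor b (P.ρ g b) := by
    rw [lor_sub_right, lor_sub_left, lor_sub_left, P.lor_ρ, lor_symm (P.ρ g b) b]; ring
  have e2 : lor b (P.ρ g b) = - ((P.ρ g b).2 / u.2) := by
    simp only [lor, hb, base, inner_zero_left]; ring
  have e3 : lor b b = - (1 / u.2 ^ 2) := by
    rw [lor_self]; simp [hb, base]
  rw [e1, e2, e3]
  field_simp
  ring

theorem isHyp_origin : IsHyp ((0, 1) : Mink m) := by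
  constructor
  · rw [lor_self]; simp
  · simp

theorem origin_eq {u : Mink m} (hu : IsLight u) : ((0, 1) : Mink m) = u.2 • base u := by
  have h2 : u.2 ≠ 0 := hu.2.ne'
  refine Prod.ext ?_ ?_
  · simp [base]
  · simp only [base, Prod.smul_snd, smul_eq_mul]
    field_simp

/-- a stabilizer element without translation is trivial -/
theorem trans_eq_zero (P : CuspedPiece n S X N) {w : X} (hw : w ∈ N) {g : S} (hg : g • w = w)
    (h : qE (P.u w) (P.ρ g (base (P.u w)) - base (P.u w)) = 0) : P.ρ g = 1 := by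
  have hu := P.light w hw
  have h2 : (P.u w).2 ≠ 0 := hu.2.ne'
  have hx : lor (P.u w) (P.ρ g (base (P.u w)) - base (P.u w)) = 0 := by
    rw [lor_sub_right, lor_stab P hw hg]; ring
  have h3 := eq_of_qE_eq_zero hu hx h
  have h4 := height_trans P hw hg
  rw [h, norm_zero] at h4
  have h5 : (P.ρ g (base (P.u w)) - base (P.u w)).2 = 0 := by
    rw [Prod.snd_sub, h4]; simp [base]
  rw [h5, zero_div, zero_smul, sub_eq_zero] at h3
  apply P.free g ((0, 1) : Mink P.m) isHyp_origin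
  rw [origin_eq hu, map_smul, h3]

/-- a bound of the effect of a linear map on heights -/
theorem height_le_of_linear (A : Mink m ≃ₗ[ℝ] Mink m) (R : ℝ) :
    ∃ C : ℝ, ∀ p : Mink m, IsHyp p → p.2 ≤ R → (A p).2 ≤ C := by
  have hcomp : IsCompact (Metric.closedBall (0 : Mink m) R) := isCompact_closedBall _ _
  have hcont : Continuous fun p : Mink m => (A p).2 :=
    continuous_snd.comp (LinearMap.continuous_of_finiteDimensional (A : Mink m →ₗ[ℝ] Mink m))
  obtain ⟨C, hC⟩ := (hcomp.image hcont).bddAbove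
  refine ⟨C, fun p hp hpR => hC ⟨p, ?_, rfl⟩⟩
  rw [mem_closedBall_zero_iff, Prod.norm_def]
  have h1 := norm_fst_hyp hp
  have h2 : ‖p.2‖ = p.2 := by rw [Real.norm_eq_abs, abs_of_pos hp.2]
  rw [h2]
  exact max_le (h1.trans hpR) hpR

end Horo

open Horo

/-- The horosphere at the wall `w`: `W` is the space of translations, `α g` the translation given
by an element `g` of the stabilizer of `w`, and `q a` the point of the horosphere closest to the
horoball `a`. -/
theorem CuspedPiece.horo (P : CuspedPiece n S X N) {w : X} (hw : w ∈ N) :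
    ∃ (W : Submodule ℝ (EuclideanSpace ℝ (Fin P.m))) (α : S → W) (q : X → W),
      Module.finrank ℝ W + 1 = P.m ∧
      (∀ g h : S, g • w = w → h • w = w → α (g * h) = α g + α h) ∧
      (∀ g : S, g • w = w → (α g = 0 ↔ P.ρ g = 1)) ∧
      (∀ R : ℝ, {A | ∃ g : S, g • w = w ∧ ‖α g‖ ≤ R ∧ P.ρ g = A}.Finite) ∧
      (∃ R : ℝ, ∀ x : W, ∃ g : S, g • w = w ∧ ‖x - α g‖ ≤ R) ∧
      (∀ g : S, g • w = w → ∀ a ∈ N, a ≠ w → q (g • a) = q a + α g) ∧
      (∀ a ∈ N, ∀ b ∈ N, a ≠ w → b ≠ w → ‖q a - q b‖ ^ 2 =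
        2 * (- lor (P.u a) (P.u b)) / ((- lor (P.u w) (P.u a)) * (- lor (P.u w) (P.u b)))) := by
  have hu : IsLight (P.u w) := P.light w hw
  have hu2 : 0 < (P.u w).2 := hu.2
  have hbase := lor_base hu
  have hs : ∀ a ∈ N, a ≠ w → 0 < - lor (P.u w) (P.u a) := by
    intro a ha hne
    have := P.disjoint w hw a ha (Ne.symm hne)
    linarith
  have hq1 : ∀ a ∈ N, a ≠ w →
      lor (P.u w) ((- lor (P.u w) (P.u a))⁻¹ • P.u a) = -1 := by
    intro a ha hne
    have := (hs a ha hne).ne'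
    rw [lor_smul_right]
    have h3 : lor (P.u w) (P.u a) ≠ 0 := fun h => this (by rw [h, neg_zero])
    field_simp
  refine ⟨(Submodule.span ℝ {(P.u w).1})ᗮ,
    fun g => qW (P.u w) hu (P.ρ g (base (P.u w)) - base (P.u w)),
    fun a => qW (P.u w) hu ((- lor (P.u w) (P.u a))⁻¹ • P.u a), ?_, ?_, ?_, ?_, ?_, ?_, ?_⟩
  · have h1 := Submodule.finrank_add_finrank_orthogonal
      (Submodule.span ℝ {(P.u w).1} : Submodule ℝ (EuclideanSpace ℝ (Fin P.m)))
    have h2 : (P.u w).1 ≠ 0 := by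
      intro h
      have := norm_fst_light hu
      rw [h, norm_zero] at this
      linarith
    rw [finrank_span_singleton h2, finrank_euclideanSpace_fin] at h1
    omega
  · intro g h hg hh
    exact Subtype.ext (trans_mul P hw hg hh hbase)
  · intro g hg
    constructor
    · intro h
      exact trans_eq_zero P hw hg ((qW_eq_zero hu _).1 h)
    · intro h
      have h1 : P.ρ g (base (P.u w)) = base (P.u w) := by rw [h]; rfl
      simp only [h1, sub_self, map_zero]
  · intro R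
    refine (P.proper (1 + (P.u w).2 ^ 2 * R ^ 2 / 2)).subset ?_
    rintro A ⟨g, hg, hgR, rfl⟩
    refine ⟨⟨g, rfl⟩, ?_⟩
    rw [norm_qW] at hgR
    rw [origin_eq hu, map_smul, Prod.smul_snd, smul_eq_mul, height_trans P hw hg]
    have h1 : ‖qE (P.u w) (P.ρ g (base (P.u w)) - base (P.u w))‖ ^ 2 ≤ R ^ 2 :=
      pow_le_pow_left₀ (norm_nonneg _) hgR 2
    have h2 : (P.u w).2 * (1 / (P.u w).2 + (P.u w).2 *
        ‖qE (P.u w) (P.ρ g (base (P.u w)) - base (P.u w))‖ ^ 2 / 2) =
        1 + (P.u w).2 ^ 2 * ‖qE (P.u w) (P.ρ g (base (P.u w)) - base (P.u w))‖ ^ 2 / 2 := by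
      field_simp
    rw [h2]
    gcongr
  · obtain ⟨R₀, hR₀⟩ := P.cocompact
    -- finitely many horoballs in the orbit near the origin
    have hfin : {v : Mink P.m | (∃ a ∈ N, P.u a = v) ∧ v.2 ≤ 2 * R₀}.Finite := by
      refine finite_light (2 * R₀) _ ?_ ?_ ?_
      · rintro _ ⟨⟨a, ha, rfl⟩, -⟩
        exact P.light a ha
      · rintro _ ⟨⟨a, ha, rfl⟩, -⟩ _ ⟨⟨b, hb, rfl⟩, -⟩ hne
        exact P.disjoint a ha b hb fun h => hne (by rw [h])
      · rintro v ⟨-, h⟩
        exact h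
    have hch : ∀ v : Mink P.m, ∃ g : S, (∃ g' : S, P.u (g' • w) = v) → P.u (g • w) = v := by
      intro v
      by_cases h : ∃ g' : S, P.u (g' • w) = v
      · obtain ⟨g', hg'⟩ := h
        exact ⟨g', fun _ => hg'⟩
      · exact ⟨1, fun h' => absurd h' h⟩
    choose G hG using hch
    have hC : ∀ v : Mink P.m, ∃ C : ℝ, ∀ p : Mink P.m, IsHyp p → p.2 ≤ R₀ →
        (P.ρ (G v)⁻¹ p).2 ≤ C := fun v => height_le_of_linear _ R₀
    choose C hC using hC
    obtain ⟨R₁, hR₁⟩ := (hfin.image C).bddAbove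
    refine ⟨R₁, fun x => ?_⟩
    have hxW : inner ℝ (P.u w).1 (x : EuclideanSpace ℝ (Fin P.m)) = 0 :=
      (Submodule.mem_orthogonal_singleton_iff_inner_right).1 x.2
    set p := hpt (P.u w) (x : EuclideanSpace ℝ (Fin P.m)) with hp
    have hpH : IsHyp p := hpt_hyp hu hxW
    have hpu : lor (P.u w) p = -1 := lor_hpt hu hxW
    have hall : ∀ a ∈ N, 1 ≤ - lor p (P.u a) := by
      intro a ha
      by_cases hne : a = w
      · rw [hne, lor_symm, hpu]; norm_num
      · have h1 := P.disjoint a ha w hw hne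
        have h2 := lor_light_light_le hpH (P.light a ha) hu
        rw [lor_symm p (P.u w), hpu] at h2
        linarith
    obtain ⟨g, hg⟩ := hR₀ p hpH hall
    have hgw : g • w ∈ N := P.smul_mem g w hw
    have hgp : IsHyp (P.ρ g p) := P.hyp_ρ g p hpH
    have hugw : P.u (g • w) = P.ρ g (P.u w) := P.equiv g w hw
    have h1 : lor (P.ρ g p) (P.u (g • w)) = -1 := by
      rw [hugw, P.lor_ρ, lor_symm, hpu]
    -- height bound of the horoball
    have hh : (P.u (g • w)).2 ≤ 2 * R₀ := by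
      have hl := P.light _ hgw
      have e1 := norm_fst_light hl
      have e2 := hgp.1
      rw [lor_self] at e2
      have e3 := norm_fst_hyp hgp
      have e4 := real_inner_le_norm (P.ρ g p).1 (P.u (g • w)).1
      rw [e1] at e4
      simp only [lor] at h1
      have e5 : ((P.ρ g p).2 - ‖(P.ρ g p).1‖) * (P.u (g • w)).2 ≤ 1 := by nlinarith
      have e6 : ((P.ρ g p).2 - ‖(P.ρ g p).1‖) * ((P.ρ g p).2 + ‖(P.ρ g p).1‖) = 1 := by nlinarith
      have e7 : 0 < (P.ρ g p).2 + ‖(P.ρ g p).1‖ := by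
        have := hgp.2
        positivity
      have e8 : (P.u (g • w)).2 ≤ (P.ρ g p).2 + ‖(P.ρ g p).1‖ := by
        calc (P.u (g • w)).2 = (((P.ρ g p).2 - ‖(P.ρ g p).1‖) * (P.u (g • w)).2) *
              ((P.ρ g p).2 + ‖(P.ρ g p).1‖) := by
                rw [mul_right_comm, e6, one_mul]
          _ ≤ 1 * ((P.ρ g p).2 + ‖(P.ρ g p).1‖) := mul_le_mul_of_nonneg_right e5 e7.le
          _ = _ := one_mul _
      linarith
    set v := P.u (g • w) with hv
    have hGv : P.u (G v • w) = v := hG v ⟨g, rfl⟩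
    have hGw : G v • w = g • w := by
      by_contra hne
      have := P.disjoint _ (P.smul_mem (G v) w hw) _ hgw hne
      rw [hGv, ← hv, hv, (P.light _ hgw).1] at this
      linarith
    set h := (G v)⁻¹ * g with hh'
    have hhw : h • w = w := by
      rw [hh', mul_smul, ← hGw, inv_smul_smul]
    have hheight : (P.ρ h p).2 ≤ R₁ := by
      rw [hh', ρ_mul_apply]
      refine (hC v _ hgp hg).trans (hR₁ ⟨v, ⟨⟨g • w, hgw, rfl⟩, hh⟩, rfl⟩)
    have hhp : IsHyp (P.ρ h p) := P.hyp_ρ h p hpH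
    refine ⟨h⁻¹, by rw [inv_smul_eq_iff, hhw], ?_⟩
    -- the translation of `h⁻¹`
    have hinv : qE (P.u w) (P.ρ h⁻¹ (base (P.u w)) - base (P.u w)) =
        - qE (P.u w) (P.ρ h (base (P.u w)) - base (P.u w)) := by
      have hhw' : h⁻¹ • w = w := by rw [inv_smul_eq_iff, hhw]
      have := trans_mul P hw hhw' hhw hbase
      rw [inv_mul_cancel, map_one] at this
      have h1 : (1 : Mink P.m ≃ₗ[ℝ] Mink P.m) (base (P.u w)) - base (P.u w) = 0 := by
        simp
      rw [h1, map_zero] at this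
      exact eq_neg_of_add_eq_zero_left this.symm
    have hx : (x : EuclideanSpace ℝ (Fin P.m)) = qE (P.u w) p := (qE_hpt hu hxW).symm
    have hgoal : (x : EuclideanSpace ℝ (Fin P.m)) -
        qE (P.u w) (P.ρ h⁻¹ (base (P.u w)) - base (P.u w)) = qE (P.u w) (P.ρ h p) := by
      rw [hinv, base_indep P hw hhw hbase hpu, map_sub, hx]
      abel
    change ‖(x : EuclideanSpace ℝ (Fin P.m)) -
        qE (P.u w) (P.ρ h⁻¹ (base (P.u w)) - base (P.u w))‖ ≤ R₁
    rw [hgoal]
    exact (norm_qE_le hu _).trans ((norm_fst_hyp hhp).trans hheight)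
  · intro g hg a ha hne
    apply Subtype.ext
    change qE (P.u w) ((- lor (P.u w) (P.u (g • a)))⁻¹ • P.u (g • a)) =
      qE (P.u w) ((- lor (P.u w) (P.u a))⁻¹ • P.u a) +
      qE (P.u w) (P.ρ g (base (P.u w)) - base (P.u w))
    rw [P.equiv g a ha, lor_stab P hw hg, ← map_smul,
      base_indep P hw hg hbase (hq1 a ha hne), map_sub]
    abel
  · intro a ha b hb hane hbne
    have ha0 := hs a ha hane
    have hb0 := hs b hb hbne
    rw [← map_sub, norm_qW, norm_qE_of_orth hu (by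
      rw [lor_sub_right, hq1 a ha hane, hq1 b hb hbne]; ring)]
    rw [lor_sub_right, lor_sub_left, lor_sub_left]
    simp only [lor_smul_left, lor_smul_right, (P.light a ha).1, (P.light b hb).1]
    rw [lor_symm (P.u b) (P.u a)]
    have ha1 := ha0.ne'
    have hb1 := hb0.ne'
    set s := - lor (P.u w) (P.u a)
    set t := - lor (P.u w) (P.u b)
    field_simp
    ring

end Pool.Agent.H81.HDG
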