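import Mathlib
import Pool.Agent.H81.HDG.Defs

/-!
# Coordinates on the walls (module LAT of MP_77db41_gt)
-/

set_option autoImplicit false

namespace Pool.Agent.H81.HDG

/-- the functions supported on the first `k` coordinates -/
def FSub (n k : ℕ) : Submodule ℝ (Fin n → ℝ) where
  carrier := {f | ∀ i : Fin n, k ≤ (i : ℕ) → f i = 0}
  add_mem' := by
    intro a b ha hb i hi
    rw [Pi.add_apply, ha i hi, hb i hi, add_zero]
  zero_mem' := by
    intro i _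
    rfl
  smul_mem' := by
    intro c x hx i hi
    rw [Pi.smul_apply, hx i hi, smul_zero]

/-- the integer vector `z` as a real vector, padded by zeros -/
def emb (n : ℕ) {k : ℕ} (z : Fin k → ℤ) : Fin n → ℝ :=
  fun i => if h : (i : ℕ) < k then (z ⟨i, h⟩ : ℝ) else 0

/-- A lattice `g ↦ (α g, τ g)` in `W × ℝ^k`. -/
structure IsLat {Γ : Type*} [Group Γ] {W : Type*} [NormedAddCommGroup W] [NormedSpace ℝ W]
    {k : ℕ} (α : Γ → W) (τ : Γ → Fin k → ℤ) : Prop where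
  α_mul : ∀ g h, α (g * h) = α g + α h
  τ_mul : ∀ g h, τ (g * h) = τ g + τ h
  inj : ∀ g, α g = 0 → τ g = 0 → g = 1
  surj : ∀ z, ∃ g, α g = 0 ∧ τ g = z
  prop : ∀ R : ℝ, (α '' {g | ‖α g‖ ≤ R}).Finite
  cobdd : ∃ R : ℝ, ∀ x, ∃ g, ‖x - α g‖ ≤ R

namespace LatAux

/-- padding by zeros -/
def pad (n k : ℕ) : (Fin k → ℝ) →ₗ[ℝ] (Fin n → ℝ) where
  toFun f := fun i => if h : (i : ℕ) < k then f ⟨i, h⟩ else 0
  map_add' f g := by
    funext i
    by_cases h : (i : ℕ) < k <;> simp [h]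
  map_smul' c f := by
    funext i
    by_cases h : (i : ℕ) < k <;> simp [h]

/-- the first `k` coordinates -/
def res (n k : ℕ) (hk : k ≤ n) : (Fin n → ℝ) →ₗ[ℝ] (Fin k → ℝ) where
  toFun f := fun i => f (Fin.castLE hk i)
  map_add' _ _ := rfl
  map_smul' _ _ := rfl

theorem res_pad {n k : ℕ} (hk : k ≤ n) (f : Fin k → ℝ) : res n k hk (pad n k f) = f := by
  funext i
  simp [res, pad]

theorem pad_res {n k : ℕ} (hk : k ≤ n) (f : Fin n → ℝ) (hf : f ∈ FSub n k) :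
    pad n k (res n k hk f) = f := by
  funext i
  by_cases h : (i : ℕ) < k
  · simp [pad, res, h]
  · have := hf i (by omega)
    simp [pad, h, this]

theorem pad_mem {n k : ℕ} (f : Fin k → ℝ) : pad n k f ∈ FSub n k := by
  intro i hi
  have h : ¬ (i : ℕ) < k := by omega
  simp [pad, h]

theorem emb_eq {n k : ℕ} (z : Fin k → ℤ) : emb n z = pad n k (fun i => (z i : ℝ)) := rfl

/-- A subspace which is coarsely dense is everything. -/
theorem eq_top_of_coarse {W : Type*} [NormedAddCommGroup W] [NormedSpace ℝ W]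
    [FiniteDimensional ℝ W] (S : Submodule ℝ W) (R : ℝ) (hR : ∀ x, ∃ s ∈ S, ‖x - s‖ ≤ R) :
    S = ⊤ := by
  by_contra hne
  obtain ⟨x, hx⟩ : ∃ x, x ∉ S := by
    by_contra hcon
    push Not at hcon
    exact hne (eq_top_iff.2 fun x _ => hcon x)
  have hclosed : IsClosed (S : Set W) := S.closed_of_finiteDimensional
  have hpos : 0 < Metric.infDist x (S : Set W) :=
    (hclosed.notMem_iff_infDist_pos ⟨0, S.zero_mem⟩).1 hx
  set d := Metric.infDist x (S : Set W) with hd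
  have hR0 : 0 ≤ R := by
    obtain ⟨s, _, hs⟩ := hR 0
    exact le_trans (norm_nonneg _) hs
  set c : ℝ := (R + 1) / d with hc
  have hc0 : 0 < c := by positivity
  obtain ⟨s, hs, hsR⟩ := hR (c • x)
  have h1 : d ≤ dist x (c⁻¹ • s) := Metric.infDist_le_dist_of_mem (S.smul_mem _ hs)
  have h2 : c • x - s = c • (x - c⁻¹ • s) := by
    rw [smul_sub, smul_smul, mul_inv_cancel₀ hc0.ne', one_smul]
  rw [h2, norm_smul, Real.norm_of_nonneg hc0.le, ← dist_eq_norm] at hsR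
  have h3 : c * d ≤ R := le_trans (mul_le_mul_of_nonneg_left h1 hc0.le) hsR
  have h4 : c * d = R + 1 := by
    rw [hc]; field_simp
  linarith

theorem hsingle {k : ℕ} (W : Type*) [NormedAddCommGroup W] [NormedSpace ℝ W]
    (a : Fin k → ℝ) :
    ((0 : W), a) = ∑ i, a i • ((0 : W), (Pi.single i (1 : ℝ) : Fin k → ℝ)) := by
  ext j
  · simp [Prod.fst_sum]
  · simp [Prod.snd_sum, Finset.sum_apply, Pi.single_apply]

section Phi

variable {Γ : Type*} [Group Γ] {W : Type*} [NormedAddCommGroup W] [NormedSpace ℝ W]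
  {k : ℕ} {α : Γ → W} {τ : Γ → Fin k → ℤ}

/-- the embedding as a lattice -/
def phi (α : Γ → W) (τ : Γ → Fin k → ℤ) (g : Γ) : W × (Fin k → ℝ) :=
  (α g, fun i => (τ g i : ℝ))

theorem phi_mul (h : IsLat α τ) (g g' : Γ) : phi α τ (g * g') = phi α τ g + phi α τ g' := by
  ext i
  · simp [phi, h.α_mul]
  · simp [phi, h.τ_mul]

theorem phi_one (h : IsLat α τ) : phi α τ 1 = 0 := by
  have := phi_mul h 1 1
  rw [mul_one] at this
  simpa using this

theorem phi_inv (h : IsLat α τ) (g : Γ) : phi α τ g⁻¹ = - phi α τ g := by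
  have h1 := phi_mul h g⁻¹ g
  rw [inv_mul_cancel, phi_one h] at h1
  exact eq_neg_of_add_eq_zero_left h1.symm

theorem eq_one_of_phi (h : IsLat α τ) {g : Γ} (hg : phi α τ g = 0) : g = 1 := by
  apply h.inj g
  · exact congrArg Prod.fst hg
  · funext i
    have : (τ g i : ℝ) = 0 := congrFun (congrArg Prod.snd hg) i
    exact_mod_cast this

theorem phi_injective (h : IsLat α τ) : Function.Injective (phi α τ) := by
  intro g g' hg
  have h1 : phi α τ (g * g'⁻¹) = 0 := by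
    rw [phi_mul h, phi_inv h, hg, add_neg_cancel]
  have h2 := eq_one_of_phi h h1
  exact mul_inv_eq_one.1 h2

theorem finite_ball (h : IsLat α τ) (R : ℝ) : {g : Γ | ‖phi α τ g‖ ≤ R}.Finite := by
  have h1 : ({z : Fin k → ℤ | ∀ i, |(z i : ℝ)| ≤ R}).Finite := by
    apply (Set.finite_Icc (fun _ : Fin k => -⌈R⌉) (fun _ : Fin k => ⌈R⌉)).subset
    intro z hz
    constructor
    · intro i
      have h2 := (abs_le.1 (hz i)).1
      have h3 := Int.le_ceil R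
      have : ((-⌈R⌉ : ℤ) : ℝ) ≤ (z i : ℝ) := by push_cast; linarith
      exact_mod_cast this
    · intro i
      have h2 := (abs_le.1 (hz i)).2
      have h3 := Int.le_ceil R
      have : (z i : ℝ) ≤ (⌈R⌉ : ℝ) := by linarith
      exact_mod_cast this
  have h2 := (h.prop R).prod h1
  apply Set.Finite.of_finite_image (f := fun g => (α g, τ g))
  · apply h2.subset
    rintro _ ⟨g, hg, rfl⟩
    have hg' : ‖phi α τ g‖ ≤ R := hg
    refine ⟨⟨g, ?_, rfl⟩, ?_⟩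
    · exact le_trans (norm_fst_le (phi α τ g)) hg'
    · intro i
      have h3 : ‖(phi α τ g).2‖ ≤ R := le_trans (norm_snd_le (phi α τ g)) hg'
      have h4 := norm_le_pi_norm (phi α τ g).2 i
      rw [Real.norm_eq_abs] at h4
      exact le_trans h4 h3
  · intro g _ g' _ hgg
    apply phi_injective h
    have ha : α g = α g' := congrArg Prod.fst hgg
    have hb : τ g = τ g' := congrArg Prod.snd hgg
    simp [phi, ha, hb]

theorem cobdd_phi (h : IsLat α τ) :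
    ∃ R : ℝ, ∀ x : W × (Fin k → ℝ), ∃ g, ‖x - phi α τ g‖ ≤ R := by
  obtain ⟨R, hR⟩ := h.cobdd
  refine ⟨max R 1, fun x => ?_⟩
  obtain ⟨g, hg⟩ := hR x.1
  obtain ⟨g', hg'1, hg'2⟩ := h.surj (fun i => round (x.2 i - τ g i))
  refine ⟨g * g', ?_⟩
  rw [Prod.norm_def]
  apply max_le
  · refine le_trans ?_ (le_max_left _ _)
    simp only [phi, Prod.fst_sub, h.α_mul, hg'1, add_zero]
    exact hg
  · refine le_trans ?_ (le_max_right _ _)
    rw [pi_norm_le_iff_of_nonneg zero_le_one]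
    intro i
    simp only [phi, Prod.snd_sub, Pi.sub_apply, h.τ_mul, hg'2, Pi.add_apply, Int.cast_add]
    have h3 := abs_sub_round (x.2 i - τ g i)
    rw [Real.norm_eq_abs]
    have h4 : x.2 i - ((τ g i : ℝ) + (round (x.2 i - τ g i) : ℝ)) =
        x.2 i - τ g i - round (x.2 i - τ g i) := by ring
    rw [h4]
    linarith

/-- the lattice as a submodule -/
def latL (h : IsLat α τ) : Submodule ℤ (W × (Fin k → ℝ)) where
  carrier := Set.range (phi α τ)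
  add_mem' := by
    rintro _ _ ⟨g, rfl⟩ ⟨g', rfl⟩
    exact ⟨g * g', phi_mul h g g'⟩
  zero_mem' := ⟨1, phi_one h⟩
  smul_mem' := by
    rintro c _ ⟨g, rfl⟩
    refine ⟨g ^ c, ?_⟩
    let F : Additive Γ →+ W × (Fin k → ℝ) :=
      { toFun := fun g => phi α τ (Additive.toMul g)
        map_zero' := phi_one h
        map_add' := fun a b => phi_mul h _ _ }
    have := map_zsmul F c (Additive.ofMul g)
    exact this

theorem discrete_latL (h : IsLat α τ) : DiscreteTopology (latL h) := by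
  rw [discreteTopology_iff_isOpen_singleton_zero]
  have hfin : ({x : latL h | ‖(x : W × (Fin k → ℝ))‖ ≤ 1 ∧ x ≠ 0}).Finite := by
    apply Set.Finite.subset (s := {x : latL h | ‖(x : W × (Fin k → ℝ))‖ ≤ 1}) _
      (fun x hx => hx.1)
    apply Set.Finite.of_finite_image (f := fun x : latL h => (x : W × (Fin k → ℝ)))
    · apply ((finite_ball h 1).image (phi α τ)).subset
      rintro _ ⟨⟨x, g, rfl⟩, hx, rfl⟩
      exact ⟨g, hx, rfl⟩
    · exact Subtype.val_injective.injOn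
  have h1 : ({0} : Set (latL h)) = Metric.ball 0 1 ∩
      ({x : latL h | ‖(x : W × (Fin k → ℝ))‖ ≤ 1 ∧ x ≠ 0})ᶜ := by
    ext x
    constructor
    · rintro rfl
      refine ⟨Metric.mem_ball_self one_pos, fun hx => hx.2 rfl⟩
    · rintro ⟨hx1, hx2⟩
      by_contra hx3
      apply hx2
      refine ⟨?_, hx3⟩
      rw [mem_ball_zero_iff] at hx1
      exact hx1.le
  rw [h1]
  exact Metric.isOpen_ball.inter hfin.isClosed.isOpen_compl

variable [FiniteDimensional ℝ W]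

theorem span_phi (h : IsLat α τ) : Submodule.span ℝ (Set.range (phi α τ)) = ⊤ := by
  obtain ⟨R, hR⟩ := cobdd_phi h
  apply eq_top_of_coarse _ R
  intro x
  obtain ⟨g, hg⟩ := hR x
  exact ⟨_, Submodule.subset_span ⟨g, rfl⟩, hg⟩

/-- Homomorphisms on the lattice extend to linear maps. -/
theorem exists_extension (h : IsLat α τ) {U : Type*} [AddCommGroup U] [Module ℝ U]
    (f : Γ → U) (hf : ∀ g g', f (g * g') = f g + f g') :
    ∃ F : W × (Fin k → ℝ) →ₗ[ℝ] U, ∀ g, F (phi α τ g) = f g := by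
  have hd := discrete_latL h
  have hlat : IsZLattice ℝ (latL h) := ⟨span_phi h⟩
  let b := Module.Free.chooseBasis ℤ (latL h)
  choose pre hpre using fun x : latL h => x.2
  let φ : latL h →+ U :=
    { toFun := fun x => f (pre x)
      map_zero' := by
        have h1 : pre 0 = 1 := by
          apply phi_injective h
          rw [hpre, phi_one h]; rfl
        rw [h1]
        have := hf 1 1
        rw [mul_one] at this
        simpa using this
      map_add' := by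
        intro x y
        rw [← hf]
        congr 1
        apply phi_injective h
        rw [hpre, phi_mul h, hpre, hpre]; rfl }
  let F : W × (Fin k → ℝ) →ₗ[ℝ] U := (b.ofZLatticeBasis ℝ (latL h)).constr ℝ (fun i => φ (b i))
  refine ⟨F, fun g => ?_⟩
  have h1 : (F.restrictScalars ℤ) ∘ₗ (latL h).subtype = φ.toIntLinearMap := by
    apply b.ext
    intro i
    rw [LinearMap.comp_apply, LinearMap.restrictScalars_apply, Submodule.subtype_apply]
    have h2 : ((b i : latL h) : W × (Fin k → ℝ)) = b.ofZLatticeBasis ℝ (latL h) i := by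
      rw [Module.Basis.ofZLatticeBasis_apply]
    rw [h2, Module.Basis.constr_basis]
    rfl
  have h3 := LinearMap.congr_fun h1 ⟨phi α τ g, g, rfl⟩
  have h4 : pre ⟨phi α τ g, g, rfl⟩ = g := by
    apply phi_injective h
    rw [hpre]
  have h5 : F (phi α τ g) = f (pre ⟨phi α τ g, g, rfl⟩) := h3
  rw [h5, h4]

/-- Families of lattice vectors which are independent over the integers are independent over the
reals. -/
theorem linearIndependent_real (h : IsLat α τ) {ι : Type*} [Fintype ι] (γ : ι → Γ)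
    (hγ : LinearIndependent ℤ (fun i => phi α τ (γ i))) :
    LinearIndependent ℝ (fun i => phi α τ (γ i)) := by
  have hd := discrete_latL h
  have hle : Submodule.span ℤ (Set.range (fun i => phi α τ (γ i))) ≤ latL h := by
    rw [Submodule.span_le]
    rintro _ ⟨i, rfl⟩
    exact ⟨γ i, rfl⟩
  have hd' : DiscreteTopology
      (Submodule.span ℤ (Set.range (fun i => phi α τ (γ i)))) :=
    DiscreteTopology.of_subset (s := (latL h : Set (W × (Fin k → ℝ)))) hd hle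
  have h1 := Real.finrank_eq_int_finrank_of_discrete hd'
  rw [linearIndependent_iff_card_eq_finrank_span, h1]
  rw [linearIndependent_iff_card_eq_finrank_span] at hγ
  exact hγ

theorem finite_of_injective (h : IsLat α τ) {E : Type*} [NormedAddCommGroup E]
    [NormedSpace ℝ E] [FiniteDimensional ℝ E] (Λ : W × (Fin k → ℝ) →ₗ[ℝ] E)
    (hΛ : Function.Injective Λ) (R : ℝ) : {g : Γ | ‖Λ (phi α τ g)‖ ≤ R}.Finite := by
  obtain ⟨K, _, hK⟩ := Λ.exists_antilipschitzWith (LinearMap.ker_eq_bot.2 hΛ)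
  apply (finite_ball h (K * R)).subset
  intro g hg
  have h1 := hK.le_mul_dist (phi α τ g) 0
  rw [map_zero, dist_zero_right, dist_zero_right] at h1
  exact le_trans h1 (mul_le_mul_of_nonneg_left hg K.2)

theorem cobdd_of_linear (h : IsLat α τ) {E : Type*} [NormedAddCommGroup E]
    [NormedSpace ℝ E] (Λ : W × (Fin k → ℝ) →ₗ[ℝ] E) :
    ∃ R : ℝ, ∀ x, ∃ g, ‖Λ x - Λ (phi α τ g)‖ ≤ R := by
  obtain ⟨R, hR⟩ := cobdd_phi h
  refine ⟨‖LinearMap.toContinuousLinearMap Λ‖ * R, fun x => ?_⟩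
  obtain ⟨g, hg⟩ := hR x
  refine ⟨g, ?_⟩
  rw [← map_sub]
  calc ‖Λ (x - phi α τ g)‖ = ‖LinearMap.toContinuousLinearMap Λ (x - phi α τ g)‖ := rfl
    _ ≤ ‖LinearMap.toContinuousLinearMap Λ‖ * ‖x - phi α τ g‖ :=
        ContinuousLinearMap.le_opNorm _ _
    _ ≤ ‖LinearMap.toContinuousLinearMap Λ‖ * R := by gcongr

end Phi

end LatAux

open LatAux

/-- Coordinates on a boundary wall. -/
theorem lattice_one {Γ : Type*} [Group Γ] {W₁ : Type*}
    [NormedAddCommGroup W₁] [NormedSpace ℝ W₁] [FiniteDimensional ℝ W₁] {n k₁ : ℕ}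
    (hk₁ : k₁ ≤ n) (hW₁ : Module.finrank ℝ W₁ ≤ n)
    (α₁ : Γ → W₁) (τ₁ : Γ → Fin k₁ → ℤ) (h₁ : IsLat α₁ τ₁) :
    ∃ (r : ℕ) (π₁ π₃ : Γ → Fin n → ℝ) (ℓ₁ : W₁ →ₗ[ℝ] (Fin n → ℝ) × (Fin n → ℝ)),
      (∀ g h, π₁ (g * h) = π₁ g + π₁ h) ∧ (∀ g h, π₃ (g * h) = π₃ g + π₃ h) ∧
      (∀ g, π₁ g ∈ FSub n k₁) ∧ (∀ g, π₃ g ∈ FSub n r) ∧
      Function.Injective ℓ₁ ∧
      (∀ x, (ℓ₁ x).1 = 0 ∧ (ℓ₁ x).2 ∈ FSub n r) ∧
      (∀ g, ℓ₁ (α₁ g) = (0, π₃ g)) ∧
      (∀ g, emb n (τ₁ g) = π₁ g) ∧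
      (∀ R : ℝ, {g | ‖π₁ g‖ ≤ R ∧ ‖π₃ g‖ ≤ R}.Finite) ∧
      (∃ R : ℝ, ∀ f₁ ∈ FSub n k₁, ∀ f₃ ∈ FSub n r, ∃ g,
        ‖f₁ - π₁ g‖ ≤ R ∧ ‖f₃ - π₃ g‖ ≤ R) := by
  classical
  let e : W₁ ≃ₗ[ℝ] (Fin (Module.finrank ℝ W₁) → ℝ) :=
    LinearEquiv.ofFinrankEq W₁ (Fin (Module.finrank ℝ W₁) → ℝ) (by simp)
  let Λ : W₁ × (Fin k₁ → ℝ) →ₗ[ℝ] (Fin n → ℝ) × (Fin n → ℝ) :=
    ((pad n k₁).comp (LinearMap.snd ℝ W₁ (Fin k₁ → ℝ))).prod
      ((pad n (Module.finrank ℝ W₁)).comp (e.toLinearMap.comp (LinearMap.fst ℝ W₁ (Fin k₁ → ℝ))))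
  have hΛ : ∀ g, Λ (phi α₁ τ₁ g) = (emb n (τ₁ g), pad n _ (e (α₁ g))) := fun g => rfl
  have hΛ1 : ∀ x, Λ x = (pad n k₁ x.2, pad n _ (e x.1)) := fun x => rfl
  refine ⟨Module.finrank ℝ W₁, fun g => emb n (τ₁ g), fun g => pad n _ (e (α₁ g)),
    LinearMap.prod 0 ((pad n _).comp e.toLinearMap), ?_, ?_, ?_, ?_, ?_, ?_, ?_, ?_, ?_, ?_⟩
  · intro g h
    simp only [emb_eq, ← map_add]
    congr 1
    funext i
    simp [h₁.τ_mul]
  · intro g h
    simp only [h₁.α_mul, map_add]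
  · intro g
    change emb n (τ₁ g) ∈ FSub n k₁
    rw [emb_eq]
    exact pad_mem _
  · intro g
    exact pad_mem _
  · intro x y hxy
    have h1 : pad n _ (e x) = pad n _ (e y) := congrArg Prod.snd hxy
    have h2 := congrArg (res n _ hW₁) h1
    rw [res_pad, res_pad] at h2
    exact e.injective h2
  · intro x
    exact ⟨rfl, pad_mem _⟩
  · intro g
    rfl
  · intro g
    rfl
  · intro R
    have hinj : Function.Injective Λ := by
      intro x y hxy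
      rw [hΛ1, hΛ1] at hxy
      have h1 := congrArg (res n _ hk₁) (congrArg Prod.fst hxy)
      have h2 := congrArg (res n _ hW₁) (congrArg Prod.snd hxy)
      dsimp only at h1 h2
      rw [res_pad, res_pad] at h1 h2
      exact Prod.ext (e.injective h2) h1
    apply (finite_of_injective h₁ Λ hinj R).subset
    intro g hg
    change ‖Λ (phi α₁ τ₁ g)‖ ≤ R
    rw [hΛ, Prod.norm_def]
    exact max_le hg.1 hg.2
  · obtain ⟨R, hR⟩ := cobdd_of_linear h₁ Λ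
    refine ⟨R, fun f₁ hf₁ f₃ hf₃ => ?_⟩
    obtain ⟨g, hg⟩ := hR (e.symm (res n _ hW₁ f₃), res n _ hk₁ f₁)
    refine ⟨g, ?_⟩
    rw [hΛ, hΛ1] at hg
    dsimp only at hg
    rw [LinearEquiv.apply_symm_apply, pad_res hk₁ f₁ hf₁, pad_res hW₁ f₃ hf₃] at hg
    exact ⟨le_trans (norm_fst_le ((f₁, f₃) - (emb n (τ₁ g), pad n _ (e (α₁ g))))) hg,
      le_trans (norm_snd_le ((f₁, f₃) - (emb n (τ₁ g), pad n _ (e (α₁ g))))) hg⟩

/-- Coordinates on a wall between two pieces. -/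
theorem lattice_two {Γ : Type*} [Group Γ] {W₁ W₂ : Type*}
    [NormedAddCommGroup W₁] [NormedSpace ℝ W₁] [FiniteDimensional ℝ W₁]
    [NormedAddCommGroup W₂] [NormedSpace ℝ W₂] [FiniteDimensional ℝ W₂] {n k₁ k₂ : ℕ}
    (hk₁ : k₁ ≤ n) (hk₂ : k₂ ≤ n) (hW₁ : Module.finrank ℝ W₁ ≤ n) (hW₂ : Module.finrank ℝ W₂ ≤ n)
    (α₁ : Γ → W₁) (τ₁ : Γ → Fin k₁ → ℤ) (α₂ : Γ → W₂) (τ₂ : Γ → Fin k₂ → ℤ)
    (h₁ : IsLat α₁ τ₁) (h₂ : IsLat α₂ τ₂) (htr : ∀ g, α₁ g = 0 → α₂ g = 0 → g = 1) :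
    ∃ (r : ℕ) (π₁ π₂ π₃ : Γ → Fin n → ℝ) (ℓ₁ : W₁ →ₗ[ℝ] (Fin n → ℝ) × (Fin n → ℝ))
      (ℓ₂ : W₂ →ₗ[ℝ] (Fin n → ℝ) × (Fin n → ℝ))
      (κ₁ κ₂ : (Fin n → ℝ) × (Fin n → ℝ) →ₗ[ℝ] (Fin n → ℝ)),
      (∀ g h, π₁ (g * h) = π₁ g + π₁ h) ∧ (∀ g h, π₂ (g * h) = π₂ g + π₂ h) ∧
      (∀ g h, π₃ (g * h) = π₃ g + π₃ h) ∧
      (∀ g, π₁ g ∈ FSub n k₁) ∧ (∀ g, π₂ g ∈ FSub n k₂) ∧ (∀ g, π₃ g ∈ FSub n r) ∧
      Function.Injective ℓ₁ ∧ Function.Injective ℓ₂ ∧
      (∀ x, (ℓ₁ x).1 ∈ FSub n k₂ ∧ (ℓ₁ x).2 ∈ FSub n r) ∧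
      (∀ x, (ℓ₂ x).1 ∈ FSub n k₁ ∧ (ℓ₂ x).2 ∈ FSub n r) ∧
      (∀ z, κ₁ z ∈ FSub n k₁) ∧ (∀ z, κ₂ z ∈ FSub n k₂) ∧
      (∀ g, ℓ₁ (α₁ g) = (π₂ g, π₃ g)) ∧ (∀ g, ℓ₂ (α₂ g) = (π₁ g, π₃ g)) ∧
      (∀ g, emb n (τ₁ g) = π₁ g + κ₁ (π₂ g, π₃ g)) ∧
      (∀ g, emb n (τ₂ g) = π₂ g + κ₂ (π₁ g, π₃ g)) ∧
      (∀ R : ℝ, {g | ‖π₁ g‖ ≤ R ∧ ‖π₂ g‖ ≤ R ∧ ‖π₃ g‖ ≤ R}.Finite) ∧
      (∃ R : ℝ, ∀ f₁ ∈ FSub n k₁, ∀ f₂ ∈ FSub n k₂, ∀ f₃ ∈ FSub n r, ∃ g,
        ‖f₁ - π₁ g‖ ≤ R ∧ ‖f₂ - π₂ g‖ ≤ R ∧ ‖f₃ - π₃ g‖ ≤ R) := by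
  classical
  obtain ⟨P, hP⟩ := exists_extension h₁ (phi α₂ τ₂) (phi_mul h₂)
  obtain ⟨Q, hQ⟩ := exists_extension h₂ (phi α₁ τ₁) (phi_mul h₁)
  have hQP : ∀ x, Q (P x) = x := by
    have : Q ∘ₗ P = LinearMap.id := LinearMap.ext_on_range (span_phi h₁) (fun g => by
      rw [LinearMap.comp_apply, hP, hQ, LinearMap.id_apply])
    exact fun x => LinearMap.congr_fun this x
  have hPQ : ∀ x, P (Q x) = x := by
    have : P ∘ₗ Q = LinearMap.id := LinearMap.ext_on_range (span_phi h₂) (fun g => by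
      rw [LinearMap.comp_apply, hQ, hP, LinearMap.id_apply])
    exact fun x => LinearMap.congr_fun this x
  choose e he1 he2 using fun i : Fin k₁ => h₁.surj (Pi.single i 1)
  choose f hf1 hf2 using fun i : Fin k₂ => h₂.surj (Pi.single i 1)
  have hphie : ∀ i, phi α₁ τ₁ (e i) = (0, Pi.single i 1) := by
    intro i
    ext j
    · simp [phi, he1]
    · simp [phi, he2, Pi.single_apply]
  have hphif : ∀ i, phi α₂ τ₂ (f i) = (0, Pi.single i 1) := by
    intro i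
    ext j
    · simp [phi, hf1]
    · simp [phi, hf2, Pi.single_apply]
  have hindZ : LinearIndependent ℤ (fun i => phi α₁ τ₁ (Sum.elim e f i)) := by
    rw [Fintype.linearIndependent_iff]
    intro c hc
    rw [Fintype.sum_sum_type] at hc
    simp only [Sum.elim_inl, Sum.elim_inr] at hc
    set x := ∑ i, c (Sum.inl i) • phi α₁ τ₁ (e i) with hx
    have hxmem : x ∈ latL h₁ := Submodule.sum_mem _ fun i _ =>
      (latL h₁).smul_mem _ ⟨e i, rfl⟩
    obtain ⟨g, hg⟩ := hxmem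
    have hx1 : x.1 = 0 := by
      rw [hx, Prod.fst_sum]
      apply Finset.sum_eq_zero
      intro i _
      rw [hphie]; simp
    have hg1 : α₁ g = 0 := by
      rw [← hx1, ← hg]; rfl
    have hPx : P x = - ∑ j, c (Sum.inr j) • phi α₂ τ₂ (f j) := by
      have h3 : x = - ∑ j, c (Sum.inr j) • phi α₁ τ₁ (f j) := eq_neg_of_add_eq_zero_left hc
      rw [h3, map_neg, map_sum]
      congr 1
      apply Finset.sum_congr rfl
      intro j _
      rw [map_zsmul, hP]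
    have hg2 : α₂ g = 0 := by
      have h3 : (P x).1 = 0 := by
        rw [hPx, Prod.fst_neg, Prod.fst_sum, neg_eq_zero]
        apply Finset.sum_eq_zero
        intro i _
        rw [hphif]; simp
      rw [← hg, hP] at h3
      exact h3
    have hg0 : g = 1 := htr g hg1 hg2
    have hx0 : x = 0 := by
      rw [← hg, hg0, phi_one h₁]
    intro i
    rcases i with i | j
    · have h3 := congrFun (congrArg Prod.snd hx0) i
      rw [hx, Prod.snd_sum, Finset.sum_apply] at h3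
      simp only [hphie, Prod.smul_snd, Pi.smul_apply, Pi.single_apply] at h3
      simpa using h3
    · rw [hx0, map_zero] at hPx
      have h3 := congrFun (congrArg Prod.snd hPx.symm) j
      rw [Prod.snd_neg, Pi.neg_apply, Prod.snd_sum, Finset.sum_apply] at h3
      simp only [hphif, Prod.smul_snd, Pi.smul_apply, Pi.single_apply] at h3
      simpa using h3
  have hindR := linearIndependent_real h₁ (Sum.elim e f) hindZ
  -- the embedding of the sum of the two fibre directions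
  let ψ : (Fin k₁ → ℝ) × (Fin k₂ → ℝ) →ₗ[ℝ] W₁ × (Fin k₁ → ℝ) :=
    (LinearMap.inr ℝ W₁ (Fin k₁ → ℝ)).coprod (Q.comp (LinearMap.inr ℝ W₂ (Fin k₂ → ℝ)))
  have hψ : ∀ a b, ψ (a, b) = (0, a) + Q (0, b) := fun a b => by
    simp [ψ, LinearMap.coprod_apply]
  have hψinj : Function.Injective ψ := by
    rw [← LinearMap.ker_eq_bot, LinearMap.ker_eq_bot']
    rintro ⟨a, b⟩ hab
    rw [hψ] at hab
    have h3 : (0, a) = ∑ i, a i • phi α₁ τ₁ (e i) := by
      rw [hsingle W₁ a]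
      simp only [hphie]
    have h4 : Q (0, b) = ∑ i, b i • phi α₁ τ₁ (f i) := by
      rw [hsingle W₂ b, map_sum]
      apply Finset.sum_congr rfl
      intro i _
      rw [map_smul, ← hphif, hQ]
    rw [Fintype.linearIndependent_iff] at hindR
    have h5 := hindR (Sum.elim a b) (by
      rw [Fintype.sum_sum_type]
      simp only [Sum.elim_inl, Sum.elim_inr]
      rw [← h3, ← h4, hab])
    ext i
    · exact h5 (Sum.inl i)
    · exact h5 (Sum.inr i)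
  obtain ⟨lam, hlam⟩ := ψ.exists_leftInverse_of_injective (LinearMap.ker_eq_bot.2 hψinj)
  have hlamψ : ∀ x, lam (ψ x) = x := fun x => LinearMap.congr_fun hlam x
  let K := LinearMap.ker lam
  set r := Module.finrank ℝ K with hr
  have hrn : r ≤ n := by
    have h3 := LinearMap.finrank_range_add_finrank_ker lam
    have h4 : LinearMap.range lam = ⊤ :=
      LinearMap.range_eq_top.2 (fun x => ⟨ψ x, hlamψ x⟩)
    rw [h4, finrank_top, Module.finrank_prod, Module.finrank_prod, Module.finrank_fin_fun,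
      Module.finrank_fin_fun] at h3
    have h5 : Module.finrank ℝ K = r := rfl
    change k₁ + k₂ + Module.finrank ℝ K = _ at h3
    omega
  let eK : K ≃ₗ[ℝ] (Fin r → ℝ) := LinearEquiv.ofFinrankEq K (Fin r → ℝ) (by simp [hr])
  let pr : W₁ × (Fin k₁ → ℝ) →ₗ[ℝ] K := LinearMap.codRestrict K (LinearMap.id - ψ ∘ₗ lam)
    (fun x => by
      change lam (x - ψ (lam x)) = 0
      rw [map_sub, hlamψ, sub_self])
  have hpr : ∀ x, ((pr x : K) : W₁ × (Fin k₁ → ℝ)) = x - ψ (lam x) := fun x => rfl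
  have hdec : ∀ x : W₁ × (Fin k₁ → ℝ), x = (0, (lam x).1) + Q (0, (lam x).2) +
      ((pr x : K) : W₁ × (Fin k₁ → ℝ)) := by
    intro x
    rw [hpr, ← hψ]
    simp
  let Λ₁ : W₁ × (Fin k₁ → ℝ) →ₗ[ℝ] (Fin n → ℝ) :=
    (pad n k₁).comp ((LinearMap.fst ℝ _ _).comp lam)
  let Λ₂ : W₁ × (Fin k₁ → ℝ) →ₗ[ℝ] (Fin n → ℝ) :=
    (pad n k₂).comp ((LinearMap.snd ℝ _ _).comp lam)
  let Λ₃ : W₁ × (Fin k₁ → ℝ) →ₗ[ℝ] (Fin n → ℝ) := (pad n r).comp (eK.toLinearMap.comp pr)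
  have hΛ₁ : ∀ x, Λ₁ x = pad n k₁ (lam x).1 := fun x => rfl
  have hΛ₂ : ∀ x, Λ₂ x = pad n k₂ (lam x).2 := fun x => rfl
  have hΛ₃ : ∀ x, Λ₃ x = pad n r (eK (pr x)) := fun x => rfl
  have hlam1 : ∀ a, lam (0, a) = (a, 0) := by
    intro a
    have h3 : ψ (a, 0) = (0, a) := by
      rw [hψ]
      have : ((0 : W₂), (0 : Fin k₂ → ℝ)) = 0 := rfl
      rw [this, map_zero, add_zero]
    rw [← h3, hlamψ]
  have hlam2 : ∀ b, lam (Q (0, b)) = (0, b) := by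
    intro b
    have h3 : ψ (0, b) = Q (0, b) := by
      rw [hψ]
      have : ((0 : W₁), (0 : Fin k₁ → ℝ)) = 0 := rfl
      rw [this, zero_add]
    rw [← h3, hlamψ]
  have hpr1 : ∀ a, pr (0, a) = 0 := by
    intro a
    apply Subtype.ext
    rw [hpr, hlam1, hψ]
    have : ((0 : W₂), (0 : Fin k₂ → ℝ)) = 0 := rfl
    rw [this, map_zero, add_zero, sub_self]; rfl
  have hpr2 : ∀ b, pr (Q (0, b)) = 0 := by
    intro b
    apply Subtype.ext
    rw [hpr, hlam2, hψ]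
    have : ((0 : W₁), (0 : Fin k₁ → ℝ)) = 0 := rfl
    rw [this, zero_add, sub_self]; rfl
  have hphi1 : ∀ g, phi α₁ τ₁ g = (α₁ g, 0) + (0, fun i => (τ₁ g i : ℝ)) := by
    intro g; simp [phi]
  have hphi2 : ∀ g, phi α₂ τ₂ g = (α₂ g, 0) + (0, fun i => (τ₂ g i : ℝ)) := by
    intro g; simp [phi]
  have hΛinj : Function.Injective (Λ₁.prod (Λ₂.prod Λ₃)) := by
    rw [← LinearMap.ker_eq_bot, LinearMap.ker_eq_bot']
    intro x hx
    have h3 : Λ₁ x = 0 := congrArg Prod.fst hx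
    have h4 : Λ₂ x = 0 := congrArg (fun z => z.2.1) hx
    have h5 : Λ₃ x = 0 := congrArg (fun z => z.2.2) hx
    have h3' := congrArg (res n _ hk₁) h3
    have h4' := congrArg (res n _ hk₂) h4
    have h5' := congrArg (res n _ hrn) h5
    rw [hΛ₁, res_pad, map_zero] at h3'
    rw [hΛ₂, res_pad, map_zero] at h4'
    rw [hΛ₃, res_pad, map_zero] at h5'
    have h6 : pr x = 0 := eK.injective (by rw [h5', map_zero])
    rw [hdec x, h3', h4', h6]
    have h7 : ((0 : W₁), (0 : Fin k₁ → ℝ)) = 0 := rfl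
    have h8 : ((0 : W₂), (0 : Fin k₂ → ℝ)) = 0 := rfl
    rw [h7, h8, map_zero]
    simp
  refine ⟨r, fun g => Λ₁ (phi α₁ τ₁ g), fun g => Λ₂ (phi α₁ τ₁ g), fun g => Λ₃ (phi α₁ τ₁ g),
    (Λ₂.prod Λ₃).comp (LinearMap.inl ℝ W₁ (Fin k₁ → ℝ)),
    (Λ₁.prod Λ₃).comp (Q.comp (LinearMap.inl ℝ W₂ (Fin k₂ → ℝ))),
    (pad n k₁).comp ((LinearMap.snd ℝ W₁ (Fin k₁ → ℝ)).comp
      ((Q.comp ((LinearMap.inr ℝ W₂ (Fin k₂ → ℝ)).comp (res n k₂ hk₂))).coprod
        (K.subtype.comp (eK.symm.toLinearMap.comp (res n r hrn))))),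
    (pad n k₂).comp ((LinearMap.snd ℝ W₂ (Fin k₂ → ℝ)).comp (P.comp
      (((LinearMap.inr ℝ W₁ (Fin k₁ → ℝ)).comp (res n k₁ hk₁)).coprod
        (K.subtype.comp (eK.symm.toLinearMap.comp (res n r hrn)))))),
    ?_, ?_, ?_, ?_, ?_, ?_, ?_, ?_, ?_, ?_, ?_, ?_, ?_, ?_, ?_, ?_, ?_, ?_⟩
  · intro g h; simp only [phi_mul h₁, map_add]
  · intro g h; simp only [phi_mul h₁, map_add]
  · intro g h; simp only [phi_mul h₁, map_add]
  · intro g; exact pad_mem _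
  · intro g; exact pad_mem _
  · intro g; exact pad_mem _
  · rw [← LinearMap.ker_eq_bot, LinearMap.ker_eq_bot']
    intro w hw
    have h4 : Λ₂ (w, 0) = 0 := congrArg Prod.fst hw
    have h5 : Λ₃ (w, 0) = 0 := congrArg Prod.snd hw
    have h4' := congrArg (res n _ hk₂) h4
    have h5' := congrArg (res n _ hrn) h5
    rw [hΛ₂, res_pad, map_zero] at h4'
    rw [hΛ₃, res_pad, map_zero] at h5'
    have h6 : pr (w, 0) = 0 := eK.injective (by rw [h5', map_zero])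
    have h7 := congrArg Prod.fst (hdec (w, 0))
    rw [h4', h6] at h7
    have h8 : ((0 : W₂), (0 : Fin k₂ → ℝ)) = 0 := rfl
    rw [h8, map_zero] at h7
    simpa using h7
  · rw [← LinearMap.ker_eq_bot, LinearMap.ker_eq_bot']
    intro w hw
    have h4 : Λ₁ (Q (w, 0)) = 0 := congrArg Prod.fst hw
    have h5 : Λ₃ (Q (w, 0)) = 0 := congrArg Prod.snd hw
    have h4' := congrArg (res n _ hk₁) h4
    have h5' := congrArg (res n _ hrn) h5
    rw [hΛ₁, res_pad, map_zero] at h4'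
    rw [hΛ₃, res_pad, map_zero] at h5'
    have h6 : pr (Q (w, 0)) = 0 := eK.injective (by rw [h5', map_zero])
    have h7 := hdec (Q (w, 0))
    rw [h4', h6] at h7
    have h8 : ((0 : W₁), (0 : Fin k₁ → ℝ)) = 0 := rfl
    rw [h8, zero_add, Submodule.coe_zero, add_zero] at h7
    have h9 := congrArg P h7
    rw [hPQ, hPQ] at h9
    exact congrArg Prod.fst h9
  · intro x; exact ⟨pad_mem _, pad_mem _⟩
  · intro x; exact ⟨pad_mem _, pad_mem _⟩
  · intro z; exact pad_mem _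
  · intro z; exact pad_mem _
  · intro g
    change (Λ₂ (α₁ g, 0), Λ₃ (α₁ g, 0)) = (Λ₂ (phi α₁ τ₁ g), Λ₃ (phi α₁ τ₁ g))
    rw [hphi1 g, map_add, map_add, hΛ₂ (0, _), hΛ₃ (0, _), hlam1, hpr1]
    simp
  · intro g
    change (Λ₁ (Q (α₂ g, 0)), Λ₃ (Q (α₂ g, 0))) = (Λ₁ (phi α₁ τ₁ g), Λ₃ (phi α₁ τ₁ g))
    rw [← hQ g, hphi2 g, map_add, map_add, map_add, hΛ₁ (Q (0, _)), hΛ₃ (Q (0, _)), hlam2,
      hpr2]
    simp
  · intro g
    change emb n (τ₁ g) = pad n k₁ (lam (phi α₁ τ₁ g)).1 +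
      pad n k₁ (Q (0, res n k₂ hk₂ (pad n k₂ (lam (phi α₁ τ₁ g)).2)) +
        ((eK.symm (res n r hrn (pad n r (eK (pr (phi α₁ τ₁ g))))) : K) :
          W₁ × (Fin k₁ → ℝ))).2
    rw [res_pad, res_pad, LinearEquiv.symm_apply_apply, ← map_add, emb_eq]
    congr 1
    have h3 := congrArg Prod.snd (hdec (phi α₁ τ₁ g))
    rw [add_assoc] at h3
    exact h3
  · intro g
    change emb n (τ₂ g) = pad n k₂ (lam (phi α₁ τ₁ g)).2 +
      pad n k₂ (P ((0, res n k₁ hk₁ (pad n k₁ (lam (phi α₁ τ₁ g)).1)) +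
        ((eK.symm (res n r hrn (pad n r (eK (pr (phi α₁ τ₁ g))))) : K) :
          W₁ × (Fin k₁ → ℝ)))).2
    rw [res_pad, res_pad, LinearEquiv.symm_apply_apply, ← map_add, emb_eq]
    congr 1
    have h3 := congrArg (fun z => (P z).2) (hdec (phi α₁ τ₁ g))
    rw [hP] at h3
    have h4 : (0, (lam (phi α₁ τ₁ g)).1) + Q (0, (lam (phi α₁ τ₁ g)).2) +
        ((pr (phi α₁ τ₁ g) : K) : W₁ × (Fin k₁ → ℝ)) = Q (0, (lam (phi α₁ τ₁ g)).2) +
        ((0, (lam (phi α₁ τ₁ g)).1) + ((pr (phi α₁ τ₁ g) : K) : W₁ × (Fin k₁ → ℝ))) := by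
      abel
    rw [h4, map_add, hPQ] at h3
    exact h3
  · intro R
    apply (finite_of_injective h₁ (Λ₁.prod (Λ₂.prod Λ₃)) hΛinj R).subset
    intro g hg
    change ‖(Λ₁ (phi α₁ τ₁ g), (Λ₂ (phi α₁ τ₁ g), Λ₃ (phi α₁ τ₁ g)))‖ ≤ R
    rw [Prod.norm_def, Prod.norm_def]
    exact max_le hg.1 (max_le hg.2.1 hg.2.2)
  · obtain ⟨R, hR⟩ := cobdd_of_linear h₁ (Λ₁.prod (Λ₂.prod Λ₃))
    refine ⟨R, fun f₁ hf₁ f₂ hf₂ f₃ hf₃ => ?_⟩
    obtain ⟨g, hg⟩ := hR ((0, res n _ hk₁ f₁) + Q (0, res n _ hk₂ f₂) +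
      ((eK.symm (res n _ hrn f₃) : K) : W₁ × (Fin k₁ → ℝ)))
    refine ⟨g, ?_⟩
    have hlK : ∀ z : K, lam (z : W₁ × (Fin k₁ → ℝ)) = 0 := fun z => z.2
    have hprK : ∀ z : K, pr (z : W₁ × (Fin k₁ → ℝ)) = z := by
      intro z
      apply Subtype.ext
      rw [hpr, hlK, map_zero, sub_zero]
    have e1 : Λ₁ ((0, res n _ hk₁ f₁) + Q (0, res n _ hk₂ f₂) +
        ((eK.symm (res n _ hrn f₃) : K) : W₁ × (Fin k₁ → ℝ))) = f₁ := by
      rw [hΛ₁, map_add, map_add, hlam1, hlam2, hlK]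
      simp only [Prod.fst_add, add_zero]
      exact pad_res hk₁ f₁ hf₁
    have e2 : Λ₂ ((0, res n _ hk₁ f₁) + Q (0, res n _ hk₂ f₂) +
        ((eK.symm (res n _ hrn f₃) : K) : W₁ × (Fin k₁ → ℝ))) = f₂ := by
      rw [hΛ₂, map_add, map_add, hlam1, hlam2, hlK]
      simp only [Prod.snd_add, add_zero, zero_add]
      exact pad_res hk₂ f₂ hf₂
    have e3 : Λ₃ ((0, res n _ hk₁ f₁) + Q (0, res n _ hk₂ f₂) +
        ((eK.symm (res n _ hrn f₃) : K) : W₁ × (Fin k₁ → ℝ))) = f₃ := by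
      have e4 : pr ((0, res n _ hk₁ f₁) + Q (0, res n _ hk₂ f₂) +
          ((eK.symm (res n _ hrn f₃) : K) : W₁ × (Fin k₁ → ℝ))) = eK.symm (res n _ hrn f₃) := by
        rw [map_add, map_add, hpr1, hpr2, hprK, zero_add, zero_add]
      rw [hΛ₃, e4, LinearEquiv.apply_symm_apply]
      exact pad_res hrn f₃ hf₃
    have e5 : (Λ₁.prod (Λ₂.prod Λ₃)) ((0, res n _ hk₁ f₁) + Q (0, res n _ hk₂ f₂) +
        ((eK.symm (res n _ hrn f₃) : K) : W₁ × (Fin k₁ → ℝ))) = (f₁, (f₂, f₃)) :=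
      Prod.ext e1 (Prod.ext e2 e3)
    rw [e5] at hg
    change ‖(f₁ - Λ₁ (phi α₁ τ₁ g), (f₂ - Λ₂ (phi α₁ τ₁ g), f₃ - Λ₃ (phi α₁ τ₁ g)))‖ ≤ R at hg
    rw [Prod.norm_def, Prod.norm_def] at hg
    exact ⟨le_trans (le_max_left _ _) hg,
      le_trans (le_trans (le_max_left _ _) (le_max_right _ _)) hg,
      le_trans (le_trans (le_max_right _ _) (le_max_right _ _)) hg⟩

end Pool.Agent.H81.HDG
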