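import Mathlib

/-!
# Representatives of edges for a group action on a graph without inversions
-/

set_option autoImplicit false

namespace Pool.Agent.H81.HDG

section

variable {G V D : Type*} [Group G] [MulAction G V]

/-- pairs in the same orbit up to exchange -/
def pairSetoid (G V : Type*) [Group G] [MulAction G V] : Setoid (V × V) where
  r e e' := ∃ g : G, (g • e.1 = e'.1 ∧ g • e.2 = e'.2) ∨ (g • e.1 = e'.2 ∧ g • e.2 = e'.1)
  iseqv :=
    { refl := fun e => ⟨1, Or.inl ⟨one_smul _ _, one_smul _ _⟩⟩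
      symm := by
        rintro e e' ⟨g, h | h⟩
        · refine ⟨g⁻¹, Or.inl ⟨?_, ?_⟩⟩
          · rw [← h.1, inv_smul_smul]
          · rw [← h.2, inv_smul_smul]
        · refine ⟨g⁻¹, Or.inr ⟨?_, ?_⟩⟩
          · rw [← h.2, inv_smul_smul]
          · rw [← h.1, inv_smul_smul]
      trans := by
        rintro e e' e'' ⟨g, h | h⟩ ⟨g', h' | h'⟩
        · exact ⟨g' * g, Or.inl ⟨by rw [mul_smul, h.1, h'.1], by rw [mul_smul, h.2, h'.2]⟩⟩
        · exact ⟨g' * g, Or.inr ⟨by rw [mul_smul, h.1, h'.1], by rw [mul_smul, h.2, h'.2]⟩⟩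
        · exact ⟨g' * g, Or.inr ⟨by rw [mul_smul, h.1, h'.2], by rw [mul_smul, h.2, h'.1]⟩⟩
        · exact ⟨g' * g, Or.inl ⟨by rw [mul_smul, h.1, h'.2], by rw [mul_smul, h.2, h'.1]⟩⟩ }

theorem orient (T : SimpleGraph V) (noinv : ∀ (g : G) v w, T.Adj v w → g • v = w → g • w ≠ v)
    (adjs : ∀ (g : G) v w, T.Adj v w → T.Adj (g • v) (g • w))
    [Nonempty D] (Ok : V → V → D → Prop) (sw : D → D) (sw_sw : ∀ d, sw (sw d) = d)
    (Ok_sw : ∀ a b d, Ok a b d → Ok b a (sw d)) (ex : ∀ a b, T.Adj a b → ∃ d, Ok a b d) :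
    ∃ (r₁ r₂ : V → V → V) (t : V → V → G) (wd : V → V → D),
      (∀ v w, T.Adj v w → t v w • r₁ v w = v ∧ t v w • r₂ v w = w) ∧
      (∀ v w, T.Adj v w → r₁ w v = r₂ v w) ∧
      (∀ v w, T.Adj v w → t w v = t v w) ∧
      (∀ v w, T.Adj v w → wd w v = sw (wd v w)) ∧
      (∀ (g : G) v w, T.Adj v w → r₁ (g • v) (g • w) = r₁ v w ∧ r₂ (g • v) (g • w) = r₂ v w ∧
        wd (g • v) (g • w) = wd v w) ∧
      (∀ v w, T.Adj v w → Ok (r₁ v w) (r₂ v w) (wd v w)) := by
  classical
  let rep : V × V → V × V := fun e => Quotient.out (s := pairSetoid G V) ⟦e⟧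
  have hrep : ∀ e, ∃ g : G, (g • (rep e).1 = e.1 ∧ g • (rep e).2 = e.2) ∨
      (g • (rep e).1 = e.2 ∧ g • (rep e).2 = e.1) := by
    intro e
    exact Quotient.exact (s := pairSetoid G V) (Quotient.out_eq (s := pairSetoid G V) ⟦e⟧)
  have rep_eq : ∀ e e', (pairSetoid G V).r e e' → rep e = rep e' := by
    intro e e' h
    change Quotient.out (s := pairSetoid G V) ⟦e⟧ = Quotient.out (s := pairSetoid G V) ⟦e'⟧
    rw [Quotient.sound (s := pairSetoid G V) h]
  have rep_swap : ∀ v w, rep (w, v) = rep (v, w) := fun v w =>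
    rep_eq _ _ ⟨1, Or.inr ⟨one_smul _ _, one_smul _ _⟩⟩
  have rep_smul : ∀ (g : G) v w, rep (g • v, g • w) = rep (v, w) := fun g v w =>
    (rep_eq _ _ ⟨g, Or.inl ⟨rfl, rfl⟩⟩).symm
  let pos : V → V → Prop := fun v w => ∃ g : G, g • (rep (v, w)).1 = v ∧ g • (rep (v, w)).2 = w
  have pos_or : ∀ v w, pos v w ∨ pos w v := by
    intro v w
    obtain ⟨g, h | h⟩ := hrep (v, w)
    · exact Or.inl ⟨g, h⟩
    · right
      refine ⟨g, ?_⟩
      rw [rep_swap]; exact h
  have pos_not : ∀ v w, T.Adj v w → pos v w → ¬ pos w v := by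
    rintro v w hadj ⟨g, h1, h2⟩ ⟨k, h3, h4⟩
    rw [rep_swap] at h3 h4
    apply noinv (k * g⁻¹) v w hadj
    · rw [mul_smul, ← h1, inv_smul_smul]; exact h3
    · rw [mul_smul, ← h2, inv_smul_smul]; exact h4
  have pos_smul : ∀ (g : G) v w, pos (g • v) (g • w) ↔ pos v w := by
    intro g v w
    constructor
    · rintro ⟨k, h1, h2⟩
      rw [rep_smul] at h1 h2
      exact ⟨g⁻¹ * k, by rw [mul_smul, h1, inv_smul_smul], by rw [mul_smul, h2, inv_smul_smul]⟩
    · rintro ⟨k, h1, h2⟩
      refine ⟨g * k, ?_, ?_⟩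
      · rw [rep_smul, mul_smul, h1]
      · rw [rep_smul, mul_smul, h2]
  have exd : ∀ e : V × V, ∃ d : D, T.Adj e.1 e.2 → Ok e.1 e.2 d := by
    intro e
    by_cases h : T.Adj e.1 e.2
    · obtain ⟨d, hd⟩ := ex _ _ h
      exact ⟨d, fun _ => hd⟩
    · exact ⟨Classical.arbitrary D, fun h' => absurd h' h⟩
  choose d₀ hd₀ using exd
  have adjs' : ∀ (g : G) v w, T.Adj (g • v) (g • w) → T.Adj v w := by
    intro g v w h
    have := adjs g⁻¹ _ _ h
    rwa [inv_smul_smul, inv_smul_smul] at this
  refine ⟨fun v w => if pos v w then (rep (v, w)).1 else (rep (v, w)).2,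
    fun v w => if pos v w then (rep (v, w)).2 else (rep (v, w)).1,
    fun v w => if h : pos v w then Classical.choose h else
      if h' : pos w v then Classical.choose h' else 1,
    fun v w => if pos v w then d₀ (rep (v, w)) else sw (d₀ (rep (v, w))), ?_, ?_, ?_, ?_, ?_, ?_⟩
  · intro v w hadj
    by_cases h : pos v w
    · simp only [if_pos h, dif_pos h]
      exact Classical.choose_spec h
    · have h' : pos w v := (pos_or v w).resolve_left h
      simp only [if_neg h, dif_neg h, dif_pos h']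
      have := Classical.choose_spec h'
      have e : rep (w, v) = rep (v, w) := rep_swap v w
      constructor
      · refine Eq.trans ?_ this.2
        rw [← e]
      · refine Eq.trans ?_ this.1
        rw [← e]
  · intro v w hadj
    by_cases h : pos v w
    · simp only [if_pos h, if_neg (pos_not v w hadj h)]
      rw [rep_swap]
    · have h' : pos w v := (pos_or v w).resolve_left h
      simp only [if_neg h, if_pos h']
      rw [rep_swap]
  · intro v w hadj
    by_cases h : pos v w
    · simp only [dif_pos h, dif_neg (pos_not v w hadj h)]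
    · have h' : pos w v := (pos_or v w).resolve_left h
      simp only [dif_neg h, dif_pos h']
  · intro v w hadj
    by_cases h : pos v w
    · simp only [if_pos h, if_neg (pos_not v w hadj h)]
      rw [rep_swap]
    · have h' : pos w v := (pos_or v w).resolve_left h
      simp only [if_neg h, if_pos h']
      rw [rep_swap, sw_sw]
  · intro g v w hadj
    simp only [pos_smul, rep_smul, and_self]
  · intro v w hadj
    by_cases h : pos v w
    · simp only [if_pos h]
      apply hd₀
      obtain ⟨g, h1, h2⟩ := h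
      apply adjs' g
      rw [h1, h2]; exact hadj
    · have h' : pos w v := (pos_or v w).resolve_left h
      simp only [if_neg h]
      apply Ok_sw
      apply hd₀
      obtain ⟨g, h1, h2⟩ := h'
      rw [rep_swap] at h1 h2
      apply adjs' g
      rw [h1, h2]; exact hadj.symm

/-- Representatives of vertices. -/
theorem vrep (G V : Type*) [Group G] [MulAction G V] :
    ∃ (r : V → V) (t : V → G), (∀ v, t v • r v = v) ∧ (∀ (g : G) v, r (g • v) = r v) := by
  classical
  let rep : V → V := fun v => Quotient.out (s := MulAction.orbitRel G V) ⟦v⟧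
  have h1 : ∀ v, ∃ g : G, g • rep v = v := by
    intro v
    have h := Quotient.exact (s := MulAction.orbitRel G V)
      (Quotient.out_eq (s := MulAction.orbitRel G V) ⟦v⟧)
    have h2 : rep v ∈ MulAction.orbit G v := h
    obtain ⟨g, hg⟩ := h2
    exact ⟨g⁻¹, by rw [← hg, inv_smul_smul]⟩
  choose t ht using h1
  refine ⟨rep, t, ht, ?_⟩
  intro g v
  change Quotient.out (s := MulAction.orbitRel G V) ⟦g • v⟧ =
    Quotient.out (s := MulAction.orbitRel G V) ⟦v⟧
  congr 1
  apply Quotient.sound (s := MulAction.orbitRel G V)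
  exact ⟨g, rfl⟩

end

end Pool.Agent.H81.HDG
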