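import Mathlib
import Pool.Agent.H81.HDG.Struct
import Pool.Agent.H81.HDG.Horo
import Pool.Agent.H81.HDG.Lat
import Pool.Agent.H81.HDG.Orient

/-!
# Equivariant data at the vertices
-/

set_option autoImplicit false
set_option linter.unusedSectionVars false

namespace Pool.Agent.H81.HDG

universe u v

open MulAction

namespace IrreducibleHDG

variable {n : ℕ} {G : Type u} [Group G] (H : IrreducibleHDG.{u, v} n G)

instance : MulAction G H.V := H.act

open Classical in
/-- lambda lengths at a representative -/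
noncomputable def S0 (r x y : H.V) : ℝ :=
  if h : H.piece r then - lor ((H.data r h).u x) ((H.data r h).u y) else 0

open Classical in
/-- fibre translation at a representative -/
noncomputable def T0 (r : H.V) (g : G) : Fin n → ℝ :=
  if h : H.piece r ∧ g • r = r then emb n (Multiplicative.toAdd ((H.data r h.1).τ ⟨g, h.2⟩)) else 0

open Classical in
/-- fibre dimension at a representative -/
noncomputable def k0 (r : H.V) : ℕ := if h : H.piece r then (H.data r h).k else 0

theorem emb_add {k : ℕ} (z z' : Fin k → ℤ) : emb n (z + z') = emb n z + emb n z' := by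
  funext i
  unfold emb
  simp only [Pi.add_apply]
  split_ifs
  · push_cast; rfl
  · simp

theorem emb_mem {k : ℕ} (z : Fin k → ℤ) : emb n z ∈ FSub n k := by
  intro i hi
  unfold emb
  rw [dif_neg (by omega)]

theorem adj_iff (g : G) (v w : H.V) : H.T.Adj (g • v) (g • w) ↔ H.T.Adj v w := by
  constructor
  · intro h
    have := H.adj_smul g⁻¹ _ _ h
    rwa [inv_smul_smul, inv_smul_smul] at this
  · exact H.adj_smul g v w

theorem adj_stab {g : G} {r x : H.V} (hg : g • r = r) : H.T.Adj r (g • x) ↔ H.T.Adj r x := by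
  conv_lhs => rw [← hg]
  exact H.adj_iff g r x

theorem piece_iff (g : G) (v : H.V) : H.piece (g • v) ↔ H.piece v := by
  constructor
  · intro h
    have := H.piece_smul g⁻¹ _ h
    rwa [inv_smul_smul] at this
  · exact H.piece_smul g v

theorem S0_smul {g : G} {r x y : H.V} (hg : g • r = r) (hx : H.T.Adj r x) (hy : H.T.Adj r y) :
    H.S0 r (g • x) (g • y) = H.S0 r x y := by
  unfold S0
  split_ifs with h
  · have e1 := (H.data r h).equiv ⟨g, hg⟩ x hx
    have e2 := (H.data r h).equiv ⟨g, hg⟩ y hy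
    have f1 : (⟨g, hg⟩ : stabilizer G r) • x = g • x := rfl
    have f2 : (⟨g, hg⟩ : stabilizer G r) • y = g • y := rfl
    rw [f1] at e1
    rw [f2] at e2
    rw [e1, e2, (H.data r h).lor_ρ]
  · rfl

theorem lor_comm' {m : ℕ} (a b : Mink m) : lor a b = lor b a := by
  unfold lor
  rw [real_inner_comm]; ring

theorem S0_symm (r x y : H.V) : H.S0 r x y = H.S0 r y x := by
  unfold S0
  split_ifs
  · rw [lor_comm']
  · rfl

theorem S0_ge {r x y : H.V} (h : H.piece r) (hx : H.T.Adj r x) (hy : H.T.Adj r y) (hxy : x ≠ y) :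
    2 ≤ H.S0 r x y := by
  unfold S0
  rw [dif_pos h]
  have := (H.data r h).disjoint x hx y hy hxy
  linarith

theorem T0_mul {g g' : G} {r : H.V} (hg : g • r = r) (hg' : g' • r = r) :
    H.T0 r (g * g') = H.T0 r g + H.T0 r g' := by
  unfold T0
  by_cases h : H.piece r
  · have hgg : (g * g') • r = r := by rw [mul_smul, hg', hg]
    rw [dif_pos ⟨h, hgg⟩, dif_pos ⟨h, hg⟩, dif_pos ⟨h, hg'⟩, ← emb_add]
    congr 1
    have : (⟨g * g', hgg⟩ : stabilizer G r) = ⟨g, hg⟩ * ⟨g', hg'⟩ := rfl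
    rw [this, map_mul, toAdd_mul]
  · rw [dif_neg (fun h' => h h'.1), dif_neg (fun h' => h h'.1), dif_neg (fun h' => h h'.1),
      add_zero]

theorem T0_mem (g : G) (r : H.V) : H.T0 r g ∈ FSub n (H.k0 r) := by
  unfold T0 k0
  by_cases h : H.piece r
  · rw [dif_pos h]
    split_ifs
    · exact emb_mem _
    · exact Submodule.zero_mem _
  · rw [dif_neg (fun h' : H.piece r ∧ g • r = r => h h'.1)]
    exact Submodule.zero_mem _

theorem k0_le {r : H.V} (h : H.piece r) : H.k0 r ≤ n := by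
  unfold k0
  rw [dif_pos h]
  have := (H.data r h).dim
  omega

/-- The horosphere at the wall `{r, w}` as a lattice, for a representative `r`. -/
theorem horo0 {r w : H.V} (hr : H.piece r) (hw : H.T.Adj r w) :
    ∃ (m : ℕ) (W : Submodule ℝ (EuclideanSpace ℝ (Fin m)))
      (α : ↥(stabilizer G r ⊓ stabilizer G w) → W)
      (τ : ↥(stabilizer G r ⊓ stabilizer G w) → Fin (H.k0 r) → ℤ) (q : H.V → W),
      Module.finrank ℝ W ≤ n ∧ IsLat α τ ∧
      (∀ g, emb n (τ g) = H.T0 r g) ∧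
      (∀ g, α g = 0 → (g : G) ∈ H.fib r) ∧
      (∀ g : ↥(stabilizer G r ⊓ stabilizer G w), ∀ x, H.T.Adj r x → x ≠ w →
        q ((g : G) • x) = q x + α g) ∧
      (∀ x y, H.T.Adj r x → H.T.Adj r y → x ≠ w → y ≠ w →
        ‖q x - q y‖ ^ 2 = 2 * H.S0 r x y / (H.S0 r w x * H.S0 r w y)) := by
  classical
  set P := H.data r hr with hP
  have hk : H.k0 r = P.k := by unfold k0; rw [dif_pos hr]
  obtain ⟨W, α, q, hW, h1, h2, h3, h4, h5, h6⟩ := P.horo (w := w) hw
  rw [hk]
  let ι : ↥(stabilizer G r ⊓ stabilizer G w) → stabilizer G r := fun g => ⟨g.1, g.2.1⟩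
  have ιw : ∀ g, ι g • w = w := fun g => g.2.2
  have ιm : ∀ g g', ι (g * g') = ι g * ι g' := fun g g' => rfl
  refine ⟨P.m, W, fun g => α (ι g), fun g => Multiplicative.toAdd (P.τ (ι g)), q, ?_, ?_, ?_, ?_,
    ?_, ?_⟩
  · have := P.dim
    omega
  · refine ⟨?_, ?_, ?_, ?_, ?_, ?_⟩
    · intro g g'
      rw [ιm]
      exact h1 _ _ (ιw g) (ιw g')
    · intro g g'
      rw [ιm, map_mul, toAdd_mul]
    · intro g ha ht
      have e1 : P.ρ (ι g) = 1 := (h2 _ (ιw g)).1 ha
      have e2 : P.τ (ι g) = 1 := by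
        have : Multiplicative.toAdd (P.τ (ι g)) = 0 := ht
        exact toAdd_eq_zero.1 this
      obtain ⟨k, _, hk2⟩ := P.prod 1 1
      have a1 := hk2 (ι g) ⟨by rw [e1, map_one], e2⟩
      have a2 := hk2 1 ⟨rfl, map_one _⟩
      have a3 : ι g = 1 := a1.trans a2.symm
      apply Subtype.ext
      have := congrArg Subtype.val a3
      exact this
    · intro z
      obtain ⟨k, ⟨hk1, hk2⟩, _⟩ := P.prod 1 (Multiplicative.ofAdd z)
      rw [map_one] at hk1
      have hkw : k • w = w := P.smul_of_ρ k hk1 hw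
      refine ⟨⟨k.1, k.2, hkw⟩, ?_, ?_⟩
      · exact (h2 k hkw).2 hk1
      · change Multiplicative.toAdd (P.τ k) = z
        rw [hk2]; rfl
    · intro R
      have hfin := h3 R
      have hmap : ∀ A ∈ {A | ∃ g : stabilizer G r, g • w = w ∧ ‖α g‖ ≤ R ∧ P.ρ g = A},
          ∃ x : W, ∀ g : stabilizer G r, g • w = w → P.ρ g = A → α g = x := by
        rintro A ⟨g, hg, _, hgA⟩
        refine ⟨α g, ?_⟩
        intro g' hg' hgA'
        have e1 : α (g' * g⁻¹) = 0 := by
          rw [h2]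
          · rw [map_mul, map_inv, hgA', hgA, mul_inv_cancel]
          · rw [mul_smul, inv_smul_eq_iff.2 hg.symm, hg']
        have e2 := h1 (g' * g⁻¹) g (by rw [mul_smul, inv_smul_eq_iff.2 hg.symm, hg']) hg
        rw [inv_mul_cancel_right, e1, zero_add] at e2
        exact e2
      choose! f hf using hmap
      refine (hfin.image f).subset ?_
      rintro x ⟨g, hg, rfl⟩
      have hmem : P.ρ (ι g) ∈ {A | ∃ g : stabilizer G r, g • w = w ∧ ‖α g‖ ≤ R ∧ P.ρ g = A} :=
        ⟨ι g, ιw g, hg, rfl⟩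
      exact ⟨P.ρ (ι g), hmem, (hf _ hmem (ι g) (ιw g) rfl).symm⟩
    · obtain ⟨R, hR⟩ := h4
      refine ⟨R, fun x => ?_⟩
      obtain ⟨g, hg, hgR⟩ := hR x
      exact ⟨⟨g.1, g.2, hg⟩, hgR⟩
  · intro g
    unfold T0
    rw [dif_pos ⟨hr, g.2.1⟩]
  · intro g hg
    have e1 : P.ρ (ι g) = 1 := (h2 _ (ιw g)).1 hg
    exact (H.fib_eq r hr g).2 ⟨g.2.1, e1⟩
  · intro g x hx hxw
    exact h5 (ι g) (ιw g) x hx hxw
  · intro x y hx hy hxw hyw
    unfold S0
    rw [dif_pos hr, dif_pos hr, dif_pos hr]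
    exact h6 x hx y hy hxw hyw

end IrreducibleHDG

end Pool.Agent.H81.HDG
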