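import Mathlib
import Pool.Agent.H81.HDG.Vertex

/-!
# Coordinates on the walls
-/

set_option autoImplicit false
set_option linter.unusedSectionVars false

namespace Pool.Agent.H81.HDG

universe u v

open MulAction

theorem lin_bounds {W F : Type*} [NormedAddCommGroup W] [NormedSpace ℝ W] [FiniteDimensional ℝ W]
    [NormedAddCommGroup F] [NormedSpace ℝ F] (ℓ : W →ₗ[ℝ] F) (h : Function.Injective ℓ) :
    ∃ c C : ℝ, 0 < c ∧ 0 < C ∧ ∀ x, c * ‖x‖ ≤ ‖ℓ x‖ ∧ ‖ℓ x‖ ≤ C * ‖x‖ := by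
  obtain ⟨K, hK, hl⟩ := ℓ.exists_antilipschitzWith (LinearMap.ker_eq_bot.2 h)
  set L := LinearMap.toContinuousLinearMap ℓ with hL
  refine ⟨(K : ℝ)⁻¹, ‖L‖ + 1, by positivity, by positivity, ?_⟩
  intro x
  constructor
  · have := hl.le_mul_dist x 0
    rw [dist_zero_right, map_zero, dist_zero_right] at this
    rw [inv_mul_le_iff₀ (by exact_mod_cast hK)]
    exact this
  · have := L.le_opNorm x
    have e : L x = ℓ x := rfl
    rw [e] at this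
    have := norm_nonneg x
    nlinarith

theorem IsLat.comp {Γ Γ₀ : Type*} [Group Γ] [Group Γ₀] {W : Type*} [NormedAddCommGroup W]
    [NormedSpace ℝ W] {k : ℕ} {α : Γ₀ → W} {τ : Γ₀ → Fin k → ℤ} (h : IsLat α τ) (c : Γ ≃* Γ₀) :
    IsLat (fun g => α (c g)) (fun g => τ (c g)) where
  α_mul g g' := by rw [map_mul]; exact h.α_mul _ _
  τ_mul g g' := by rw [map_mul]; exact h.τ_mul _ _
  inj g h1 h2 := by
    have := h.inj _ h1 h2
    simpa using this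
  surj z := by
    obtain ⟨g, h1, h2⟩ := h.surj z
    exact ⟨c.symm g, by simpa using h1, by simpa using h2⟩
  prop R := by
    refine (h.prop R).subset ?_
    rintro x ⟨g, hg, rfl⟩
    exact ⟨c g, hg, rfl⟩
  cobdd := by
    obtain ⟨R, hR⟩ := h.cobdd
    refine ⟨R, fun x => ?_⟩
    obtain ⟨g, hg⟩ := hR x
    exact ⟨c.symm g, by simpa using hg⟩

namespace IrreducibleHDG

variable {n : ℕ} {G : Type u} [Group G] (H : IrreducibleHDG.{u, v} n G)

/-- representatives of the vertices -/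
noncomputable def rv : H.V → H.V := (vrep G H.V).choose

/-- transport elements -/
noncomputable def tv : H.V → G := (vrep G H.V).choose_spec.choose

theorem tv_smul (v : H.V) : H.tv v • H.rv v = v := (vrep G H.V).choose_spec.choose_spec.1 v

theorem rv_smul (g : G) (v : H.V) : H.rv (g • v) = H.rv v :=
  (vrep G H.V).choose_spec.choose_spec.2 g v

theorem tv_inv (v : H.V) : (H.tv v)⁻¹ • v = H.rv v := by
  rw [inv_smul_eq_iff, tv_smul]

theorem piece_rv (v : H.V) : H.piece (H.rv v) ↔ H.piece v := by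
  conv_rhs => rw [← H.tv_smul v]
  exact (H.piece_iff _ _).symm

/-- lambda lengths -/
noncomputable def s (v x y : H.V) : ℝ := H.S0 (H.rv v) ((H.tv v)⁻¹ • x) ((H.tv v)⁻¹ • y)

/-- translation of the fibre of `v` by `g` -/
noncomputable def Tc (g : G) (v : H.V) : Fin n → ℝ :=
  H.T0 (H.rv v) ((H.tv (g • v))⁻¹ * g * H.tv v)

/-- dimension of the fibre -/
noncomputable def kk (v : H.V) : ℕ := H.k0 (H.rv v)

theorem kk_smul (g : G) (v : H.V) : H.kk (g • v) = H.kk v := by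
  unfold kk; rw [rv_smul]

theorem kk_leaf {v : H.V} (hv : ¬ H.piece v) : H.kk v = 0 := by
  unfold kk k0
  rw [dif_neg]
  rwa [H.piece_rv]

theorem conj_stab (g : G) (v : H.V) : ((H.tv (g • v))⁻¹ * g * H.tv v) • H.rv v = H.rv v := by
  rw [mul_smul, H.tv_smul, mul_smul, H.tv_inv, H.rv_smul]

theorem adj_tv {v x : H.V} : H.T.Adj (H.rv v) ((H.tv v)⁻¹ • x) ↔ H.T.Adj v x := by
  rw [← H.tv_inv v]
  exact H.adj_iff _ _ _

theorem s_smul (g : G) {v x y : H.V} (hx : H.T.Adj v x) (hy : H.T.Adj v y) :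
    H.s (g • v) (g • x) (g • y) = H.s v x y := by
  unfold s
  rw [H.rv_smul]
  have e : ∀ z : H.V, (H.tv (g • v))⁻¹ • g • z =
      ((H.tv (g • v))⁻¹ * g * H.tv v) • ((H.tv v)⁻¹ • z) := by
    intro z
    rw [mul_smul _ (H.tv v), smul_inv_smul, mul_smul]
  rw [e, e, H.S0_smul (H.conj_stab g v) (H.adj_tv.2 hx) (H.adj_tv.2 hy)]

theorem s_symm (v x y : H.V) : H.s v x y = H.s v y x := H.S0_symm _ _ _

theorem s_ge {v x y : H.V} (hv : H.piece v) (hx : H.T.Adj v x) (hy : H.T.Adj v y)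
    (hxy : x ≠ y) : 2 ≤ H.s v x y := by
  apply H.S0_ge ((H.piece_rv v).2 hv) (H.adj_tv.2 hx) (H.adj_tv.2 hy)
  intro h
  apply hxy
  have := congrArg (fun z => H.tv v • z) h
  simpa using this

theorem Tc_mul (g h : G) (v : H.V) : H.Tc (g * h) v = H.Tc g (h • v) + H.Tc h v := by
  unfold Tc
  rw [H.rv_smul]
  have e : (H.tv ((g * h) • v))⁻¹ * (g * h) * H.tv v =
      ((H.tv (g • h • v))⁻¹ * g * H.tv (h • v)) * ((H.tv (h • v))⁻¹ * h * H.tv v) := by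
    rw [mul_smul]; group
  rw [e]
  apply H.T0_mul
  · have := H.conj_stab g (h • v)
    rwa [H.rv_smul] at this
  · exact H.conj_stab h v

theorem Tc_mem (g : G) (v : H.V) : H.Tc g v ∈ FSub n (H.kk v) := H.T0_mem _ _

theorem Tc_leaf (g : G) {v : H.V} (hv : ¬ H.piece v) : H.Tc g v = 0 := by
  unfold Tc T0
  rw [dif_neg]
  intro h
  exact hv ((H.piece_rv v).1 h.1)

theorem kk_le {v : H.V} (hv : H.piece v) : H.kk v ≤ n := H.k0_le ((H.piece_rv v).2 hv)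

/-- conjugation -/
noncomputable def conjIso (v w : H.V) : ↥(stabilizer G v ⊓ stabilizer G w) ≃*
    ↥(stabilizer G (H.rv v) ⊓ stabilizer G ((H.tv v)⁻¹ • w)) where
  toFun g := ⟨(H.tv v)⁻¹ * g * H.tv v, by
    constructor
    · change ((H.tv v)⁻¹ * (g : G) * H.tv v) • H.rv v = H.rv v
      have hg : (g : G) • v = v := g.2.1
      rw [mul_smul, H.tv_smul, mul_smul, hg, H.tv_inv]
    · change ((H.tv v)⁻¹ * (g : G) * H.tv v) • ((H.tv v)⁻¹ • w) = (H.tv v)⁻¹ • w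
      have hg : (g : G) • w = w := g.2.2
      rw [mul_smul, smul_inv_smul, mul_smul, hg]⟩
  invFun g := ⟨H.tv v * g * (H.tv v)⁻¹, by
    constructor
    · change (H.tv v * (g : G) * (H.tv v)⁻¹) • v = v
      have hg : (g : G) • H.rv v = H.rv v := g.2.1
      rw [mul_smul, H.tv_inv, mul_smul, hg, H.tv_smul]
    · change (H.tv v * (g : G) * (H.tv v)⁻¹) • w = w
      have hg : (g : G) • ((H.tv v)⁻¹ • w) = (H.tv v)⁻¹ • w := g.2.2
      rw [mul_smul, mul_smul, hg, smul_inv_smul]⟩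
  left_inv g := by
    apply Subtype.ext
    simp only
    group
  right_inv g := by
    apply Subtype.ext
    simp only
    group
  map_mul' g g' := by
    apply Subtype.ext
    simp only [Subgroup.coe_mul]
    group

/-- The horosphere at the wall `{v, w}` as a lattice. -/
theorem horoV {v w : H.V} (hv : H.piece v) (hw : H.T.Adj v w) :
    ∃ (m : ℕ) (W : Submodule ℝ (EuclideanSpace ℝ (Fin m)))
      (α : ↥(stabilizer G v ⊓ stabilizer G w) → W)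
      (τ : ↥(stabilizer G v ⊓ stabilizer G w) → Fin (H.kk v) → ℤ) (q : H.V → W),
      Module.finrank ℝ W ≤ n ∧ IsLat α τ ∧
      (∀ g : ↥(stabilizer G v ⊓ stabilizer G w), emb n (τ g) = H.Tc g v) ∧
      (∀ g, α g = 0 → (g : G) ∈ H.fib v) ∧
      (∀ g : ↥(stabilizer G v ⊓ stabilizer G w), ∀ x, H.T.Adj v x → x ≠ w →
        q ((g : G) • x) = q x + α g) ∧
      (∀ x y, H.T.Adj v x → H.T.Adj v y → x ≠ w → y ≠ w →
        ‖q x - q y‖ ^ 2 = 2 * H.s v x y / (H.s v w x * H.s v w y)) := by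
  obtain ⟨m, W, α, τ, q, h1, h2, h3, h4, h5, h6⟩ :=
    H.horo0 ((H.piece_rv v).2 hv) (H.adj_tv.2 hw)
  have hne : ∀ x, x ≠ w → (H.tv v)⁻¹ • x ≠ (H.tv v)⁻¹ • w := by
    intro x hx h
    apply hx
    have := congrArg (fun z => H.tv v • z) h
    simpa using this
  refine ⟨m, W, fun g => α (H.conjIso v w g), fun g => τ (H.conjIso v w g),
    fun x => q ((H.tv v)⁻¹ • x), h1, h2.comp (H.conjIso v w), ?_, ?_, ?_, ?_⟩
  · intro g
    have hg : (g : G) • v = v := g.2.1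
    have e1 : H.Tc (g : G) v = H.T0 (H.rv v) (H.conjIso v w g) := by
      unfold Tc
      rw [hg]
      rfl
    rw [e1]
    exact h3 (H.conjIso v w g)
  · intro g hg
    have e1 := H.fib_conj (H.tv v) _ _ (h4 _ hg)
    rw [H.tv_smul] at e1
    have e2 : H.tv v * ((H.conjIso v w g : G)) * (H.tv v)⁻¹ = g := by
      change H.tv v * ((H.tv v)⁻¹ * (g : G) * H.tv v) * (H.tv v)⁻¹ = g
      group
    rwa [e2] at e1
  · intro g x hx hxw
    have := h5 (H.conjIso v w g) ((H.tv v)⁻¹ • x) (H.adj_tv.2 hx) (hne x hxw)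
    rw [← this]
    change q ((H.tv v)⁻¹ • (g : G) • x) = q (((H.tv v)⁻¹ * (g : G) * H.tv v) • (H.tv v)⁻¹ • x)
    rw [mul_smul _ (H.tv v), smul_inv_smul, mul_smul]
  · intro x y hx hy hxw hyw
    exact h6 _ _ (H.adj_tv.2 hx) (H.adj_tv.2 hy) (hne x hxw) (hne y hyw)

end IrreducibleHDG

/-- Coordinates on a wall (raw data). -/
structure WD (n : ℕ) (G V : Type*) where
  π₁ : G → Fin n → ℝ
  π₂ : G → Fin n → ℝ
  π₃ : G → Fin n → ℝ
  p₁ : V → (Fin n → ℝ) × (Fin n → ℝ)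
  p₂ : V → (Fin n → ℝ) × (Fin n → ℝ)
  κ₁ : (Fin n → ℝ) × (Fin n → ℝ) →ₗ[ℝ] (Fin n → ℝ)
  κ₂ : (Fin n → ℝ) × (Fin n → ℝ) →ₗ[ℝ] (Fin n → ℝ)
  C : Submodule ℝ (Fin n → ℝ)
  c : ℝ
  Cc : ℝ
  Rb : ℝ

/-- exchange of the two sides -/
def WD.swap {n : ℕ} {G V : Type*} (d : WD n G V) : WD n G V :=
  ⟨d.π₂, d.π₁, d.π₃, d.p₂, d.p₁, d.κ₂, d.κ₁, d.C, d.c, d.Cc, d.Rb⟩

/-- properties of the first side -/
structure OkSide {n : ℕ} {G : Type u} [Group G] (H : IrreducibleHDG.{u, v} n G) (a b : H.V)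
    (d : WD n G H.V) : Prop where
  p_eq : ∀ g : G, g • a = a → g • b = b → ∀ x, H.T.Adj a x → x ≠ b →
    d.p₁ (g • x) = d.p₁ x + (d.π₂ g, d.π₃ g)
  p_mem : ∀ x, H.T.Adj a x → x ≠ b → (d.p₁ x).1 ∈ FSub n (H.kk b) ∧ (d.p₁ x).2 ∈ d.C
  τ_eq : ∀ g : G, g • a = a → g • b = b → H.Tc g a = d.π₁ g + d.κ₁ (d.π₂ g, d.π₃ g)
  κ_mem : ∀ z, d.κ₁ z ∈ FSub n (H.kk a)
  π_mem : ∀ g : G, g • a = a → g • b = b → d.π₁ g ∈ FSub n (H.kk a)
  π_mul : ∀ g h : G, g • a = a → g • b = b → h • a = a → h • b = b →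
    d.π₁ (g * h) = d.π₁ g + d.π₁ h
  lower : ∀ x y, H.T.Adj a x → H.T.Adj a y → x ≠ b → y ≠ b → x ≠ y →
    d.c * √(H.s a x y / (H.s a b x * H.s a b y)) ≤ ‖d.p₁ x - d.p₁ y‖
  upper : ∀ x y, H.T.Adj a x → H.T.Adj a y → x ≠ b → y ≠ b → x ≠ y →
    ‖d.p₁ x - d.p₁ y‖ ≤ d.Cc * √(H.s a x y / (H.s a b x * H.s a b y))

/-- properties of the coordinates of a wall -/
structure Ok {n : ℕ} {G : Type u} [Group G] (H : IrreducibleHDG.{u, v} n G) (a b : H.V)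
    (d : WD n G H.V) : Prop where
  one : OkSide H a b d
  two : OkSide H b a d.swap
  π₃_mem : ∀ g : G, g • a = a → g • b = b → d.π₃ g ∈ d.C
  π₃_mul : ∀ g h : G, g • a = a → g • b = b → h • a = a → h • b = b →
    d.π₃ (g * h) = d.π₃ g + d.π₃ h
  proper : ∀ R : ℝ, {g : G | g • a = a ∧ g • b = b ∧ ‖d.π₁ g‖ ≤ R ∧ ‖d.π₂ g‖ ≤ R ∧
    ‖d.π₃ g‖ ≤ R}.Finite
  cobdd : ∀ x ∈ FSub n (H.kk a), ∀ y ∈ FSub n (H.kk b), ∀ z ∈ d.C, ∃ g : G, g • a = a ∧
    g • b = b ∧ ‖x - d.π₁ g‖ ≤ d.Rb ∧ ‖y - d.π₂ g‖ ≤ d.Rb ∧ ‖z - d.π₃ g‖ ≤ d.Rb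
  c_pos : 0 < d.c
  Cc_pos : 0 < d.Cc

theorem Ok.swap {n : ℕ} {G : Type u} [Group G] {H : IrreducibleHDG.{u, v} n G} {a b : H.V}
    {d : WD n G H.V} (h : Ok H a b d) : Ok H b a d.swap where
  one := h.two
  two := h.one
  π₃_mem g h1 h2 := h.π₃_mem g h2 h1
  π₃_mul g g' h1 h2 h3 h4 := h.π₃_mul g g' h2 h1 h4 h3
  proper R := by
    refine (h.proper R).subset ?_
    rintro g ⟨h1, h2, h3, h4, h5⟩
    exact ⟨h2, h1, h4, h3, h5⟩
  cobdd x hx y hy z hz := by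
    obtain ⟨g, h1, h2, h3, h4, h5⟩ := h.cobdd y hy x hx z hz
    exact ⟨g, h2, h1, h4, h3, h5⟩
  c_pos := h.c_pos
  Cc_pos := h.Cc_pos

end Pool.Agent.H81.HDG
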