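import Mathlib
import Pool.Agent.H81.HDG.Wall

/-!
# Existence of coordinates on the walls
-/

set_option autoImplicit false
set_option linter.unusedSectionVars false

namespace Pool.Agent.H81.HDG

universe u v

open MulAction

variable {n : ℕ} {G : Type u} [Group G] (H : IrreducibleHDG.{u, v} n G)

theorem okSide_of {a b : H.V} (ha : H.piece a) (hab : H.T.Adj a b) (d : WD n G H.V)
    {W : Type*} [NormedAddCommGroup W] [NormedSpace ℝ W] (q : H.V → W) (α : G → W)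
    (hq : ∀ g : G, g • a = a → g • b = b → ∀ x, H.T.Adj a x → x ≠ b → q (g • x) = q x + α g)
    (hn : ∀ x y, H.T.Adj a x → H.T.Adj a y → x ≠ b → y ≠ b →
      ‖q x - q y‖ ^ 2 = 2 * H.s a x y / (H.s a b x * H.s a b y))
    (ℓ : W →ₗ[ℝ] (Fin n → ℝ) × (Fin n → ℝ)) {c C : ℝ} (hc : 0 < c) (hC : 0 < C)
    (hb : ∀ x, c * ‖x‖ ≤ ‖ℓ x‖ ∧ ‖ℓ x‖ ≤ C * ‖x‖) (hdc : d.c ≤ c * √2) (hdC : C * √2 ≤ d.Cc)
    (hp : ∀ x, d.p₁ x = ℓ (q x))
    (hℓ : ∀ g : G, g • a = a → g • b = b → ℓ (α g) = (d.π₂ g, d.π₃ g))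
    (hmem : ∀ x, (ℓ x).1 ∈ FSub n (H.kk b) ∧ (ℓ x).2 ∈ d.C)
    (τ_eq : ∀ g : G, g • a = a → g • b = b → H.Tc g a = d.π₁ g + d.κ₁ (d.π₂ g, d.π₃ g))
    (κ_mem : ∀ z, d.κ₁ z ∈ FSub n (H.kk a))
    (π_mem : ∀ g : G, g • a = a → g • b = b → d.π₁ g ∈ FSub n (H.kk a))
    (π_mul : ∀ g h : G, g • a = a → g • b = b → h • a = a → h • b = b →
      d.π₁ (g * h) = d.π₁ g + d.π₁ h) : OkSide H a b d where
  p_eq g h1 h2 x hx hxb := by
    rw [hp, hp, hq g h1 h2 x hx hxb, map_add, hℓ g h1 h2]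
  p_mem x _ _ := by rw [hp]; exact hmem _
  τ_eq := τ_eq
  κ_mem := κ_mem
  π_mem := π_mem
  π_mul := π_mul
  lower x y hx hy hxb hyb hxy := by
    have s1 := H.s_ge ha hab hx hxb.symm
    have s2 := H.s_ge ha hab hy hyb.symm
    have s3 := H.s_ge ha hx hy hxy
    have e1 := hn x y hx hy hxb hyb
    have e2 : ‖q x - q y‖ = √2 * √(H.s a x y / (H.s a b x * H.s a b y)) := by
      rw [← Real.sqrt_mul (by norm_num), ← mul_div_assoc, ← e1, Real.sqrt_sq (norm_nonneg _)]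
    rw [hp, hp, ← map_sub]
    refine le_trans ?_ (hb _).1
    rw [e2, ← mul_assoc]
    gcongr
  upper x y hx hy hxb hyb hxy := by
    have s1 := H.s_ge ha hab hx hxb.symm
    have s2 := H.s_ge ha hab hy hyb.symm
    have s3 := H.s_ge ha hx hy hxy
    have e1 := hn x y hx hy hxb hyb
    have e2 : ‖q x - q y‖ = √2 * √(H.s a x y / (H.s a b x * H.s a b y)) := by
      rw [← Real.sqrt_mul (by norm_num), ← mul_div_assoc, ← e1, Real.sqrt_sq (norm_nonneg _)]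
    rw [hp, hp, ← map_sub]
    refine le_trans (hb _).2 ?_
    rw [e2, ← mul_assoc]
    gcongr

theorem inf_mem {a b : H.V} {g : G} (h1 : g • a = a) (h2 : g • b = b) :
    g ∈ stabilizer G a ⊓ stabilizer G b := ⟨h1, h2⟩

theorem exists_ok_two {a b : H.V} (ha : H.piece a) (hb : H.piece b) (hab : H.T.Adj a b) :
    ∃ d : WD n G H.V, Ok H a b d := by
  classical
  obtain ⟨m₁, W₁, α₁, τ₁, q₁, a1, a2, a3, a4, a5, a6⟩ := H.horoV ha hab
  obtain ⟨m₂, W₂, α₂, τ₂, q₂, b1, b2, b3, b4, b5, b6⟩ := H.horoV hb hab.symm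
  let c : ↥(stabilizer G a ⊓ stabilizer G b) ≃* ↥(stabilizer G b ⊓ stabilizer G a) :=
    MulEquiv.subgroupCongr (inf_comm _ _)
  have hcv : ∀ g, ((c g : ↥(stabilizer G b ⊓ stabilizer G a)) : G) = g := fun g => rfl
  obtain ⟨r, π₁, π₂, π₃, ℓ₁, ℓ₂, κ₁, κ₂, e1, e2, e3, e4, e5, e6, e7, e8, e9, e10, e11, e12, e13,
    e14, e15, e16, e17, e18⟩ := lattice_two (H.kk_le ha) (H.kk_le hb) a1 b1 α₁ τ₁
      (fun g => α₂ (c g)) (fun g => τ₂ (c g)) a2 (b2.comp c) (by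
        intro g hg1 hg2
        have f1 := a4 g hg1
        have f2 := b4 (c g) hg2
        have f3 : (g : G) ∈ H.fib a ⊓ H.fib b := ⟨f1, f2⟩
        rw [H.transverse a b hab ha hb, Subgroup.mem_bot] at f3
        exact Subtype.ext f3)
  obtain ⟨c₁, C₁, f1, f2, f3⟩ := lin_bounds ℓ₁ e7
  obtain ⟨c₂, C₂, g1, g2, g3⟩ := lin_bounds ℓ₂ e8
  obtain ⟨R, hR⟩ := e18
  have s2 : (0 : ℝ) < √2 := by positivity
  let d : WD n G H.V :=
    { π₁ := fun g => if h : g ∈ stabilizer G a ⊓ stabilizer G b then π₁ ⟨g, h⟩ else 0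
      π₂ := fun g => if h : g ∈ stabilizer G a ⊓ stabilizer G b then π₂ ⟨g, h⟩ else 0
      π₃ := fun g => if h : g ∈ stabilizer G a ⊓ stabilizer G b then π₃ ⟨g, h⟩ else 0
      p₁ := fun x => ℓ₁ (q₁ x)
      p₂ := fun x => ℓ₂ (q₂ x)
      κ₁ := κ₁
      κ₂ := κ₂
      C := FSub n r
      c := min c₁ c₂ * √2
      Cc := max C₁ C₂ * √2
      Rb := R }
  have d1 : ∀ (g : G) (h1 : g • a = a) (h2 : g • b = b), d.π₁ g = π₁ ⟨g, h1, h2⟩ := by
    intro g h1 h2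
    exact dif_pos (inf_mem H h1 h2)
  have d2 : ∀ (g : G) (h1 : g • a = a) (h2 : g • b = b), d.π₂ g = π₂ ⟨g, h1, h2⟩ := by
    intro g h1 h2
    exact dif_pos (inf_mem H h1 h2)
  have d3 : ∀ (g : G) (h1 : g • a = a) (h2 : g • b = b), d.π₃ g = π₃ ⟨g, h1, h2⟩ := by
    intro g h1 h2
    exact dif_pos (inf_mem H h1 h2)
  have side1 : OkSide H a b d := by
    refine okSide_of H ha hab d q₁
      (fun g => if h : g ∈ stabilizer G a ⊓ stabilizer G b then α₁ ⟨g, h⟩ else 0) ?_ a6 ℓ₁ f1 f2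
      f3 ?_ ?_ (fun x => rfl) ?_ e9 ?_ e11 ?_ ?_
    · intro g h1 h2 x hx hxb
      rw [dif_pos (inf_mem H h1 h2)]
      exact a5 ⟨g, h1, h2⟩ x hx hxb
    · exact mul_le_mul_of_nonneg_right (min_le_left _ _) s2.le
    · exact mul_le_mul_of_nonneg_right (le_max_left _ _) s2.le
    · intro g h1 h2
      rw [dif_pos (inf_mem H h1 h2), d2 g h1 h2, d3 g h1 h2]
      exact e13 _
    · intro g h1 h2
      rw [d1 g h1 h2, d2 g h1 h2, d3 g h1 h2, ← a3 ⟨g, h1, h2⟩]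
      exact e15 _
    · intro g h1 h2
      rw [d1 g h1 h2]
      exact e4 _
    · intro g h h1 h2 h3 h4
      rw [d1 g h1 h2, d1 h h3 h4, d1 (g * h) (by rw [mul_smul, h3, h1]) (by rw [mul_smul, h4, h2])]
      exact e1 ⟨g, h1, h2⟩ ⟨h, h3, h4⟩
  have side2 : OkSide H b a d.swap := by
    refine okSide_of H hb hab.symm d.swap q₂
      (fun g => if h : g ∈ stabilizer G b ⊓ stabilizer G a then α₂ ⟨g, h⟩ else 0) ?_ b6 ℓ₂ g1 g2
      g3 ?_ ?_ (fun x => rfl) ?_ e10 ?_ e12 ?_ ?_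
    · intro g h1 h2 x hx hxb
      rw [dif_pos (inf_mem H h1 h2)]
      exact b5 ⟨g, h1, h2⟩ x hx hxb
    · exact mul_le_mul_of_nonneg_right (min_le_right _ _) s2.le
    · exact mul_le_mul_of_nonneg_right (le_max_right _ _) s2.le
    · intro g h1 h2
      rw [dif_pos (inf_mem H h1 h2)]
      change ℓ₂ _ = (d.π₁ g, d.π₃ g)
      rw [d1 g h2 h1, d3 g h2 h1]
      exact e14 ⟨g, h2, h1⟩
    · intro g h1 h2
      change H.Tc g b = d.π₂ g + κ₂ (d.π₁ g, d.π₃ g)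
      rw [d1 g h2 h1, d2 g h2 h1, d3 g h2 h1, ← b3 ⟨g, h1, h2⟩]
      exact e16 ⟨g, h2, h1⟩
    · intro g h1 h2
      change d.π₂ g ∈ _
      rw [d2 g h2 h1]
      exact e5 _
    · intro g h h1 h2 h3 h4
      change d.π₂ (g * h) = d.π₂ g + d.π₂ h
      rw [d2 g h2 h1, d2 h h4 h3, d2 (g * h) (by rw [mul_smul, h4, h2]) (by rw [mul_smul, h3, h1])]
      exact e2 ⟨g, h2, h1⟩ ⟨h, h4, h3⟩
  refine ⟨d, ⟨side1, side2, ?_, ?_, ?_, ?_, ?_, ?_⟩⟩
  · intro g h1 h2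
    rw [d3 g h1 h2]
    exact e6 _
  · intro g h h1 h2 h3 h4
    rw [d3 g h1 h2, d3 h h3 h4, d3 (g * h) (by rw [mul_smul, h3, h1]) (by rw [mul_smul, h4, h2])]
    exact e3 ⟨g, h1, h2⟩ ⟨h, h3, h4⟩
  · intro R'
    refine ((e17 R').image Subtype.val).subset ?_
    rintro g ⟨h1, h2, h3, h4, h5⟩
    rw [d1 g h1 h2] at h3
    rw [d2 g h1 h2] at h4
    rw [d3 g h1 h2] at h5
    exact ⟨⟨g, h1, h2⟩, ⟨h3, h4, h5⟩, rfl⟩
  · intro x hx y hy z hz
    obtain ⟨g, h1, h2, h3⟩ := hR x hx y hy z hz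
    refine ⟨g, g.2.1, g.2.2, ?_, ?_, ?_⟩
    · rw [d1 g g.2.1 g.2.2]; exact h1
    · rw [d2 g g.2.1 g.2.2]; exact h2
    · rw [d3 g g.2.1 g.2.2]; exact h3
  · change 0 < min c₁ c₂ * √2
    exact mul_pos (lt_min f1 g1) s2
  · change 0 < max C₁ C₂ * √2
    exact mul_pos (lt_of_lt_of_le f2 (le_max_left _ _)) s2

theorem exists_ok_one {a b : H.V} (ha : H.piece a) (hb : ¬ H.piece b) (hab : H.T.Adj a b) :
    ∃ d : WD n G H.V, Ok H a b d := by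
  classical
  obtain ⟨m₁, W₁, α₁, τ₁, q₁, a1, a2, a3, a4, a5, a6⟩ := H.horoV ha hab
  obtain ⟨r, π₁, π₃, ℓ₁, e1, e2, e3, e4, e5, e6, e7, e8, e9, e10⟩ :=
    lattice_one (H.kk_le ha) a1 α₁ τ₁ a2
  obtain ⟨c₁, C₁, f1, f2, f3⟩ := lin_bounds ℓ₁ e5
  obtain ⟨R, hR⟩ := e10
  have s2 : (0 : ℝ) < √2 := by positivity
  have hkb : H.kk b = 0 := H.kk_leaf hb
  have hleaf : ∀ x, H.T.Adj b x → x = a := by
    obtain ⟨w, _, hw⟩ := H.leaf b hb
    intro x hx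
    rw [(hw x).1 hx, (hw a).1 hab.symm]
  let d : WD n G H.V :=
    { π₁ := fun g => if h : g ∈ stabilizer G a ⊓ stabilizer G b then π₁ ⟨g, h⟩ else 0
      π₂ := fun g => 0
      π₃ := fun g => if h : g ∈ stabilizer G a ⊓ stabilizer G b then π₃ ⟨g, h⟩ else 0
      p₁ := fun x => ℓ₁ (q₁ x)
      p₂ := fun x => 0
      κ₁ := 0
      κ₂ := 0
      C := FSub n r
      c := c₁ * √2
      Cc := C₁ * √2
      Rb := max R 0 }
  have d1 : ∀ (g : G) (h1 : g • a = a) (h2 : g • b = b), d.π₁ g = π₁ ⟨g, h1, h2⟩ := by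
    intro g h1 h2
    exact dif_pos (inf_mem H h1 h2)
  have d3 : ∀ (g : G) (h1 : g • a = a) (h2 : g • b = b), d.π₃ g = π₃ ⟨g, h1, h2⟩ := by
    intro g h1 h2
    exact dif_pos (inf_mem H h1 h2)
  have side1 : OkSide H a b d := by
    refine okSide_of H ha hab d q₁
      (fun g => if h : g ∈ stabilizer G a ⊓ stabilizer G b then α₁ ⟨g, h⟩ else 0) ?_ a6 ℓ₁ f1 f2
      f3 le_rfl le_rfl (fun x => rfl) ?_ ?_ ?_ ?_ ?_ ?_
    · intro g h1 h2 x hx hxb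
      rw [dif_pos (inf_mem H h1 h2)]
      exact a5 ⟨g, h1, h2⟩ x hx hxb
    · intro g h1 h2
      rw [dif_pos (inf_mem H h1 h2), d3 g h1 h2]
      exact e7 _
    · intro x
      rw [(e6 x).1]
      exact ⟨Submodule.zero_mem _, (e6 x).2⟩
    · intro g h1 h2
      rw [d1 g h1 h2, ← a3 ⟨g, h1, h2⟩, e8]
      change _ = _ + (0 : (Fin n → ℝ) × (Fin n → ℝ) →ₗ[ℝ] (Fin n → ℝ)) _
      rw [LinearMap.zero_apply, add_zero]
    · intro z
      change (0 : (Fin n → ℝ) × (Fin n → ℝ) →ₗ[ℝ] (Fin n → ℝ)) z ∈ _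
      exact Submodule.zero_mem _
    · intro g h1 h2
      rw [d1 g h1 h2]
      exact e3 _
    · intro g h h1 h2 h3 h4
      rw [d1 g h1 h2, d1 h h3 h4, d1 (g * h) (by rw [mul_smul, h3, h1]) (by rw [mul_smul, h4, h2])]
      exact e1 ⟨g, h1, h2⟩ ⟨h, h3, h4⟩
  have side2 : OkSide H b a d.swap := by
    refine ⟨?_, ?_, ?_, ?_, ?_, ?_, ?_, ?_⟩
    · intro g _ _ x hx hxa
      exact absurd (hleaf x hx) hxa
    · intro x hx hxa
      exact absurd (hleaf x hx) hxa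
    · intro g _ _
      rw [H.Tc_leaf g hb]
      change (0 : Fin n → ℝ) = 0 + (0 : (Fin n → ℝ) × (Fin n → ℝ) →ₗ[ℝ] (Fin n → ℝ)) _
      rw [LinearMap.zero_apply, add_zero]
    · intro z
      change (0 : (Fin n → ℝ) × (Fin n → ℝ) →ₗ[ℝ] (Fin n → ℝ)) z ∈ _
      exact Submodule.zero_mem _
    · intro g _ _
      exact Submodule.zero_mem _
    · intro g h _ _ _ _
      change (0 : Fin n → ℝ) = 0 + 0
      rw [add_zero]
    · intro x _ hx _ hxa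
      exact absurd (hleaf x hx) hxa
    · intro x _ hx _ hxa
      exact absurd (hleaf x hx) hxa
  refine ⟨d, ⟨side1, side2, ?_, ?_, ?_, ?_, ?_, ?_⟩⟩
  · intro g h1 h2
    rw [d3 g h1 h2]
    exact e4 _
  · intro g h h1 h2 h3 h4
    rw [d3 g h1 h2, d3 h h3 h4, d3 (g * h) (by rw [mul_smul, h3, h1]) (by rw [mul_smul, h4, h2])]
    exact e2 ⟨g, h1, h2⟩ ⟨h, h3, h4⟩
  · intro R'
    refine ((e9 R').image Subtype.val).subset ?_
    rintro g ⟨h1, h2, h3, h4, h5⟩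
    rw [d1 g h1 h2] at h3
    rw [d3 g h1 h2] at h5
    exact ⟨⟨g, h1, h2⟩, ⟨h3, h5⟩, rfl⟩
  · intro x hx y hy z hz
    obtain ⟨g, h1, h2⟩ := hR x hx z hz
    refine ⟨g, g.2.1, g.2.2, ?_, ?_, ?_⟩
    · rw [d1 g g.2.1 g.2.2]; exact h1.trans (le_max_left _ _)
    · have : y = 0 := by
        rw [hkb] at hy
        funext i
        exact hy i (Nat.zero_le _)
      rw [this]
      change ‖(0 : Fin n → ℝ) - 0‖ ≤ max R 0
      rw [sub_zero, norm_zero]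
      exact le_max_right _ _
    · rw [d3 g g.2.1 g.2.2]; exact h2.trans (le_max_left _ _)
  · exact mul_pos f1 s2
  · exact mul_pos f2 s2

theorem exists_ok (a b : H.V) (hab : H.T.Adj a b) : ∃ d : WD n G H.V, Ok H a b d := by
  by_cases ha : H.piece a
  · by_cases hb : H.piece b
    · exact exists_ok_two H ha hb hab
    · exact exists_ok_one H ha hb hab
  · have hb : H.piece b := by
      obtain ⟨w, hw1, hw⟩ := H.leaf a ha
      rw [(hw b).1 hab]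
      exact hw1
    obtain ⟨d, hd⟩ := exists_ok_one H hb ha hab.symm
    exact ⟨d.swap, hd.swap⟩

end Pool.Agent.H81.HDG
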