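import Mathlib
import Pool.Agent.H81.HDG.Wall2
import Pool.Agent.H81.HDG.ActSemi
import Pool.Agent.H81.HDG.HypChain

/-!
# The system of coordinates of an irreducible higher dimensional graph manifold group
-/

set_option autoImplicit false
set_option linter.unusedSectionVars false

namespace Pool.Agent.H81.HDG

universe u v

open MulAction

/-- Reindexing of the sums. -/
theorem csum_equiv {V X Y : Type*} [NormedAddCommGroup X] [NormedAddCommGroup Y] (e : V ≃ V)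
    {N N' : Set V} {p p' : V → V → X} {h h' : V → X → Y} {u a u' a' : V}
    (hN : ∀ U, (e U ∈ N' ∧ e U ≠ u' ∧ e U ≠ a') ↔ (U ∈ N ∧ U ≠ u ∧ U ≠ a))
    (hh : ∀ U, U ∈ N → U ≠ u → U ≠ a →
      h' (e U) (p' (e U) a' - p' (e U) u') = h U (p U a - p U u)) :
    csum N' p' h' u' a' = csum N p h u a := by
  unfold csum
  rw [← finsum_comp_equiv e]
  apply finsum_congr
  intro U
  apply finsum_congr_Prop (propext (hN U))
  intro hU
  exact hh U hU.1 hU.2.1 hU.2.2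

theorem Cusp.mono {V X : Type*} [NormedAddCommGroup X] {c C c' C' : ℝ} {N : Set V}
    {s : V → V → ℝ} {p : V → V → X} (h : Cusp c C N s p) (hc : c' ≤ c) (hC : C ≤ C') :
    Cusp c' C' N s p where
  symm := h.symm
  ge := h.ge
  lower u hu a ha b hb q1 q2 q3 :=
    (mul_le_mul_of_nonneg_right hc (Real.sqrt_nonneg _)).trans (h.lower u hu a ha b hb q1 q2 q3)
  upper u hu a ha b hb q1 q2 q3 :=
    (h.upper u hu a ha b hb q1 q2 q3).trans
      (mul_le_mul_of_nonneg_right hC (Real.sqrt_nonneg _))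

theorem ChainProp.mono {V X : Type*} [NormedAddCommGroup X] {δ M δ' M' : ℝ} {N : Set V}
    {s : V → V → ℝ} {p : V → V → X} (h : ChainProp δ M N s p) (hδ : δ' ≤ δ) (hM : M ≤ M') :
    ChainProp δ' M' N s p := by
  intro u hu a ha hua
  refine (h u hu a ha hua).mono ?_
  intro x y hxy
  obtain ⟨h1, h2, h3, h4, h5⟩ := hxy
  have aux : ∀ w, Btw δ N p u a w → Btw δ' N p u a w := by
    rintro w ⟨q1, q2 | q2 | q2⟩
    · exact ⟨q1, Or.inl q2⟩
    · exact ⟨q1, Or.inr (Or.inl q2)⟩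
    · exact ⟨q1, Or.inr (Or.inr (hδ.trans q2))⟩
  exact ⟨h1, aux _ h2, aux _ h3, h4.trans hM, h5.trans hM⟩

variable {n : ℕ} {G : Type u} [Group G]

/-- Choices of representatives of walls and coordinates. -/
structure Choice (H : IrreducibleHDG.{u, v} n G) where
  r₁ : H.V → H.V → H.V
  r₂ : H.V → H.V → H.V
  t : H.V → H.V → G
  wd : H.V → H.V → WD n G H.V
  t₁ : ∀ v w, H.T.Adj v w → t v w • r₁ v w = v
  t₂ : ∀ v w, H.T.Adj v w → t v w • r₂ v w = w
  r_symm : ∀ v w, H.T.Adj v w → r₁ w v = r₂ v w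
  t_symm : ∀ v w, H.T.Adj v w → t w v = t v w
  wd_symm : ∀ v w, H.T.Adj v w → wd w v = (wd v w).swap
  r₁_smul : ∀ (g : G) v w, H.T.Adj v w → r₁ (g • v) (g • w) = r₁ v w
  r₂_smul : ∀ (g : G) v w, H.T.Adj v w → r₂ (g • v) (g • w) = r₂ v w
  wd_smul : ∀ (g : G) v w, H.T.Adj v w → wd (g • v) (g • w) = wd v w
  ok : ∀ v w, H.T.Adj v w → Ok H (r₁ v w) (r₂ v w) (wd v w)

theorem exists_choice (H : IrreducibleHDG.{u, v} n G) : Nonempty (Choice H) := by
  have : Nonempty (WD n G H.V) :=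
    ⟨⟨fun _ => 0, fun _ => 0, fun _ => 0, fun _ => 0, fun _ => 0, 0, 0, ⊥, 0, 0, 0⟩⟩
  obtain ⟨r₁, r₂, t, wd, h1, h2, h3, h4, h5, h6⟩ := orient (G := G) H.T H.no_inversion
    H.adj_smul (Ok H) WD.swap (fun d => rfl) (fun a b d h => h.swap) (exists_ok H)
  exact ⟨⟨r₁, r₂, t, wd, fun v w h => (h1 v w h).1, fun v w h => (h1 v w h).2, h2, h3, h4,
    fun g v w h => (h5 g v w h).1, fun g v w h => (h5 g v w h).2.1,
    fun g v w h => (h5 g v w h).2.2, h6⟩⟩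

namespace Choice

variable {H : IrreducibleHDG.{u, v} n G} (C : Choice H)

/-- projections of walls to walls in coordinates -/
noncomputable def p (v w x : H.V) : (Fin n → ℝ) × (Fin n → ℝ) :=
  (C.wd v w).p₁ ((C.t v w)⁻¹ • x)

open Classical in
/-- the linear maps `κ` -/
noncomputable def κ (v w : H.V) : (Fin n → ℝ) × (Fin n → ℝ) →ₗ[ℝ] (Fin n → ℝ) :=
  if H.T.Adj v w then (C.wd v w).κ₁ else 0

open Classical in
/-- the constants -/
noncomputable def cst (v w : H.V) : Fin n → ℝ :=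
  if H.T.Adj v w then H.Tc (C.t v w) (C.r₁ v w) else 0

/-- the element of the stabilizer of the representative given by `g` -/
def θ (g : G) (v w : H.V) : G := (C.t (g • v) (g • w))⁻¹ * g * C.t v w

/-- the system -/
noncomputable def sys (ε : ℝ) : Sys H.V (Fin n → ℝ) where
  G := H.T
  s := H.s
  p := C.p
  L := fun v => Lf ε (H.T.neighborSet v) (C.p v)
  D := fun v => Df ε (H.T.neighborSet v) (C.p v) (C.κ v) (C.cst v)

theorem t₁_inv {v w : H.V} (h : H.T.Adj v w) : (C.t v w)⁻¹ • v = C.r₁ v w := by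
  rw [inv_smul_eq_iff, C.t₁ v w h]

theorem t₂_inv {v w : H.V} (h : H.T.Adj v w) : (C.t v w)⁻¹ • w = C.r₂ v w := by
  rw [inv_smul_eq_iff, C.t₂ v w h]

theorem adj_t {v w x : H.V} (h : H.T.Adj v w) (hx : H.T.Adj v x) :
    H.T.Adj (C.r₁ v w) ((C.t v w)⁻¹ • x) := by
  rw [← C.t₁_inv h]
  exact H.adj_smul _ _ _ hx

theorem ne_t {v w x : H.V} (h : H.T.Adj v w) (hx : x ≠ w) :
    (C.t v w)⁻¹ • x ≠ C.r₂ v w := by
  rw [← C.t₂_inv h, Ne, Act.smul_inj]
  exact hx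

theorem s_t {v w x y : H.V} (h : H.T.Adj v w) (hx : H.T.Adj v x) (hy : H.T.Adj v y) :
    H.s (C.r₁ v w) ((C.t v w)⁻¹ • x) ((C.t v w)⁻¹ • y) = H.s v x y := by
  rw [← C.t₁_inv h]
  exact H.s_smul _ hx hy

theorem kk₁ {v w : H.V} (h : H.T.Adj v w) : H.kk (C.r₁ v w) = H.kk v := by
  conv_rhs => rw [← C.t₁ v w h]
  exact (H.kk_smul _ _).symm

theorem kk₂ {v w : H.V} (h : H.T.Adj v w) : H.kk (C.r₂ v w) = H.kk w := by
  conv_rhs => rw [← C.t₂ v w h]
  exact (H.kk_smul _ _).symm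

/-- a leaf has only one neighbour -/
theorem leaf_eq {v x y : H.V} (hv : ¬ H.piece v) (hx : H.T.Adj v x) (hy : H.T.Adj v y) :
    x = y := by
  obtain ⟨w, _, hw⟩ := H.leaf v hv
  rw [(hw x).1 hx, (hw y).1 hy]

theorem cusp {c Cc : ℝ} (hc : ∀ v w, H.T.Adj v w → c ≤ (C.wd v w).c)
    (hC : ∀ v w, H.T.Adj v w → (C.wd v w).Cc ≤ Cc) (v : H.V) :
    Cusp c Cc (H.T.neighborSet v) (H.s v) (C.p v) where
  symm a b := H.s_symm v a b
  ge a ha b hb hab := by
    by_cases hv : H.piece v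
    · exact H.s_ge hv ha hb hab
    · exact absurd (leaf_eq hv ha hb) hab
  lower w hw a ha b hb hwa hwb hab := by
    have h1 := (C.ok v w hw).one.lower _ _ (C.adj_t hw ha) (C.adj_t hw hb)
      (C.ne_t hw hwa.symm) (C.ne_t hw hwb.symm) (by rw [Ne, Act.smul_inj]; exact hab)
    rw [← C.t₂_inv hw, C.s_t hw ha hb, C.s_t hw hw ha, C.s_t hw hw hb] at h1
    exact (mul_le_mul_of_nonneg_right (hc v w hw) (Real.sqrt_nonneg _)).trans h1
  upper w hw a ha b hb hwa hwb hab := by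
    have h1 := (C.ok v w hw).one.upper _ _ (C.adj_t hw ha) (C.adj_t hw hb)
      (C.ne_t hw hwa.symm) (C.ne_t hw hwb.symm) (by rw [Ne, Act.smul_inj]; exact hab)
    rw [← C.t₂_inv hw, C.s_t hw ha hb, C.s_t hw hw ha, C.s_t hw hw hb] at h1
    exact h1.trans (mul_le_mul_of_nonneg_right (hC v w hw) (Real.sqrt_nonneg _))

end Choice

/-! ### Uniform bounds -/

theorem bdd_edges (H : IrreducibleHDG.{u, v} n G) (f : H.V → H.V → ℝ)
    (hf : ∀ (g : G) v w, H.T.Adj v w → f (g • v) (g • w) = f v w) :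
    ∃ M, 0 ≤ M ∧ ∀ v w, H.T.Adj v w → f v w ≤ M := by
  obtain ⟨F, hF⟩ := H.finite_edges
  refine ⟨∑ e ∈ F, |f e.1 e.2|, Finset.sum_nonneg fun _ _ => abs_nonneg _, ?_⟩
  intro v w hvw
  obtain ⟨g, e, he, rfl, rfl⟩ := hF v w hvw
  rw [hf g _ _ ((H.adj_iff g _ _).1 hvw)]
  exact (le_abs_self _).trans (Finset.single_le_sum (f := fun e : H.V × H.V => |f e.1 e.2|)
    (fun _ _ => abs_nonneg _) he)

theorem bdd_vertices (H : IrreducibleHDG.{u, v} n G) (f : H.V → ℝ) :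
    ∃ M, 0 ≤ M ∧ ∀ v, H.piece v → f (H.rv v) ≤ M := by
  obtain ⟨M, hM, h⟩ := bdd_edges H (fun v _ => f (H.rv v)) (fun g v w _ => by
    simp only [H.rv_smul])
  refine ⟨M, hM, ?_⟩
  intro v hv
  obtain ⟨w, hw⟩ := (H.data v hv).nonempty
  exact h v w hw

/-- Chains of horoballs. -/
theorem chain0 (H : IrreducibleHDG.{u, v} n G) (r : H.V) (hr : H.piece r) :
    ∃ δ M : ℝ, 0 < δ ∧ 0 < M ∧ ∀ v, H.rv v = r → ∀ a b, H.T.Adj v a → H.T.Adj v b → a ≠ b →
      Relation.ReflTransGen (fun x y => x ≠ y ∧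
        (H.T.Adj v x ∧ (x = a ∨ x = b ∨ δ ^ 2 * (H.s v x a * H.s v x b) ≤ H.s v a b)) ∧
        (H.T.Adj v y ∧ (y = a ∨ y = b ∨ δ ^ 2 * (H.s v y a * H.s v y b) ≤ H.s v a b)) ∧
        H.s v x y ≤ M) a b := by
  set P := H.data r hr with hP
  obtain ⟨R, hR⟩ := P.cover
  obtain ⟨δ, M, hδ, hM, h⟩ := hyp_chain.{v} P.m R
  refine ⟨δ, M, hδ, hM, ?_⟩
  intro v hv a b ha hb hab
  have adjv : ∀ x, H.T.Adj v x ↔ H.T.Adj r ((H.tv v)⁻¹ • x) := by
    intro x
    rw [← hv]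
    exact H.adj_tv.symm
  have hs : ∀ x y, H.s v x y = - lor (P.u ((H.tv v)⁻¹ • x)) (P.u ((H.tv v)⁻¹ • y)) := by
    intro x y
    unfold IrreducibleHDG.s
    rw [hv]
    unfold IrreducibleHDG.S0
    rw [dif_pos hr]
  have key := h H.V (H.T.neighborSet v) (fun x => P.u ((H.tv v)⁻¹ • x))
    (fun x hx => P.light _ ((adjv x).1 hx))
    (fun x hx y hy hxy => P.disjoint _ ((adjv x).1 hx) _ ((adjv y).1 hy)
      (by rw [Ne, Act.smul_inj]; exact hxy))
    (fun q hq => by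
      obtain ⟨z, hz, hz2⟩ := hR q hq
      refine ⟨H.tv v • z, ?_, ?_⟩
      · change H.T.Adj v (H.tv v • z)
        rw [adjv, inv_smul_smul]
        exact hz
      · rw [inv_smul_smul]
        exact hz2) a ha b hb hab
  refine Relation.ReflTransGen.mono ?_ _ _ key
  rintro x y ⟨h1, ⟨h2, h3⟩, ⟨h4, h5⟩, h6⟩
  refine ⟨h1, ⟨h2, ?_⟩, ⟨h4, ?_⟩, ?_⟩
  · rcases h3 with h3 | h3 | h3
    · exact Or.inl h3
    · exact Or.inr (Or.inl h3)
    · right; right
      rw [hs, hs, hs, neg_mul_neg]; exact h3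
  · rcases h5 with h5 | h5 | h5
    · exact Or.inl h5
    · exact Or.inr (Or.inl h5)
    · right; right
      rw [hs, hs, hs, neg_mul_neg]; exact h5
  · rw [hs]; exact h6

namespace Choice

variable {H : IrreducibleHDG.{u, v} n G} (C : Choice H)

/-- uniform constants -/
theorem exists_consts : ∃ c Cc C₂ Rb : ℝ, 0 < c ∧ 0 < Cc ∧ 0 ≤ C₂ ∧ 0 ≤ Rb ∧
    (∀ v w, H.T.Adj v w → c ≤ (C.wd v w).c) ∧ (∀ v w, H.T.Adj v w → (C.wd v w).Cc ≤ Cc) ∧
    (∀ v w z, ‖C.κ v w z‖ ≤ C₂ * ‖z‖) ∧ (∀ v w, H.T.Adj v w → (C.wd v w).Rb ≤ Rb) := by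
  obtain ⟨M1, hM1, h1⟩ := bdd_edges H (fun v w => 1 / (C.wd v w).c)
    (fun g v w h => by simp only [C.wd_smul g v w h])
  obtain ⟨M2, hM2, h2⟩ := bdd_edges H (fun v w => (C.wd v w).Cc)
    (fun g v w h => by simp only [C.wd_smul g v w h])
  obtain ⟨M3, hM3, h3⟩ := bdd_edges H (fun v w => ‖LinearMap.toContinuousLinearMap (C.wd v w).κ₁‖)
    (fun g v w h => by simp only [C.wd_smul g v w h])
  obtain ⟨M4, hM4, h4⟩ := bdd_edges H (fun v w => (C.wd v w).Rb)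
    (fun g v w h => by simp only [C.wd_smul g v w h])
  refine ⟨1 / (M1 + 1), M2 + 1, M3, M4, by positivity, by positivity, hM3, hM4, ?_, ?_, ?_, h4⟩
  · intro v w h
    have hc := (C.ok v w h).c_pos
    have : 1 / (C.wd v w).c ≤ M1 := h1 v w h
    rw [div_le_iff₀ hc] at this
    rw [div_le_iff₀ (by positivity)]
    nlinarith
  · intro v w h
    linarith [h2 v w h]
  · intro v w z
    unfold κ
    split_ifs with h
    · have e := (LinearMap.toContinuousLinearMap (C.wd v w).κ₁).le_opNorm z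
      have e2 : LinearMap.toContinuousLinearMap (C.wd v w).κ₁ z = (C.wd v w).κ₁ z := rfl
      rw [e2] at e
      exact e.trans (mul_le_mul_of_nonneg_right (h3 v w h) (norm_nonneg _))
    · rw [LinearMap.zero_apply, norm_zero]
      positivity

theorem chainProp {c Cc : ℝ} (hc0 : 0 < c)
    (hcu : ∀ v, Cusp c Cc (H.T.neighborSet v) (H.s v) (C.p v)) :
    ∃ δ M : ℝ, 0 < δ ∧ ∀ v, ChainProp δ M (H.T.neighborSet v) (H.s v) (C.p v) := by
  classical
  have ex : ∀ r : H.V, ∃ q : ℝ × ℝ, 0 < q.1 ∧ 0 < q.2 ∧ (H.piece r → ∀ v, H.rv v = r →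
      ∀ a b, H.T.Adj v a → H.T.Adj v b → a ≠ b →
      Relation.ReflTransGen (fun x y => x ≠ y ∧
        (H.T.Adj v x ∧ (x = a ∨ x = b ∨ q.1 ^ 2 * (H.s v x a * H.s v x b) ≤ H.s v a b)) ∧
        (H.T.Adj v y ∧ (y = a ∨ y = b ∨ q.1 ^ 2 * (H.s v y a * H.s v y b) ≤ H.s v a b)) ∧
        H.s v x y ≤ q.2) a b) := by
    intro r
    by_cases hr : H.piece r
    · obtain ⟨δ, M, hδ, hM, h⟩ := chain0 H r hr
      exact ⟨(δ, M), hδ, hM, fun _ => h⟩
    · exact ⟨(1, 1), one_pos, one_pos, fun h => absurd h hr⟩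
  choose q hq1 hq2 hq using ex
  obtain ⟨M1, hM1, h1⟩ := bdd_vertices H (fun r => 1 / (q r).1)
  obtain ⟨M2, hM2, h2⟩ := bdd_vertices H (fun r => (q r).2)
  refine ⟨c * (1 / (M1 + 1)), M2, by positivity, ?_⟩
  intro v a ha b hb hab
  by_cases hv : H.piece v
  swap
  · exact absurd (leaf_eq hv ha hb) hab
  have hrv := (H.piece_rv v).2 hv
  have hδ : 1 / (M1 + 1) ≤ (q (H.rv v)).1 := by
    have e := h1 v hv
    have e0 := hq1 (H.rv v)
    rw [div_le_iff₀ e0] at e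
    rw [div_le_iff₀ (by positivity)]
    nlinarith
  have key := hq (H.rv v) hrv v rfl a b ha hb hab
  have aux : ∀ x, (H.T.Adj v x ∧ (x = a ∨ x = b ∨
      (q (H.rv v)).1 ^ 2 * (H.s v x a * H.s v x b) ≤ H.s v a b)) →
      Btw (c * (1 / (M1 + 1))) (H.T.neighborSet v) (C.p v) a b x := by
    rintro x ⟨hx, h3⟩
    refine ⟨hx, ?_⟩
    by_cases hxa : x = a
    · exact Or.inl hxa
    by_cases hxb : x = b
    · exact Or.inr (Or.inl hxb)
    right; right
    have h4 := (h3.resolve_left hxa).resolve_left hxb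
    have s1 := H.s_ge hv hx ha hxa
    have s2 := H.s_ge hv hx hb hxb
    have h5 := (hcu v).lower x hx a ha b hb hxa hxb hab
    refine le_trans ?_ h5
    apply mul_le_mul_of_nonneg_left _ hc0.le
    refine hδ.trans ?_
    apply Real.le_sqrt_of_sq_le
    rw [le_div_iff₀ (by positivity)]
    exact h4
  have conv : ∀ x y, Relation.ReflTransGen (fun x y => x ≠ y ∧
        (H.T.Adj v x ∧ (x = a ∨ x = b ∨
          (q (H.rv v)).1 ^ 2 * (H.s v x a * H.s v x b) ≤ H.s v a b)) ∧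
        (H.T.Adj v y ∧ (y = a ∨ y = b ∨
          (q (H.rv v)).1 ^ 2 * (H.s v y a * H.s v y b) ≤ H.s v a b)) ∧
        H.s v x y ≤ (q (H.rv v)).2) x y →
      (chainGraph (c * (1 / (M1 + 1))) M2 (H.T.neighborSet v) (H.s v) (C.p v) a b).Reachable
        x y := by
    intro x y hxy
    induction hxy with
    | refl => exact SimpleGraph.Reachable.refl _
    | @tail y z _ hyz ih =>
      obtain ⟨k1, k2, k3, k4⟩ := hyz
      refine ih.trans (SimpleGraph.Adj.reachable ⟨k1, aux y k2, aux z k3,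
        k4.trans (h2 v hv), ?_⟩)
      rw [H.s_symm]
      exact k4.trans (h2 v hv)
  exact conv a b key

/-- The system is good. -/
theorem good : ∃ ε : ℝ, (C.sys ε).Good ∧ ∃ c Cc : ℝ, 0 < c ∧ 0 < Cc ∧
    ∀ v, Cusp c Cc (H.T.neighborSet v) (H.s v) (C.p v) := by
  obtain ⟨c, Cc, C₂, Rb, hc, hCc, hC₂, hRb, k1, k2, k3, k4⟩ := C.exists_consts
  have hcu := C.cusp k1 k2
  obtain ⟨δ, M, hδ, hch⟩ := C.chainProp hc hcu
  refine ⟨δ / 2, ⟨?_, ?_, ?_⟩, c, Cc, hc, hCc, hcu⟩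
  · intro v
    exact goodBase (hcu v) (δ / 2) (C.κ v) (C.cst v)
  · intro M' hM'
    obtain ⟨K, hK⟩ := exists_goodAt (V := H.V) (X := (Fin n → ℝ) × (Fin n → ℝ))
      (E := Fin n → ℝ) (c := c) (C := Cc) (C₂ := C₂) (ε := δ / 2) (δ₁ := δ) (M₁ := M) hc hCc hC₂
      (by positivity) (by linarith) M' hM'
    exact ⟨K, fun v => hK _ _ _ (hcu v) (hch v) (C.κ v) (k3 v) (C.cst v)⟩
  · refine ⟨max (max M 1) (1 / δ), ?_, ?_⟩
    · exact (le_max_right _ _).trans (le_max_left _ _)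
    · intro v
      refine (hch v).mono ?_ ((le_max_left _ _).trans (le_max_left _ _))
      have h1 : 1 / δ ≤ max (max M 1) (1 / δ) := le_max_right _ _
      have h2 : 0 < 1 / δ := by positivity
      rw [div_le_iff₀ (by linarith)]
      rw [div_le_iff₀ hδ] at h1
      linarith

end Choice

end Pool.Agent.H81.HDG
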