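import Mathlib
import Pool.Agent.H81.HDG.Assembly

/-!
# The action of an irreducible higher dimensional graph manifold group on the system
-/

set_option autoImplicit false
set_option linter.unusedSectionVars false

namespace Pool.Agent.H81.HDG

universe u v

open MulAction

variable {n : ℕ} {G : Type u} [Group G]

namespace Choice

variable {H : IrreducibleHDG.{u, v} n G} (C : Choice H)

theorem θ₁ (g : G) {a b : H.V} (h : H.T.Adj a b) : C.θ g a b • C.r₁ a b = C.r₁ a b := by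
  unfold θ
  have e := C.t₁_inv (H.adj_smul g _ _ h)
  rw [mul_smul, C.t₁ a b h, mul_smul, e, C.r₁_smul g a b h]

theorem θ₂ (g : G) {a b : H.V} (h : H.T.Adj a b) : C.θ g a b • C.r₂ a b = C.r₂ a b := by
  unfold θ
  have e := C.t₂_inv (H.adj_smul g _ _ h)
  rw [mul_smul, C.t₂ a b h, mul_smul, e, C.r₂_smul g a b h]

theorem θ_mul (g h : G) (a b : H.V) :
    C.θ (g * h) a b = C.θ g (h • a) (h • b) * C.θ h a b := by
  unfold θ
  rw [mul_smul, mul_smul]
  group

theorem θ_symm (g : G) {a b : H.V} (h : H.T.Adj a b) : C.θ g b a = C.θ g a b := by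
  unfold θ
  rw [C.t_symm a b h, C.t_symm _ _ (H.adj_smul g _ _ h)]

/-- translation of the fibre coordinate -/
noncomputable def θf (g : G) (a b : H.V) : Fin n → ℝ := (C.wd a b).π₁ (C.θ g a b)

/-- translation of the remaining coordinate -/
noncomputable def θc (g : G) (a b : H.V) : Fin n → ℝ := (C.wd a b).π₃ (C.θ g a b)

theorem θf_rev (g : G) {a b : H.V} (h : H.T.Adj a b) :
    C.θf g b a = (C.wd a b).π₂ (C.θ g a b) := by
  unfold θf
  rw [C.wd_symm a b h, C.θ_symm g h]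
  rfl

theorem θc_rev (g : G) {a b : H.V} (h : H.T.Adj a b) : C.θc g b a = C.θc g a b := by
  unfold θc
  rw [C.wd_symm a b h, C.θ_symm g h]
  rfl

theorem p_act (g : G) {v w x : H.V} (hw : H.T.Adj v w) (hx : H.T.Adj v x) (hwx : w ≠ x) :
    C.p (g • v) (g • w) (g • x) = C.p v w x + (C.θf g w v, C.θc g v w) := by
  have h1 := (C.ok v w hw).one.p_eq (C.θ g v w) (C.θ₁ g hw) (C.θ₂ g hw) _ (C.adj_t hw hx)
    (C.ne_t hw hwx.symm)
  rw [C.θf_rev g hw]
  unfold p θc
  rw [C.wd_smul g v w hw, ← h1]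
  congr 1
  unfold θ
  rw [mul_smul _ (C.t v w), smul_inv_smul, mul_smul]

theorem κ_act (g : G) (v w : H.V) : C.κ (g • v) (g • w) = C.κ v w := by
  unfold κ
  by_cases h : H.T.Adj v w
  · rw [if_pos h, if_pos (H.adj_smul g _ _ h), C.wd_smul g v w h]
  · rw [if_neg h, if_neg (fun h' => h ((H.adj_iff g v w).1 h'))]

/-- Transformation of the fibre coordinate. -/
theorem cst_act (g : G) {v a : H.V} (ha : H.T.Adj v a) :
    C.κ v a (C.θf g a v, C.θc g v a) + C.cst (g • v) (g • a) - C.cst v a =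
      H.Tc g v - C.θf g v a := by
  have h1 := (C.ok v a ha).one.τ_eq (C.θ g v a) (C.θ₁ g ha) (C.θ₂ g ha)
  unfold κ cst
  rw [if_pos ha, if_pos ha, if_pos (H.adj_smul g _ _ ha), C.r₁_smul g v a ha,
    C.θf_rev g ha]
  have e1 : C.t (g • v) (g • a) * C.θ g v a = g * C.t v a := by
    unfold θ; group
  have e2 := H.Tc_mul (C.t (g • v) (g • a)) (C.θ g v a) (C.r₁ v a)
  have e3 := H.Tc_mul g (C.t v a) (C.r₁ v a)
  rw [e1, C.θ₁ g ha] at e2
  rw [C.t₁ v a ha] at e3
  rw [e3, h1] at e2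
  unfold θf θc
  have e4 : (C.wd v a).κ₁ ((C.wd v a).π₂ (C.θ g v a), (C.wd v a).π₃ (C.θ g v a)) =
      H.Tc g v + H.Tc (C.t v a) (C.r₁ v a) - H.Tc (C.t (g • v) (g • a)) (C.r₁ v a) -
      (C.wd v a).π₁ (C.θ g v a) := by
    rw [e2]; abel
  rw [e4]
  abel

theorem nbr_iff (g : G) (v U u a : H.V) :
    (g • U ∈ H.T.neighborSet (g • v) ∧ g • U ≠ g • u ∧ g • U ≠ g • a) ↔
      (U ∈ H.T.neighborSet v ∧ U ≠ u ∧ U ≠ a) := by
  rw [Ne, Ne, Act.smul_inj, Act.smul_inj]
  exact and_congr (H.adj_iff g v U) Iff.rfl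

theorem L_act (ε : ℝ) (g : G) {v a b : H.V} (ha : H.T.Adj v a) (hb : H.T.Adj v b) :
    (C.sys ε).L (g • v) (g • a) (g • b) = (C.sys ε).L v a b := by
  change Lf ε _ (C.p (g • v)) (g • a) (g • b) = Lf ε _ (C.p v) a b
  unfold Lf
  congr 1
  apply csum_equiv (MulAction.toPerm g)
  · intro U
    exact nbr_iff g v U a b
  · intro U hU hUa hUb
    change max (‖C.p (g • v) (g • U) (g • b) - C.p (g • v) (g • U) (g • a)‖ - ε) 0 = _
    rw [C.p_act g hU hb hUb, C.p_act g hU ha hUa, add_sub_add_right_eq_sub]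

theorem D_act (ε : ℝ) (g : G) {v a b : H.V} (ha : H.T.Adj v a) (hb : H.T.Adj v b) :
    (C.sys ε).D (g • v) (g • a) (g • b) = (C.sys ε).D v a b + C.θf g v b - C.θf g v a := by
  by_cases hab : a = b
  · subst hab
    have e : ∀ v' a', (C.sys ε).D v' a' a' = 0 := by
      intro v' a'
      change Df ε _ (C.p v') (C.κ v') (C.cst v') a' a' = 0
      unfold Df csum
      have : ∀ U : H.V, (∑ᶠ (_ : U ∈ H.T.neighborSet v' ∧ U ≠ a' ∧ U ≠ a'),
          C.κ v' U (shr ε (C.p v' U a' - C.p v' U a'))) = 0 := by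
        intro U
        rw [sub_self, shr, cl_zero_right, sub_zero, map_zero]
        exact finsum_zero
      rw [finsum_congr this, finsum_zero]
      abel
    rw [e, e]; abel
  have h1 := C.cst_act g ha
  have h2 := C.cst_act g hb
  have hs : csum (H.T.neighborSet (g • v)) (C.p (g • v))
      (fun U x => C.κ (g • v) U (shr ε x)) (g • a) (g • b) =
      csum (H.T.neighborSet v) (C.p v) (fun U x => C.κ v U (shr ε x)) a b := by
    apply csum_equiv (MulAction.toPerm g)
    · intro U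
      exact nbr_iff g v U a b
    · intro U hU hUa hUb
      change C.κ (g • v) (g • U) (shr ε (C.p (g • v) (g • U) (g • b) -
        C.p (g • v) (g • U) (g • a))) = _
      rw [C.p_act g hU hb hUb, C.p_act g hU ha hUa, add_sub_add_right_eq_sub, C.κ_act]
  change Df ε _ (C.p (g • v)) (C.κ (g • v)) (C.cst (g • v)) (g • a) (g • b) =
    Df ε _ (C.p v) (C.κ v) (C.cst v) a b + C.θf g v b - C.θf g v a
  unfold Df
  rw [hs, C.p_act g ha hb hab, C.p_act g hb ha (Ne.symm hab), C.κ_act, C.κ_act, map_add, map_add]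
  have h1' : C.θf g v a = H.Tc g v - (C.κ v a (C.θf g a v, C.θc g v a) +
      C.cst (g • v) (g • a) - C.cst v a) := by
    rw [h1]; abel
  have h2' : C.θf g v b = H.Tc g v - (C.κ v b (C.θf g b v, C.θc g v b) +
      C.cst (g • v) (g • b) - C.cst v b) := by
    rw [h2]; abel
  rw [h1', h2']
  abel

theorem κ_mem (v w : H.V) (z : (Fin n → ℝ) × (Fin n → ℝ)) : C.κ v w z ∈ FSub n (H.kk v) := by
  unfold κ
  split_ifs with h
  · rw [← C.kk₁ h]
    exact (C.ok v w h).one.κ_mem z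
  · rw [LinearMap.zero_apply]
    exact Submodule.zero_mem _

theorem cst_mem (v w : H.V) : C.cst v w ∈ FSub n (H.kk v) := by
  unfold cst
  split_ifs with h
  · rw [← C.kk₁ h]
    exact H.Tc_mem _ _
  · exact Submodule.zero_mem _

/-- The subspaces. -/
noncomputable def sub (ε : ℝ) : Sub (C.sys ε) where
  FS v := FSub n (H.kk v)
  CS v w := (C.wd v w).C
  CS_symm v w h := by
    rw [C.wd_symm v w h]; rfl
  p_mem v w x hw hx hwx := by
    have h := (C.ok v w hw).one.p_mem _ (C.adj_t hw hx) (C.ne_t hw hwx.symm)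
    rw [C.kk₂ hw] at h
    exact h
  D_mem v a b _ _ := by
    change Df ε _ (C.p v) (C.κ v) (C.cst v) a b ∈ _
    unfold Df csum
    refine Submodule.sub_mem _ (Submodule.add_mem _ (Submodule.sub_mem _
      (Submodule.add_mem _ ?_ (C.κ_mem _ _ _)) (C.κ_mem _ _ _)) (C.cst_mem _ _)) (C.cst_mem _ _)
    apply finsum_induction (fun x => x ∈ FSub n (H.kk v)) (Submodule.zero_mem _)
      (fun _ _ h1 h2 => Submodule.add_mem _ h1 h2)
    intro U
    apply finsum_induction (fun x => x ∈ FSub n (H.kk v)) (Submodule.zero_mem _)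
      (fun _ _ h1 h2 => Submodule.add_mem _ h1 h2)
    intro _
    exact C.κ_mem _ _ _

theorem balls_fin {c Cc : ℝ} (hc : 0 < c)
    (hcu : ∀ v, Cusp c Cc (H.T.neighborSet v) (H.s v) (C.p v)) (R : ℝ) (v w : H.V)
    (hw : H.T.Adj v w) : {x | H.T.Adj v x ∧ w ≠ x ∧ H.s v w x ≤ R ∧ ‖C.p v w x‖ ≤ R}.Finite := by
  classical
  set R' := |R| + 1 with hR'
  have hRR' : R ≤ R' := by have := le_abs_self R; linarith
  have hR'pos : 0 < R' := by have := abs_nonneg R; linarith
  set δ := c * √(2 / (R' * R')) with hδ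
  have hδpos : 0 < δ := by positivity
  obtain ⟨N, hN⟩ := sep_card (V := H.V) (X := (Fin n → ℝ) × (Fin n → ℝ)) R' δ hδpos
  by_contra hinf
  obtain ⟨F, hF, hFc⟩ := (Set.not_finite.1 hinf : Set.Infinite _).exists_subset_card_eq (N + 1)
  have h1 := hN F (C.p v w) 0 1 one_pos (by
    intro x hx
    have := (hF hx).2.2.2
    rw [sub_zero, one_mul]
    linarith) (by
    intro x hx y hy hxy
    rw [one_mul]
    obtain ⟨x1, x2, x3, x4⟩ := hF hx
    obtain ⟨y1, y2, y3, y4⟩ := hF hy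
    refine le_trans ?_ ((hcu v).lower w hw x x1 y y1 x2 y2 hxy)
    apply mul_le_mul_of_nonneg_left _ hc.le
    apply Real.sqrt_le_sqrt
    have e1 := (hcu v).ge w hw x x1 x2
    have e2 := (hcu v).ge w hw y y1 y2
    have e3 := (hcu v).ge x x1 y y1 hxy
    have e4 : H.s v w x ≤ R' := by linarith
    have e5 : H.s v w y ≤ R' := by linarith
    gcongr)
  omega

/-- The action. -/
noncomputable def act (ε : ℝ) {c Cc : ℝ} (hc : 0 < c)
    (hcu : ∀ v, Cusp c Cc (H.T.neighborSet v) (H.s v) (C.p v)) : Act (C.sub ε) G where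
  θf := C.θf
  θc := C.θc
  adj := H.adj_smul
  θf_mul g h a b hab := by
    have hab' := H.adj_smul h _ _ hab
    have e1 := C.θ₁ g hab'
    have e2 := C.θ₂ g hab'
    rw [C.r₁_smul h a b hab] at e1
    rw [C.r₂_smul h a b hab] at e2
    unfold θf
    rw [C.θ_mul, C.wd_smul h a b hab]
    exact (C.ok a b hab).one.π_mul _ _ e1 e2 (C.θ₁ h hab) (C.θ₂ h hab)
  θc_mul g h a b hab := by
    have hab' := H.adj_smul h _ _ hab
    have e1 := C.θ₁ g hab'
    have e2 := C.θ₂ g hab'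
    rw [C.r₁_smul h a b hab] at e1
    rw [C.r₂_smul h a b hab] at e2
    unfold θc
    rw [C.θ_mul, C.wd_smul h a b hab]
    exact (C.ok a b hab).π₃_mul _ _ e1 e2 (C.θ₁ h hab) (C.θ₂ h hab)
  θc_symm g a b hab := (C.θc_rev g hab).symm
  FS_smul g a := by
    change FSub n (H.kk (g • a)) = FSub n (H.kk a)
    rw [H.kk_smul]
  CS_smul g a b hab := by
    change (C.wd (g • a) (g • b)).C = (C.wd a b).C
    rw [C.wd_smul g a b hab]
  θf_mem g a b hab := by
    change C.θf g a b ∈ FSub n (H.kk a)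
    rw [← C.kk₁ hab]
    exact (C.ok a b hab).one.π_mem _ (C.θ₁ g hab) (C.θ₂ g hab)
  θc_mem g a b hab := (C.ok a b hab).π₃_mem _ (C.θ₁ g hab) (C.θ₂ g hab)
  s_eq g v a b ha hb := H.s_smul g ha hb
  L_eq g v a b ha hb := C.L_act ε g ha hb
  p_eq g v w x hw hx hwx := C.p_act g hw hx hwx
  D_eq g v a b ha hb := C.D_act ε g ha hb
  proper R a b hab := by
    have hfin := (C.ok a b hab).proper R
    refine Set.Finite.of_injOn (f := fun g => (C.t a b)⁻¹ * g * C.t a b) ?_ ?_ hfin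
    · rintro g ⟨h1, h2, h3, h4, h5⟩
      have e : C.θ g a b = (C.t a b)⁻¹ * g * C.t a b := by
        unfold θ; rw [h1, h2]
      have k1 := C.θ₁ g hab
      have k2 := C.θ₂ g hab
      rw [C.θf_rev g hab] at h4
      unfold θf at h3
      unfold θc at h5
      rw [e] at h3 h4 h5 k1 k2
      exact ⟨k1, k2, h3, h4, h5⟩
    · intro g _ g' _ h
      have : (C.t a b)⁻¹ * g * C.t a b = (C.t a b)⁻¹ * g' * C.t a b := h
      exact mul_left_cancel (mul_right_cancel this)
  cobdd := by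
    obtain ⟨_, _, _, Rb, _, _, _, _, _, _, _, hRb⟩ := C.exists_consts
    refine ⟨Rb, ?_⟩
    intro a b hab x hx y hy z hz
    have hx' : x ∈ FSub n (H.kk (C.r₁ a b)) := by rw [C.kk₁ hab]; exact hx
    have hy' : y ∈ FSub n (H.kk (C.r₂ a b)) := by rw [C.kk₂ hab]; exact hy
    obtain ⟨g₀, h1, h2, h3, h4, h5⟩ := (C.ok a b hab).cobdd x hx' y hy' z hz
    have hR := hRb a b hab
    have e1 : (C.t a b * g₀ * (C.t a b)⁻¹) • a = a := by
      rw [mul_smul, C.t₁_inv hab, mul_smul, h1, C.t₁ a b hab]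
    have e2 : (C.t a b * g₀ * (C.t a b)⁻¹) • b = b := by
      rw [mul_smul, C.t₂_inv hab, mul_smul, h2, C.t₂ a b hab]
    have e : C.θ (C.t a b * g₀ * (C.t a b)⁻¹) a b = g₀ := by
      unfold θ; rw [e1, e2]; group
    refine ⟨_, e1, e2, ?_, ?_, ?_⟩
    · unfold θf
      rw [e]; exact h3.trans hR
    · rw [C.θf_rev _ hab, e]; exact h4.trans hR
    · unfold θc
      rw [e]; exact h5.trans hR
  orbits := by
    obtain ⟨F, hF⟩ := H.finite_edges
    refine ⟨F, ?_⟩
    intro a b hab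
    obtain ⟨g, e, he, rfl, rfl⟩ := hF a b hab
    exact ⟨g, e, he, (H.adj_iff g _ _).1 hab, rfl, rfl⟩
  balls R v w hw := C.balls_fin hc hcu R v w hw

end Choice

/-- The fundamental group of an irreducible higher dimensional graph manifold is
semihyperbolic. -/
theorem IrreducibleHDG.semihyperbolic (H : IrreducibleHDG.{u, v} n G) : Semihyperbolic G := by
  obtain ⟨C⟩ := exists_choice H
  obtain ⟨ε, hgood, c, Cc, hc, _, hcu⟩ := C.good
  obtain ⟨a, ha⟩ := H.exists_piece
  obtain ⟨b, hb⟩ := (H.data a ha).nonempty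
  exact (C.act ε hc hcu).semihyperbolic hgood H.tree (o := ⟨a, b, 0, 0, 0⟩)
    ⟨hb, Submodule.zero_mem _, Submodule.zero_mem _, Submodule.zero_mem _⟩

end Pool.Agent.H81.HDG
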