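import Mathlib
import Pool.Agent.H81.HDG.Defs

/-!
# Higher dimensional graph manifold groups

An HDG manifold `M` of dimension `n` is obtained from pieces `V = N' x T^k` by gluing boundary
components in pairs, where `N'` is a complete non-compact hyperbolic manifold of finite volume and
dimension `m = n - k ≥ 3` with toric cusps, minus open horospherical neighbourhoods of the cusps.

The universal cover of a piece is `(H^m minus disjoint open horoballs) x ℝ^k`, with fundamental
group `Λ x ℤ^k`, where `Λ` is the group of deck transformations of the hyperbolic manifold. The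
universal cover of `M` is a tree of copies of such spaces, glued along boundary components, and the
fundamental group of `M` acts on this tree (Bass-Serre theory). This action is recorded below.
-/

set_option autoImplicit false

namespace Pool.Agent.H81.HDG

/-- An isometry of hyperbolic `m`-space: a bijection of Minkowski space preserving the Lorentz form
and the upper sheet `{p | IsHyp p}` of the hyperboloid. -/
structure IsIsom {m : ℕ} (A : Equiv.Perm (Mink m)) : Prop where
  lor_map : ∀ x y, lor (A x) (A y) = lor x y
  hyp_map : ∀ p, IsHyp p → IsHyp (A p)

/-- A complete non-compact hyperbolic `m`-manifold of finite volume with toric cusps, together with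
disjoint open horospherical neighbourhoods of its cusps. It is the quotient of hyperbolic `m`-space
by the group `Λ`; the cusp neighbourhoods are the images of the open horoballs
`{p | -⟨p, u⟩ < 1}` for `u` in `U`. -/
structure ToricCusped (m : ℕ) where
  /-- the group of deck transformations -/
  Λ : Subgroup (Equiv.Perm (Mink m))
  isom : ∀ A ∈ Λ, IsIsom A
  free : ∀ A ∈ Λ, ∀ p, IsHyp p → A p = p → A = 1
  /-- discreteness: finitely many elements move the base point `(0, 1)` by at most a given distance
  (the hyperbolic cosine of the distance from `(0, 1)` to `p` is `p.2`) -/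
  discrete : ∀ R : ℝ, {A | A ∈ Λ ∧ (A (0, 1)).2 ≤ R}.Finite
  /-- the horoballs -/
  U : Set (Mink m)
  light : ∀ u ∈ U, IsLight u
  /-- there is a cusp -/
  nonempty : U.Nonempty
  map_mem : ∀ A ∈ Λ, ∀ u ∈ U, A u ∈ U
  /-- the open horoballs are disjoint (for future light-like vectors `u`, `u'` this means that
  `⟨u, u'⟩ ≤ -2`) -/
  disjoint : ∀ u ∈ U, ∀ u' ∈ U, u ≠ u' → lor u u' ≤ -2
  /-- the complement of the open horoballs has compact quotient -/
  cocompact : ∃ R : ℝ, ∀ p, IsHyp p → (∀ u ∈ U, 1 ≤ - lor p u) → ∃ A ∈ Λ, (A p).2 ≤ R
  /-- the cusps are toric: the stabilizer of a horoball acts on its horosphere by translations,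
  that is, trivially on the orthogonal complement of `u` modulo `u` -/
  toric : ∀ u ∈ U, ∀ A ∈ Λ, A u = u → ∀ x, lor x u = 0 → ∃ c : ℝ, A x = x + c • u

/-- The group `S` is the fundamental group of a piece `V = N' x T^k` of dimension `n`, and `N` is
the set of boundary components of the universal cover of `V`, with the action of `S`. -/
structure PieceGroup (n : ℕ) (S X : Type*) [Group S] [MulAction S X] (N : Set X) where
  /-- the dimension of the hyperbolic factor -/
  m : ℕ
  /-- the dimension of the fibre torus -/
  k : ℕ
  three_le : 3 ≤ m
  dim : m + k = n
  /-- the hyperbolic factor -/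
  M : ToricCusped m
  /-- the projection to the deck group of the hyperbolic factor -/
  ρ : S →* Equiv.Perm (Mink m)
  ρ_mem : ∀ g, ρ g ∈ M.Λ
  /-- the projection to the fundamental group `ℤ^k` of the fibre torus -/
  τ : S →* Multiplicative (Fin k → ℤ)
  /-- `S` is the product of the deck group of the hyperbolic factor and of `ℤ^k` -/
  prod : ∀ A ∈ M.Λ, ∀ z, ∃! g, ρ g = A ∧ τ g = z
  smul_mem : ∀ (g : S), ∀ w ∈ N, g • w ∈ N
  /-- the boundary components of the universal cover of the piece correspond to the horoballs -/
  u : X → Mink m
  bij : Set.BijOn u N M.U
  equiv : ∀ (g : S), ∀ w ∈ N, u (g • w) = ρ g (u w)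

/-- The fibre subgroup `ℤ^k` of the fundamental group of a piece. -/
def PieceGroup.fibre {n : ℕ} {S X : Type*} [Group S] [MulAction S X] {N : Set X}
    (P : PieceGroup n S X N) : Set S :=
  {g | P.ρ g = 1}

/-- `G` is the fundamental group of a higher dimensional graph manifold `M` of dimension `n`, acting
on the tree `T` dual to the decomposition of the universal cover of `M`.

The vertices of `T` are the lifts of the pieces (the vertices `v` with `piece v`) and the lifts of
the boundary components of `M` (leaves of the tree); the edges are the lifts of the boundary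
components of the pieces, those between two piece vertices being the lifts of the internal walls.
For a piece vertex `v` the stabilizer is the fundamental group of the piece, and the boundary
components of the universal cover of the piece are the edges at `v`, identified with the neighbours
of `v`. -/
structure HDGGroup.{u, v} (n : ℕ) (G : Type u) [Group G] where
  /-- the vertices of the tree -/
  V : Type v
  [act : MulAction G V]
  /-- the tree -/
  T : SimpleGraph V
  tree : T.IsTree
  adj_smul : ∀ (g : G) (v w : V), T.Adj v w → T.Adj (g • v) (g • w)
  /-- the group acts without inversions -/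
  no_inversion : ∀ (g : G) (v w : V), T.Adj v w → g • v = w → g • w ≠ v
  /-- there are finitely many orbits of edges -/
  finite_edges : ∃ F : Finset (V × V), ∀ v w, T.Adj v w →
    ∃ (g : G), ∃ e ∈ F, v = g • e.1 ∧ w = g • e.2
  /-- the vertices given by the pieces -/
  piece : V → Prop
  piece_smul : ∀ (g : G) (v : V), piece v → piece (g • v)
  exists_piece : ∃ v, piece v
  /-- the other vertices are leaves attached to pieces -/
  leaf : ∀ v, ¬ piece v → ∃ w, piece w ∧ ∀ x, T.Adj v x ↔ x = w
  /-- the stabilizer of a piece vertex is the fundamental group of a piece -/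
  data : ∀ v, piece v → PieceGroup n (MulAction.stabilizer G v) V (T.neighborSet v)

/-- Irreducibility: the fibre subgroups of adjacent pieces are transverse, that is, intersect
trivially. -/
def HDGGroup.Irreducible.{u, v} {n : ℕ} {G : Type u} [Group G] (M : HDGGroup.{u, v} n G) : Prop :=
  letI := M.act
  ∀ (v w : M.V) (hv : M.piece v) (hw : M.piece w), M.T.Adj v w →
    ∀ (g : G) (gv : g ∈ MulAction.stabilizer G v) (gw : g ∈ MulAction.stabilizer G w),
      ⟨g, gv⟩ ∈ (M.data v hv).fibre → ⟨g, gw⟩ ∈ (M.data w hw).fibre → g = 1

end Pool.Agent.H81.HDG
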