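import Mathlib
import Pool.Agent.H81.HDG.Model
import Pool.Agent.H81.HDG.HdgAct

/-!
# From the model to the internal structures
-/

set_option autoImplicit false

namespace Pool.Agent.H81.HDG

open Horo Chain

variable {m : ℕ}

theorem lor_nondeg {a : Mink m} (h : ∀ z, lor a z = 0) : a = 0 := by
  have h1 := h (a.1, -a.2)
  simp only [lor] at h1
  rw [real_inner_self_eq_norm_sq] at h1
  have h2 : ‖a.1‖ ^ 2 = 0 := by nlinarith [sq_nonneg ‖a.1‖, sq_nonneg a.2]
  have h3 : a.2 ^ 2 = 0 := by nlinarith [sq_nonneg ‖a.1‖, sq_nonneg a.2]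
  have h4 : a.1 = 0 := by
    have := pow_eq_zero_iff (two_ne_zero) |>.1 h2
    exact norm_eq_zero.1 this
  have h5 : a.2 = 0 := pow_eq_zero_iff (two_ne_zero) |>.1 h3
  exact Prod.ext h4 h5

/-- An isometry of hyperbolic space is linear. -/
noncomputable def IsIsom.lin {A : Equiv.Perm (Mink m)} (hA : IsIsom A) :
    Mink m ≃ₗ[ℝ] Mink m where
  toFun := A
  invFun := A.symm
  left_inv := A.left_inv
  right_inv := A.right_inv
  map_add' := by
    intro x y
    rw [← sub_eq_zero]
    apply lor_nondeg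
    intro z
    obtain ⟨z, rfl⟩ := A.surjective z
    rw [lor_sub_left, lor_symm (A x + A y), lor_add_right, lor_symm (A z) (A x),
      lor_symm (A z) (A y), hA.lor_map, hA.lor_map, hA.lor_map, lor_symm (x + y), lor_add_right,
      lor_symm z x, lor_symm z y]
    ring
  map_smul' := by
    intro c x
    rw [← sub_eq_zero]
    apply lor_nondeg
    intro z
    obtain ⟨z, rfl⟩ := A.surjective z
    rw [RingHom.id_apply, lor_sub_left, lor_symm (c • A x), lor_smul_right, lor_symm (A z) (A x),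
      hA.lor_map, hA.lor_map, lor_symm (c • x), lor_smul_right, lor_symm z x]
    ring

@[simp] theorem IsIsom.lin_apply {A : Equiv.Perm (Mink m)} (hA : IsIsom A) (x : Mink m) :
    hA.lin x = A x := rfl

variable {n : ℕ} {S X : Type*} [Group S] [MulAction S X] {N : Set X}

/-- The linear action of a piece group. -/
noncomputable def PieceGroup.lρ (P : PieceGroup n S X N) : S →* (Mink P.m ≃ₗ[ℝ] Mink P.m) where
  toFun g := (P.M.isom _ (P.ρ_mem g)).lin
  map_one' := by
    ext x <;> simp [IsIsom.lin_apply]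
  map_mul' := by
    intro g h
    apply LinearEquiv.ext
    intro x
    rw [LinearEquiv.mul_apply, IsIsom.lin_apply, IsIsom.lin_apply, IsIsom.lin_apply, map_mul,
      Equiv.Perm.mul_apply]

theorem PieceGroup.lρ_apply (P : PieceGroup n S X N) (g : S) (x : Mink P.m) :
    P.lρ g x = P.ρ g x := rfl

theorem PieceGroup.lρ_eq_iff (P : PieceGroup n S X N) (g h : S) :
    P.lρ g = P.lρ h ↔ P.ρ g = P.ρ h := by
  constructor
  · intro e
    apply Equiv.ext
    intro x
    rw [← P.lρ_apply, ← P.lρ_apply, e]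
  · intro e
    apply LinearEquiv.ext
    intro x
    rw [P.lρ_apply, P.lρ_apply, e]

theorem PieceGroup.lρ_eq_one (P : PieceGroup n S X N) (g : S) :
    P.lρ g = 1 ↔ P.ρ g = 1 := by
  rw [← map_one P.lρ, ← map_one P.ρ]
  exact P.lρ_eq_iff g 1

/-- The internal structure of a piece. -/
noncomputable def PieceGroup.cusped (P : PieceGroup n S X N) : CuspedPiece n S X N where
  m := P.m
  k := P.k
  three_le := P.three_le
  dim := P.dim
  ρ := P.lρ
  lor_ρ := fun g x y => (P.M.isom _ (P.ρ_mem g)).lor_map x y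
  hyp_ρ := fun g p hp => (P.M.isom _ (P.ρ_mem g)).hyp_map p hp
  τ := P.τ
  prod := by
    intro g z
    obtain ⟨h, ⟨h1, h2⟩, h3⟩ := P.prod (P.ρ g) (P.ρ_mem g) z
    refine ⟨h, ⟨(P.lρ_eq_iff _ _).2 h1, h2⟩, ?_⟩
    rintro k ⟨k1, k2⟩
    exact h3 k ⟨(P.lρ_eq_iff _ _).1 k1, k2⟩
  proper := by
    intro R
    have h1 := P.M.discrete R
    have h2 : ∀ A ∈ {A | A ∈ P.M.Λ ∧ (A (0, 1)).2 ≤ R}, ∃ B : Mink P.m ≃ₗ[ℝ] Mink P.m,
        ∀ g, P.ρ g = A → P.lρ g = B := by
      rintro A ⟨hA, _⟩
      obtain ⟨g, ⟨hg, _⟩, _⟩ := P.prod A hA 1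
      refine ⟨P.lρ g, fun g' hg' => (P.lρ_eq_iff _ _).2 (hg'.trans hg.symm)⟩
    choose! f hf using h2
    refine (h1.image f).subset ?_
    rintro B ⟨⟨g, rfl⟩, hB⟩
    refine ⟨P.ρ g, ⟨P.ρ_mem g, hB⟩, (hf _ ⟨P.ρ_mem g, hB⟩ g rfl).symm⟩
  free := by
    intro g p hp h
    rw [P.lρ_eq_one]
    exact P.M.free _ (P.ρ_mem g) p hp h
  u := P.u
  light := fun w hw => P.M.light _ (P.bij.mapsTo hw)
  smul_mem := P.smul_mem
  equiv := P.equiv
  disjoint := by
    intro w hw w' hw' hne
    exact P.M.disjoint _ (P.bij.mapsTo hw) _ (P.bij.mapsTo hw')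
      (fun e => hne (P.bij.injOn hw hw' e))
  nonempty := by
    obtain ⟨u, hu⟩ := P.M.nonempty
    obtain ⟨w, hw, _⟩ := P.bij.surjOn hu
    exact ⟨w, hw⟩
  cocompact := by
    obtain ⟨R, hR⟩ := P.M.cocompact
    refine ⟨R, ?_⟩
    intro p hp h
    obtain ⟨A, hA, hAR⟩ := hR p hp (by
      intro u hu
      obtain ⟨w, hw, rfl⟩ := P.bij.surjOn hu
      exact h w hw)
    obtain ⟨g, ⟨hg, _⟩, _⟩ := P.prod A hA 1
    refine ⟨g, ?_⟩
    rw [P.lρ_apply, hg]
    exact hAR
  toric := by
    intro w hw g hg x hx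
    refine P.M.toric _ (P.bij.mapsTo hw) _ (P.ρ_mem g) ?_ x hx
    rw [← P.equiv g w hw, hg]

/-- An element fixing two walls acts trivially on hyperbolic space. -/
theorem CuspedPiece.fix_two (P : CuspedPiece n S X N) {w w' : X} (hw : w ∈ N) (hw' : w' ∈ N)
    (hne : w' ≠ w) {g : S} (hg : g • w = w) (hg' : g • w' = w') : P.ρ g = 1 := by
  obtain ⟨W, α, q, hW, h1, h2, h3, h4, h5, h6⟩ := P.horo hw
  have e := h5 g hg w' hw' hne
  rw [hg'] at e
  exact (h2 g hg).1 (left_eq_add.1 e)

theorem CuspedPiece.exists_stab (P : CuspedPiece n S X N) {w : X} (hw : w ∈ N) :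
    ∃ g : S, g • w = w ∧ P.ρ g ≠ 1 := by
  obtain ⟨W, α, q, hW, h1, h2, h3, h4, h5, h6⟩ := P.horo hw
  obtain ⟨R, hR⟩ := h4
  have hpos : 0 < Module.finrank ℝ W := by
    have := P.three_le
    omega
  obtain ⟨x, hx⟩ : ∃ x : W, x ≠ 0 := Module.finrank_pos_iff_exists_ne_zero.1 hpos
  have hx' : 0 < ‖x‖ := norm_pos_iff.2 hx
  obtain ⟨g, hg, hgR⟩ := hR (((|R| + 1) / ‖x‖) • x)
  refine ⟨g, hg, fun h => ?_⟩
  have h0 := (h2 g hg).2 h
  have h7 : (0 : ℝ) ≤ (|R| + 1) / ‖x‖ := by positivity
  rw [h0, sub_zero, norm_smul, Real.norm_eq_abs, abs_of_nonneg h7, div_mul_cancel₀ _ hx'.ne']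
    at hgR
  linarith [le_abs_self R]

theorem CuspedPiece.two_walls (P : CuspedPiece n S X N) {w : X} (hw : w ∈ N) :
    ∃ w' ∈ N, w' ≠ w := by
  by_contra hcon
  push Not at hcon
  obtain ⟨R, hR⟩ := P.cover
  have hu := P.light w hw
  have hu2 := hu.2
  have hn := norm_fst_light hu
  set u := P.u w with hudef
  set s : ℝ := (|R| + 1) / u.2 with hs
  have hs0 : 0 < s := by positivity
  have hp : IsHyp ((-((s - 1 / s) / 2 / u.2) • u.1, (s + 1 / s) / 2) : Mink P.m) := by
    constructor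
    · simp only [lor]
      rw [real_inner_self_eq_norm_sq, norm_smul, hn, norm_neg, Real.norm_eq_abs, mul_pow, sq_abs]
      field_simp
      ring
    · change 0 < (s + 1 / s) / 2
      positivity
  obtain ⟨a, ha, h⟩ := hR _ hp
  rw [hcon a ha, ← hudef] at h
  simp only [lor] at h
  rw [inner_smul_left, real_inner_self_eq_norm_sq, hn] at h
  have e : -((starRingEnd ℝ) (-((s - 1 / s) / 2 / u.2)) * u.2 ^ 2 - (s + 1 / s) / 2 * u.2)
      = s * u.2 := by
    rw [conj_trivial]
    field_simp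
    ring
  rw [e, hs, div_mul_cancel₀ _ hu2.ne'] at h
  linarith [le_abs_self R]

/-- The fibre subgroup is the centre. -/
theorem CuspedPiece.mem_center_iff (P : CuspedPiece n S X N) (g : S) :
    g ∈ Subgroup.center S ↔ P.ρ g = 1 := by
  rw [Subgroup.mem_center_iff]
  constructor
  · intro hz
    have hfix : ∀ w ∈ N, g • w = w := by
      intro w hw
      by_contra hne
      obtain ⟨p, hp, hp1⟩ := P.exists_stab hw
      apply hp1
      refine P.fix_two hw (P.smul_mem g w hw) hne hp ?_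
      rw [← mul_smul, hz p, mul_smul, hp]
    obtain ⟨w, hw⟩ := P.nonempty
    obtain ⟨w', hw', hne⟩ := P.two_walls hw
    exact P.fix_two hw hw' hne (hfix w hw) (hfix w' hw')
  · intro hg h
    obtain ⟨k, _, hu⟩ := P.prod h (P.τ (h * g))
    have e1 := hu (h * g) ⟨by rw [map_mul, hg, mul_one], rfl⟩
    have e2 := hu (g * h) ⟨by rw [map_mul, hg, one_mul], by rw [map_mul, map_mul, mul_comm]⟩
    exact e1.trans e2.symm

/-- The internal structure of a graph manifold group. -/
noncomputable def HDGGroup.toInternal.{u, v} {n : ℕ} {G : Type u} [Group G]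
    (M : HDGGroup.{u, v} n G) (hM : M.Irreducible) : IrreducibleHDG.{u, v} n G :=
  letI := M.act
  { V := M.V
    act := M.act
    T := M.T
    tree := M.tree
    adj_smul := M.adj_smul
    no_inversion := M.no_inversion
    finite_edges := M.finite_edges
    piece := M.piece
    piece_smul := M.piece_smul
    exists_piece := M.exists_piece
    leaf := M.leaf
    data := fun v hv => (M.data v hv).cusped
    fib := fun v => (Subgroup.center (MulAction.stabilizer G v)).map
      (MulAction.stabilizer G v).subtype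
    fib_conj := by
      rintro g v _ ⟨h, hh, rfl⟩
      have hh' := Subgroup.mem_center_iff.1 hh
      have hst : ∀ k : G, k ∈ MulAction.stabilizer G (g • v) →
          g⁻¹ * k * g ∈ MulAction.stabilizer G v := by
        intro k hk
        rw [MulAction.mem_stabilizer_iff] at hk ⊢
        rw [mul_smul, mul_smul, hk, inv_smul_smul]
      have hst' : ∀ k : G, k ∈ MulAction.stabilizer G v →
          g * k * g⁻¹ ∈ MulAction.stabilizer G (g • v) := by
        intro k hk
        rw [MulAction.mem_stabilizer_iff] at hk ⊢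
        rw [mul_smul, mul_smul, inv_smul_smul, hk]
      refine ⟨⟨g * h.1 * g⁻¹, hst' _ h.2⟩, ?_, rfl⟩
      refine Subgroup.mem_center_iff.2 ?_
      rintro ⟨k, hk⟩
      apply Subtype.ext
      have e := congrArg Subtype.val (hh' ⟨g⁻¹ * k * g, hst k hk⟩)
      simp only [Subgroup.coe_mul] at e ⊢
      have : k * (g * h.1 * g⁻¹) = g * (g⁻¹ * k * g * h.1) * g⁻¹ := by group
      rw [this, e]
      group
    fib_eq := by
      intro v hv g
      constructor
      · rintro ⟨h, hh, rfl⟩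
        exact ⟨h.2, ((M.data v hv).cusped.mem_center_iff h).1 hh⟩
      · rintro ⟨hg, h1⟩
        exact ⟨⟨g, hg⟩, ((M.data v hv).cusped.mem_center_iff _).2 h1, rfl⟩
    transverse := by
      intro v w hvw hv hw
      rw [eq_bot_iff]
      rintro _ ⟨⟨a, ha, rfl⟩, ⟨b, hb, hab⟩⟩
      rw [Subgroup.mem_bot]
      have ha' := ((M.data v hv).cusped.mem_center_iff a).1 ha
      have hb' := ((M.data w hw).cusped.mem_center_iff b).1 hb
      have hab' : (b : G) = a := hab
      refine hM v w hv hw hvw a.1 a.2 (by rw [← hab']; exact b.2) ?_ ?_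
      · exact ((M.data v hv).lρ_eq_one a).1 ha'
      · have e : (⟨a.1, by rw [← hab']; exact b.2⟩ : MulAction.stabilizer G w) = b :=
          Subtype.ext hab'.symm
        rw [e]
        exact ((M.data w hw).lρ_eq_one b).1 hb' }

/-- The fundamental group of an irreducible higher dimensional graph manifold is
semihyperbolic. -/
theorem HDGGroup.semihyperbolic.{u, v} {n : ℕ} {G : Type u} [Group G] (M : HDGGroup.{u, v} n G)
    (hM : M.Irreducible) : Semihyperbolic G :=
  (M.toInternal hM).semihyperbolic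

end Pool.Agent.H81.HDG
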